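import Pool.Agent.H38.AS.GDef
import Pool.Agent.H63.BU.UGsr

/-!
# [H38 AS GFB] finitely many base homomorphisms, 30-60 lines. File Pool/Agent/H38/AS/GFb.lean

`G` nilpotent, `z` a primitive root of unity of order `#G` in `K`, `S0` contains the primes dividing `#G`. The set of the `β` with `IsB D L Dg β` is finite.

Proof. `ugsr` (`H63/BU/UGsr.lean`) for `H = G ⧸ WS Dg`, `n = #G`: nilpotent as a quotient (`nilpotent_quotient_of_nilpotent`/`Group.nilpotent_of_surjective`), `#H ∣ #G` (`Subgroup.card_quotient_dvd_card`): a constant `C` bounds the number of elements of every finite set of such `β` (all are trivial on inertia). An infinite set would contain a finite subset with `C + 1` elements (`Set.Infinite.exists_subset_card_eq`).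
-/

set_option autoImplicit false

open scoped NumberField
open IsDedekindDomain
open scoped Classical

noncomputable section

namespace H38.AS

open H63.MA H38.BB H38.BG

variable {K : Type} [Field K] [NumberField K] {Ω : Type} [Field Ω] [Algebra K Ω]
  [IsAlgClosure K Ω] {p m u w N : ℕ} {ζ : K} {G : Type} [Group G]

theorem gfb [Finite G] (D : RD0 K p ζ) (L : LDs D Ω) (hnil : Group.IsNilpotent G)
    (Dg : GT p m u w N G) (z : K) (hz : IsPrimitiveRoot z (Nat.card G))
    (hS : ∀ v : Pl K, ((Nat.card G : ℕ) : 𝓞 K) ∈ v.asIdeal → v ∈ D.S0) :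
    {β : Gal(Ω/K) →* G ⧸ WS Dg | IsB D L Dg β}.Finite := by
  haveI : Group.IsNilpotent G := hnil
  have hnilq : Group.IsNilpotent (G ⧸ WS Dg) := inferInstance
  obtain ⟨C, hC⟩ := H63.BU.ugsr D L (Nat.card G) Nat.card_pos z hz hS (G ⧸ WS Dg) hnilq
    (Subgroup.card_quotient_dvd_card _)
  by_contra hinf
  have hinf' : Set.Infinite {β : Gal(Ω/K) →* G ⧸ WS Dg | IsB D L Dg β} := hinf
  obtain ⟨t, ht1, ht2⟩ := hinf'.exists_subset_card_eq (C + 1)
  have h1 := hC t (fun φ hφ => (ht1 hφ).1) (fun φ hφ φ' hφ' v hv τ hτ => by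
    rw [(ht1 hφ).2 v hv τ hτ, (ht1 hφ').2 v hv τ hτ])
  omega

end H38.AS
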