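import Pool.Agent.H38.AS.EDef
import Pool.Agent.H38.BG.LXi
import Pool.Agent.H38.BG.LTw
import Pool.Agent.H63.MC.CHb

/-!
# AS-GDEF: definitions for the Galois part (complete)

P159 (helper38), proof: /team-store/h38_as_proof.md, parts 1 and 2. `Dg : GT p m u w N G` as in `H38/BG`.
* `WS Dg`: the central subgroup `W = {e a 0}`; `mkW : G → G ⧸ W`; `vqW x` the class of `e 0 x`; `piW` the map `G ⧸ W → (ZMod p)^m` induced by `π`.
* `Wg p w = Multiplicative (Fin w → ZMod p)`; `twc Dg χ φ σ = e (χ σ) 0 * φ σ` for `χ : Γ → Wg p w`; `kw x a σ = kk x σ • a`.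
* `eta D Dg f σ = (kk (xi k) σ)_k`, `xi k = ∏_i ∏_{v ∈ f i} pi v ^ (y i k)`.
* `IsB D L Dg β`: `β : Γ → G ⧸ W` is of finite type and unramified outside `S0`. `EpB D Dg ε β`: `ε j` are `S0`-units with `piW (β σ) = (kk (ε j) σ)_j`.
* `XB D L Dg β f`: the `φ : Γ → G` of finite type over `β * vqW (eta f)` with `φ (t v)` conjugate to `g i` for `v ∈ f i` and `φ (t v) = 1` for the other `v ∉ S0`.
* `Cmp D Q Dg β φ₁ f`: `β * vqW (eta f) = mkW ∘ φ₁` on the decomposition groups of the `P v`, `v ∈ S0`. `HQ D L Q Dg β φ₁ q`: there is a family `f₀` with classes `q`, `XB` nonempty and `Cmp`.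
* `xq D ρ`: a product of the `pi v` of class `ρ`. `psi D Dg q = ∏_{i, y i = 0} kw (xq (q i)) (a i)`, `psf D Dg f = ∏_{i, y i = 0} ∏_{v ∈ f i} kw (pi v) (a i)`.
* `hat Dg f`: `f i` replaced by `∅` if `y i = 0`. `Phi D L Q Dg β φ₁ f q`: the number of `φ ∈ XB β (hat f)` with `twc (psi q) φ = φ₁` at `S0`.
-/

set_option autoImplicit false

open scoped NumberField
open IsDedekindDomain
open scoped Classical

noncomputable section

namespace H38.AS

open H63.MA H38.BB H38.BG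

section grp

variable {p m u w N : ℕ} {G : Type} [Group G]

/-- the central subgroup of the elements `e a 0` -/
def WS (Dg : GT p m u w N G) : Subgroup G where
  carrier := {g | ∃ a, Dg.e a 0 = g}
  mul_mem' := by
    rintro _ _ ⟨a, rfl⟩ ⟨b, rfl⟩
    exact ⟨a + b, (gt_mul0 Dg a b 0).symm⟩
  one_mem' := ⟨0, gt_e0 Dg⟩
  inv_mem' := by
    rintro _ ⟨a, rfl⟩
    refine ⟨-a, ?_⟩
    rw [eq_comm, inv_eq_iff_mul_eq_one, gt_mul0, add_neg_cancel, gt_e0]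

instance WS_normal (Dg : GT p m u w N G) : (WS Dg).Normal := ⟨by
  rintro _ ⟨a, rfl⟩ g
  exact ⟨a, by rw [← gt_cen Dg a g, mul_inv_cancel_right]⟩⟩

/-- the projection to `G ⧸ W` -/
def mkW (Dg : GT p m u w N G) : G →* G ⧸ WS Dg := QuotientGroup.mk' (WS Dg)

theorem mkW_sur (Dg : GT p m u w N G) : Function.Surjective (mkW Dg) :=
  QuotientGroup.mk'_surjective (WS Dg)

theorem mkW_one (Dg : GT p m u w N G) (g : G) : mkW Dg g = 1 ↔ ∃ a, Dg.e a 0 = g :=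
  (QuotientGroup.eq_one_iff g).trans Iff.rfl

theorem mkW_eq (Dg : GT p m u w N G) (g g' : G) :
    mkW Dg g = mkW Dg g' ↔ ∃ a, g = Dg.e a 0 * g' := by
  have h : mkW Dg g = mkW Dg g' ↔ mkW Dg (g * g'⁻¹) = 1 := by
    rw [map_mul, map_inv, mul_inv_eq_one]
  rw [h, mkW_one]
  constructor
  · rintro ⟨a, ha⟩
    exact ⟨a, by rw [ha, inv_mul_cancel_right]⟩
  · rintro ⟨a, ha⟩
    exact ⟨a, by rw [ha, mul_inv_cancel_right]⟩

/-- the class of `e 0 x` -/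
def vqW (Dg : GT p m u w N G) (x : Fin u → ZMod p) : G ⧸ WS Dg := mkW Dg (Dg.e 0 x)

theorem mkW_e (Dg : GT p m u w N G) (a : Fin w → ZMod p) (x : Fin u → ZMod p) :
    mkW Dg (Dg.e a x) = vqW Dg x := by
  rw [vqW, mkW_eq]
  exact ⟨a, by rw [gt_mul0, add_zero]⟩

theorem vqW_zero (Dg : GT p m u w N G) : vqW Dg 0 = 1 := by
  rw [vqW, gt_e0, map_one]

theorem vqW_add (Dg : GT p m u w N G) (x x' : Fin u → ZMod p) :
    vqW Dg (x + x') = vqW Dg x * vqW Dg x' := by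
  rw [vqW, vqW, vqW, ← map_mul, Dg.mul, mkW_e, mkW_e]

theorem vqW_cen (Dg : GT p m u w N G) (x : Fin u → ZMod p) (g : G ⧸ WS Dg) :
    vqW Dg x * g = g * vqW Dg x := by
  obtain ⟨h, rfl⟩ := mkW_sur Dg g
  have h1 : mkW Dg (h * Dg.e 0 x * h⁻¹) = vqW Dg x := by rw [Dg.conj, mkW_e]
  rw [map_mul, map_mul, map_inv, mul_inv_eq_iff_eq_mul] at h1
  exact h1.symm

theorem vqW_inj (Dg : GT p m u w N G) (x x' : Fin u → ZMod p) (h : vqW Dg x = vqW Dg x') :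
    x = x' := by
  obtain ⟨a, ha⟩ := (mkW_eq Dg _ _).1 h
  rw [gt_mul0] at ha
  exact (Dg.inj _ _ _ _ ha).2

/-- the map induced by `π` -/
def piW (Dg : GT p m u w N G) : G ⧸ WS Dg →* Multiplicative (Fin m → ZMod p) :=
  QuotientGroup.lift (WS Dg) Dg.π (by
    rintro _ ⟨a, rfl⟩
    have h : mv Dg.ι (0 : Fin u → ZMod p) = 0 := by
      funext j
      simp [mv]
    rw [MonoidHom.mem_ker, Dg.pie, h]
    rfl)

theorem piW_mk (Dg : GT p m u w N G) (g : G) : piW Dg (mkW Dg g) = Dg.π g := rfl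

theorem piW_vq (Dg : GT p m u w N G) (x : Fin u → ZMod p) :
    piW Dg (vqW Dg x) = Multiplicative.ofAdd (mv Dg.ι x) := by
  rw [vqW, piW_mk, Dg.pie]

/-- the group of values of the central characters -/
abbrev Wg (p w : ℕ) : Type := Multiplicative (Fin w → ZMod p)

theorem wg_pow [NeZero p] (x : Wg p w) : x ^ p = 1 := by
  apply Multiplicative.toAdd.injective
  rw [toAdd_pow, toAdd_one]
  funext c
  simp

/-- the central classes are replaced by `∅` -/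
def hat {K : Type} [Field K] [NumberField K] (Dg : GT p m u w N G) (f : Fin N → Finset (Pl K)) :
    Fin N → Finset (Pl K) := fun i => if Dg.y i = 0 then ∅ else f i

end grp

section gal

variable {K : Type} [Field K] [NumberField K] {Ω : Type} [Field Ω] [Algebra K Ω]
  {p m u w N : ℕ} {ζ : K} {G : Type} [Group G]

/-- the twist by a central character -/
def twc (Dg : GT p m u w N G) (χ : Gal(Ω/K) →* Wg p w) (φ : Gal(Ω/K) →* G) :
    Gal(Ω/K) →* G where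
  toFun σ := Dg.e (Multiplicative.toAdd (χ σ)) 0 * φ σ
  map_one' := by rw [χ.map_one, φ.map_one, toAdd_one, gt_e0, one_mul]
  map_mul' σ τ := by
    rw [χ.map_mul, φ.map_mul, toAdd_mul, ← gt_mul0 Dg]
    calc Dg.e (Multiplicative.toAdd (χ σ)) 0 * Dg.e (Multiplicative.toAdd (χ τ)) 0 *
        (φ σ * φ τ) = Dg.e (Multiplicative.toAdd (χ σ)) 0 *
          (Dg.e (Multiplicative.toAdd (χ τ)) 0 * φ σ) * φ τ := by group
      _ = Dg.e (Multiplicative.toAdd (χ σ)) 0 *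
          (φ σ * Dg.e (Multiplicative.toAdd (χ τ)) 0) * φ τ := by
        rw [gt_cen Dg (Multiplicative.toAdd (χ τ)) (φ σ)]
      _ = _ := by group

theorem twc_apply (Dg : GT p m u w N G) (χ : Gal(Ω/K) →* Wg p w) (φ : Gal(Ω/K) →* G)
    (σ : Gal(Ω/K)) : twc Dg χ φ σ = Dg.e (Multiplicative.toAdd (χ σ)) 0 * φ σ := rfl

theorem twc_mk (Dg : GT p m u w N G) (χ : Gal(Ω/K) →* Wg p w) (φ : Gal(Ω/K) →* G)
    (σ : Gal(Ω/K)) : mkW Dg (twc Dg χ φ σ) = mkW Dg (φ σ) := by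
  rw [twc_apply, mkW_eq]
  exact ⟨_, rfl⟩

theorem twc_one (Dg : GT p m u w N G) (φ : Gal(Ω/K) →* G) : twc Dg 1 φ = φ := by
  ext σ
  rw [twc_apply, MonoidHom.one_apply, toAdd_one, gt_e0, one_mul]

theorem twc_mul (Dg : GT p m u w N G) (χ χ' : Gal(Ω/K) →* Wg p w) (φ : Gal(Ω/K) →* G) :
    twc Dg (χ * χ') φ = twc Dg χ (twc Dg χ' φ) := by
  ext σ
  rw [twc_apply, twc_apply, twc_apply, MonoidHom.mul_apply, toAdd_mul, ← gt_mul0, mul_assoc]

theorem twc_inj (Dg : GT p m u w N G) (χ χ' : Gal(Ω/K) →* Wg p w) (φ : Gal(Ω/K) →* G)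
    (σ : Gal(Ω/K)) (h : twc Dg χ φ σ = twc Dg χ' φ σ) : χ σ = χ' σ := by
  rw [twc_apply, twc_apply, mul_left_inj] at h
  exact Multiplicative.toAdd.injective (Dg.inj _ _ _ _ h).1

/-- the character `kk x σ • a` -/
def kw (p : ℕ) (ζ : K) (x : Kˣ) (a : Fin w → ZMod p) : Gal(Ω/K) →* Wg p w where
  toFun σ := Multiplicative.ofAdd (kk p ζ x σ • a)
  map_one' := by
    have h : kk p ζ x (1 : Gal(Ω/K)) = 0 := by
      unfold kk
      rw [map_one, toAdd_one]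
    rw [h, zero_smul, ofAdd_zero]
  map_mul' σ τ := by
    have h : kk p ζ x (σ * τ) = kk p ζ x σ + kk p ζ x τ := by
      unfold kk
      rw [map_mul, toAdd_mul]
    rw [h, add_smul, ofAdd_add]

theorem kw_apply (x : Kˣ) (a : Fin w → ZMod p) (σ : Gal(Ω/K)) :
    kw (Ω := Ω) p ζ x a σ = Multiplicative.ofAdd (kk p ζ x σ • a) := rfl

/-- the Kummer values of the elements `xi` -/
def eta (D : RD0 K p ζ) (Dg : GT p m u w N G) (f : Fin N → Finset (Pl K)) (σ : Gal(Ω/K)) :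
    Fin u → ZMod p := fun k => kk p ζ (xi D Dg.y f k) σ

/-- base homomorphisms -/
def IsB (D : RD0 K p ζ) (L : LDs D Ω) (Dg : GT p m u w N G) (β : Gal(Ω/K) →* G ⧸ WS Dg) : Prop :=
  H38.ML.FT β ∧ ∀ v, v ∉ D.S0 → ∀ τ ∈ inr L v, β τ = 1

/-- Kummer data of a base homomorphism -/
def EpB (D : RD0 K p ζ) (Dg : GT p m u w N G) (ε : Fin m → Kˣ) (β : Gal(Ω/K) →* G ⧸ WS Dg) :
    Prop :=
  (∀ j, TUnit D.S0 (ε j)) ∧
    ∀ σ j, Multiplicative.toAdd (piW Dg (β σ)) j = kk p ζ (ε j) σ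

/-- the homomorphisms over `β` with ramification `f` -/
def XB (D : RD0 K p ζ) (L : LDs D Ω) (Dg : GT p m u w N G) (β : Gal(Ω/K) →* G ⧸ WS Dg)
    (f : Fin N → Finset (Pl K)) : Set (Gal(Ω/K) →* G) :=
  {φ | H38.ML.FT φ ∧ (∀ σ, mkW Dg (φ σ) = β σ * vqW Dg (eta D Dg f σ)) ∧
    (∀ i, ∀ v ∈ f i, IsConj (φ (L.t v)) (Dg.g i)) ∧
    ∀ v, v ∉ D.S0 → (∀ i, v ∉ f i) → φ (L.t v) = 1}

/-- `β` and `f` are compatible with the type of `φ₁` at `S0` modulo `W` -/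
def Cmp (D : RD0 K p ζ) (Q : DP K Ω) (Dg : GT p m u w N G) (β : Gal(Ω/K) →* G ⧸ WS Dg)
    (φ₁ : Gal(Ω/K) →* G) (f : Fin N → Finset (Pl K)) : Prop :=
  ∀ v ∈ D.S0, ∀ σ ∈ dec (K := K) (Q.P v), β σ * vqW Dg (eta D Dg f σ) = mkW Dg (φ₁ σ)

/-- the classes for which there are homomorphisms -/
def HQ (D : RD0 K p ζ) (L : LDs D Ω) (Q : DP K Ω) (Dg : GT p m u w N G)
    (β : Gal(Ω/K) →* G ⧸ WS Dg) (φ₁ : Gal(Ω/K) →* G) (q : Fin N → Fin D.r → ZMod p) : Prop :=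
  ∃ f₀ : Fin N → Finset (Pl K), Ok D f₀ ∧ (∀ i, qf D (f₀ i) = q i) ∧
    (XB D L Dg β f₀).Nonempty ∧ Cmp D Q Dg β φ₁ f₀

/-- an element of given class -/
def xq (D : RD0 K p ζ) (ρ : Fin D.r → ZMod p) : Kˣ :=
  if h : ∃ n : Pl K →₀ ℤ, (∀ v ∈ D.S0, n v = 0) ∧
      (n.sum fun v k => (k : ZMod p) • D.q v) = ρ then
    h.choose.prod fun v k => D.pi v ^ k
  else 1

/-- the central character of given classes -/
def psi (D : RD0 K p ζ) (Dg : GT p m u w N G) (q : Fin N → Fin D.r → ZMod p) :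
    Gal(Ω/K) →* Wg p w :=
  ∏ i ∈ Finset.univ.filter (fun i => Dg.y i = 0), kw p ζ (xq D (q i)) (Dg.a i)

/-- the central character of a family -/
def psf (D : RD0 K p ζ) (Dg : GT p m u w N G) (f : Fin N → Finset (Pl K)) :
    Gal(Ω/K) →* Wg p w :=
  ∏ i ∈ Finset.univ.filter (fun i => Dg.y i = 0), ∏ v ∈ f i, kw p ζ (D.pi v) (Dg.a i)

/-- the number of homomorphisms of given type after a twist of class `q` -/
def Phi (D : RD0 K p ζ) (L : LDs D Ω) (Q : DP K Ω) (Dg : GT p m u w N G)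
    (β : Gal(Ω/K) →* G ⧸ WS Dg) (φ₁ : Gal(Ω/K) →* G) (f : Fin N → Finset (Pl K))
    (q : Fin N → Fin D.r → ZMod p) : ℕ :=
  {φ ∈ XB D L Dg β (hat Dg f) | Teq D.S0 Q (twc Dg (psi D Dg q) φ) φ₁}.ncard

end gal

end H38.AS
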