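import Pool.Agent.H63.MC.CLkC
import Pool.Agent.H38.AS.GDef

/-!
# [H38 AS GTP] families with the same classes, 60-100 lines. File Pool/Agent/H38/AS/GTp.lean

`f, f₀` families of primes outside `S0` with `qf (f i) = qf (f₀ i)` for all `i`.
* `gtp_ps`: `xi f k * (xi f₀ k)⁻¹` is `PS`. Proof: it is `∏ pi v ^ n v` with `n = ∑_i (y i k).val • (1_{f i} - 1_{f₀ i})` (a `Pl K →₀ ℤ`, zero on `S0`), and `∑ n v • q v = ∑_i (y i k) • (qf (f i) - qf (f₀ i)) = 0` (`qf D n = ∑ v ∈ n, q v`), so `D.prim_of` applies. (As `xi_ps` in `H38/BG/LXi.lean`, `lowa_ps_i` in `H63/MA/GLowA.lean`. It may be easier to show this for one class `i` at a time: `∏_{v ∈ f i} pi v ^ t * (∏_{v ∈ f₀ i} pi v ^ t)⁻¹`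
  is `PS`, with `n = t • (1_{f i} - 1_{f₀ i})`, and to use that `PS` is multiplicative: `lowa_ps_mul`, `lowa_ps_one`.)
* `gtp`: so `eta f σ = eta f₀ σ` for `σ` in the decomposition group of `P v`, `v ∈ S0` (`ps_triv`; `kk (x * y⁻¹) = kk x - kk y`).
-/

set_option autoImplicit false

open scoped NumberField
open IsDedekindDomain
open scoped Classical

noncomputable section

namespace H38.AS

open H63.MA H38.BB H38.BG

variable {K : Type} [Field K] [NumberField K] {Ω : Type} [Field Ω] [Algebra K Ω]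
  [IsAlgClosure K Ω] {p m u w N : ℕ} {ζ : K} {G : Type} [Group G]

private theorem gtp_one (D : RD0 K p ζ) (n n₀ : Finset (Pl K)) (hn : ∀ v ∈ n, v ∉ D.S0)
    (hn₀ : ∀ v ∈ n₀, v ∉ D.S0) (hq : qf D n = qf D n₀) (e : ℕ) :
    PS p ζ D.S0 ((∏ w ∈ n, D.pi w ^ e) * (∏ w ∈ n₀, D.pi w ^ e)⁻¹) := by
  have hs : ∀ (s : Finset (Pl K)) (c : ℤ),
      ((Finsupp.indicator s fun _ _ => c).sum fun v k => (k : ZMod p) • D.q v) =
        (c : ZMod p) • qf D s := by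
    intro s c
    rw [Finsupp.sum_of_support_subset _ (Finsupp.support_indicator_subset _ _) _ (by
      intro v _
      rw [Int.cast_zero, zero_smul])]
    have h1 : ∀ v ∈ s, ((Finsupp.indicator s (fun _ _ => c) v : ℤ) : ZMod p) • D.q v =
        (c : ZMod p) • D.q v := by
      intro v hv
      rw [Finsupp.indicator_of_mem hv]
    rw [Finset.sum_congr rfl h1, ← Finset.smul_sum]
    rfl
  have hr : ∀ (s : Finset (Pl K)) (c : ℤ),
      ((Finsupp.indicator s fun _ _ => c).prod fun v k => D.pi v ^ k) =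
        ∏ w ∈ s, D.pi w ^ c := by
    intro s c
    rw [Finsupp.prod_of_support_subset _ (Finsupp.support_indicator_subset _ _) _ (by
      intro v _
      rw [zpow_zero])]
    refine Finset.prod_congr rfl fun v hv => ?_
    rw [Finsupp.indicator_of_mem hv]
  have h := D.prim_of ((Finsupp.indicator n fun _ _ => (e : ℤ)) +
      (Finsupp.indicator n₀ fun _ _ => -(e : ℤ))) (by
    intro v hv
    rw [Finsupp.add_apply, Finsupp.indicator_of_notMem (fun h1 => hn v h1 hv),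
      Finsupp.indicator_of_notMem (fun h1 => hn₀ v h1 hv), add_zero]) (by
    rw [Finsupp.sum_add_index' (fun v => by rw [Int.cast_zero, zero_smul])
      (fun v a b => by rw [Int.cast_add, add_smul]), hs, hs, hq, Int.cast_neg, neg_smul,
      add_neg_cancel])
  rw [Finsupp.prod_add_index' (fun v => zpow_zero _) (fun v a b => zpow_add _ _ _), hr, hr] at h
  have h1 : ∏ w ∈ n, D.pi w ^ (e : ℤ) = ∏ w ∈ n, D.pi w ^ e :=
    Finset.prod_congr rfl fun w _ => zpow_natCast _ _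
  have h2 : ∏ w ∈ n₀, D.pi w ^ (-(e : ℤ)) = (∏ w ∈ n₀, D.pi w ^ e)⁻¹ := by
    rw [← Finset.prod_inv_distrib]
    refine Finset.prod_congr rfl fun w _ => ?_
    rw [zpow_neg, zpow_natCast]
  rw [h1, h2] at h
  exact h

theorem gtp_ps (hp : p.Prime) (hp2 : MOne p K) (hζ : IsPrimitiveRoot ζ p) (D : RD0 K p ζ)
    (y : Fin N → Fin u → ZMod p) (f f₀ : Fin N → Finset (Pl K))
    (hf : ∀ i, ∀ v ∈ f i, v ∉ D.S0) (hf₀ : ∀ i, ∀ v ∈ f₀ i, v ∉ D.S0)
    (hq : ∀ i, qf D (f i) = qf D (f₀ i)) (k : Fin u) :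
    PS p ζ D.S0 (xi D y f k * (xi D y f₀ k)⁻¹) := by
  have key : ∀ i, PS p ζ D.S0 ((∏ v ∈ f i, D.pi v ^ (y i k).val) *
      (∏ v ∈ f₀ i, D.pi v ^ (y i k).val)⁻¹) := fun i =>
    gtp_one D (f i) (f₀ i) (hf i) (hf₀ i) (hq i) _
  have h1 : xi D y f k * (xi D y f₀ k)⁻¹ = ∏ i, ((∏ v ∈ f i, D.pi v ^ (y i k).val) *
      (∏ v ∈ f₀ i, D.pi v ^ (y i k).val)⁻¹) := by
    unfold xi
    rw [Finset.prod_mul_distrib, Finset.prod_inv_distrib]
  rw [h1]
  exact Finset.prod_induction _ (fun x => PS p ζ D.S0 x)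
    (fun a b ha hb => lowa_ps_mul hp hp2 hζ ha hb) (lowa_ps_one D) (fun i _ => key i)

theorem gtp (hp : p.Prime) (hp2 : MOne p K) (hζ : IsPrimitiveRoot ζ p) (D : RD0 K p ζ)
    (Q : DP K Ω) (Dg : GT p m u w N G) (f f₀ : Fin N → Finset (Pl K))
    (hf : ∀ i, ∀ v ∈ f i, v ∉ D.S0) (hf₀ : ∀ i, ∀ v ∈ f₀ i, v ∉ D.S0)
    (hq : ∀ i, qf D (f i) = qf D (f₀ i)) (v : Pl K) (hv : v ∈ D.S0) (σ : Gal(Ω/K))
    (hσ : σ ∈ dec (K := K) (Q.P v)) : eta D Dg f σ = eta D Dg f₀ σ := by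
  funext k
  show kk p ζ (xi D Dg.y f k) σ = kk p ζ (xi D Dg.y f₀ k) σ
  have h1 := ps_triv hp hp2 hζ D Q _ (gtp_ps hp hp2 hζ D Dg.y f f₀ hf hf₀ hq k) v hv σ hσ
  have h2 := kk_zpow_arg hp hζ (xi D Dg.y f₀ k) (-1) σ
  rw [zpow_neg_one, Int.cast_neg, Int.cast_one, neg_one_mul] at h2
  rw [kk_mul_arg hp hζ, h2, ← sub_eq_add_neg] at h1
  exact sub_eq_zero.1 h1

end H38.AS
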