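import Pool.Agent.H38.AS.GDef

/-!
# [H38 AS GTW] twists by central characters, 90-140 lines. File Pool/Agent/H38/AS/GTw.lean

Notation: `GDef`. `FT φ` (`H38.ML.FT`): the kernel contains the fixing subgroup of a finite extension.
* `kw_ft`: `kw p ζ x a` is of finite type (it is trivial where `kk x` is: `(kc_is hp hζ x).1` in `H63/MA/GKum.lean`).
* `twc_ft`: `twc Dg χ φ` is of finite type (the compositum `E ⊔ E'` of the two finite extensions; `gt_e0`).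
* `twc_ex`: if `φ, φ'` of finite type agree modulo `W` then `φ = twc Dg χ φ'` with `χ` of finite type. Proof: for every `σ` there is a unique `l σ` with `φ σ = e (l σ) 0 * φ' σ` (`mkW_eq`, `Dg.inj`); `l` is additive because `e a 0` is central (`gt_cen`, `gt_mul0`): `χ σ = ofAdd (l σ)`; `χ` is trivial where `φ` and `φ'` are (`Dg.inj`, `gt_e0`).
* `twc_loc`: if `φ, φ₁` of finite type agree modulo `W` on the decomposition groups of the `P v`, `v ∈ S0`, then there is `δ : Γ → Wg p w` of finite type with `Teq S0 Q (twc Dg δ φ) φ₁`. Proof: on `U = dec (Q.P v)` define `δ v u` by `φ₁ u = e (δ v u) 0 * φ u`; it is a homomorphism of finite level as in `twc_ex` (compare `cxa_delta` in `H63/MC/CXa.lean`), and `hw_lock` (`H63/MC/CHa.lean`) gives a global `δ` with these restrictions.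
* `xb_twc`: `XB β f` is stable under `twc χ`, `χ` of finite type with `χ (t v) = 1` for `v ∉ S0` (`twc_mk`, `gt_e0`).
* `teq_twc`: `Teq S0 Q (twc Dg χ φ) (twc Dg χ' φ)` iff `Teq S0 Q χ χ'` (`twc_inj`, `twc_apply`).
-/

set_option autoImplicit false

open scoped NumberField
open IsDedekindDomain
open scoped Classical

noncomputable section

namespace H38.AS

open H63.MA H38.BB H38.BG

variable {K : Type} [Field K] [NumberField K] {Ω : Type} [Field Ω] [Algebra K Ω]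
  [IsAlgClosure K Ω] {p m u w N : ℕ} {ζ : K} {G : Type} [Group G]

theorem kw_ft (hp : p.Prime) (hζ : IsPrimitiveRoot ζ p) (x : Kˣ) (a : Fin w → ZMod p) :
    H38.ML.FT (kw (Ω := Ω) p ζ x a) := by
  obtain ⟨E, hE, hle⟩ := (kc_is (Ω := Ω) hp hζ x).1
  refine ⟨E, hE, fun σ hσ => ?_⟩
  have h1 := MonoidHom.mem_ker.1 (hle hσ)
  rw [MonoidHom.mem_ker, kw_apply]
  have h2 : kk p ζ x σ = 0 := by
    unfold kk
    rw [h1, toAdd_one]
  rw [h2, zero_smul, ofAdd_zero]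

theorem twc_ft (Dg : GT p m u w N G) (χ : Gal(Ω/K) →* Wg p w) (φ : Gal(Ω/K) →* G)
    (hχ : H38.ML.FT χ) (hφ : H38.ML.FT φ) : H38.ML.FT (twc Dg χ φ) := by
  obtain ⟨E, hE, hle⟩ := hχ
  obtain ⟨E', hE', hle'⟩ := hφ
  refine ⟨E ⊔ E', inferInstance, fun σ hσ => ?_⟩
  have h1 : σ ∈ E.fixingSubgroup := IntermediateField.fixingSubgroup_antitone le_sup_left hσ
  have h2 : σ ∈ E'.fixingSubgroup := IntermediateField.fixingSubgroup_antitone le_sup_right hσ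
  have h3 := MonoidHom.mem_ker.1 (hle h1)
  have h4 := MonoidHom.mem_ker.1 (hle' h2)
  rw [MonoidHom.mem_ker, twc_apply, h3, h4, toAdd_one, gt_e0, mul_one]

theorem gtw_delta (Dg : GT p m u w N G) (φ φ' : Gal(Ω/K) →* G) (hφ : H38.ML.FT φ)
    (hφ' : H38.ML.FT φ') (U : Subgroup Gal(Ω/K))
    (h : ∀ σ ∈ U, mkW Dg (φ σ) = mkW Dg (φ' σ)) :
    ∃ δ : U →* Wg p w,
      (∀ x : U, φ (x : Gal(Ω/K)) = Dg.e (Multiplicative.toAdd (δ x)) 0 * φ' (x : Gal(Ω/K))) ∧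
      ∃ E : IntermediateField K Ω, FiniteDimensional K E ∧
        ∀ x : U, (x : Gal(Ω/K)) ∈ E.fixingSubgroup → δ x = 1 := by
  have h1 : ∀ x : U, ∃ a : Fin w → ZMod p,
      φ (x : Gal(Ω/K)) = Dg.e a 0 * φ' (x : Gal(Ω/K)) :=
    fun x => (mkW_eq Dg _ _).1 (h x x.2)
  choose l hl using h1
  have hinj : ∀ (a b : Fin w → ZMod p) (g : G), Dg.e a 0 * g = Dg.e b 0 * g → a = b :=
    fun a b g hab => (Dg.inj _ _ _ _ (mul_right_cancel hab)).1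
  refine ⟨MonoidHom.mk' (fun x => Multiplicative.ofAdd (l x)) ?_, fun x => hl x, ?_⟩
  · intro x y
    rw [← ofAdd_add]
    congr 1
    apply hinj _ _ (φ' ((x * y : U) : Gal(Ω/K)))
    rw [← hl, ← gt_mul0, Subgroup.coe_mul, map_mul, map_mul, hl x, hl y]
    calc Dg.e (l x) 0 * φ' (x : Gal(Ω/K)) * (Dg.e (l y) 0 * φ' (y : Gal(Ω/K))) =
        Dg.e (l x) 0 * (φ' (x : Gal(Ω/K)) * Dg.e (l y) 0) * φ' (y : Gal(Ω/K)) := by group
      _ = Dg.e (l x) 0 * (Dg.e (l y) 0 * φ' (x : Gal(Ω/K))) * φ' (y : Gal(Ω/K)) := by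
        rw [gt_cen Dg (l y) (φ' (x : Gal(Ω/K)))]
      _ = _ := by group
  · obtain ⟨E, hE, hle⟩ := hφ
    obtain ⟨E', hE', hle'⟩ := hφ'
    refine ⟨E ⊔ E', inferInstance, fun x hx => ?_⟩
    have h1 : (x : Gal(Ω/K)) ∈ E.fixingSubgroup :=
      IntermediateField.fixingSubgroup_antitone le_sup_left hx
    have h2 : (x : Gal(Ω/K)) ∈ E'.fixingSubgroup :=
      IntermediateField.fixingSubgroup_antitone le_sup_right hx
    have h3 := MonoidHom.mem_ker.1 (hle h1)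
    have h4 := MonoidHom.mem_ker.1 (hle' h2)
    have h5 := hl x
    rw [h3, h4, mul_one, ← gt_e0 Dg] at h5
    have h6 := (Dg.inj _ _ _ _ h5).1
    change Multiplicative.ofAdd (l x) = 1
    rw [← h6, ofAdd_zero]

theorem twc_ex (Dg : GT p m u w N G) (φ φ' : Gal(Ω/K) →* G) (hφ : H38.ML.FT φ)
    (hφ' : H38.ML.FT φ') (h : ∀ σ, mkW Dg (φ σ) = mkW Dg (φ' σ)) :
    ∃ χ : Gal(Ω/K) →* Wg p w, H38.ML.FT χ ∧ φ = twc Dg χ φ' := by
  obtain ⟨δ, h1, E, hE, h2⟩ := gtw_delta Dg φ φ' hφ hφ' ⊤ fun σ _ => h σ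
  refine ⟨δ.comp Subgroup.topEquiv.symm.toMonoidHom, ⟨E, hE, fun σ hσ => ?_⟩, ?_⟩
  · rw [MonoidHom.mem_ker]
    exact h2 ⟨σ, Subgroup.mem_top σ⟩ hσ
  · ext σ
    exact h1 ⟨σ, Subgroup.mem_top σ⟩

theorem twc_loc (hp : p.Prime) (hζ : IsPrimitiveRoot ζ p) (D : RD0 K p ζ) (Q : DP K Ω)
    (Dg : GT p m u w N G) (φ φ₁ : Gal(Ω/K) →* G) (hφ : H38.ML.FT φ) (hφ₁ : H38.ML.FT φ₁)
    (h : ∀ v ∈ D.S0, ∀ σ ∈ dec (K := K) (Q.P v), mkW Dg (φ₁ σ) = mkW Dg (φ σ)) :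
    ∃ δ : Gal(Ω/K) →* Wg p w, H38.ML.FT δ ∧ Teq D.S0 Q (twc Dg δ φ) φ₁ := by
  haveI : NeZero p := ⟨hp.ne_zero⟩
  have hδ : ∀ v : Pl K, ∃ δ : dec (K := K) (Q.P v) →* Wg p w, v ∈ D.S0 →
      (∀ x : dec (K := K) (Q.P v), φ₁ (x : Gal(Ω/K)) =
        Dg.e (Multiplicative.toAdd (δ x)) 0 * φ (x : Gal(Ω/K))) ∧
      ∃ E : IntermediateField K Ω, FiniteDimensional K E ∧
        ∀ x : dec (K := K) (Q.P v), (x : Gal(Ω/K)) ∈ E.fixingSubgroup → δ x = 1 := by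
    intro v
    by_cases hv : v ∈ D.S0
    · obtain ⟨δ, d1, d2⟩ := gtw_delta Dg φ₁ φ hφ₁ hφ (dec (K := K) (Q.P v)) (h v hv)
      exact ⟨δ, fun _ => ⟨d1, d2⟩⟩
    · exact ⟨1, fun h => absurd h hv⟩
  choose δ hδ using hδ
  obtain ⟨χ, hχ, hχδ⟩ := hw_lock (W := Wg p w) hp hζ D Q wg_pow δ
    (fun v hv => (hδ v hv).2)
  refine ⟨χ, hχ, fun v hv σ hσ => ?_⟩
  rw [twc_apply, hχδ v hv ⟨σ, hσ⟩]
  exact ((hδ v hv).1 ⟨σ, hσ⟩).symm

theorem xb_twc (D : RD0 K p ζ) (L : LDs D Ω) (Dg : GT p m u w N G)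
    (β : Gal(Ω/K) →* G ⧸ WS Dg) (f : Fin N → Finset (Pl K)) (hf : ∀ i, ∀ v ∈ f i, v ∉ D.S0)
    (χ : Gal(Ω/K) →* Wg p w) (hχ : H38.ML.FT χ) (h : ∀ v, v ∉ D.S0 → χ (L.t v) = 1)
    (φ : Gal(Ω/K) →* G) (hφ : φ ∈ XB D L Dg β f) : twc Dg χ φ ∈ XB D L Dg β f := by
  obtain ⟨h1, h2, h3, h4⟩ := hφ
  refine ⟨twc_ft Dg χ φ hχ h1, fun σ => ?_, fun i v hv => ?_, fun v hv hv' => ?_⟩
  · rw [twc_mk, h2]
  · rw [twc_apply, h v (hf i v hv), toAdd_one, gt_e0, one_mul]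
    exact h3 i v hv
  · rw [twc_apply, h v hv, toAdd_one, gt_e0, one_mul]
    exact h4 v hv hv'

theorem teq_twc (Dg : GT p m u w N G) (S : Finset (Pl K)) (Q : DP K Ω)
    (χ χ' : Gal(Ω/K) →* Wg p w) (φ : Gal(Ω/K) →* G) :
    Teq S Q (twc Dg χ φ) (twc Dg χ' φ) ↔ Teq S Q χ χ' := by
  unfold Teq
  refine forall_congr' fun v => forall_congr' fun hv => forall_congr' fun σ =>
    forall_congr' fun hσ => ?_
  constructor
  · intro h
    exact twc_inj Dg χ χ' φ σ h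
  · intro h
    rw [twc_apply, twc_apply, h]

end H38.AS
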