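import Pool.Agent.H38.AS.GOf
import Pool.Agent.H38.AS.GTp
import Pool.Agent.H38.AS.GTw
import Pool.Agent.H38.AS.GFb
import Pool.Agent.H63.BU.UMain

/-!
# [H38 AS GFT] finitely many types of typed homomorphisms, 80-130 lines. File Pool/Agent/H38/AS/GFt.lean

There is a finite set `R` of homomorphisms `Γ → G` of finite type such that every `φ` of finite type, all of whose ramified primes outside `S0` are of some type (`Ty`), has the type (`Teq S0 Q`) of an element of `R`.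

Proof. Let `Bs` be the finite set of the `β` with `IsB` (`gfb`) and `𝒬` the finite set of all `q : Fin N → Fin r → ZMod p`. For `(β, q)` such that there are a family `f₀` with `Ok D f₀`, `qf (f₀ i) = q i`, and some `φ₂ ∈ XB β f₀`, choose such a `φ₂`. Let `R''` be the finite set of `hw_types` for `Wg p w` (`H63/MC/CHa.lean`, `wg_pow`). `R` = all `twc δ' φ₂`, `δ' ∈ R''` (`twc_ft`).
Let `φ` be given, `f i = {v : Ty Dg L φ i v}` (finite, e.g. `umain_sets` in `H63/BU/UMain.lean` or as there: import `Pool.Agent.H63.BU.UMain`), `β` from `gof`, `q i = qf (f i)`: `φ₂` exists for `(β, q)`, `φ₂ ∈ XB β f₀`. On the decomposition groups `mkW (φ σ) = β σ * vqW (eta f σ) = β σ * vqW (eta f₀ σ) = mkW (φ₂ σ)` (`gtp`). `twc_loc` gives `δ` with `Teq S0 Q (twc δ φ₂) φ`, and `δ` agrees with some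
`δ' ∈ R''` there, so `Teq S0 Q φ (twc δ' φ₂)` (`teq_twc`).
-/

set_option autoImplicit false

open scoped NumberField
open IsDedekindDomain
open scoped Classical

noncomputable section

namespace H38.AS

open H63.MA H38.BB H38.BG

variable {K : Type} [Field K] [NumberField K] {Ω : Type} [Field Ω] [Algebra K Ω]
  [IsAlgClosure K Ω] {p m u w N : ℕ} {ζ : K} {G : Type} [Group G]

theorem gft [Finite G] (hp : p.Prime) (hp2 : MOne p K) (hζ : IsPrimitiveRoot ζ p)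
    (D : RD0 K p ζ) (L : LDs D Ω) (Q : DP K Ω) (hnil : Group.IsNilpotent G)
    (Dg : GT p m u w N G) (z : K) (hz : IsPrimitiveRoot z (Nat.card G))
    (hS : ∀ v : Pl K, ((Nat.card G : ℕ) : 𝓞 K) ∈ v.asIdeal → v ∈ D.S0) :
    ∃ R : Finset (Gal(Ω/K) →* G), (∀ φ ∈ R, H38.ML.FT φ) ∧
      ∀ φ : Gal(Ω/K) →* G, H38.ML.FT φ → (∀ v, Rm L φ v → ∃ i, Ty Dg L φ i v) →
        ∃ φ' ∈ R, Teq D.S0 Q φ φ' := by
  have : NeZero p := ⟨hp.ne_zero⟩
  have hWp : ∀ x : Wg p w, x ^ p = 1 := fun x => wg_pow x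
  obtain ⟨R'', hR1, hR2⟩ := hw_types (W := Wg p w) hp hp2 hζ D L Q hWp
  have hB := gfb D L hnil Dg z hz hS
  let Pr : (Gal(Ω/K) →* G ⧸ WS Dg) × (Fin N → Fin D.r → ZMod p) → (Gal(Ω/K) →* G) → Prop :=
    fun x φ₂ => ∃ f₀ : Fin N → Finset (Pl K),
      Ok D f₀ ∧ (∀ i, qf D (f₀ i) = x.2 i) ∧ φ₂ ∈ XB D L Dg x.1 f₀
  have hex : ∀ x, ∃ φ₂, (∃ φ, Pr x φ) → Pr x φ₂ := by
    intro x
    by_cases h : ∃ φ, Pr x φ
    · obtain ⟨φ, hφ⟩ := h
      exact ⟨φ, fun _ => hφ⟩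
    · exact ⟨1, fun h' => absurd h' h⟩
  choose pick hpick using hex
  let I : Finset ((Gal(Ω/K) →* G ⧸ WS Dg) × (Fin N → Fin D.r → ZMod p)) :=
    (hB.toFinset ×ˢ (Finset.univ : Finset (Fin N → Fin D.r → ZMod p))).filter
      (fun x => ∃ φ, Pr x φ)
  refine ⟨(I ×ˢ R'').image (fun x => twc Dg x.2 (pick x.1)), ?_, ?_⟩
  · intro φ hφ
    obtain ⟨x, hx, rfl⟩ := Finset.mem_image.1 hφ
    obtain ⟨hxI, hxR⟩ := Finset.mem_product.1 hx
    obtain ⟨f₀, -, -, hX⟩ := hpick x.1 (Finset.mem_filter.1 hxI).2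
    exact twc_ft Dg x.2 (pick x.1) (hR1 _ hxR) hX.1
  · intro φ hφ hty
    obtain ⟨f, -, hf, -⟩ := H63.BU.umain_sets L Dg φ hφ
    obtain ⟨β, hβ, hφX⟩ := gof hp hζ D L Dg φ hφ hty f hf
    have hok := (gof_ok D L Dg φ f hf).1
    have hexx : ∃ ψ, Pr (β, fun i => qf D (f i)) ψ := ⟨φ, f, hok, fun i => rfl, hφX⟩
    have hxI : (β, fun i => qf D (f i)) ∈ I :=
      Finset.mem_filter.2 ⟨Finset.mem_product.2 ⟨hB.mem_toFinset.2 hβ, Finset.mem_univ _⟩, hexx⟩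
    obtain ⟨f₀, hok0, hq0, hX0⟩ := hpick (β, fun i => qf D (f i)) hexx
    obtain ⟨δ, hδ1, hδ2⟩ := twc_loc hp hζ D Q Dg (pick (β, fun i => qf D (f i))) φ hX0.1 hφ (by
      intro v hv σ hσ
      rw [hφX.2.1 σ, hX0.2.1 σ, gtp hp hp2 hζ D Q Dg f f₀ hok.2 hok0.2
        (fun i => (hq0 i).symm) v hv σ hσ])
    obtain ⟨δ', hδ'R, hδ'⟩ := hR2 δ hδ1
    refine ⟨twc Dg δ' (pick (β, fun i => qf D (f i))),
      Finset.mem_image.2 ⟨((β, fun i => qf D (f i)), δ'), Finset.mem_product.2 ⟨hxI, hδ'R⟩, rfl⟩, ?_⟩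
    have h3 := (teq_twc Dg D.S0 Q δ δ' (pick (β, fun i => qf D (f i)))).2 hδ'
    intro v hv σ hσ
    exact (hδ2 v hv σ hσ).symm.trans (h3 v hv σ hσ)

end H38.AS
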