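import Pool.Agent.H38.AS.GTw

/-!
# [H38 AS GCT] the number of homomorphisms with given ramification, 110-170 lines. File Pool/Agent/H38/AS/GCt.lean

`gct`: for `Ok D f`, if `XB β f` is nonempty then it is finite with `y0 ∏_i (#class_i)^{#(f i)}` elements, `y0 = #chbU D L (Wg p w)`.

Proof. Let `A i ≤ Wg p w` be the subgroup of the `ofAdd (bl Dg.β z (Dg.y i))`, `z ∈ (ZMod p)^m` (`bl` is additive in `z`: `lrel_add_left`). By `gt_conj` the elements conjugate to `g i` are the `e (a i + b) (y i)`, `ofAdd b ∈ A i`, so `#(A i) = #class_i` (`Dg.inj`). Let `φ₀ ∈ XB β f`. The map `χ ↦ twc χ φ₀` is a bijection from `HF D L A f` (`H63/MC/CHb.lean`) onto `XB β f`: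
finite type by `twc_ft`, `mkW` unchanged; for `v ∈ f i`: `φ₀ (t v) = e (a i + b) (y i)`, `twc χ φ₀ (t v) = e (toAdd (χ (t v)) + a i + b) (y i)` (`gt_mul0`) is conjugate to `g i` iff `χ (t v) ∈ A i`; for the other `v ∉ S0`: `φ₀ (t v) = 1`, `χ (t v) = 1` (`Dg.inj`, `gt_e0`). Every `φ ∈ XB β f` is `twc χ φ₀` with `χ` of finite type (`twc_ex`, both lie over `β * vqW (eta f)`), injectivity: `twc_inj`.
`#HF = y0 ∏ #(A i)^{#(f i)}`: `chbEv_sur`, `chbEv_ker` (`CHb.lean`; `wg_pow`, `[CommGroup (Wg p w)]`, finite): the group `chbHF D L A f` (carrier `HF`) maps onto `(x : (i : Fin N) × f i) → A x.1` with kernel of order `#chbU`; so its order is the product (`Subgroup.card_eq_card_quotient_mul_card_subgroup`, first isomorphism theorem; as in the proof of `hf_card`), `#chbU` is finite and positive (`hw_fin`, `one_mem`), and it is finite.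
-/

set_option autoImplicit false

open scoped NumberField
open IsDedekindDomain
open scoped Classical

noncomputable section

namespace H38.AS

open H63.MA H38.BB H38.BG

variable {K : Type} [Field K] [NumberField K] {Ω : Type} [Field Ω] [Algebra K Ω]
  [IsAlgClosure K Ω] {p m u w N : ℕ} {ζ : K} {G : Type} [Group G]

private theorem gctf_add {p m u w : ℕ} (n : Fin w → Fin m → Fin u → ZMod p)
    (x x' : Fin m → ZMod p) (y : Fin u → ZMod p) :
    bl n (x + x') y = bl n x y + bl n x' y := by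
  funext c
  simp only [bl, Pi.add_apply, ← Finset.sum_add_distrib]
  refine Finset.sum_congr rfl fun i _ => Finset.sum_congr rfl fun j _ => ?_
  ring

private theorem gctf_zero {p m u w : ℕ} (n : Fin w → Fin m → Fin u → ZMod p)
    (y : Fin u → ZMod p) : bl n 0 y = 0 := by
  funext c
  simp [bl]

private theorem gctf_neg {p m u w : ℕ} (n : Fin w → Fin m → Fin u → ZMod p)
    (x : Fin m → ZMod p) (y : Fin u → ZMod p) : bl n (-x) y = -bl n x y := by
  have h := gctf_add n (-x) x y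
  rw [neg_add_cancel, gctf_zero] at h
  exact eq_neg_of_add_eq_zero_left h.symm

/-- the values `ofAdd (bl β z (y i))` -/
def gctA (Dg : GT p m u w N G) (i : Fin N) : Subgroup (Wg p w) where
  carrier := {x | ∃ z : Fin m → ZMod p, x = Multiplicative.ofAdd (bl Dg.β z (Dg.y i))}
  mul_mem' := by
    rintro _ _ ⟨z, rfl⟩ ⟨z', rfl⟩
    exact ⟨z + z', by rw [gctf_add, ofAdd_add]⟩
  one_mem' := ⟨0, by rw [gctf_zero, ofAdd_zero]⟩
  inv_mem' := by
    rintro _ ⟨z, rfl⟩
    exact ⟨-z, by rw [gctf_neg, ofAdd_neg]⟩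

private theorem gctA_mem (Dg : GT p m u w N G) (i : Fin N) (x : Wg p w) :
    x ∈ gctA Dg i ↔ ∃ z : Fin m → ZMod p, x = Multiplicative.ofAdd (bl Dg.β z (Dg.y i)) := Iff.rfl

private theorem gctA_card (Dg : GT p m u w N G) (i : Fin N) :
    Nat.card (gctA Dg i) = Nat.card {h : G // IsConj h (Dg.g i)} := by
  refine Nat.card_congr (Equiv.ofBijective
    (fun x : gctA Dg i => (⟨Dg.e (Dg.a i + Multiplicative.toAdd x.1) (Dg.y i), ?_⟩ :
      {h : G // IsConj h (Dg.g i)})) ⟨?_, ?_⟩)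
  · obtain ⟨z, hz⟩ := (gctA_mem Dg i x.1).1 x.2
    rw [gt_conj]
    exact ⟨z, by rw [hz, toAdd_ofAdd]⟩
  · intro x x' h
    have h1 := congrArg Subtype.val h
    have h2 := add_left_cancel (Dg.inj _ _ _ _ h1).1
    exact Subtype.ext (Multiplicative.toAdd.injective h2)
  · rintro ⟨h, hh⟩
    obtain ⟨z, hz⟩ := (gt_conj Dg i h).1 hh
    refine ⟨⟨Multiplicative.ofAdd (bl Dg.β z (Dg.y i)), z, rfl⟩, ?_⟩
    apply Subtype.ext
    change Dg.e (Dg.a i + Multiplicative.toAdd (Multiplicative.ofAdd _)) (Dg.y i) = h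
    rw [toAdd_ofAdd, hz]

private theorem gct_hf {W : Type} [CommGroup W] [Finite W] (hp : p.Prime)
    (hζ : IsPrimitiveRoot ζ p) (D : RD0 K p ζ) (L : LDs D Ω) (hW : ∀ w : W, w ^ p = 1)
    (A : Fin N → Subgroup W) (f : Fin N → Finset (Pl K)) (hf : Ok D f) :
    (HF D L A f).Finite ∧
      (HF D L A f).ncard = Nat.card (chbU D L W) * ∏ i, Nat.card (A i) ^ (f i).card := by
  have hpf : Fact p.Prime := ⟨hp⟩
  have hU : Finite (chbU D L W) := (hw_fin hp hζ D L hW).to_subtype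
  have hcard : ((chbHF D L A f : Subgroup (Gal(Ω/K) →* W)) : Set (Gal(Ω/K) →* W)) = HF D L A f := rfl
  have hsur := chbEv_sur hp hζ D L hW A f hf
  have e := QuotientGroup.quotientKerEquivOfSurjective _ hsur
  have hkf : Finite (chbEv D L A f).ker := by
    have h1 := chbEv_ker D L A f hf
    apply Nat.finite_of_card_ne_zero
    rw [h1]
    exact Nat.card_pos.ne'
  have hqf : Finite (chbHF D L A f ⧸ (chbEv D L A f).ker) := Finite.of_equiv _ e.symm.toEquiv
  have hHf : Finite (chbHF D L A f) := Finite.of_subgroup_quotient (chbEv D L A f).ker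
  have hfin : (HF D L A f).Finite := by
    rw [← hcard]
    exact Set.toFinite _
  have hnc : (HF D L A f).ncard = Nat.card (chbHF D L A f) := rfl
  refine ⟨hfin, ?_⟩
  rw [hnc, Subgroup.card_eq_card_quotient_mul_card_subgroup (chbEv D L A f).ker,
    chbEv_ker D L A f hf, Nat.card_congr e.toEquiv, Nat.card_pi, Fintype.prod_sigma, mul_comm]
  congr 1
  refine Finset.prod_congr rfl fun i _ => ?_
  change ∏ _y : f i, Nat.card (A i) = _
  rw [Finset.prod_const, Finset.card_univ, Fintype.card_coe]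

private theorem gct_fin (hp : p.Prime) : Finite (Wg p w) := by
  have : NeZero p := ⟨hp.ne_zero⟩
  exact (inferInstance : Finite (Fin w → ZMod p))

theorem gct (hp : p.Prime) (hζ : IsPrimitiveRoot ζ p) (D : RD0 K p ζ) (L : LDs D Ω)
    (Dg : GT p m u w N G) (β : Gal(Ω/K) →* G ⧸ WS Dg) (f : Fin N → Finset (Pl K))
    (hf : Ok D f) (hne : (XB D L Dg β f).Nonempty) :
    (XB D L Dg β f).Finite ∧ (XB D L Dg β f).ncard =
      Nat.card (chbU D L (Wg p w)) *
        ∏ i, Nat.card {h : G // IsConj h (Dg.g i)} ^ (f i).card := by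
  have hp0 : NeZero p := ⟨hp.ne_zero⟩
  have hfinW : Finite (Wg p w) := gct_fin hp
  have hW : ∀ x : Wg p w, x ^ p = 1 := wg_pow
  obtain ⟨φ₀, hφ₀⟩ := hne
  obtain ⟨hft, hmk, hc, ho⟩ := hφ₀
  have himg : XB D L Dg β f = (fun χ => twc Dg χ φ₀) '' HF D L (gctA Dg) f := by
    ext φ
    constructor
    · rintro ⟨hft', hmk', hc', ho'⟩
      obtain ⟨χ, hχ, rfl⟩ := twc_ex Dg φ φ₀ hft' hft fun σ => by rw [hmk', hmk]
      refine ⟨χ, ⟨hχ, fun i v hv => ?_, fun v hv hv' => ?_⟩, rfl⟩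
      · obtain ⟨z, hz⟩ := (gt_conj Dg i _).1 (hc' i v hv)
        obtain ⟨z₀, hz₀⟩ := (gt_conj Dg i _).1 (hc i v hv)
        rw [twc_apply, hz₀, gt_mul0] at hz
        have h1 := (Dg.inj _ _ _ _ hz).1
        rw [gctA_mem]
        refine ⟨z - z₀, Multiplicative.toAdd.injective ?_⟩
        rw [toAdd_ofAdd, sub_eq_add_neg, gctf_add, gctf_neg]
        have h2 : Multiplicative.toAdd (χ (L.t v)) =
            (Multiplicative.toAdd (χ (L.t v)) + (Dg.a i + bl Dg.β z₀ (Dg.y i))) -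
              (Dg.a i + bl Dg.β z₀ (Dg.y i)) := by abel
        rw [h2, h1]
        abel
      · have h1 := ho' v hv hv'
        rw [twc_apply, ho v hv hv', mul_one, ← gt_e0 Dg] at h1
        have h2 := (Dg.inj _ _ _ _ h1).1
        exact Multiplicative.toAdd.injective h2
    · rintro ⟨χ, ⟨hχ, h1, h2⟩, rfl⟩
      refine ⟨twc_ft Dg χ φ₀ hχ hft, fun σ => by rw [twc_mk, hmk], fun i v hv => ?_,
        fun v hv hv' => ?_⟩
      · obtain ⟨z, hz⟩ := (gctA_mem Dg i _).1 (h1 i v hv)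
        obtain ⟨z₀, hz₀⟩ := (gt_conj Dg i _).1 (hc i v hv)
        rw [gt_conj]
        refine ⟨z + z₀, ?_⟩
        change twc Dg χ φ₀ (L.t v) = _
        rw [twc_apply, hz₀, gt_mul0, hz, toAdd_ofAdd, gctf_add]
        congr 1
        abel
      · change twc Dg χ φ₀ (L.t v) = 1
        rw [twc_apply, ho v hv hv', h2 v hv hv', toAdd_one, gt_e0, mul_one]
  have hinj : Set.InjOn (fun χ : Gal(Ω/K) →* Wg p w => twc Dg χ φ₀) (HF D L (gctA Dg) f) := by
    intro χ _ χ' _ h
    ext1 σ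
    exact twc_inj Dg χ χ' φ₀ σ (DFunLike.congr_fun h σ)
  obtain ⟨h1, h2⟩ := gct_hf (W := Wg p w) hp hζ D L hW (gctA Dg) f hf
  refine ⟨by rw [himg]; exact h1.image _, ?_⟩
  rw [himg, hinj.ncard_image, h2]
  congr 1
  refine Finset.prod_congr rfl fun i _ => ?_
  rw [gctA_card]

theorem gct_pos (hp : p.Prime) (hζ : IsPrimitiveRoot ζ p) (D : RD0 K p ζ) (L : LDs D Ω)
    (w : ℕ) : 0 < Nat.card (chbU D L (Wg p w)) := by
  have hp0 : NeZero p := ⟨hp.ne_zero⟩
  have hfinW : Finite (Wg p w) := gct_fin hp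
  have hU : Finite (chbU D L (Wg p w)) := (hw_fin hp hζ D L wg_pow).to_subtype
  exact Nat.card_pos

end H38.AS
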