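import Pool.Agent.H38.AS.GIn
import Pool.Agent.H38.BG.LHom
import Pool.Agent.H63.MA.GUpA

/-!
# [H38 AS GEP] Kummer data and surjectivity, 130-200 lines. File Pool/Agent/H38/AS/GEp.lean

* `gep`: every `β` with `IsB` has Kummer data `ε` (`EpB`). Proof: `σ ↦ ofAdd (toAdd (piW (β σ)) j)` is a character of finite type, `= kc (b j)` (`kc_all`); for `v ∉ S0`, `β (t v) = 1` (`t v ∈ inr L v`) gives `p ∣ ord v (b j)` (`ld_kk_t`), so `b j = ε j * y^p` with an `S0`-unit `ε j` (`unit_of_ord`), `kk (b j) = kk (ε j)`.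
* `eta_ak`: `kk (akR D Dg.cr ε f j) σ = kk (ε j) σ + mv Dg.ι (eta f σ) j`. Proof: both are `kk (ε j) σ + ∑_i (mv ι (y i) j) ∑_{v ∈ f i} kk (pi v) σ` (`kk_mul_arg`, `kk_prod_arg`, `kk_pow_arg`; the private lemmas `lhom_kfam`, `lhom_kak` of `H38/BG/LHom.lean` may be copied; `Dg.cr.x i = mv ι (y i)` by `rfl`; `mv ι` is linear).
* `gep_pi`: so `toAdd (π (φ σ)) j = kk (akR D Dg.cr ε f j) σ` for `φ ∈ XB β f` (`piW_mk`, `piW_vq`).
* `gsu`: for `IsB β`, `EpB ε β`, `Ok D f`, `φ ∈ XB β f`: `φ` is surjective iff (i) every `g ∈ G ⧸ W` is `β σ * vqW x` for some `σ, x`, and (ii) `SpR Dg.cr ε f`.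
  `→`: (i) `g = mkW (φ σ) = β σ * vqW (eta f σ)`. (ii) Let `θ ≠ 0` with `dt θ (x i) = 0` for all `i` with `f i ≠ ∅`, and suppose `bp ε θ` is a `p`-th power. Then `∑ θ j kk (ε j) σ = 0` for all `σ` (`bp ε θ = ∏ ε j ^ (θ j).val`, `kk` of a `p`-th power is `0`), and `∑_j θ j kk (akR ε f j) σ = ∑_j θ j kk (ε j) σ + ∑_i dt θ (x i) ∑_{v ∈ f i} kk (pi v) σ = 0`.
  So `dt θ (toAdd (π (φ σ))) = 0` for all `σ`; `φ` and `π` are surjective, so `dt θ` vanishes everywhere and `θ = 0`. Contradiction. `←`: `gt_gen` for the range `H` of `φ`: every `g ∈ G`: `mkW g = β σ * vqW x = mkW (φ σ) * vqW (x - eta f σ)`, so `g = e a 0 * (φ σ * e 0 x')= φ σ * e a x'` (`gt_cen`, `gt_mul0`). `π(H)`: by `kk_surj` it is enough that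
  `∏_j (akR ε f j)^(θ j).val` is not a `p`-th power for `θ ≠ 0`: if `dt θ (x i) ≠ 0` for some `i` with `f i ≠ ∅`, take `v ∈ f i`: its order at `v` is `dt θ (x i) ≠ 0` modulo `p`. Otherwise it is `bp ε θ` times a `p`-th power, and `bp ε θ` is not a `p`-th power by `SpR`. (This is `lhom_indep` in `LHom.lean`, private, with the weaker hypothesis `SpR`: copy and adapt.)
-/

set_option autoImplicit false

open scoped NumberField
open IsDedekindDomain
open scoped Classical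

noncomputable section

namespace H38.AS

open H63.MA H38.BB H38.BG

variable {K : Type} [Field K] [NumberField K] {Ω : Type} [Field Ω] [Algebra K Ω]
  [IsAlgClosure K Ω] {p m u w N : ℕ} {ζ : K} {G : Type} [Group G]

private theorem gep_kprod (hp : p.Prime) (hζ : IsPrimitiveRoot ζ p) {n : ℕ} (b : Fin n → Kˣ)
    (θ : Fin n → ZMod p) (σ : Gal(Ω/K)) :
    kk p ζ (∏ k, b k ^ (θ k).val) σ = ∑ k, θ k * kk p ζ (b k) σ := by
  rw [kk_prod_arg hp hζ]
  refine Finset.sum_congr rfl fun k _ => ?_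
  rw [← zpow_natCast, kk_zpow_arg hp hζ, gkum_val hp]

private theorem gep_kfam (hp : p.Prime) (hζ : IsPrimitiveRoot ζ p) (D : RD0 K p ζ)
    (x : Fin N → ZMod p) (f : Fin N → Finset (Pl K)) (σ : Gal(Ω/K)) :
    kk p ζ (∏ i, ∏ v ∈ f i, D.pi v ^ (x i).val) σ =
      ∑ i, x i * ∑ v ∈ f i, kk p ζ (D.pi v) σ := by
  rw [kk_prod_arg hp hζ]
  refine Finset.sum_congr rfl fun i _ => ?_
  rw [kk_prod_arg hp hζ, Finset.mul_sum]
  refine Finset.sum_congr rfl fun v _ => ?_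
  rw [← zpow_natCast, kk_zpow_arg hp hζ, gkum_val hp]

private theorem gep_kak (hp : p.Prime) (hζ : IsPrimitiveRoot ζ p) (D : RD0 K p ζ)
    (c : CR p m N) (b : Fin m → Kˣ) (f : Fin N → Finset (Pl K)) (j : Fin m) (σ : Gal(Ω/K)) :
    kk p ζ (akR D c b f j) σ =
      kk p ζ (b j) σ + ∑ i, c.x i j * ∑ v ∈ f i, kk p ζ (D.pi v) σ := by
  unfold akR
  rw [kk_mul_arg hp hζ, gep_kfam hp hζ D (fun i => c.x i j) f σ]

private theorem gep_sum (hp : p.Prime) (hζ : IsPrimitiveRoot ζ p) (D : RD0 K p ζ)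
    (c : CR p m N) (b : Fin m → Kˣ) (f : Fin N → Finset (Pl K)) (θ : Fin m → ZMod p)
    (σ : Gal(Ω/K)) :
    ∑ j, θ j * kk p ζ (akR D c b f j) σ = (∑ j, θ j * kk p ζ (b j) σ) +
      ∑ i, dt θ (c.x i) * ∑ v ∈ f i, kk p ζ (D.pi v) σ := by
  have h3 : ∀ j, θ j * kk p ζ (akR D c b f j) σ = θ j * kk p ζ (b j) σ +
      ∑ i, θ j * c.x i j * ∑ v ∈ f i, kk p ζ (D.pi v) σ := by
    intro j
    rw [gep_kak hp hζ, mul_add, Finset.mul_sum]
    congr 1
    refine Finset.sum_congr rfl fun i _ => ?_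
    rw [mul_assoc]
  rw [Finset.sum_congr rfl fun j _ => h3 j, Finset.sum_add_distrib]
  congr 1
  rw [Finset.sum_comm]
  refine Finset.sum_congr rfl fun i _ => ?_
  rw [← Finset.sum_mul]
  rfl

private theorem gep_tmem {D : RD0 K p ζ} (L : LDs D Ω) {v : Pl K} (hv : v ∉ D.S0) :
    L.t v ∈ inr L v := by
  unfold inr
  rw [dif_pos hv, gtw_t L v hv]
  exact (L.ld v hv).ht

private theorem gep_kt (hp : p.Prime) (hζ : IsPrimitiveRoot ζ p) {D : RD0 K p ζ} (L : LDs D Ω)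
    {v : Pl K} (hv : v ∉ D.S0) (x : Kˣ) : kk p ζ x (L.t v) = ((ord v x : ℤ) : ZMod p) := by
  rw [gtw_t L v hv]
  exact ld_kk_t hp hζ (fun h => hv (D.above v h)) (D.pi_self v hv) (L.ld v hv) x

theorem gep (hp : p.Prime) (hζ : IsPrimitiveRoot ζ p) (D : RD0 K p ζ) (L : LDs D Ω)
    (Dg : GT p m u w N G) (β : Gal(Ω/K) →* G ⧸ WS Dg) (hβ : IsB D L Dg β) :
    ∃ ε : Fin m → Kˣ, EpB D Dg ε β := by
  have hj : ∀ j : Fin m, ∃ e : Kˣ, TUnit D.S0 e ∧
      ∀ σ, Multiplicative.toAdd (piW Dg (β σ)) j = kk p ζ e σ := by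
    intro j
    obtain ⟨χ, hχ⟩ : ∃ χ : Gal(Ω/K) →* Multiplicative (ZMod p),
        ∀ σ, χ σ = Multiplicative.ofAdd (Multiplicative.toAdd (piW Dg (β σ)) j) := by
      refine ⟨(AddMonoidHom.toMultiplicative
        (Pi.evalAddMonoidHom (fun _ : Fin m => ZMod p) j)).comp ((piW Dg).comp β), fun σ => rfl⟩
    have hft : H38.ML.FT χ := by
      obtain ⟨E, hE, hEk⟩ := hβ.1
      refine ⟨E, hE, fun σ hσ => ?_⟩
      have h1 := MonoidHom.mem_ker.1 (hEk hσ)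
      rw [MonoidHom.mem_ker, hχ, h1, map_one, toAdd_one]
      rfl
    obtain ⟨b, hb⟩ := kc_all hp hζ χ hft
    have hbk : ∀ σ, Multiplicative.toAdd (piW Dg (β σ)) j = kk p ζ b σ := by
      intro σ
      unfold kk
      rw [← hb, hχ, toAdd_ofAdd]
    obtain ⟨e, y, he, hy⟩ := unit_of_ord hp D b (by
      intro v hv
      have h1 := gep_kt hp hζ L hv b
      rw [← hbk, hβ.2 v hv _ (gep_tmem L hv), map_one, toAdd_one, Pi.zero_apply] at h1
      exact (ZMod.intCast_zmod_eq_zero_iff_dvd _ _).1 h1.symm)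
    refine ⟨e, he, fun σ => ?_⟩
    rw [hbk, hy, kk_mul_arg hp hζ, ← zpow_natCast, kk_zpow_arg hp hζ, Int.cast_natCast,
      CharP.cast_eq_zero, zero_mul, add_zero]
  choose ε h1 h2 using hj
  exact ⟨ε, h1, fun σ j => h2 j σ⟩

theorem eta_ak (hp : p.Prime) (hζ : IsPrimitiveRoot ζ p) (D : RD0 K p ζ)
    (Dg : GT p m u w N G) (ε : Fin m → Kˣ) (f : Fin N → Finset (Pl K)) (j : Fin m)
    (σ : Gal(Ω/K)) :
    kk p ζ (akR D Dg.cr ε f j) σ = kk p ζ (ε j) σ + mv Dg.ι (eta D Dg f σ) j := by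
  rw [gep_kak hp hζ]
  congr 1
  have h1 : ∀ k, eta D Dg f σ k =
      ∑ i, Dg.y i k * ∑ v ∈ f i, kk p ζ (D.pi v) σ := fun k =>
    gep_kfam hp hζ D (fun i => Dg.y i k) f σ
  unfold mv
  have h2 : ∀ k, Dg.ι j k * eta D Dg f σ k =
      ∑ i, Dg.ι j k * Dg.y i k * ∑ v ∈ f i, kk p ζ (D.pi v) σ := by
    intro k
    rw [h1, Finset.mul_sum]
    refine Finset.sum_congr rfl fun i _ => ?_
    rw [mul_assoc]
  rw [Finset.sum_congr rfl fun k _ => h2 k, Finset.sum_comm]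
  refine Finset.sum_congr rfl fun i _ => ?_
  rw [← Finset.sum_mul]
  rfl

theorem gep_pi (hp : p.Prime) (hζ : IsPrimitiveRoot ζ p) (D : RD0 K p ζ) (L : LDs D Ω)
    (Dg : GT p m u w N G) (β : Gal(Ω/K) →* G ⧸ WS Dg) (ε : Fin m → Kˣ) (hε : EpB D Dg ε β)
    (f : Fin N → Finset (Pl K)) (φ : Gal(Ω/K) →* G) (hφ : φ ∈ XB D L Dg β f)
    (σ : Gal(Ω/K)) (j : Fin m) :
    Multiplicative.toAdd (Dg.π (φ σ)) j = kk p ζ (akR D Dg.cr ε f j) σ := by
  rw [← piW_mk, hφ.2.1 σ, map_mul, piW_vq, toAdd_mul, toAdd_ofAdd, Pi.add_apply, hε.2 σ j,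
    eta_ak hp hζ]

private theorem gep_indep (hp : p.Prime) (hζ : IsPrimitiveRoot ζ p) {D : RD0 K p ζ}
    (L : LDs D Ω) (c : CR p m N) (ε : Fin m → Kˣ) (hε : ∀ j, TUnit D.S0 (ε j))
    (f : Fin N → Finset (Pl K)) (hf : Ok D f) (hsp : SpR c ε f) (θ : Fin m → ZMod p)
    (hθ : θ ≠ 0) : ¬ IsPow p (∏ j, akR D c ε f j ^ (θ j).val) := by
  intro hpow
  have h1 : ∀ σ : Gal(Ω/K), (∑ j, θ j * kk p ζ (ε j) σ) +
      ∑ i, dt θ (c.x i) * ∑ v ∈ f i, kk p ζ (D.pi v) σ = 0 := by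
    intro σ
    have h2 := (kk_eq_zero_iff (Ω := Ω) hp hζ _).2 hpow σ
    rw [gep_kprod hp hζ, gep_sum hp hζ] at h2
    exact h2
  have h2 : ∀ i, ∀ v ∈ f i, dt θ (c.x i) = 0 := by
    intro i v hvi
    have hv := hf.2 i v hvi
    have h3 := h1 (L.t v)
    have h5 : ∑ j, θ j * kk p ζ (ε j) (L.t v) = 0 :=
      Finset.sum_eq_zero fun j _ => by
        rw [gep_kt hp hζ L hv, hε j v hv, Int.cast_zero, mul_zero]
    rw [h5, zero_add, Finset.sum_eq_single i] at h3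
    · rw [Finset.sum_eq_single v] at h3
      · rw [(kk_pi hp hζ D L v v hv hv).1 rfl, mul_one] at h3
        exact h3
      · intro v' hv' hne
        exact (kk_pi hp hζ D L v' v (hf.2 i v' hv') hv).2 hne
      · intro h
        exact absurd hvi h
    · intro i' _ hne
      have h6 : ∑ v' ∈ f i', kk p ζ (D.pi v') (L.t v) = 0 := by
        refine Finset.sum_eq_zero fun v' hv' => ?_
        refine (kk_pi hp hζ D L v' v (hf.2 i' v' hv') hv).2 ?_
        rintro rfl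
        exact Finset.disjoint_left.1 (hf.1 i' i hne) hv' hvi
      rw [h6, mul_zero]
    · intro h
      exact absurd (Finset.mem_univ i) h
  rcases hsp θ hθ with ⟨i, hi, hi2⟩ | hn
  · obtain ⟨v, hv⟩ := Finset.nonempty_iff_ne_empty.2 hi
    exact hi2 (h2 i v hv)
  refine hn ((kk_eq_zero_iff (Ω := Ω) hp hζ _).1 fun σ => ?_)
  unfold bp
  rw [gep_kprod hp hζ]
  have h3 := h1 σ
  have h4 : ∑ i, dt θ (c.x i) * ∑ v ∈ f i, kk p ζ (D.pi v) σ = 0 := by
    refine Finset.sum_eq_zero fun i _ => ?_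
    rcases (f i).eq_empty_or_nonempty with h5 | ⟨v, hv⟩
    · rw [h5, Finset.sum_empty, mul_zero]
    · rw [h2 i v hv, zero_mul]
  rw [h4, add_zero] at h3
  exact h3

theorem gsu [Finite G] (hp : p.Prime) (hζ : IsPrimitiveRoot ζ p) (D : RD0 K p ζ) (L : LDs D Ω)
    (Dg : GT p m u w N G) (β : Gal(Ω/K) →* G ⧸ WS Dg) (hβ : IsB D L Dg β)
    (ε : Fin m → Kˣ) (hε : EpB D Dg ε β) (f : Fin N → Finset (Pl K)) (hf : Ok D f)
    (φ : Gal(Ω/K) →* G) (hφ : φ ∈ XB D L Dg β f) :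
    Function.Surjective φ ↔
      (∀ g : G ⧸ WS Dg, ∃ σ x, g = β σ * vqW Dg x) ∧ SpR Dg.cr ε f := by
  have hpi : ∀ σ j, Multiplicative.toAdd (Dg.π (φ σ)) j = kk p ζ (akR D Dg.cr ε f j) σ :=
    fun σ j => gep_pi hp hζ D L Dg β ε hε f φ hφ σ j
  constructor
  · intro hs
    refine ⟨fun g => ?_, fun θ hθ => ?_⟩
    · obtain ⟨g', rfl⟩ := mkW_sur Dg g
      obtain ⟨σ, rfl⟩ := hs g'
      exact ⟨σ, _, hφ.2.1 σ⟩
    · by_contra hcon
      rw [not_or, not_not] at hcon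
      obtain ⟨h1, h2⟩ := hcon
      have h3 : ∀ σ : Gal(Ω/K), ∑ j, θ j * kk p ζ (ε j) σ = 0 := by
        intro σ
        have h4 := (kk_eq_zero_iff (Ω := Ω) hp hζ _).2 h2 σ
        unfold bp at h4
        rwa [gep_kprod hp hζ] at h4
      have h4 : ∀ σ : Gal(Ω/K), ∑ j, θ j * kk p ζ (akR D Dg.cr ε f j) σ = 0 := by
        intro σ
        rw [gep_sum hp hζ, h3, zero_add]
        refine Finset.sum_eq_zero fun i _ => ?_
        by_cases hi : f i = ∅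
        · rw [hi, Finset.sum_empty, mul_zero]
        · have h5 : dt θ (Dg.cr.x i) = 0 := by
            by_contra h6
            exact h1 ⟨i, hi, h6⟩
          rw [h5, zero_mul]
      apply hθ
      funext j
      obtain ⟨g, hg⟩ := Dg.sur (Multiplicative.ofAdd (Pi.single j 1))
      obtain ⟨σ, rfl⟩ := hs g
      have h5 := h4 σ
      have h6 : ∀ j', kk p ζ (akR D Dg.cr ε f j') σ = (Pi.single j 1 : Fin m → ZMod p) j' := by
        intro j'
        rw [← hpi, hg, toAdd_ofAdd]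
      rw [Finset.sum_eq_single j] at h5
      · rw [h6, Pi.single_eq_same, mul_one] at h5
        rw [h5]
        rfl
      · intro j' _ hj'
        rw [h6, Pi.single_eq_of_ne hj', mul_zero]
      · intro h
        exact absurd (Finset.mem_univ _) h
  · rintro ⟨h1, h2⟩
    rw [← MonoidHom.range_eq_top]
    refine gt_gen hp Dg φ.range ?_ ?_
    · intro g
      obtain ⟨σ, x, hx⟩ := h1 (mkW Dg g)
      refine ⟨φ σ, ⟨σ, rfl⟩, ?_⟩
      have h3 : vqW Dg (eta D Dg f σ) * vqW Dg (x - eta D Dg f σ) = vqW Dg x := by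
        rw [← vqW_add, add_sub_cancel]
      have h4 : mkW Dg g = mkW Dg (φ σ * Dg.e 0 (x - eta D Dg f σ)) := by
        rw [map_mul, hφ.2.1 σ, mul_assoc]
        rw [hx, ← h3]
        rfl
      obtain ⟨a, ha⟩ := (mkW_eq Dg _ _).1 h4
      refine ⟨a + 0, x - eta D Dg f σ, ?_⟩
      rw [ha, ← mul_assoc, gt_cen, mul_assoc, gt_mul0]
    · intro z
      obtain ⟨σ, hσ⟩ := kk_surj (Ω := Ω) hp hζ (fun j => akR D Dg.cr ε f j)
        (gep_indep hp hζ L Dg.cr ε hε.1 f hf h2) (Multiplicative.toAdd z)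
      refine ⟨φ σ, ⟨σ, rfl⟩, ?_⟩
      apply Multiplicative.toAdd.injective
      funext j
      rw [hpi, hσ j]

end H38.AS
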