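import Pool.Agent.H38.AS.GOf
import Pool.Agent.H38.AS.GEp
import Pool.Agent.H38.AS.GCt
import Pool.Agent.H63.BU.UMain

/-!
# [H38 AS GSY] the number of typed surjective homomorphisms of given type, 110-170 lines (as cca in H63/MC/CCa.lean). File Pool/Agent/H38/AS/GSy.lean

`SY φ₁ X`: the surjective `φ` of finite type, all of whose ramified primes outside `S0` are of some type, with the local type of `φ₁` at `S0` and `∏ nm v ≤ X` over the ramified `v ∉ S0`. Its number is the sum over the base homomorphisms `β ∈ Bs` and the families `f` of good primes of `#{φ ∈ XB β f | Teq S0 Q φ φ₁}`, under the conditions `Dj f`, `∏ nr (f i) ≤ X`, `SpR` and (i).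

Proof. For `φ ∈ SY` let `f i = {v : Ty Dg L φ i v}` (finite: `umain_sets` in `H63/BU/UMain.lean`); `gof_ok`, `gof` give `Ok D f`, good primes and `β` with `φ ∈ XB β f`, `β ∈ Bs`. The ramified `v ∉ S0` are those in `⋃ f i` (`gin_rm`), so `∏_{v ∈ T} nm v = ∏_i nr (f i) ≤ X` (`Dj f`: `Finset.prod_biUnion`; `nr n = ∏ v ∈ n, nm v`), and each `f i ∈ GF D X` (all `nr ≥ 1`; `atupa_mem_GF`-like).
`gsu` gives `SpR (ε β) f` and (i). Conversely for such `β, f` every `φ ∈ XB β f` with `Teq S0 Q φ φ₁` is in `SY`: surjective by `gsu`, typed by `gin_rm`, `gin_ty`. So `SY` is the union over the pairs `(β, f)` satisfying the conditions of the sets `{φ ∈ XB β f | Teq S0 Q φ φ₁}`, which are finite (`gct`, or empty) and pairwise disjoint: `f` is determined by `φ` (`gin_ty`), then `β` (`gof_uni`).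
(`Set.ncard` of a finite disjoint union: as in the proof of `cca`, or `Finset.card_biUnion` for `toFinset`s.)
-/

set_option autoImplicit false

open scoped NumberField
open IsDedekindDomain
open scoped Classical

noncomputable section

namespace H38.AS

open H63.MA H38.BB H38.BG

variable {K : Type} [Field K] [NumberField K] {Ω : Type} [Field Ω] [Algebra K Ω]
  [IsAlgClosure K Ω] {p m u w N : ℕ} {ζ : K} {G : Type} [Group G]

/-- the typed surjective homomorphisms of the type of `φ₁` with bounded ramification -/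
def SY (D : RD0 K p ζ) (L : LDs D Ω) (Q : DP K Ω) (Dg : GT p m u w N G)
    (φ₁ : Gal(Ω/K) →* G) (X : ℝ) : Set (Gal(Ω/K) →* G) :=
  {φ | H38.ML.FT φ ∧ Function.Surjective φ ∧ (∀ v, Rm L φ v → ∃ i, Ty Dg L φ i v) ∧
    Teq D.S0 Q φ φ₁ ∧ ∃ T : Finset (Pl K), (∀ v, v ∈ T ↔ Rm L φ v) ∧
      ∏ v ∈ T, (nm v : ℝ) ≤ X}

/-- the condition on the pairs `(β, f)` -/
private def gsyC (D : RD0 K p ζ) (Dg : GT p m u w N G)
    (ε : (Gal(Ω/K) →* G ⧸ WS Dg) → Fin m → Kˣ) (X : ℝ)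
    (β : Gal(Ω/K) →* G ⧸ WS Dg) (f : Fin N → Finset (Pl K)) : Prop :=
  Dj f ∧ ∏ i, nr (f i) ≤ X ∧ SpR Dg.cr (ε β) f ∧
    (∀ g : G ⧸ WS Dg, ∃ σ x, g = β σ * vqW Dg x)

private theorem gsy_gf {D : RD0 K p ζ} {X : ℝ} {n : Finset (Pl K)} :
    n ∈ GF D X ↔ nr n ≤ X ∧ ∀ v ∈ n, D.Gd v := by
  unfold GF
  rw [Finset.mem_filter, mem_AF]

private theorem gsy_prod (f : Fin N → Finset (Pl K)) (hf : Dj f) (T : Finset (Pl K))
    (hT : ∀ v, v ∈ T ↔ ∃ i, v ∈ f i) : ∏ v ∈ T, (nm v : ℝ) = ∏ i, nr (f i) := by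
  have h : T = Finset.univ.biUnion f := by
    ext v
    rw [hT v]
    simp
  rw [h, Finset.prod_biUnion]
  · rfl
  · intro a _ b _ hab
    exact hf a b hab

private theorem gsy_le (f : Fin N → Finset (Pl K)) (i : Fin N) : nr (f i) ≤ ∏ j, nr (f j) := by
  rw [← Finset.mul_prod_erase Finset.univ (fun j => nr (f j)) (Finset.mem_univ i)]
  have h0 : 0 ≤ nr (f i) := (zero_le_one.trans (one_le_nr _))
  refine le_mul_of_one_le_right h0 ?_
  refine Finset.prod_induction (fun j => nr (f j)) (fun x => 1 ≤ x) ?_ le_rfl ?_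
  · intro x y hx hy
    exact one_le_mul_of_one_le_of_one_le hx hy
  · intro j _
    exact one_le_nr _

theorem gsy [Finite G] (hp : p.Prime) (hζ : IsPrimitiveRoot ζ p) (D : RD0 K p ζ) (L : LDs D Ω)
    (Q : DP K Ω) (Dg : GT p m u w N G) (Bs : Finset (Gal(Ω/K) →* G ⧸ WS Dg))
    (hBs : ∀ β, β ∈ Bs ↔ IsB D L Dg β) (ε : (Gal(Ω/K) →* G ⧸ WS Dg) → Fin m → Kˣ)
    (hε : ∀ β ∈ Bs, EpB D Dg (ε β) β) (φ₁ : Gal(Ω/K) →* G) (X : ℝ) :
    (SY D L Q Dg φ₁ X).Finite ∧ ((SY D L Q Dg φ₁ X).ncard : ℝ) =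
      ∑ β ∈ Bs, ∑ f ∈ Fintype.piFinset (fun _ : Fin N => GF D X),
        if Dj f ∧ ∏ i, nr (f i) ≤ X ∧ SpR Dg.cr (ε β) f ∧
            (∀ g : G ⧸ WS Dg, ∃ σ x, g = β σ * vqW Dg x) then
          (({φ ∈ XB D L Dg β f | Teq D.S0 Q φ φ₁}.ncard : ℕ) : ℝ) else 0 := by
  set P : Finset ((Gal(Ω/K) →* G ⧸ WS Dg) × (Fin N → Finset (Pl K))) :=
    (Bs ×ˢ Fintype.piFinset (fun _ : Fin N => GF D X)).filter
      fun pr => gsyC D Dg ε X pr.1 pr.2 with hP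
  have hPm : ∀ pr, pr ∈ P ↔ IsB D L Dg pr.1 ∧ (∀ i, pr.2 i ∈ GF D X) ∧
      gsyC D Dg ε X pr.1 pr.2 := by
    intro pr
    rw [hP, Finset.mem_filter, Finset.mem_product, hBs, Fintype.mem_piFinset, and_assoc]
  have hPok : ∀ pr ∈ P, Ok D pr.2 ∧ ∀ i, ∀ v ∈ pr.2 i, D.Gd v := by
    intro pr hpr
    obtain ⟨-, h2, h3⟩ := (hPm pr).1 hpr
    have hg : ∀ i, ∀ v ∈ pr.2 i, D.Gd v := fun i => (gsy_gf.1 (h2 i)).2
    exact ⟨⟨h3.1, fun i v hv => (hg i v hv).1⟩, hg⟩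
  obtain ⟨Sp, hSp⟩ : ∃ Sp : ((Gal(Ω/K) →* G ⧸ WS Dg) × (Fin N → Finset (Pl K))) →
      Set (Gal(Ω/K) →* G), Sp = fun pr => {φ ∈ XB D L Dg pr.1 pr.2 | Teq D.S0 Q φ φ₁} := ⟨_, rfl⟩
  have hfin : ∀ pr ∈ P, (Sp pr).Finite := by
    intro pr hpr
    rw [hSp]
    rcases (XB D L Dg pr.1 pr.2).eq_empty_or_nonempty with h0 | h0
    · refine Set.Finite.subset (Set.finite_empty) ?_
      intro φ hφ
      have := hφ.1
      rw [h0] at this
      exact this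
    · exact (gct hp hζ D L Dg pr.1 pr.2 (hPok pr hpr).1 h0).1.subset fun φ hφ => hφ.1
  -- the union
  have hunion : ∀ φ, φ ∈ SY D L Q Dg φ₁ X ↔ ∃ pr ∈ P, φ ∈ Sp pr := by
    intro φ
    constructor
    · rintro ⟨hft, hsur, hty, hteq, T, hT, hTX⟩
      obtain ⟨f, E, hf, -⟩ := H63.BU.umain_sets L Dg φ hft
      obtain ⟨hok, hgd⟩ := gof_ok D L Dg φ f hf
      obtain ⟨β, hβ, hφ⟩ := gof hp hζ D L Dg φ hft hty f hf
      have hεβ := hε β ((hBs β).2 hβ)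
      obtain ⟨hi, hsp⟩ := (gsu hp hζ D L Dg β hβ (ε β) hεβ f hok φ hφ).1 hsur
      have hprod : ∏ i, nr (f i) ≤ X := by
        rw [← gsy_prod f hok.1 T fun v =>
          (hT v).trans (gin_rm hp hζ D L Dg β hβ f hok φ hφ v)]
        exact hTX
      refine ⟨(β, f), (hPm _).2 ⟨hβ, fun i => gsy_gf.2 ⟨(gsy_le f i).trans hprod, hgd i⟩,
        hok.1, hprod, hsp, hi⟩, ?_⟩
      rw [hSp]
      exact ⟨hφ, hteq⟩
    · rintro ⟨pr, hpr, hφ⟩
      rw [hSp] at hφ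
      obtain ⟨hφ, hteq⟩ := hφ
      obtain ⟨hok, hgd⟩ := hPok pr hpr
      obtain ⟨hβ, -, hdj, hprod, hsp, hi⟩ := (hPm pr).1 hpr
      have hrm := gin_rm hp hζ D L Dg pr.1 hβ pr.2 hok φ hφ
      have hty := gin_ty hp hζ D L Dg pr.1 hβ pr.2 hdj hgd φ hφ
      refine ⟨hφ.1, (gsu hp hζ D L Dg pr.1 hβ (ε pr.1) (hε pr.1 ((hBs _).2 hβ)) pr.2 hok φ
        hφ).2 ⟨hi, hsp⟩, fun v hv => ?_, hteq, Finset.univ.biUnion pr.2, fun v => ?_, ?_⟩
      · obtain ⟨i, hiv⟩ := (hrm v).1 hv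
        exact ⟨i, (hty i v).2 hiv⟩
      · rw [hrm v]
        simp
      · rw [gsy_prod pr.2 hdj _ fun v => by simp]
        exact hprod
  have hdisj : ∀ pr ∈ P, ∀ pr' ∈ P, pr ≠ pr' → ∀ φ, φ ∈ Sp pr → φ ∉ Sp pr' := by
    intro pr hpr pr' hpr' hne φ h h'
    apply hne
    rw [hSp] at h h'
    obtain ⟨hok, hgd⟩ := hPok pr hpr
    obtain ⟨hok', hgd'⟩ := hPok pr' hpr'
    have hβ := ((hPm pr).1 hpr).1
    have hβ' := ((hPm pr').1 hpr').1
    have e2 : pr.2 = pr'.2 := by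
      funext i
      ext v
      rw [← gin_ty hp hζ D L Dg pr.1 hβ pr.2 hok.1 hgd φ h.1 i v,
        gin_ty hp hζ D L Dg pr'.1 hβ' pr'.2 hok'.1 hgd' φ h'.1 i v]
    have e1 : pr.1 = pr'.1 := by
      refine gof_uni D L Dg pr.1 pr'.1 pr.2 φ h.1 ?_
      rw [e2]
      exact h'.1
    exact Prod.ext e1 e2
  -- counting
  obtain ⟨Tf, hTf⟩ : ∃ Tf : ((Gal(Ω/K) →* G ⧸ WS Dg) × (Fin N → Finset (Pl K))) →
      Finset (Gal(Ω/K) →* G), ∀ pr ∈ P, ∀ φ, φ ∈ Tf pr ↔ φ ∈ Sp pr := by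
    refine ⟨fun pr => if h : (Sp pr).Finite then h.toFinset else ∅, fun pr hpr φ => ?_⟩
    show (φ ∈ (if h : (Sp pr).Finite then h.toFinset else ∅)) ↔ _
    rw [dif_pos (hfin pr hpr), Set.Finite.mem_toFinset]
  have hSY : SY D L Q Dg φ₁ X = ((P.biUnion Tf : Finset (Gal(Ω/K) →* G)) : Set _) := by
    ext φ
    rw [hunion φ, Finset.mem_coe, Finset.mem_biUnion]
    constructor
    · rintro ⟨pr, hpr, h⟩
      exact ⟨pr, hpr, (hTf pr hpr φ).2 h⟩
    · rintro ⟨pr, hpr, h⟩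
      exact ⟨pr, hpr, (hTf pr hpr φ).1 h⟩
  refine ⟨by rw [hSY]; exact Finset.finite_toSet _, ?_⟩
  rw [hSY, Set.ncard_coe_finset, Finset.card_biUnion]
  · have e1 : ∀ pr ∈ P, (Tf pr).card = (Sp pr).ncard := by
      intro pr hpr
      rw [← Set.ncard_coe_finset]
      congr 1
      ext φ
      rw [Finset.mem_coe]
      exact hTf pr hpr φ
    rw [Finset.sum_congr rfl e1, Nat.cast_sum, hP, Finset.sum_filter, Finset.sum_product]
    refine Finset.sum_congr rfl fun β _ => Finset.sum_congr rfl fun f _ => ?_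
    rw [hSp]
    by_cases hc : gsyC D Dg ε X β f
    · rw [if_pos hc]
      exact (if_pos hc).symm
    · rw [if_neg hc]
      exact (if_neg hc).symm
  · intro pr hpr pr' hpr' hne
    rw [Function.onFun, Finset.disjoint_left]
    intro φ h h'
    exact hdisj pr hpr pr' hpr' hne φ ((hTf pr hpr φ).1 h) ((hTf pr' hpr' φ).1 h')

end H38.AS
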