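import Pool.Agent.H38.BG.AMain
import Pool.Agent.H63.MC.CFin
import Pool.Agent.H38.AS.GSy
import Pool.Agent.H38.AS.GFt

/-!
# AS-PDEF: definitions for the last part (complete)

P159 (helper38), proof: /team-store/h38_as_proof.md, part 4.
* `LQ L Q`: the primes of the local data `L` are the primes of `Q`. `lds_of`: for every `Q` there is such an `L`.
* `Ne Dg L φ v`: `v` is a ramified prime outside `S0` which is of no type.
* `NE G K L Dg i₀ E B`: the surjective `φ : Γ → G` of finite type with discriminant `≤ B` whose set of such primes is `E`.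
-/

set_option autoImplicit false

open scoped NumberField
open IsDedekindDomain H38.ML
open scoped Classical

noncomputable section

namespace H38.AS

open H63.MA H38.BB H38.BG

section gen

variable {K : Type} [Field K] [NumberField K] {Ω : Type} [Field Ω] [Algebra K Ω]
  {p m u w N : ℕ} {ζ : K} {G : Type} [Group G]

/-- the local data use the primes of `Q` -/
def LQ {D : RD0 K p ζ} (L : LDs D Ω) (Q : DP K Ω) : Prop :=
  ∀ v (h : v ∉ D.S0), (L.ld v h).P = Q.P v

theorem lds_of [IsAlgClosure K Ω] (hp : p.Prime) (hζ : IsPrimitiveRoot ζ p) (D : RD0 K p ζ)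
    (Q : DP K Ω) : ∃ L : LDs D Ω, LQ L Q := by
  have h : ∀ v : Pl K, v ∉ D.S0 → ∃ L' : LD p ζ Ω v (D.pi v), L'.P = Q.P v := fun v hv =>
    H63.BU.uord_at Ω hp hζ (fun h => hv (D.above v h)) (D.pi_self v hv) (Q.P v) (Q.prime v)
      (Q.under v)
  choose l hl using h
  exact ⟨⟨l⟩, hl⟩

/-- ramified outside `S0` and of no type -/
def Ne (Dg : GT p m u w N G) {D : RD0 K p ζ} (L : LDs D Ω) (φ : Gal(Ω/K) →* G) (v : Pl K) :
    Prop := Rm L φ v ∧ ∀ i, ¬ Ty Dg L φ i v

end gen

/-- the homomorphisms with given set of untyped primes -/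
def NE {n p m u w N : ℕ} (G : Subgroup (Equiv.Perm (Fin n))) (K : IntermediateField ℚ QBar)
    [NumberField K] {ζ : K} {D : RD0 K p ζ} (L : LDs D QBar) (Dg : GT p m u w N G)
    (i₀ : Fin n) (E : Finset (Pl K)) (B : ℝ) : Set (Gal(QBar/K) →* G) :=
  {φ | FT φ ∧ Function.Surjective φ ∧ (H38.ML.relDisc K (fieldOf i₀ φ) : ℝ) ≤ B ∧
    ∀ v, v ∈ E ↔ Ne Dg L φ v}

end H38.AS
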