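import Pool.Agent.H63.BU.UMain

/-!
# [H38 AS GUE] summable bounds for the number of homomorphisms with given untyped primes, 80-120 lines (from the proof of gup, H63/BU/UMain.lean). File Pool/Agent/H38/AS/GUe.lean

Hypotheses as in `gup`. There is a summable family `wt E ≥ 0` (`E` a finite set of primes) such that for `B ≥ 3`, every `E` and every finite set `Rs` of surjective `φ` with bounded ramification whose set of ramified untyped primes outside `S0` is `E`: `#Rs ≤ wt E * (B^{1/a} (log B)^{N-1})`.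

Proof. Copy the proof of `gup` up to `hcardE` and `hQ`: for `Rs` with `(e φ).1 = E` for all `φ ∈ Rs` (the set `E` is given here, so only the component `e.2 = b` has to be chosen) `hcardE` gives `#Rs ≤ ((C₁ (#U)^m C₂) X (2 log B)^{N-1}) * (q^{#E} (nr E)^η ∏_{v ∈ E} nm v^(-co a v / a))`, `X = B^{1/a}`. So `wt E = C₁ (#U)^m C₂ 2^{N-1} * (q^{#E} (nr E)^η ∏ ...)`.
It is summable: all terms are nonnegative and all finite partial sums are bounded by `usum` (`summable_of_sum_le`).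
-/

set_option autoImplicit false

open scoped NumberField
open IsDedekindDomain
open scoped Classical

noncomputable section

namespace H38.AS

open H63.MA H38.BB H38.BG H63.BU

variable {K : Type} [Field K] [NumberField K] {Ω : Type} [Field Ω] [Algebra K Ω] [IsAlgClosure K Ω]
  {p : ℕ} {ζ : K}

theorem gue (hp : p.Prime) (hp2 : MOne p K) (hζ : IsPrimitiveRoot ζ p) (D : RD K p ζ)
    (L : LDs D.toRD0 Ω) {m u w N : ℕ} {G : Type} [Group G] [Finite G]
    (hnil : Group.IsNilpotent G) (Dg : GT p m u w N G) (hN : 1 ≤ N) (z : K)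
    (hz : IsPrimitiveRoot z (Nat.card G))
    (hS : ∀ v : Pl K, ((Nat.card G : ℕ) : 𝓞 K) ∈ v.asIdeal → v ∈ D.S0) (a : ℕ) (ha : 0 < a)
    (ix : Subgroup G → ℕ) (h1 : ∀ H, H ≠ ⊥ → a ≤ ix H)
    (h2 : ∀ g : G, g ≠ 1 → ix (Subgroup.zpowers g) ≤ a → ∃ i, IsConj g (Dg.g i)) :
    ∃ wt : Finset (Pl K) → ℝ, Summable wt ∧ (∀ E, 0 ≤ wt E) ∧
      ∀ (B : ℝ) (E : Finset (Pl K)), 3 ≤ B → ∀ Rs : Finset (Gal(Ω/K) →* G),
      (∀ φ ∈ Rs, H38.ML.FT φ ∧ Function.Surjective φ ∧ (∀ T : Finset (Pl K),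
        (∀ v ∈ T, v ∉ D.S0) → ∏ v ∈ T, (nm v : ℝ) ^ ix ((inr L v).map φ) ≤ B) ∧
        ∀ v, v ∈ E ↔ Rm L φ v ∧ ∀ i, ¬ Ty Dg L φ i v) →
      (Rs.card : ℝ) ≤ wt E * (B ^ (1 / (a : ℝ)) * Real.log B ^ (N - 1)) := by
  have : NeZero p := ⟨hp.ne_zero⟩
  have haR : (0 : ℝ) < (a : ℝ) := by exact_mod_cast ha
  have ha1 : (1 : ℝ) ≤ (a : ℝ) := by exact_mod_cast ha
  obtain ⟨U, hU1, hU2⟩ := unit_reps hp D.S0
  obtain ⟨C₁, hcnt⟩ := ucnt hp hζ D.toRD0 L hnil Dg z hz hS a ha ix h1 h2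
  set η : ℝ := 1 / (4 * (a : ℝ)) with hη
  have hη0 : 0 < η := by positivity
  obtain ⟨C₂, hC₂, hub⟩ := ub hp hp2 hζ D Dg.cr hN η hη0
  set q : ℝ := (Nat.card G : ℝ) * (p : ℝ) ^ m with hq
  have hq0 : 0 ≤ q := by positivity
  obtain ⟨C₃, hC₃, hsum⟩ := usum K a ha q hq0
  have hbase0 : ∀ E : Finset (Pl K), 0 ≤ q ^ E.card * nr E ^ η *
      ∏ v ∈ E, (nm v : ℝ) ^ (-((co a v : ℝ) / (a : ℝ))) := by
    intro E
    have hnr := one_le_nr E
    have : 0 ≤ ∏ v ∈ E, (nm v : ℝ) ^ (-((co a v : ℝ) / (a : ℝ))) :=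
      Finset.prod_nonneg fun v _ => Real.rpow_nonneg (Nat.cast_nonneg _) _
    positivity
  refine ⟨fun E => ((C₁ : ℝ) * (U.card : ℝ) ^ m * C₂ * 2 ^ (N - 1)) *
    (q ^ E.card * nr E ^ η * ∏ v ∈ E, (nm v : ℝ) ^ (-((co a v : ℝ) / (a : ℝ)))),
    Summable.mul_left _ (summable_of_sum_le hbase0 hsum),
    fun E => mul_nonneg (by positivity) (hbase0 E), ?_⟩
  intro B E hB Rs hRs
  have hB1 : 1 ≤ B := by linarith
  have hB0 : 0 < B := by linarith
  have hlog1 : 1 ≤ Real.log B := by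
    rw [Real.le_log_iff_exp_le hB0]
    exact Real.exp_one_lt_three.le.trans hB
  set X : ℝ := B ^ (1 / (a : ℝ)) with hX
  have hX1 : 1 ≤ X := Real.one_le_rpow hB1 (by positivity)
  have hX0 : 0 < X := by linarith
  -- the data
  have hex : ∀ φ : Gal(Ω/K) →* G, ∃ (b : Fin m → Kˣ), φ ∈ Rs →
      b ∈ Bb D.toRD0 U E m ∧ BS2 D.toRD0 b E ∧ 1 ≤ UY B a E ∧
      ∀ f : Fin N → Finset (Pl K), (∀ i v, v ∈ f i ↔ Ty Dg L φ i v) →
          SpR Dg.cr b f ∧ wtR Dg.cr f (fun v k => D.LL v (akR D.toRD0 Dg.cr b f k)) =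
            ∏ i, (Nat.card {h : G // IsConj h (Dg.g i)} : ℝ) ^ (f i).card := by
    intro φ
    by_cases hφ : φ ∈ Rs
    · obtain ⟨hft, hs, hT, hE⟩ := hRs φ hφ
      obtain ⟨f, -, hf, -⟩ := umain_sets L Dg φ hft
      obtain ⟨b, hb, hbs, -, hsp, hw⟩ := ukum hp hζ D.toRD0 L Dg U hU1 hU2 φ hft hs f E hf hE
      obtain ⟨-, -, -, h3, h4, -⟩ := ucnt_nr hp hζ D.toRD0 L Dg hS a ha ix h1 h2 φ hft B hT f E hf hE
      refine ⟨b, fun _ => ⟨hb, hbs, h3, fun f' hf' => ?_⟩⟩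
      have hff : f' = f := by
        funext i
        ext v
        rw [hf' i v, hf i v]
      rw [hff]
      exact ⟨hsp, hw⟩
    · exact ⟨fun _ => 1, fun h => absurd h hφ⟩
  choose e he using hex
  -- the fibres
  have hUY := uy_le B hB1 a E
  have hnr := one_le_nr E
  have hfib : ∀ (b : Fin m → Kˣ),
      ((Rs.filter fun φ => e φ = b).card : ℝ) ≤
        (C₁ : ℝ) * (Nat.card G : ℝ) ^ E.card *
          (C₂ * nr E ^ η * UY B a E * (2 * Real.log B) ^ (N - 1)) := by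
    intro b
    have hrhs : 0 ≤ (C₁ : ℝ) * (Nat.card G : ℝ) ^ E.card *
          (C₂ * nr E ^ η * UY B a E * (2 * Real.log B) ^ (N - 1)) := by
      have : 0 ≤ UY B a E := hUY.1
      positivity
    rcases (Rs.filter fun φ => e φ = b).eq_empty_or_nonempty with h0 | ⟨φ₀, hφ₀⟩
    · rw [h0, Finset.card_empty, Nat.cast_zero]
      exact hrhs
    rw [Finset.mem_filter] at hφ₀
    obtain ⟨hφ₀, hb₀⟩ := hφ₀
    obtain ⟨-, hbs, hUY1, -⟩ := he φ₀ hφ₀
    rw [hb₀] at hbs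
    have h3 := hcnt B E b (Rs.filter fun φ => e φ = b) (by
      intro φ hφ
      rw [Finset.mem_filter] at hφ
      obtain ⟨hφ, hb⟩ := hφ
      obtain ⟨-, -, -, b7⟩ := he φ hφ
      rw [hb] at b7
      exact ⟨(hRs φ hφ).1, (hRs φ hφ).2.2.1, (hRs φ hφ).2.2.2, b7⟩)
    have h4 := hub b E hbs (UY B a E) hUY1
    have hlogU : Real.log (UY B a E) ≤ Real.log B := by
      have h5 : UY B a E ≤ B := by
        refine hUY.2.trans ?_
        calc B ^ (1 / (a : ℝ)) ≤ B ^ (1 : ℝ) := by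
              refine Real.rpow_le_rpow_of_exponent_le hB1 ?_
              rw [div_le_one haR]
              exact ha1
          _ = B := Real.rpow_one B
      exact Real.log_le_log (by linarith) h5
    have hlogU0 : 0 ≤ Real.log (UY B a E) := Real.log_nonneg hUY1
    have h6 : (1 + Real.log (UY B a E)) ^ (N - 1) ≤ (2 * Real.log B) ^ (N - 1) :=
      pow_le_pow_left₀ (by linarith) (by linarith) _
    have h7 : SW D.toRD0 Dg.cr b E (fun _ => 1) (UY B a E) ≤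
        C₂ * nr E ^ η * UY B a E * (2 * Real.log B) ^ (N - 1) := by
      refine h4.trans ?_
      refine mul_le_mul_of_nonneg_left h6 ?_
      have : 0 ≤ UY B a E := hUY.1
      positivity
    refine h3.trans ?_
    exact mul_le_mul_of_nonneg_left h7 (by positivity)
  have hcardE : (Rs.card : ℝ) ≤
      ((U.card : ℝ) * (p : ℝ) ^ E.card) ^ m * ((C₁ : ℝ) * (Nat.card G : ℝ) ^ E.card *
          (C₂ * nr E ^ η * UY B a E * (2 * Real.log B) ^ (N - 1))) := by
    have hmap : ∀ φ ∈ Rs, e φ ∈ Bb D.toRD0 U E m := by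
      intro φ hφ
      exact (he φ hφ).1
    rw [Finset.card_eq_sum_card_fiberwise hmap]
    push_cast
    calc ∑ b ∈ Bb D.toRD0 U E m, ((Rs.filter fun φ => e φ = b).card : ℝ) ≤
        ∑ b ∈ Bb D.toRD0 U E m, (C₁ : ℝ) * (Nat.card G : ℝ) ^ E.card *
          (C₂ * nr E ^ η * UY B a E * (2 * Real.log B) ^ (N - 1)) :=
          Finset.sum_le_sum fun b _ => hfib b
      _ = ((Bb D.toRD0 U E m).card : ℝ) * ((C₁ : ℝ) * (Nat.card G : ℝ) ^ E.card *
          (C₂ * nr E ^ η * UY B a E * (2 * Real.log B) ^ (N - 1))) := by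
          rw [Finset.sum_const, nsmul_eq_mul]
      _ ≤ _ := by
          refine mul_le_mul_of_nonneg_right ?_ ?_
          · have h5 := ubb_card D.toRD0 U E m
            exact_mod_cast h5
          · have : 0 ≤ UY B a E := hUY.1
            positivity
  refine hcardE.trans (le_of_eq ?_)
  have e1 : q ^ E.card = (Nat.card G : ℝ) ^ E.card * ((p : ℝ) ^ E.card) ^ m := by
    rw [hq, mul_pow, ← pow_mul, ← pow_mul, mul_comm m]
  have e2 : UY B a E = X * ∏ v ∈ E, (nm v : ℝ) ^ (-((co a v : ℝ) / (a : ℝ))) := rfl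
  beta_reduce
  rw [e1, e2, mul_pow, mul_pow]
  ring

end H38.AS
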