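import Pool.Agent.H38.AS.PDef
import Pool.Agent.H38.AS.GUe
import Pool.Agent.H38.BG.DLo

/-!
# AS-EDM: domination of the numbers of homomorphisms with given untyped primes (assembly of GUE and DLO)
-/

set_option autoImplicit false

open scoped NumberField
open IsDedekindDomain Filter Topology H38.ML
open scoped Classical

noncomputable section

namespace H38.AS

open H63.MA H38.BB H38.BG

theorem edm {n : ℕ} (hn : 2 ≤ n) (G : Subgroup (Equiv.Perm (Fin n)))
    (hG : MulAction.IsPretransitive G (Fin n)) (hnil : Group.IsNilpotent G)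
    {p : ℕ} (hp : p.Prime) (K : IntermediateField ℚ QBar) [NumberField K]
    (hp2 : MOne p K) {ζ : K} (hζ : IsPrimitiveRoot ζ p) {m u w N : ℕ}
    (Dg : GT p m u w N G) (hN : 1 ≤ N)
    (hI : ∀ h : G, (h ≠ 1 ∧ ind (h : Equiv.Perm (Fin n)) = indG G) ↔ ∃ i, IsConj h (Dg.g i))
    (z : K) (hz : IsPrimitiveRoot z (Nat.card G)) (D : RD K p ζ)
    (hS : ∀ v : Pl K, ((Nat.card G : ℕ) : 𝓞 K) ∈ v.asIdeal → v ∈ D.S0)
    (L : LDs D.toRD0 QBar) (i₀ : Fin n) :
    ∃ wt : Finset (Pl K) → ℝ, Summable wt ∧ (∀ E, 0 ≤ wt E) ∧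
      ∀ (B : ℝ) (E : Finset (Pl K)), 3 ≤ B → (NE G K L Dg i₀ E B).Finite →
        ((NE G K L Dg i₀ E B).ncard : ℝ) ≤
          wt E * (B ^ (1 / (indG G : ℝ)) * Real.log B ^ (N - 1)) := by
  obtain ⟨ha, -, hmin, -, hJ⟩ := pidx_pos hn G hG
  obtain ⟨wt, h1, h2, h3⟩ := gue hp hp2 hζ D L hnil Dg hN z hz hS (indG G) ha
    (fun H => n - orbs (H.map G.subtype))
    (fun H hH => by
      have := hJ H hH
      omega)
    (fun g hg h => by
      refine (hI g).1 ⟨hg, le_antisymm ?_ (hmin g hg)⟩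
      have h1 : (Subgroup.zpowers g).map G.subtype =
          Subgroup.zpowers (g : Equiv.Perm (Fin n)) := by
        rw [MonoidHom.map_zpowers]
        rfl
      rw [h1] at h
      exact h)
  refine ⟨wt, h1, h2, fun B E hB hfin => ?_⟩
  have h4 := h3 B E hB hfin.toFinset (by
    intro φ hφ
    rw [Set.Finite.mem_toFinset] at hφ
    obtain ⟨h5, h6, h7, h8⟩ := hφ
    exact ⟨h5, h6, fun T hT => (dsm_lo hn G hG K D.toRD0 L i₀ φ h6 h5 T hT).trans h7, h8⟩)
  rw [Set.ncard_eq_toFinset_card _ hfin]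
  exact h4

end H38.AS
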