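import Pool.Agent.H63.MC.CDa

/-!
# [H38 AS QLA] the different in towers, abstract lemmas for `ldc2` (helper77). File Pool/Agent/H38/AS/QLa.lean
-/

set_option autoImplicit false

open scoped NumberField Pointwise
open IsDedekindDomain

noncomputable section

namespace H38.AS

open H63.MA

theorem qla_bij (L M : Type) [Field L] [NumberField L] [Field M] [NumberField M] [Algebra L M]
    (h : Function.Surjective (algebraMap L M)) (Q : Ideal (𝓞 M)) (hQ : Q.IsPrime) :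
    ¬ Q ∣ differentIdeal (𝓞 L) (𝓞 M) := by
  rw [not_dvd_differentIdeal_iff]
  have hs : Function.Surjective (algebraMap (𝓞 L) (𝓞 M)) := by
    intro y
    obtain ⟨x, hx⟩ := h (y : M)
    have hx2 : IsIntegral ℤ x := by
      have h1 : IsIntegral ℤ (algebraMap L M x) := by
        rw [hx]
        exact y.2
      exact (isIntegral_algebraMap_iff (algebraMap L M).injective).1 h1
    exact ⟨⟨x, hx2⟩, NumberField.RingOfIntegers.ext hx⟩
  have : Algebra.FormallyUnramified (𝓞 L) (𝓞 M) :=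
    Algebra.FormallyUnramified.of_surjective (Algebra.ofId (𝓞 L) (𝓞 M)) hs
  exact (inferInstance : Algebra.FormallyUnramified (𝓞 L) (Localization Q.primeCompl))

theorem qla_loc (K L M : Type) [Field K] [NumberField K] [Field L] [NumberField L] [Field M]
    [NumberField M] [Algebra K L] [Algebra L M] [Algebra K M] [IsScalarTower K L M]
    (Q : Ideal (𝓞 M)) (hQ : Q.IsPrime) (hQ0 : Q ≠ ⊥) :
    H38.ML.dexp K M Q = H38.ML.dexp L M Q +
      Q.ramificationIdx (𝓞 L) * H38.ML.dexp K L (Q.under (𝓞 L)) := by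
  classical
  have hPp : (Q.under (𝓞 L)).IsPrime := Ideal.IsPrime.under (𝓞 L) Q
  have hP0 : Q.under (𝓞 L) ≠ ⊥ := H38.ML.under_ne L M Q hQ0
  have e1 := differentIdeal_eq_differentIdeal_mul_differentIdeal (𝓞 K) (𝓞 L) (𝓞 M)
  have e2 := CDa_emult K M Q hQ hQ0
  have hQi := (Ideal.prime_of_isPrime hQ0 hQ)
  have hPi := (Ideal.prime_of_isPrime hP0 hPp)
  have : Q.LiesOver (Q.under (𝓞 L)) := ⟨rfl⟩
  rw [e1, emultiplicity_mul hQi, CDa_emult L M Q hQ hQ0,
    Ideal.IsDedekindDomain.emultiplicity_map_eq_ramificationIdx'_mul (H38.ML.different_ne K L)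
      hPi.irreducible hQi.irreducible hQ0, CDa_emult K L _ hPp hP0,
    Ideal.ramificationIdx'_eq_ramificationIdx _ _ hP0] at e2
  exact_mod_cast e2.symm

theorem qla_sum (K L M : Type) [Field K] [NumberField K] [Field L] [NumberField L] [Field M]
    [NumberField M] [Algebra K L] [Algebra L M] [Algebra K M] [IsScalarTower K L M] (v : Pl K)
    (S : Finset (Ideal (𝓞 M))) (hS : ∀ P, P ∈ S ↔ P.IsPrime ∧ P.under (𝓞 K) = v.asIdeal) :
    ldx K M v = Module.finrank L M * ldx K L v +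
      ∑ Q ∈ S, Q.inertiaDeg (𝓞 K) * H38.ML.dexp L M Q := by
  classical
  have hv0 : v.asIdeal ≠ ⊥ := v.ne_bot
  obtain ⟨SM, hSM, hM⟩ := CDa_sum K M v
  obtain ⟨SL, hSL, hL⟩ := CDa_sum K L v
  have hSS : SM = S := by
    ext P
    rw [hSM, hS]
  subst hSS
  have hne : ∀ (F : Type) [Field F] [NumberField F] [Algebra K F] (Q : Ideal (𝓞 F)),
      Q.under (𝓞 K) = v.asIdeal → Q ≠ ⊥ := by
    intro F _ _ _ Q hQ h0
    apply hv0
    rw [← hQ, h0]
    exact Ideal.under_bot _ _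
  have hun : ∀ Q : Ideal (𝓞 M), (Q.under (𝓞 L)).under (𝓞 K) = Q.under (𝓞 K) := fun Q =>
    Ideal.under_under Q
  have hloc : ∀ Q ∈ SM, Q.inertiaDeg (𝓞 K) * H38.ML.dexp K M Q =
      Q.inertiaDeg (𝓞 K) * H38.ML.dexp L M Q +
      Q.inertiaDeg (𝓞 K) * (Q.ramificationIdx (𝓞 L) * H38.ML.dexp K L (Q.under (𝓞 L))) := by
    intro Q hQ
    obtain ⟨hQp, hQv⟩ := (hSM Q).mp hQ
    rw [qla_loc K L M Q hQp (hne M Q hQv), mul_add]
  rw [hM, Finset.sum_congr rfl hloc, Finset.sum_add_distrib, add_comm]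
  congr 1
  rw [hL, Finset.mul_sum]
  have hmap : ∀ Q ∈ SM, Q.under (𝓞 L) ∈ SL := by
    intro Q hQ
    obtain ⟨hQp, hQv⟩ := (hSM Q).mp hQ
    rw [hSL]
    exact ⟨Ideal.IsPrime.under (𝓞 L) Q, by rw [hun, hQv]⟩
  rw [← Finset.sum_fiberwise_of_maps_to hmap]
  refine Finset.sum_congr rfl fun P hP => ?_
  obtain ⟨hPp, hPv⟩ := (hSL P).mp hP
  have hP0 := hne L P hPv
  have : P.IsMaximal := hPp.isMaximal hP0
  have : Fintype (P.primesOver (𝓞 M)) :=
    Set.Finite.fintype (IsDedekindDomain.primesOver_finite P (𝓞 M))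
  have e3 := Ideal.sum_ramification_inertia_eq_finrank (S := 𝓞 M) P
  have e4 : Module.finrank (𝓞 L) (𝓞 M) = Module.finrank L M :=
    (IsFractionRing.finrank_eq (𝓞 L) L (𝓞 M) M).symm
  have e5 := Finset.sum_set_coe (P.primesOver (𝓞 M))
    (f := fun Q => Q.ramificationIdx (𝓞 L) * Q.inertiaDeg (𝓞 L))
  rw [e4] at e3
  have e6 : (P.primesOver (𝓞 M)).toFinset = SM.filter (fun Q => Q.under (𝓞 L) = P) := by
    ext Q
    rw [Set.mem_toFinset, Finset.mem_filter, hSM]
    constructor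
    · rintro ⟨h1, h2⟩
      have h3 : Q.under (𝓞 L) = P := h2.over.symm
      exact ⟨⟨h1, by rw [← hun, h3, hPv]⟩, h3⟩
    · rintro ⟨⟨h1, -⟩, h2⟩
      exact ⟨h1, ⟨h2.symm⟩⟩
  rw [e6] at e5
  rw [← e3, e5, Finset.sum_mul]
  refine Finset.sum_congr rfl fun Q hQ => ?_
  obtain ⟨hQS, hQP⟩ := Finset.mem_filter.mp hQ
  have : Q.LiesOver P := ⟨hQP.symm⟩
  rw [hQP, Ideal.inertiaDeg_tower (R := 𝓞 K) P Q]
  ring

theorem qla_iso (K L M : Type) [Field K] [NumberField K] [Field L] [NumberField L] [Field M]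
    [NumberField M] [Algebra K L] [Algebra K M] (e : L ≃ₐ[K] M) (v : Pl K) :
    ldx K L v = ldx K M v := by
  let : Algebra L M := e.toRingEquiv.toRingHom.toAlgebra
  have : IsScalarTower K L M := IsScalarTower.of_algebraMap_eq (fun x => (e.commutes x).symm)
  have hb : Function.Surjective (algebraMap L M) := e.surjective
  have h1 := CDa_tower K L M v (fun Q hQ _ => qla_bij L M hb Q hQ)
  have h2 : Module.finrank L M = 1 := by
    have h3 : Module.finrank K L * Module.finrank L M = Module.finrank K M :=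
      Module.finrank_mul_finrank K L M
    have h4 : Module.finrank K L = Module.finrank K M := e.toLinearEquiv.finrank_eq
    have h5 : 0 < Module.finrank K M := Module.finrank_pos
    rw [h4] at h3
    exact Nat.eq_of_mul_eq_mul_left h5 (by rw [h3, mul_one])
  rw [h1, h2, one_mul]

theorem qla_disc (K L M : Type) [Field K] [NumberField K] [Field L] [NumberField L] [Field M]
    [NumberField M] [Algebra K L] [Algebra K M] (e : L ≃ₐ[K] M) :
    Ideal.absNorm (differentIdeal (𝓞 K) (𝓞 L)) = Ideal.absNorm (differentIdeal (𝓞 K) (𝓞 M)) := by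
  classical
  obtain ⟨h1, h2⟩ := ldx_prod K L
  obtain ⟨-, h4⟩ := ldx_prod K M
  rw [h2 h1.toFinset (fun v hv => h1.mem_toFinset.2 hv), h4 h1.toFinset (fun v hv =>
    h1.mem_toFinset.2 (by
      rw [← qla_iso K L M e v] at hv
      exact hv))]
  exact Finset.prod_congr rfl fun v _ => by rw [qla_iso K L M e v]

theorem qla_in (L M N : Type) [Field L] [NumberField L] [Field M] [NumberField M] [Field N]
    [NumberField N] [Algebra L M] [Algebra M N] [Algebra L N] [IsScalarTower L M N]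
    [IsGalois L N] (Q : Ideal (𝓞 N)) (hQ : Q.IsPrime) (hQ0 : Q ≠ ⊥)
    (h : ∀ g : Gal(N/L), (∀ x : 𝓞 N, g • x - x ∈ Q) → ∀ m : M,
      g (algebraMap M N m) = algebraMap M N m) :
    H38.ML.dexp L N Q = H38.ML.dexp M N Q := by
  classical
  have : IsGalois M N := IsGalois.tower_top_of_isGalois L M N
  have hLp : (Q.under (𝓞 L)).IsPrime := Ideal.IsPrime.under (𝓞 L) Q
  have hMp : (Q.under (𝓞 M)).IsPrime := Ideal.IsPrime.under (𝓞 M) Q
  have hL0 : Q.under (𝓞 L) ≠ ⊥ := H38.ML.under_ne L N Q hQ0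
  have hM0 : Q.under (𝓞 M) ≠ ⊥ := H38.ML.under_ne M N Q hQ0
  have : (Q.under (𝓞 L)).IsMaximal := hLp.isMaximal hL0
  have : (Q.under (𝓞 M)).IsMaximal := hMp.isMaximal hM0
  have h1 := Ideal.card_inertia_eq_ramificationIdxIn (G := Gal(N/L)) (Q.under (𝓞 L)) Q
  have h2 := Ideal.card_inertia_eq_ramificationIdxIn (G := Gal(N/M)) (Q.under (𝓞 M)) Q
  rw [Ideal.ramificationIdxIn_eq_ramificationIdx (Q.under (𝓞 L)) Q Gal(N/L)] at h1
  rw [Ideal.ramificationIdxIn_eq_ramificationIdx (Q.under (𝓞 M)) Q Gal(N/M)] at h2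
  have h3 : Nat.card (Q.inertia Gal(N/L)) ≤ Nat.card (Q.inertia Gal(N/M)) := by
    let f : Q.inertia Gal(N/L) → Q.inertia Gal(N/M) := fun g =>
      ⟨AlgEquiv.ofRingEquiv (f := (g.1 : N ≃+* N)) (fun m => h g.1 g.2 m), fun x => g.2 x⟩
    refine Nat.card_le_card_of_injective f ?_
    intro g g' hgg
    apply Subtype.ext
    apply AlgEquiv.ext
    intro x
    exact DFunLike.congr_fun (congrArg Subtype.val hgg) x
  have hLM : Q.LiesOver (Q.under (𝓞 M)) := ⟨rfl⟩
  have h4 := Ideal.ramificationIdx_tower (R := 𝓞 L) (Q.under (𝓞 M)) Q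
  have h5 : 0 < Q.ramificationIdx (𝓞 M) := Ideal.ramificationIdx_pos Q (𝓞 M)
  have h6 : 0 < Q.ramificationIdx (𝓞 L) := Ideal.ramificationIdx_pos Q (𝓞 L)
  rw [h1, h2, h4] at h3
  have h7 : (Q.under (𝓞 M)).ramificationIdx (𝓞 L) = 1 := by
    rw [h4] at h6
    have h8 : 0 < (Q.under (𝓞 M)).ramificationIdx (𝓞 L) := Nat.pos_of_mul_pos_right h6
    nlinarith
  have h9 : ¬ Q.under (𝓞 M) ∣ differentIdeal (𝓞 L) (𝓞 M) := by
    rw [not_dvd_differentIdeal_iff]
    exact Ideal.ramificationIdx_eq_one_iff.mp h7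
  have h10 : H38.ML.dexp L M (Q.under (𝓞 M)) = 0 := by
    have h11 := CDa_emult L M (Q.under (𝓞 M)) hMp hM0
    rw [emultiplicity_eq_zero.mpr h9] at h11
    exact_mod_cast h11.symm
  rw [qla_loc L M N Q hQ hQ0, h10, mul_zero, add_zero]

end H38.AS
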