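import Pool.Agent.H63.MC.CNk
import Pool.Agent.H38.AS.QLa

/-!
# [H38 AS QNK] the number of fields and the number of surjective homomorphisms, any transitive group (helper77). File Pool/Agent/H38/AS/QNk.lean

`G` transitive. `c = #autN G` is the number of the automorphisms of `G` induced by the normaliser of `G` in the symmetric group (independent of `K` and `B`). If the set `S` of the surjective `φ : Γ → G` of finite type with `relDisc K (fieldOf i₀ φ) ≤ B` is finite then `n_K(G,B)` is a natural number `k` with `k c = #S`.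
-/

set_option autoImplicit false

open scoped NumberField
open IsDedekindDomain H38.ML

noncomputable section

namespace H38.AS

open H63.MA

/-- the automorphisms induced by the normaliser in the symmetric group -/
def autN {n : ℕ} (G : Subgroup (Equiv.Perm (Fin n))) : Subgroup (MulAut G) where
  carrier := {α | ∃ ν : Equiv.Perm (Fin n), ∀ g : G,
    ((α g : G) : Equiv.Perm (Fin n)) = ν * g * ν⁻¹}
  mul_mem' := by
    rintro α β ⟨ν, hν⟩ ⟨μ, hμ⟩
    refine ⟨ν * μ, fun g => ?_⟩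
    rw [MulAut.mul_apply, hν, hμ]
    group
  one_mem' := ⟨1, fun g => by simp⟩
  inv_mem' := by
    rintro α ⟨ν, hν⟩
    refine ⟨ν⁻¹, fun g => ?_⟩
    have h1 := hν (α⁻¹ g)
    have h2 : α (α⁻¹ g) = g := by
      rw [← MulAut.mul_apply, mul_inv_cancel, MulAut.one_apply]
    rw [h2] at h1
    rw [h1]
    group

theorem qn_aut {Γ H : Type} [Group Γ] [Group H] (φ ψ : Γ →* H) (hφ : Function.Surjective φ)
    (hψ : Function.Surjective ψ) (hker : φ.ker = ψ.ker) :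
    ∃ α : MulAut H, ∀ σ, α (φ σ) = ψ σ := by
  refine ⟨((QuotientGroup.quotientKerEquivOfSurjective φ hφ).symm.trans
    (QuotientGroup.quotientMulEquivOfEq hker)).trans
      (QuotientGroup.quotientKerEquivOfSurjective ψ hψ), ?_⟩
  intro σ
  change (QuotientGroup.quotientKerEquivOfSurjective ψ hψ) ((QuotientGroup.quotientMulEquivOfEq hker)
    ((QuotientGroup.quotientKerEquivOfSurjective φ hφ).symm (φ σ))) = ψ σ
  have h1 : (QuotientGroup.quotientKerEquivOfSurjective φ hφ).symm (φ σ) = QuotientGroup.mk σ := by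
    rw [MulEquiv.symm_apply_eq]
    rfl
  rw [h1]
  rfl

theorem qn_fix {n : ℕ} {G : Subgroup (Equiv.Perm (Fin n))} {K : IntermediateField ℚ QBar}
    [NumberField K] (i₀ : Fin n) (φ : Gal(QBar/K) →* G) (hft : FT φ) (σ : Gal(QBar/K)) :
    σ ∈ (fieldOf i₀ φ).fixingSubgroup ↔ φ σ • i₀ = i₀ := by
  obtain ⟨E, hE, hle⟩ := hft
  have hEU : E.fixingSubgroup ≤ (MulAction.stabilizer G i₀).comap φ := by
    intro σ hσ
    have h1 : φ σ = 1 := hle hσ
    rw [Subgroup.mem_comap, h1]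
    exact one_mem _
  have h := (fixing_fixedField ((MulAction.stabilizer G i₀).comap φ) E hEU).1
  change σ ∈ (IntermediateField.fixedField ((MulAction.stabilizer G i₀).comap φ)).fixingSubgroup ↔ _
  rw [h, Subgroup.mem_comap, MulAction.mem_stabilizer_iff]

theorem qn_mem {n : ℕ} {G : Subgroup (Equiv.Perm (Fin n))} {K : IntermediateField ℚ QBar}
    (i₀ : Fin n) (φ : Gal(QBar/K) →* G) (x : QBar) :
    x ∈ fieldOf i₀ φ ↔ ∀ σ : Gal(QBar/K), φ σ • i₀ = i₀ → σ x = x := by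
  unfold fieldOf
  rw [IntermediateField.mem_fixedField_iff]
  exact Iff.rfl

/-- isomorphic fields come from conjugate homomorphisms -/
theorem qn_iso {n : ℕ} (G : Subgroup (Equiv.Perm (Fin n)))
    (hG : MulAction.IsPretransitive G (Fin n)) (K : IntermediateField ℚ QBar) [NumberField K]
    (i₀ : Fin n) (φ φ' : Gal(QBar/K) →* G) (hφ : Function.Surjective φ)
    (hφ' : Function.Surjective φ') (hft : FT φ) (hft' : FT φ')
    (he : Nonempty (fieldOf i₀ φ ≃ₐ[K] fieldOf i₀ φ')) :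
    ∃ α ∈ autN G, ∀ σ, α (φ σ) = φ' σ := by
  classical
  obtain ⟨e⟩ := he
  obtain ⟨σ, hσ⟩ := small_exists_ext (fieldOf i₀ φ)
    ((fieldOf i₀ φ').val.comp (e : fieldOf i₀ φ →ₐ[K] fieldOf i₀ φ'))
  have hσ1 : ∀ x : fieldOf i₀ φ, (e x : QBar) = σ (x : QBar) := fun x => DFunLike.congr_fun hσ x
  have key0 : ∀ τ : Gal(QBar/K), φ' τ • i₀ = i₀ ↔ φ (σ⁻¹ * τ * σ) • i₀ = i₀ := by
    intro τ
    rw [← qn_fix i₀ φ' hft', ← qn_fix i₀ φ hft, IntermediateField.mem_fixingSubgroup_iff,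
      IntermediateField.mem_fixingSubgroup_iff]
    constructor
    · intro h x hx
      have h1 := h _ (e ⟨x, hx⟩).2
      rw [hσ1] at h1
      have h2 : τ (σ x) = σ x := h1
      rw [AlgEquiv.mul_apply, AlgEquiv.mul_apply, h2]
      exact σ.symm_apply_apply x
    · intro h y hy
      have h1 := hσ1 (e.symm ⟨y, hy⟩)
      rw [AlgEquiv.apply_symm_apply] at h1
      have h2 := h _ (e.symm ⟨y, hy⟩).2
      rw [AlgEquiv.mul_apply, AlgEquiv.mul_apply] at h2
      have h3 : y = σ ((e.symm ⟨y, hy⟩ : fieldOf i₀ φ) : QBar) := h1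
      rw [h3]
      have h4 := congrArg σ h2
      have h5 : σ (σ⁻¹ (τ (σ ((e.symm ⟨y, hy⟩ : fieldOf i₀ φ) : QBar)))) =
          τ (σ ((e.symm ⟨y, hy⟩ : fieldOf i₀ φ) : QBar)) := σ.apply_symm_apply _
      rw [h5] at h4
      exact h4
  have key : ∀ τ τ' : Gal(QBar/K), φ τ • i₀ = φ τ' • i₀ ↔
      φ' (τ * σ⁻¹) • i₀ = φ' (τ' * σ⁻¹) • i₀ := by
    intro τ τ'
    have h1 := key0 ((τ' * σ⁻¹)⁻¹ * (τ * σ⁻¹))
    have h2 : σ⁻¹ * ((τ' * σ⁻¹)⁻¹ * (τ * σ⁻¹)) * σ = τ'⁻¹ * τ := by group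
    rw [h2, map_mul φ', map_inv φ', mul_smul, inv_smul_eq_iff, map_mul φ, map_inv φ, mul_smul,
      inv_smul_eq_iff] at h1
    exact h1.symm
  have hsur : ∀ i : Fin n, ∃ τ : Gal(QBar/K), φ τ • i₀ = i := by
    intro i
    obtain ⟨g, hg⟩ := hG.exists_smul_eq i₀ i
    obtain ⟨τ, rfl⟩ := hφ g
    exact ⟨τ, hg⟩
  choose t ht using hsur
  have hinj : Function.Injective (fun i : Fin n => φ' (t i * σ⁻¹) • i₀) := by
    intro i j hij
    have h1 := (key (t i) (t j)).2 hij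
    rw [ht, ht] at h1
    exact h1
  let ν : Equiv.Perm (Fin n) := Equiv.ofBijective _ (Finite.injective_iff_bijective.1 hinj)
  have hν : ∀ i, ν i = φ' (t i * σ⁻¹) • i₀ := fun i => rfl
  have hνs : ∀ γ i, ν (φ γ • i) = φ' γ • ν i := by
    intro γ i
    rw [hν, hν, ← mul_smul, ← map_mul, ← mul_assoc]
    apply (key _ _).1
    rw [ht, map_mul, mul_smul, ht]
  have hconj : ∀ γ, ((φ' γ : G) : Equiv.Perm (Fin n)) = ν * (φ γ : G) * ν⁻¹ := by
    intro γ
    rw [eq_mul_inv_iff_mul_eq]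
    apply Equiv.ext
    intro i
    exact (hνs γ i).symm
  have hker : φ.ker = φ'.ker := by
    ext γ
    rw [MonoidHom.mem_ker, MonoidHom.mem_ker]
    constructor
    · intro h
      apply Subtype.ext
      rw [hconj, h]
      simp
    · intro h
      apply Subtype.ext
      have h1 := hconj γ
      rw [h] at h1
      have h2 : ((φ γ : G) : Equiv.Perm (Fin n)) = ν⁻¹ * ((1 : G) : Equiv.Perm (Fin n)) * ν := by
        rw [h1]
        group
      rw [h2]
      simp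
  obtain ⟨α, hα⟩ := qn_aut φ φ' hφ hφ' hker
  refine ⟨α, ⟨ν, fun g => ?_⟩, hα⟩
  obtain ⟨γ, rfl⟩ := hφ g
  rw [hα, hconj]

/-- conjugate homomorphisms have isomorphic fields -/
theorem qn_map {n : ℕ} (G : Subgroup (Equiv.Perm (Fin n)))
    (hG : MulAction.IsPretransitive G (Fin n)) (K : IntermediateField ℚ QBar)
    (i₀ : Fin n) (φ φ' : Gal(QBar/K) →* G) (hφ : Function.Surjective φ)
    (ν : Equiv.Perm (Fin n)) (hν : ∀ σ, ((φ' σ : G) : Equiv.Perm (Fin n)) = ν * (φ σ : G) * ν⁻¹) :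
    ∃ τ : Gal(QBar/K), (fieldOf i₀ φ).map (τ : Gal(QBar/K)).toAlgHom = fieldOf i₀ φ' := by
  obtain ⟨g, hg⟩ := hG.exists_smul_eq i₀ (ν⁻¹ i₀)
  obtain ⟨τ, rfl⟩ := hφ g
  refine ⟨τ, ?_⟩
  have key : ∀ γ : Gal(QBar/K), φ' γ • i₀ = i₀ ↔ φ (τ⁻¹ * γ * τ) • i₀ = i₀ := by
    intro γ
    rw [map_mul, map_mul, map_inv, mul_smul, mul_smul, inv_smul_eq_iff, hg]
    have h1 : φ' γ • i₀ = ν (φ γ • (ν⁻¹ i₀)) := DFunLike.congr_fun (hν γ) i₀
    rw [h1]
    constructor
    · intro h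
      have h2 := congrArg (ν⁻¹ : Equiv.Perm (Fin n)) h
      have h3 : (ν⁻¹ : Equiv.Perm (Fin n)) (ν (φ γ • (ν⁻¹ i₀))) = φ γ • (ν⁻¹ i₀) :=
        ν.symm_apply_apply _
      rw [h3] at h2
      exact h2
    · intro h
      rw [h]
      exact ν.apply_symm_apply _
  ext y
  rw [IntermediateField.mem_map, qn_mem]
  constructor
  · rintro ⟨x, hx, rfl⟩ γ hγ
    rw [qn_mem] at hx
    have h1 := hx _ ((key γ).1 hγ)
    rw [AlgEquiv.mul_apply, AlgEquiv.mul_apply] at h1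
    have h2 := congrArg τ h1
    have h3 : τ (τ⁻¹ (γ (τ x))) = γ (τ x) := τ.apply_symm_apply _
    rw [h3] at h2
    exact h2
  · intro h
    refine ⟨τ⁻¹ y, ?_, τ.apply_symm_apply y⟩
    rw [qn_mem]
    intro u hu
    have h1 := h (τ * u * τ⁻¹) ((key _).2 (by
      have h2 : τ⁻¹ * (τ * u * τ⁻¹) * τ = u := by group
      rw [h2]
      exact hu))
    rw [AlgEquiv.mul_apply, AlgEquiv.mul_apply] at h1
    have h2 := congrArg (τ⁻¹ : Gal(QBar/K)) h1
    have h3 : τ⁻¹ (τ (u (τ⁻¹ y))) = u (τ⁻¹ y) := τ.symm_apply_apply _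
    rw [h3] at h2
    exact h2

theorem small_rho2 {n : ℕ} (G : Subgroup (Equiv.Perm (Fin n)))
    (hG : MulAction.IsPretransitive G (Fin n))
    (K : IntermediateField ℚ QBar) [NumberField K] (i₀ : Fin n)
    (L : IntermediateField K QBar) (hL : Spec.IsSmall K QBar G L) :
    ∃ ρ : Gal(QBar/K) →* G, Function.Surjective ρ ∧ FT ρ ∧ L = fieldOf i₀ ρ := by
  have hgal : IsGalois K QBar := IsAlgClosure.isGalois K QBar
  obtain ⟨hr, e, he⟩ := hL
  have hn : 0 < n := i₀.pos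
  have hfin : FiniteDimensional K L := Module.finite_of_finrank_pos (by omega)
  have hmem : ∀ σ : Gal(QBar/K), gsmallPerm L e σ ∈ G := fun σ =>
    (he _).2 ⟨σ, fun φ => gsmallPerm_apply L e σ φ⟩
  have hmul : ∀ σ τ : Gal(QBar/K),
      gsmallPerm L e (σ * τ) = gsmallPerm L e σ * gsmallPerm L e τ := by
    intro σ τ
    apply Equiv.ext
    intro i
    obtain ⟨φ, rfl⟩ := e.surjective i
    rw [Equiv.Perm.mul_apply, gsmallPerm_apply, gsmallPerm_apply, gsmallPerm_apply, gsmall_comp]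
  let ρ₀ : Gal(QBar/K) →* G := MonoidHom.mk' (fun σ => ⟨gsmallPerm L e σ, hmem σ⟩)
    (fun σ τ => Subtype.ext (hmul σ τ))
  have hρ : ∀ σ, ((ρ₀ σ : G) : Equiv.Perm (Fin n)) = gsmallPerm L e σ := fun σ => rfl
  have hρs : Function.Surjective ρ₀ := by
    rintro ⟨π, hπ⟩
    obtain ⟨σ, hσ⟩ := (he π).1 hπ
    refine ⟨σ, Subtype.ext ?_⟩
    apply Equiv.ext
    intro i
    obtain ⟨φ, rfl⟩ := e.surjective i
    rw [hρ, gsmallPerm_apply, hσ]
  have hfix : ∀ σ, σ ∈ L.fixingSubgroup ↔ ρ₀ σ • (e L.val) = e L.val := by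
    intro σ
    have h1 : ρ₀ σ • (e L.val) = e (((σ : Gal(QBar/K)) : QBar →ₐ[K] QBar).comp L.val) :=
      gsmallPerm_apply L e σ L.val
    rw [h1, EmbeddingLike.apply_eq_iff_eq]
    have h2 := small_comp_val_eq_iff L σ 1
    rw [gsmall_comp_one, inv_one, one_mul] at h2
    exact h2.symm
  obtain ⟨g, hg⟩ := hG.exists_smul_eq (e L.val) i₀
  let ρ : Gal(QBar/K) →* G := (MulAut.conj g).toMonoidHom.comp ρ₀
  have hρ1 : ∀ σ, ρ σ = g * ρ₀ σ * g⁻¹ := fun σ => rfl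
  have hρ2 : ∀ σ, ρ σ • i₀ = i₀ ↔ σ ∈ L.fixingSubgroup := by
    intro σ
    rw [hfix, hρ1, ← hg, mul_smul, inv_smul_smul, mul_smul, smul_left_cancel_iff]
  refine ⟨ρ, (MulAut.conj g).surjective.comp hρs, ?_, ?_⟩
  · refine ⟨IntermediateField.normalClosure K L QBar, inferInstance, ?_⟩
    intro σ hσ
    rw [IntermediateField.mem_fixingSubgroup_iff] at hσ
    rw [MonoidHom.mem_ker, hρ1]
    have h1 : ρ₀ σ = 1 := by
      apply Subtype.ext
      apply Equiv.ext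
      intro i
      obtain ⟨f, rfl⟩ := e.surjective i
      rw [hρ, gsmallPerm_apply]
      change e _ = e f
      congr 1
      ext x
      exact hσ (f x) (AlgHom.fieldRange_le_normalClosure f ⟨x, rfl⟩)
    rw [h1, mul_one, mul_inv_cancel]
  · rw [← InfiniteGalois.fixedField_fixingSubgroup L]
    unfold fieldOf
    congr 1
    ext σ
    rw [Subgroup.mem_comap, MulAction.mem_stabilizer_iff, hρ2]

theorem qn_img {n : ℕ} (G : Subgroup (Equiv.Perm (Fin n)))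
    (hG : MulAction.IsPretransitive G (Fin n))
    (K : IntermediateField ℚ QBar) [NumberField K] (i₀ : Fin n) (B : ℝ)
    (L : IntermediateField K QBar) :
    L ∈ (fun φ : Gal(QBar/K) →* G => fieldOf i₀ φ) '' {φ : Gal(QBar/K) →* G | FT φ ∧ Function.Surjective φ ∧
      (H38.ML.relDisc K (fieldOf i₀ φ) : ℝ) ≤ B} ↔
    (Spec.IsSmall K QBar G L ∧ ∃ _ : NumberField L, (Spec.relDisc K L : ℝ) ≤ B) := by
  constructor
  · rintro ⟨φ, ⟨hft, hs, hd⟩, rfl⟩
    obtain ⟨h1, h2, h3, -⟩ := small_field G hG K i₀ φ hs hft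
    have hnf : NumberField (fieldOf i₀ φ) := NumberField.of_module_finite K (fieldOf i₀ φ)
    refine ⟨h3, hnf, ?_⟩
    rw [H38.ML.relDisc, dif_pos hnf] at hd
    exact hd
  · rintro ⟨h1, hnf, hd⟩
    obtain ⟨ρ, hs, hft, hL⟩ := small_rho2 G hG K i₀ L h1
    refine ⟨ρ, ⟨hft, hs, ?_⟩, hL.symm⟩
    rw [← hL, H38.ML.relDisc, dif_pos hnf]
    exact hd

theorem qn_rel {n : ℕ} (G : Subgroup (Equiv.Perm (Fin n)))
    (hG : MulAction.IsPretransitive G (Fin n))
    (K : IntermediateField ℚ QBar) [NumberField K] (i₀ : Fin n) (φ φ' : Gal(QBar/K) →* G)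
    (hφ : Function.Surjective φ) (hφ' : Function.Surjective φ') (hft : FT φ) (hft' : FT φ')
    (he : Nonempty (fieldOf i₀ φ ≃ₐ[K] fieldOf i₀ φ')) :
    H38.ML.relDisc K (fieldOf i₀ φ) = H38.ML.relDisc K (fieldOf i₀ φ') := by
  obtain ⟨e⟩ := he
  obtain ⟨h1, -, -, -⟩ := small_field G hG K i₀ φ hφ hft
  obtain ⟨h2, -, -, -⟩ := small_field G hG K i₀ φ' hφ' hft'
  have hnf : NumberField (fieldOf i₀ φ) := NumberField.of_module_finite K (fieldOf i₀ φ)
  have hnf' : NumberField (fieldOf i₀ φ') := NumberField.of_module_finite K (fieldOf i₀ φ')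
  unfold H38.ML.relDisc
  rw [dif_pos hnf, dif_pos hnf']
  exact qla_disc K (fieldOf i₀ φ) (fieldOf i₀ φ') e

theorem nk2 {n : ℕ} (G : Subgroup (Equiv.Perm (Fin n)))
    (hG : MulAction.IsPretransitive G (Fin n)) : ∃ c : ℕ, 0 < c ∧
    ∀ (K : IntermediateField ℚ QBar) (_ : NumberField K) (i₀ : Fin n) (B : ℝ),
      {φ : Gal(QBar/K) →* G | FT φ ∧ Function.Surjective φ ∧
        (H38.ML.relDisc K (fieldOf i₀ φ) : ℝ) ≤ B}.Finite →
      ∃ k : ℕ, Spec.nK K QBar G B = (k : ℕ∞) ∧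
        k * c = {φ : Gal(QBar/K) →* G | FT φ ∧ Function.Surjective φ ∧
          (H38.ML.relDisc K (fieldOf i₀ φ) : ℝ) ≤ B}.ncard := by
  classical
  refine ⟨Nat.card (autN G), Nat.card_pos, ?_⟩
  intro K _ i₀ B hfin
  set S : Set (Gal(QBar/K) →* G) := {φ : Gal(QBar/K) →* G | FT φ ∧ Function.Surjective φ ∧
    (H38.ML.relDisc K (fieldOf i₀ φ) : ℝ) ≤ B} with hS
  have hmem := qn_img G hG K i₀ B
  -- the classes
  let T := {L : IntermediateField K QBar // Spec.IsSmall K QBar G L ∧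
      ∃ _ : NumberField L, (Spec.relDisc K L : ℝ) ≤ B}
  let r : T → T → Prop := fun L L' => Nonempty (L.1 ≃ₐ[K] L'.1)
  have hre : Equivalence r := ⟨fun _ => ⟨AlgEquiv.refl⟩, fun ⟨e⟩ => ⟨e.symm⟩,
    fun ⟨e⟩ ⟨f⟩ => ⟨e.trans f⟩⟩
  have hex : ∀ L L' : T, Quot.mk r L = Quot.mk r L' ↔ r L L' := by
    intro L L'
    rw [Quot.eq]
    exact ⟨fun h => hre.eqvGen_iff.1 h, fun h => Relation.EqvGen.rel _ _ h⟩
  let F : S → Quot r := fun φ => Quot.mk r ⟨fieldOf i₀ φ.1, (hmem _).1 ⟨φ.1, φ.2, rfl⟩⟩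
  have hFs : Function.Surjective F := by
    intro q
    obtain ⟨⟨L, hL⟩, rfl⟩ := Quot.mk_surjective q
    obtain ⟨φ, hφ, hφL⟩ := (hmem L).2 hL
    refine ⟨⟨φ, hφ⟩, ?_⟩
    change Quot.mk r _ = Quot.mk r _
    congr 1
    exact Subtype.ext hφL
  have hSf : Finite S := hfin.to_subtype
  have hQf : Finite (Quot r) := Finite.of_surjective F hFs
  refine ⟨Nat.card (Quot r), ?_, ?_⟩
  · unfold Spec.nK
    exact ENat.card_eq_coe_natCard (Quot r)
  · choose Φ hΦ using hFs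
    have hcomp : ∀ (φ : Gal(QBar/K) →* G) (α : autN G), φ ∈ S →
        ((α : MulAut G) : G ≃* G).toMonoidHom.comp φ ∈ S ∧
          Nonempty (fieldOf i₀ φ ≃ₐ[K] fieldOf i₀ (((α : MulAut G) : G ≃* G).toMonoidHom.comp φ)) := by
      rintro φ ⟨α, ν, hν⟩ ⟨hft, hs, hd⟩
      have hft' : FT ((α : G ≃* G).toMonoidHom.comp φ) := by
        obtain ⟨E, hE, hle⟩ := hft
        refine ⟨E, hE, fun σ hσ => ?_⟩
        have h1 : φ σ = 1 := hle hσ
        rw [MonoidHom.mem_ker]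
        change α (φ σ) = 1
        rw [h1, map_one]
      have hs' : Function.Surjective ((α : G ≃* G).toMonoidHom.comp φ) := α.surjective.comp hs
      have hne : Nonempty (fieldOf i₀ φ ≃ₐ[K] fieldOf i₀ ((α : G ≃* G).toMonoidHom.comp φ)) := by
        obtain ⟨τ, hτ⟩ := qn_map G hG K i₀ φ ((α : G ≃* G).toMonoidHom.comp φ) hs ν
          (fun σ => hν (φ σ))
        rw [← hτ]
        exact ⟨IntermediateField.intermediateFieldMap τ (fieldOf i₀ φ)⟩
      refine ⟨⟨hft', hs', ?_⟩, hne⟩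
      rw [← qn_rel G hG K i₀ φ _ hs hs' hft hft' hne]
      exact hd
    let f : Quot r × autN G → S := fun q =>
      ⟨((q.2 : MulAut G) : G ≃* G).toMonoidHom.comp (Φ q.1).1, (hcomp _ _ (Φ q.1).2).1⟩
    have hFf : ∀ q, F (f q) = q.1 := by
      rintro ⟨c, α⟩
      have h1 := (hcomp (Φ c).1 α (Φ c).2).2
      conv_rhs => rw [show (c, α).1 = F (Φ c) from (hΦ c).symm]
      exact (hex _ _).2 (hre.symm h1)
    have hf : Function.Bijective f := by
      constructor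
      · rintro ⟨c, α⟩ ⟨c', α'⟩ h
        have h2 : c = c' := by
          have := congrArg F h
          rwa [hFf, hFf] at this
        subst h2
        have h1 : (((α : MulAut G) : G ≃* G).toMonoidHom.comp (Φ c).1) =
            (((α' : MulAut G) : G ≃* G).toMonoidHom.comp (Φ c).1) := congrArg Subtype.val h
        have h3 : α = α' := by
          apply Subtype.ext
          apply MulEquiv.ext
          intro x
          obtain ⟨σ, rfl⟩ := (Φ c).2.2.1 x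
          exact DFunLike.congr_fun h1 σ
        rw [h3]
      · rintro ⟨φ, hφ⟩
        have h1 : r ⟨fieldOf i₀ (Φ (F ⟨φ, hφ⟩)).1, (hmem _).1 ⟨_, (Φ (F ⟨φ, hφ⟩)).2, rfl⟩⟩
            ⟨fieldOf i₀ φ, (hmem _).1 ⟨φ, hφ, rfl⟩⟩ := (hex _ _).1 (hΦ (F ⟨φ, hφ⟩))
        obtain ⟨α, hα, hα2⟩ := qn_iso G hG K i₀ (Φ (F ⟨φ, hφ⟩)).1 φ (Φ (F ⟨φ, hφ⟩)).2.2.1 hφ.2.1
          (Φ (F ⟨φ, hφ⟩)).2.1 hφ.1 h1
        refine ⟨⟨F ⟨φ, hφ⟩, ⟨α, hα⟩⟩, Subtype.ext ?_⟩
        apply MonoidHom.ext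
        exact hα2
    rw [← Nat.card_prod, Nat.card_congr (Equiv.ofBijective f hf), Nat.card_coe_set_eq]

end H38.AS
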