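import Pool.Agent.H38.AS.ESp
import Pool.Agent.H38.AS.EDm
import Pool.Agent.H38.AS.QNk

/-!
# AS-FIN: the asymptotic formula (assembly)

* `EspP`: for every `E` the number of homomorphisms with set `E` of untyped primes has an asymptotic formula (proved in `ESp.lean` if some element of least index is central).
* `fin_lim`: then the number of all surjective homomorphisms has an asymptotic formula.
* `fin_main`: the final theorem for groups with a central element of least index; `fin_gen` reduces the general case to `EspP`.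
-/

set_option autoImplicit false

open scoped NumberField
open IsDedekindDomain Filter Topology H38.ML
open scoped Classical

noncomputable section

namespace H38.AS

open H63.MA H38.BB H38.BG

section grp

variable {n : ℕ} (G : Subgroup (Equiv.Perm (Fin n)))

/-- elements of prime order have index at most `n - n / p` -/
theorem fin_orbs {p : ℕ} (hp : p.Prime) (g : Equiv.Perm (Fin n)) (hg : g ^ p = 1) :
    n ≤ p * orbs (Subgroup.zpowers g) := by
  unfold orbs
  have h1 : ∀ q : MulAction.orbitRel.Quotient (Subgroup.zpowers g) (Fin n),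
      Nat.card {x : Fin n // (Quotient.mk'' x :
        MulAction.orbitRel.Quotient (Subgroup.zpowers g) (Fin n)) = q} ≤ p := by
    intro q
    induction q using Quotient.inductionOn' with
    | h x =>
      have h2 : Nat.card (Subgroup.zpowers g) ≤ p := by
        rw [Nat.card_zpowers]
        exact Nat.le_of_dvd hp.pos (orderOf_dvd_of_pow_eq_one hg)
      refine le_trans ?_ h2
      refine Nat.card_le_card_of_surjective
        (fun s : Subgroup.zpowers g => (⟨s • x, by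
          rw [Quotient.eq'']
          exact ⟨s, rfl⟩⟩ : {y : Fin n // (Quotient.mk'' y :
            MulAction.orbitRel.Quotient (Subgroup.zpowers g) (Fin n)) = Quotient.mk'' x})) ?_
      rintro ⟨y, hy⟩
      rw [Quotient.eq''] at hy
      obtain ⟨s, hs⟩ := hy
      exact ⟨s, Subtype.ext hs⟩
  have h3 : Nat.card (Fin n) = ∑ q : MulAction.orbitRel.Quotient (Subgroup.zpowers g) (Fin n),
      Nat.card {x : Fin n // (Quotient.mk'' x :
        MulAction.orbitRel.Quotient (Subgroup.zpowers g) (Fin n)) = q} := by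
    rw [← Nat.card_sigma]
    exact Nat.card_congr (Equiv.sigmaFiberEquiv _).symm
  rw [Nat.card_fin] at h3
  calc n = _ := h3
    _ ≤ ∑ _q : MulAction.orbitRel.Quotient (Subgroup.zpowers g) (Fin n), p :=
        Finset.sum_le_sum fun q _ => h1 q
    _ = _ := by
        rw [Finset.sum_const, Finset.card_univ, smul_eq_mul, mul_comm, Nat.card_eq_fintype_card]

/-- central elements move every point or none -/
theorem fin_cen (hG : MulAction.IsPretransitive G (Fin n)) {p : ℕ} (hp : p.Prime) (g : G)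
    (hg : g ≠ 1) (hgp : g ^ p = 1) (hc : ∀ h : G, g * h = h * g) :
    p * orbs (Subgroup.zpowers (g : Equiv.Perm (Fin n))) = n := by
  unfold orbs
  set H : Subgroup (Equiv.Perm (Fin n)) := Subgroup.zpowers (g : Equiv.Perm (Fin n)) with hH
  have hord : Nat.card H = p := by
    rw [hH, Nat.card_zpowers, Subgroup.orderOf_coe]
    exact orderOf_eq_prime hgp hg (hp := ⟨hp⟩)
  -- the action of `H` is free
  have hfree : ∀ (s : H) (x : Fin n), s • x = x → s = 1 := by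
    rintro ⟨s, hs⟩ x hx
    obtain ⟨k, rfl⟩ := Subgroup.mem_zpowers_iff.1 hs
    apply Subtype.ext
    change ((g : Equiv.Perm (Fin n)) ^ k) = 1
    ext y
    obtain ⟨h, hh⟩ := hG.exists_smul_eq x y
    have h1 : ((g ^ k : G) * h) = h * g ^ k := by
      have : Commute g h := hc h
      exact this.zpow_left k
    have h2 : ((g ^ k : G) * h) • x = (h * g ^ k) • x := by rw [h1]
    rw [mul_smul, mul_smul, hh] at h2
    have h3 : (g ^ k : G) • x = x := by
      rw [Subgroup.smul_def]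
      exact hx
    rw [h3, hh] at h2
    have h4 : ((g : Equiv.Perm (Fin n)) ^ k) y = y := by
      rw [Subgroup.smul_def] at h2
      exact h2
    rw [h4]
    rfl
  have h1 : ∀ q : MulAction.orbitRel.Quotient H (Fin n),
      Nat.card {x : Fin n // (Quotient.mk'' x : MulAction.orbitRel.Quotient H (Fin n)) = q} =
        p := by
    intro q
    induction q using Quotient.inductionOn' with
    | h x =>
      rw [← hord]
      symm
      refine Nat.card_eq_of_bijective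
        (fun s : H => (⟨s • x, by
          rw [Quotient.eq'']
          exact ⟨s, rfl⟩⟩ : {y : Fin n // (Quotient.mk'' y :
            MulAction.orbitRel.Quotient H (Fin n)) = Quotient.mk'' x})) ⟨?_, ?_⟩
      · intro s s' h
        have h2 : s • x = s' • x := congrArg Subtype.val h
        have h3 : (s'⁻¹ * s) • x = x := by rw [mul_smul, h2, inv_smul_smul]
        exact (inv_mul_eq_one.1 (hfree _ x h3)).symm
      · rintro ⟨y, hy⟩
        rw [Quotient.eq''] at hy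
        obtain ⟨s, hs⟩ := hy
        exact ⟨s, Subtype.ext hs⟩
  have h3 : Nat.card (Fin n) = ∑ q : MulAction.orbitRel.Quotient H (Fin n),
      Nat.card {x : Fin n // (Quotient.mk'' x :
        MulAction.orbitRel.Quotient H (Fin n)) = q} := by
    rw [← Nat.card_sigma]
    exact Nat.card_congr (Equiv.sigmaFiberEquiv _).symm
  rw [Nat.card_fin, Finset.sum_congr rfl fun q _ => h1 q, Finset.sum_const, Finset.card_univ,
    smul_eq_mul, mul_comm, ← Nat.card_eq_fintype_card] at h3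
  exact h3.symm

end grp

section main

variable {n : ℕ} (G : Subgroup (Equiv.Perm (Fin n))) (K : IntermediateField ℚ QBar)
  [NumberField K]

/-- the asymptotic formula for a given set of untyped primes -/
def EspP {p : ℕ} (ζ : K) {m u w N : ℕ} (Dg : GT p m u w N G) (i₀ : Fin n) : Prop :=
  ∀ D : RD K p ζ, (∀ v : Pl K, ((n.factorial : ℕ) : 𝓞 K) ∈ v.asIdeal → v ∈ D.S0) →
    ∀ (L : LDs D.toRD0 QBar) (Q : DP K QBar), LQ L Q → ∀ E : Finset (Pl K),
      (∀ B, (NE G K L Dg i₀ E B).Finite) ∧ ∃ c : ℝ, Tendsto (fun B : ℝ =>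
        ((NE G K L Dg i₀ E B).ncard : ℝ) / (B ^ (1 / (indG G : ℝ)) * Real.log B ^ (N - 1)))
          atTop (𝓝 c)

theorem fin_lim (hn : 2 ≤ n) (hG : MulAction.IsPretransitive G (Fin n))
    (hnil : Group.IsNilpotent G) {p : ℕ} (hp : p.Prime) (hp2 : MOne p K) {ζ : K}
    (hζ : IsPrimitiveRoot ζ p) {m u w N : ℕ}
    (Dg : GT p m u w N G) (hN : 1 ≤ N)
    (hI : ∀ h : G, (h ≠ 1 ∧ ind (h : Equiv.Perm (Fin n)) = indG G) ↔ ∃ i, IsConj h (Dg.g i))
    (z : K) (hz : IsPrimitiveRoot z (Nat.card G)) (i₀ : Fin n)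
    (hesp : EspP G K ζ Dg i₀) :
    (∀ B, (CfinS G K i₀ B).Finite) ∧ ∃ c : ℝ, Tendsto (fun B : ℝ =>
      ((CfinS G K i₀ B).ncard : ℝ) / (B ^ (1 / (indG G : ℝ)) * Real.log B ^ (N - 1)))
        atTop (𝓝 c) := by
  obtain ⟨ha, -, hmin, -, hJ⟩ := pidx_pos hn G hG
  have hfac : {v : Pl K | ((n.factorial : ℕ) : 𝓞 K) ∈ v.asIdeal}.Finite :=
    finite_above (K := K) (Nat.factorial_ne_zero n)
  obtain ⟨D, hD0⟩ := H38.BB.exists_RD_of K hp hp2 hζ hfac.toFinset
  have hD : ∀ v : Pl K, ((n.factorial : ℕ) : 𝓞 K) ∈ v.asIdeal → v ∈ D.S0 := fun v hv =>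
    hD0 v (by
      rw [Set.Finite.mem_toFinset]
      exact hv)
  have hS : ∀ v : Pl K, ((Nat.card G : ℕ) : 𝓞 K) ∈ v.asIdeal → v ∈ D.S0 := fun v hv => by
    apply hD v
    obtain ⟨k, hk⟩ := esp_dvd G
    rw [hk]
    push_cast
    exact Ideal.mul_mem_right _ _ hv
  obtain ⟨Q⟩ := exists_DP K QBar
  obtain ⟨L, hLQ⟩ := lds_of hp hζ D.toRD0 Q
  -- the sets are finite
  have hfin : ∀ B, (CfinS G K i₀ B).Finite := by
    obtain ⟨C, B₀, hC, hup⟩ := H63.BU.gup hp hp2 hζ D L hnil Dg hN z hz hS (indG G) ha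
      (fun H => n - orbs (H.map G.subtype))
      (fun H hH => by
        have := hJ H hH
        omega)
      (fun g hg h => by
        refine (hI g).1 ⟨hg, le_antisymm ?_ (hmin g hg)⟩
        have h1 : (Subgroup.zpowers g).map G.subtype =
            Subgroup.zpowers (g : Equiv.Perm (Fin n)) := by
          rw [MonoidHom.map_zpowers]
          rfl
        rw [h1] at h
        exact h)
    have h1 : ∀ B, B₀ ≤ B → (CfinS G K i₀ B).Finite := by
      intro B hB
      by_contra hinf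
      obtain ⟨F, hF1, hF2⟩ := Set.Infinite.exists_subset_card_eq hinf
        (⌊C * B ^ (1 / (indG G : ℝ)) * Real.log B ^ (N - 1)⌋₊ + 1)
      have h2 := hup B hB F (by
        intro φ hφ
        obtain ⟨h3, h4, h5⟩ := hF1 hφ
        exact ⟨h3, h4, fun T hT => (dsm_lo hn G hG K D.toRD0 L i₀ φ h4 h3 T hT).trans h5⟩)
      rw [hF2] at h2
      push_cast at h2
      have h3 := Nat.lt_floor_add_one (C * B ^ (1 / (indG G : ℝ)) * Real.log B ^ (N - 1))
      linarith
    intro B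
    refine (h1 (max B B₀) (le_max_right _ _)).subset fun φ hφ =>
      ⟨hφ.1, hφ.2.1, hφ.2.2.trans (le_max_left _ _)⟩
  refine ⟨hfin, ?_⟩
  obtain ⟨wt, hw1, hw2, hw3⟩ := edm hn G hG hnil hp K hp2 hζ Dg hN hI z hz D hS L i₀
  have hE := hesp D hD L Q hLQ
  choose hEf c hEc using hE
  -- the sum over `E`
  have hsum : ∀ B : ℝ, ((CfinS G K i₀ B).ncard : ℝ) =
      ∑' E : Finset (Pl K), ((NE G K L Dg i₀ E B).ncard : ℝ) := by
    intro B
    have hex : ∀ φ : Gal(QBar/K) →* G, ∃ E : Finset (Pl K), FT φ →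
        ∀ v, v ∈ E ↔ Ne Dg L φ v := by
      intro φ
      by_cases h : FT φ
      · obtain ⟨-, E, -, hE⟩ := H63.BU.umain_sets L Dg φ h
        exact ⟨E, fun _ => hE⟩
      · exact ⟨∅, fun h' => absurd h' h⟩
    choose Ef hEf2 using hex
    have hNE : ∀ E, NE G K L Dg i₀ E B = {φ ∈ CfinS G K i₀ B | Ef φ = E} := by
      intro E
      ext φ
      constructor
      · rintro ⟨h1, h2, h3, h4⟩
        refine ⟨⟨h1, h2, h3⟩, ?_⟩
        ext v
        rw [hEf2 φ h1 v, h4 v]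
      · rintro ⟨⟨h1, h2, h3⟩, h4⟩
        refine ⟨h1, h2, h3, fun v => ?_⟩
        rw [← h4]
        exact hEf2 φ h1 v
    rw [tsum_eq_sum (s := (hfin B).toFinset.image Ef)]
    · rw [Set.ncard_eq_toFinset_card _ (hfin B), Finset.card_eq_sum_card_image Ef]
      push_cast
      refine Finset.sum_congr rfl fun E _ => ?_
      congr 1
      rw [hNE E, ← Set.ncard_coe_finset]
      congr 1
      ext φ
      simp
    · intro E hE'
      rw [hNE E]
      have : {φ ∈ CfinS G K i₀ B | Ef φ = E} = ∅ := by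
        rw [Set.eq_empty_iff_forall_notMem]
        rintro φ ⟨h1, h2⟩
        apply hE'
        rw [Finset.mem_image]
        exact ⟨φ, (hfin B).mem_toFinset.2 h1, h2⟩
      rw [this, Set.ncard_empty, Nat.cast_zero]
  refine ⟨∑' E, c E, ?_⟩
  have hdom := tendsto_tsum_of_dominated_convergence (𝓕 := (atTop : Filter ℝ))
    (f := fun B E => ((NE G K L Dg i₀ E B).ncard : ℝ) /
      (B ^ (1 / (indG G : ℝ)) * Real.log B ^ (N - 1))) (g := c) (bound := wt) hw1
    (fun E => hEc E) (by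
      filter_upwards [eventually_ge_atTop (3 : ℝ)] with B hB E
      have hlog : 0 < Real.log B := Real.log_pos (by linarith)
      have hP : 0 < B ^ (1 / (indG G : ℝ)) * Real.log B ^ (N - 1) :=
        mul_pos (Real.rpow_pos_of_pos (by linarith) _) (pow_pos hlog _)
      rw [Real.norm_of_nonneg (div_nonneg (Nat.cast_nonneg _) hP.le), div_le_iff₀ hP]
      exact hw3 B E hB (hEf E B))
  refine hdom.congr fun B => ?_
  rw [hsum B, tsum_div_const]

end main

/-- reduction of the general case to the asymptotic formula for given sets of untyped primes -/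
theorem fin_gen {n : ℕ} (hn : 2 ≤ n) (G : Subgroup (Equiv.Perm (Fin n)))
    (hG : MulAction.IsPretransitive G (Fin n)) (hnil : Group.IsNilpotent G)
    (hZ : ∀ g : G, g ≠ 1 → ind (g : Equiv.Perm (Fin n)) = indG G →
      ∀ h k : G, k * (g * h * g⁻¹ * h⁻¹) = g * h * g⁻¹ * h⁻¹ * k)
    {p m u w N : ℕ} (hp : p.Prime) (Dg : GT p m u w N G)
    (hI : ∀ h : G, (h ≠ 1 ∧ ind (h : Equiv.Perm (Fin n)) = indG G) ↔ ∃ i, IsConj h (Dg.g i))
    (hesp : ∀ (K : IntermediateField ℚ QBar) (_ : NumberField K) (_ : MOne p K) (ζ : K)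
      (_ : IsPrimitiveRoot ζ p) (z : K) (_ : IsPrimitiveRoot z (Nat.card G)) (i₀ : Fin n),
      EspP G K ζ Dg i₀) :
    ∃ K₀ : IntermediateField ℚ QBar, NumberField K₀ ∧
      ∀ K : IntermediateField ℚ QBar, K₀ ≤ K → ∀ _ : NumberField K,
        ∃ C : ℝ, 0 < C ∧ ∃ k : ℝ → ℕ, (∀ B : ℝ, Spec.nK K QBar G B = (k B : ℕ∞)) ∧
          Tendsto (fun B : ℝ => (k B : ℝ) /
            (B ^ (1 / (Spec.indG G : ℝ)) * Real.log B ^ (Spec.betaAll K QBar G - 1)))
            atTop (𝓝 C) := by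
  obtain ⟨ha, ⟨g₀, hg₀, hg₀'⟩, hmin, hcj, hJ⟩ := pidx_pos hn G hG
  have hcardpos : 0 < Nat.card G := Nat.card_pos
  have hN : 1 ≤ N := by
    obtain ⟨i, -⟩ := (hI g₀).1 ⟨hg₀, hg₀'⟩
    have := i.2
    omega
  have hpd : p ∣ Nat.card G := by
    obtain ⟨i, -⟩ := (hI g₀).1 ⟨hg₀, hg₀'⟩
    have h3 : orderOf (Dg.g i) = p := orderOf_eq_prime (Dg.pow i) (Dg.ne i) (hp := ⟨hp⟩)
    rw [← h3]
    exact orderOf_dvd_natCard _
  have i₀ : Fin n := ⟨0, by omega⟩
  obtain ⟨c₀, hc₀, hnk⟩ := nk2 G hG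
  obtain ⟨K₁, hK₁, hK1⟩ := akn G
  obtain ⟨K₂, hK₂, hK2⟩ := amain hn G hG hZ
  haveI : FiniteDimensional ℚ K₁ := hK₁.to_finiteDimensional
  haveI : FiniteDimensional ℚ K₂ := hK₂.to_finiteDimensional
  refine ⟨K₁ ⊔ K₂, numberField_of_finite _, fun K hKK hKf => ?_⟩
  obtain ⟨-, ⟨z, hz⟩, i, hi⟩ := hK1 K (le_sup_left.trans hKK) hKf
  obtain ⟨⟨c₁, B₀, hc₁, hlow⟩, -⟩ := hK2 K (le_sup_right.trans hKK) hKf
  have hp2 : H63.MA.MOne p K := by
    by_cases h2 : p = 2
    · exact ⟨i, by rw [h2]; exact hi⟩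
    · exact H63.MA.mone_odd hp h2 K
  obtain ⟨r, hr⟩ := hpd
  have hζ : IsPrimitiveRoot (z ^ r) p := hz.pow hcardpos (by rw [hr]; ring)
  obtain ⟨hfin, c, hcl⟩ := fin_lim G K hn hG hnil hp hp2 hζ Dg hN hI z hz i₀
    (hesp K hKf hp2 (z ^ r) hζ z hz i₀)
  have hβ := abet G K z hz Dg hI
  have hk : ∀ B : ℝ, ∃ k : ℕ, Spec.nK K QBar G B = (k : ℕ∞) ∧
      k * c₀ = (CfinS G K i₀ B).ncard := fun B => hnk K hKf i₀ B (hfin B)
  choose k hk1 hk2 using hk
  have hc₀R : (0 : ℝ) < (c₀ : ℝ) := by exact_mod_cast hc₀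
  have hlim : Tendsto (fun B : ℝ => (k B : ℝ) /
        (B ^ (1 / (Spec.indG G : ℝ)) * Real.log B ^ (Spec.betaAll K QBar G - 1)))
        atTop (𝓝 (c / (c₀ : ℝ))) := by
    refine (hcl.div_const (c₀ : ℝ)).congr fun B => ?_
    rw [← hk2 B, hβ]
    push_cast
    have : H38.ML.indG G = Spec.indG G := rfl
    rw [this]
    field_simp
  refine ⟨c / (c₀ : ℝ), ?_, k, hk1, hlim⟩
  refine lt_of_lt_of_le hc₁ (ge_of_tendsto hlim ?_)
  filter_upwards [eventually_ge_atTop B₀, eventually_gt_atTop 1] with B hB hB1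
  have h1 := hlow B hB
  rw [hk1 B] at h1
  have h2 : (⌈c₁ * B ^ (1 / (indG G : ℝ)) * Real.log B ^ (Spec.betaAll K QBar G - 1)⌉₊ : ℕ) ≤
      k B := by exact_mod_cast h1
  have h3 : c₁ * B ^ (1 / (indG G : ℝ)) * Real.log B ^ (Spec.betaAll K QBar G - 1) ≤
      (k B : ℝ) := (Nat.le_ceil _).trans (by exact_mod_cast h2)
  have hP : 0 < B ^ (1 / (Spec.indG G : ℝ)) * Real.log B ^ (Spec.betaAll K QBar G - 1) :=
    mul_pos (Real.rpow_pos_of_pos (by linarith) _) (pow_pos (Real.log_pos hB1) _)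
  rw [le_div_iff₀ hP, ← mul_assoc]
  exact h3

/-- the coordinates for the elements of least index -/
theorem fin_GT {n : ℕ} (hn : 2 ≤ n) (G : Subgroup (Equiv.Perm (Fin n)))
    (hG : MulAction.IsPretransitive G (Fin n))
    (hZ : ∀ g : G, g ≠ 1 → ind (g : Equiv.Perm (Fin n)) = indG G →
      ∀ h k : G, k * (g * h * g⁻¹ * h⁻¹) = g * h * g⁻¹ * h⁻¹ * k) :
    ∃ (p m u w N : ℕ) (_ : p.Prime) (Dg : GT p m u w N G), ∀ h : G,
      (h ≠ 1 ∧ ind (h : Equiv.Perm (Fin n)) = indG G) ↔ ∃ i, IsConj h (Dg.g i) := by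
  obtain ⟨ha, -, hmin, hcj, hJ⟩ := pidx_pos hn G hG
  obtain ⟨p, hp, hpI⟩ := pidx hn G hG hZ
  obtain ⟨m, u, w, N, Dg, hDg⟩ := exists_GT hp G
    {g : G | g ≠ 1 ∧ ind (g : Equiv.Perm (Fin n)) = indG G} (fun g hg => hg.1)
    (fun g hg => hpI g hg.1 hg.2)
    (fun g hg h => ⟨fun h1 => hg.1 (by
      have h2 : g = h⁻¹ * (h * g * h⁻¹) * h := by group
      rw [h2, h1]; group), hcj g h hg.1 hg.2⟩)
    (fun g hg => hZ g hg.1 hg.2)
  exact ⟨p, m, u, w, N, hp, Dg, fun h => hDg h⟩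

/-- if some element of least index is central then every `e a 0` is of least index -/
theorem fin_hcen {n : ℕ} (hn : 2 ≤ n) (G : Subgroup (Equiv.Perm (Fin n)))
    (hG : MulAction.IsPretransitive G (Fin n))
    {p m u w N : ℕ} (hp : p.Prime) (Dg : GT p m u w N G)
    (hI : ∀ h : G, (h ≠ 1 ∧ ind (h : Equiv.Perm (Fin n)) = indG G) ↔ ∃ i, IsConj h (Dg.g i))
    (hc : ∃ g : G, g ≠ 1 ∧ ind (g : Equiv.Perm (Fin n)) = indG G ∧ ∀ h : G, g * h = h * g)
    (a : Fin w → ZMod p) (ha0 : a ≠ 0) : ∃ i, Dg.a i = a ∧ Dg.y i = 0 := by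
  obtain ⟨-, -, hmin, -, -⟩ := pidx_pos hn G hG
  obtain ⟨g₀, hg₀, hg₀', hg₀c⟩ := hc
  have hgp : g₀ ^ p = 1 := by
    obtain ⟨i, hi⟩ := (hI g₀).1 ⟨hg₀, hg₀'⟩
    obtain ⟨c, hcc⟩ := isConj_iff.1 hi.symm
    rw [← hcc, conj_pow]
    have h1 : Dg.g i ^ p = 1 := Dg.pow i
    rw [h1, mul_one, mul_inv_cancel]
  have h0 := fin_cen G hG hp g₀ hg₀ hgp hg₀c
  have hall : ∀ h : G, h ≠ 1 → h ^ p = 1 → ind (h : Equiv.Perm (Fin n)) = indG G := by
    intro h hh hhp
    refine le_antisymm ?_ (hmin h hh)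
    have h1 := fin_orbs hp (h : Equiv.Perm (Fin n)) (by
      rw [← Subgroup.coe_pow, hhp, Subgroup.coe_one])
    rw [← hg₀']
    unfold ind
    have h2 : orbs (Subgroup.zpowers (g₀ : Equiv.Perm (Fin n))) ≤
        orbs (Subgroup.zpowers (h : Equiv.Perm (Fin n))) := by
      refine Nat.le_of_mul_le_mul_left ?_ hp.pos
      rw [h0]
      exact h1
    omega
  have h1 : Dg.e a 0 ≠ 1 := by
    intro h
    rw [← gt_e0 Dg] at h
    exact ha0 (Dg.inj _ _ _ _ h).1
  have h2 : Dg.e a 0 ^ p = 1 := by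
    rw [ltw_smul]
    have : p • a = 0 := by
      funext c
      simp
    rw [this, gt_e0]
  obtain ⟨i, hi⟩ := (hI (Dg.e a 0)).1 ⟨h1, hall _ h1 h2⟩
  refine ⟨i, ?_⟩
  rw [isConj_iff] at hi
  obtain ⟨c, hcc⟩ := hi
  rw [← gt_cen, mul_inv_cancel_right] at hcc
  have h3 := Dg.inj _ _ _ _ hcc
  exact ⟨h3.1.symm, h3.2.symm⟩

theorem fin_main {n : ℕ} (hn : 2 ≤ n) (G : Subgroup (Equiv.Perm (Fin n)))
    (hG : MulAction.IsPretransitive G (Fin n)) (hnil : Group.IsNilpotent G)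
    (hZ : ∀ g : G, g ≠ 1 → ind (g : Equiv.Perm (Fin n)) = indG G →
      ∀ h k : G, k * (g * h * g⁻¹ * h⁻¹) = g * h * g⁻¹ * h⁻¹ * k)
    (hc : ∃ g : G, g ≠ 1 ∧ ind (g : Equiv.Perm (Fin n)) = indG G ∧ ∀ h : G, g * h = h * g) :
    ∃ K₀ : IntermediateField ℚ QBar, NumberField K₀ ∧
      ∀ K : IntermediateField ℚ QBar, K₀ ≤ K → ∀ _ : NumberField K,
        ∃ C : ℝ, 0 < C ∧ ∃ k : ℝ → ℕ, (∀ B : ℝ, Spec.nK K QBar G B = (k B : ℕ∞)) ∧
          Tendsto (fun B : ℝ => (k B : ℝ) /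
            (B ^ (1 / (Spec.indG G : ℝ)) * Real.log B ^ (Spec.betaAll K QBar G - 1)))
            atTop (𝓝 C) := by
  obtain ⟨p, m, u, w, N, hp, Dg, hI⟩ := fin_GT hn G hG hZ
  obtain ⟨ha, ⟨g₀, hg₀, hg₀'⟩, -, -, -⟩ := pidx_pos hn G hG
  have hN : 1 ≤ N := by
    obtain ⟨i, -⟩ := (hI g₀).1 ⟨hg₀, hg₀'⟩
    have := i.2
    omega
  refine fin_gen hn G hG hnil hZ hp Dg hI fun K _ hp2 ζ hζ z hz i₀ D hD L Q hLQ E => ?_
  exact esp hn G hG hnil hp K hp2 hζ Dg hN (fin_hcen hn G hG hp Dg hI hc)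
    (fun h i hi => ((hI h).2 ⟨i, hi⟩).2) ha z hz D hD L Q hLQ i₀ E

end H38.AS
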