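import Pool.Agent.H38.AS.PDef

/-!
# [H38 AS ESA] enlarging S0, 80-130 lines. File Pool/Agent/H38/AS/ESa.lean

`D, D'` reciprocity data with `S0 ⊆ S0'`, `L, L'` local data for the same primes `Q.P v` (`LQ`).
* `esa_inr`: `inr L v = inr L' v` for `v ∉ S0'` (`dif_pos`; both are the inertia group of `Q.P v`).
* `esa_ty`: for `φ` of finite type (`G` finite), `v ∉ S0'`: `Ty Dg L φ i v ↔ Ty Dg L' φ i v`, `Rm L φ v ↔ Rm L' φ v`. Proof: good means of prime norm for both. If `φ τ ^ p = 1` for all `τ` in the common inertia group then `φ (L'.t v) = φ (L.t v) ^ (kk (D.pi v) (L'.t v)).val` (`tm_z` for `L`, `L'.t v ∈ inr L' v = inr L v`), and `kk p ζ (D.pi v) (L'.t v) = ord v (D.pi v) = 1`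
  (`ld_kk_t` for `L'.ld v _`; `D'.pi_self`, `D.pi_self`); so `φ (L'.t v) = φ (L.t v)` (`ZMod.val_one`, `p ≥ 2`).
* `esa_dec`: `inr L v ≤ dec (Q.P v)` for all `v` (for `v ∉ S0`: `σ x - x ∈ P`, so `σ x ∈ P ↔ x ∈ P`; for `v ∈ S0`, `inr L v = ⊥`), and `L.t v ∈ dec (Q.P v)` for `v ∉ S0` (`L.t v ∈ inr L v`).
* `esa_teq`: if `Teq S0' Q φ φ'` and `v ∈ S0'` then `Ne Dg L φ v ↔ Ne Dg L φ' v` (`φ = φ'` on `inr L v` and at `L.t v` by `esa_dec`; if `v ∈ S0` both sides are false by `Rm`).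
* `esa_iff`: for `φ` of finite type and `E ⊆ S0'`: `(∀ v, v ∈ E ↔ Ne Dg L φ v)` iff `(∀ v, Rm L' φ v → ∃ i, Ty Dg L' φ i v)` and `(∀ v ∈ S0', (v ∈ E ↔ Ne Dg L φ v))`. (`→`: for `Rm L' φ v`, `v ∉ S0'`, so `v ∉ E`, `v` is `Rm L` by `esa_ty`, so some `Ty Dg L φ i v`. `←`: for `v ∉ S0'`: `v ∉ E` and `¬ Ne`.)
-/

set_option autoImplicit false

open scoped NumberField
open IsDedekindDomain
open scoped Classical

noncomputable section

namespace H38.AS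

open H63.MA H38.BB H38.BG

variable {K : Type} [Field K] [NumberField K] {Ω : Type} [Field Ω] [Algebra K Ω]
  [IsAlgClosure K Ω] {p m u w N : ℕ} {ζ : K} {G : Type} [Group G]

omit [IsAlgClosure K Ω] in
private theorem esa_in {D : RD0 K p ζ} (L : LDs D Ω) (v : Pl K) (hv : v ∉ D.S0) :
    inr L v = (L.ld v hv).P.inertia Gal(Ω/K) := by
  unfold inr
  rw [dif_pos hv]

omit [IsAlgClosure K Ω] in
private theorem esa_t {D : RD0 K p ζ} (L : LDs D Ω) (v : Pl K) (hv : v ∉ D.S0) :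
    L.t v = (L.ld v hv).t := by
  unfold LDs.t
  rw [dif_pos hv]

omit [IsAlgClosure K Ω] in
private theorem esa_tin {D : RD0 K p ζ} (L : LDs D Ω) (v : Pl K) (hv : v ∉ D.S0) :
    L.t v ∈ inr L v := by
  rw [esa_in L v hv, esa_t L v hv]
  exact (L.ld v hv).ht

theorem esa_inr {D D' : RD0 K p ζ} (hDD : ∀ v ∈ D.S0, v ∈ D'.S0) (L : LDs D Ω) (L' : LDs D' Ω)
    (Q : DP K Ω) (hL : LQ L Q) (hL' : LQ L' Q) (v : Pl K) (hv : v ∉ D'.S0) :
    inr L v = inr L' v := by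
  have h1 : v ∉ D.S0 := fun h => hv (hDD v h)
  rw [esa_in L v h1, esa_in L' v hv, hL v h1, hL' v hv]

theorem esa_ty [Finite G] (hp : p.Prime) (hζ : IsPrimitiveRoot ζ p) {D D' : RD0 K p ζ}
    (hDD : ∀ v ∈ D.S0, v ∈ D'.S0) (L : LDs D Ω) (L' : LDs D' Ω)
    (Q : DP K Ω) (hL : LQ L Q) (hL' : LQ L' Q) (Dg : GT p m u w N G) (φ : Gal(Ω/K) →* G)
    (hφ : H38.ML.FT φ) (v : Pl K) (hv : v ∉ D'.S0) :
    (Rm L φ v ↔ Rm L' φ v) ∧ ∀ i, Ty Dg L φ i v ↔ Ty Dg L' φ i v := by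
  have h1 : v ∉ D.S0 := fun h => hv (hDD v h)
  have hin := esa_inr hDD L L' Q hL hL' v hv
  have key : (∀ τ ∈ inr L v, φ τ ^ p = 1) → φ (L'.t v) = φ (L.t v) := by
    intro he
    have ht : L'.t v ∈ inr L v := by
      rw [hin]
      exact esa_tin L' v hv
    have h2 := tm_z hp hζ L φ hφ v h1 he (L'.t v) ht
    have h3 : kk p ζ (D.pi v) (L'.t v) = ((ord v (D.pi v) : ℤ) : ZMod p) := by
      rw [esa_t L' v hv]
      exact ld_kk_t hp hζ (fun h => hv (D'.above v h)) (D'.pi_self v hv) (L'.ld v hv) (D.pi v)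
    haveI : Fact (1 < p) := ⟨hp.one_lt⟩
    rw [D.pi_self v h1, Int.cast_one] at h3
    rw [h3, ZMod.val_one, pow_one] at h2
    exact h2
  refine ⟨?_, fun i => ?_⟩
  · unfold Rm
    rw [hin]
    exact ⟨fun h => ⟨hv, h.2⟩, fun h => ⟨h1, h.2⟩⟩
  · unfold Ty
    constructor
    · rintro ⟨hg, hc, he⟩
      refine ⟨⟨hv, hg.2⟩, ?_, ?_⟩
      · rw [key he]
        exact hc
      · rw [← hin]
        exact he
    · rintro ⟨hg, hc, he⟩
      rw [← hin] at he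
      refine ⟨⟨h1, hg.2⟩, ?_, he⟩
      rw [← key he]
      exact hc

theorem esa_dec {D : RD0 K p ζ} (L : LDs D Ω) (Q : DP K Ω) (hL : LQ L Q) (v : Pl K) :
    inr L v ≤ dec (K := K) (Q.P v) ∧ (v ∉ D.S0 → L.t v ∈ dec (K := K) (Q.P v)) := by
  have hle : inr L v ≤ dec (K := K) (Q.P v) := by
    by_cases hv : v ∉ D.S0
    · rw [esa_in L v hv, hL v hv]
      intro σ hσ x
      have h1 : σ • x - x ∈ Q.P v := hσ x
      constructor
      · intro h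
        have h2 := (Q.P v).sub_mem h h1
        rwa [sub_sub_cancel] at h2
      · intro h
        have h2 := (Q.P v).add_mem h1 h
        rwa [sub_add_cancel] at h2
    · unfold inr
      rw [dif_neg hv]
      exact bot_le
  exact ⟨hle, fun hv => hle (esa_tin L v hv)⟩

theorem esa_teq {D : RD0 K p ζ} (L : LDs D Ω) (Q : DP K Ω) (hL : LQ L Q)
    (Dg : GT p m u w N G) (S : Finset (Pl K)) (φ φ' : Gal(Ω/K) →* G) (h : Teq S Q φ φ')
    (v : Pl K) (hv : v ∈ S) : Ne Dg L φ v ↔ Ne Dg L φ' v := by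
  have h1 : ∀ ψ ψ' : Gal(Ω/K) →* G, (∀ σ ∈ dec (K := K) (Q.P v), ψ σ = ψ' σ) →
      Ne Dg L ψ v → Ne Dg L ψ' v := by
    rintro ψ ψ' hs ⟨⟨hv0, τ, hτ, hne⟩, hty⟩
    obtain ⟨hd1, hd2⟩ := esa_dec L Q hL v
    refine ⟨⟨hv0, τ, hτ, ?_⟩, ?_⟩
    · rw [← hs τ (hd1 hτ)]
      exact hne
    · rintro i ⟨hg, hc, he⟩
      refine hty i ⟨hg, ?_, fun σ hσ => ?_⟩
      · rw [hs _ (hd2 hv0)]
        exact hc
      · rw [hs σ (hd1 hσ)]
        exact he σ hσ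
  exact ⟨h1 φ φ' (h v hv), h1 φ' φ (fun σ hσ => (h v hv σ hσ).symm)⟩

theorem esa_iff [Finite G] (hp : p.Prime) (hζ : IsPrimitiveRoot ζ p) {D D' : RD0 K p ζ}
    (hDD : ∀ v ∈ D.S0, v ∈ D'.S0) (L : LDs D Ω) (L' : LDs D' Ω)
    (Q : DP K Ω) (hL : LQ L Q) (hL' : LQ L' Q) (Dg : GT p m u w N G) (φ : Gal(Ω/K) →* G)
    (hφ : H38.ML.FT φ) (E : Finset (Pl K)) (hE : ∀ v ∈ E, v ∈ D'.S0) :
    (∀ v, v ∈ E ↔ Ne Dg L φ v) ↔ (∀ v, Rm L' φ v → ∃ i, Ty Dg L' φ i v) ∧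
      ∀ v ∈ D'.S0, (v ∈ E ↔ Ne Dg L φ v) := by
  constructor
  · intro h
    refine ⟨fun v hR => ?_, fun v _ => h v⟩
    have hv : v ∉ D'.S0 := hR.1
    obtain ⟨h1, h2⟩ := esa_ty hp hζ hDD L L' Q hL hL' Dg φ hφ v hv
    by_contra hcon
    push Not at hcon
    apply hv
    apply hE
    rw [h v]
    exact ⟨h1.2 hR, fun i hi => hcon i ((h2 i).1 hi)⟩
  · rintro ⟨ha, hb⟩ v
    by_cases hv : v ∈ D'.S0
    · exact hb v hv
    · obtain ⟨h1, h2⟩ := esa_ty hp hζ hDD L L' Q hL hL' Dg φ hφ v hv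
      constructor
      · intro hE'
        exact absurd (hE v hE') hv
      · rintro ⟨hR, hT⟩
        obtain ⟨i, hi⟩ := ha v (h1.1 hR)
        exact absurd ((h2 i).2 hi) (hT i)

end H38.AS
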