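import Pool.Agent.H38.AS.EDef
import Pool.Agent.H38.BB.CUb
import Pool.Agent.H63.MA.ALem

/-!
# [H38 AS EF1] equidistribution of the classes for one central class, 70-110 lines. File Pool/Agent/H38/AS/EFo1.lean

The case `N = 1` of `efo`: one class, central (`c.x 0 = 0`, `c.Θ 0 = ⊥`). `Φ q` a real function of `q : Fin 1 → Fin r → ZMod p`. Then `∑_f (Φ (qf ∘ f) - avg) = o(X)`, the sum over `f : Fin 1 → Finset (Pl K)` with `f 0 ∈ GF X`, `nr (f 0) ≤ X`, `SpR`.

Proof. `Dj f` holds trivially (one index; unfold `Dj`). `SpR c b f` does not depend on `f` (`dt θ 0 = 0`): it says that no `bp b θ`, `θ ≠ 0`, is a `p`-th power. If it fails all terms are `0`. Otherwise the sum is `∑_{n ∈ GF X} (Φ (fun _ => qf n) - avg)` (`n ∈ GF X` implies `nr n ≤ X`; sums over `Fintype.piFinset (Fin 1)`: `Fin.consEquiv`, `Equiv.funUnique`, or `Finset.sum_bij`).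
Fourier inversion on `(ZMod p)^r` (`akc_inv` in `H63/MA/AKC.lean`): `Φ (fun _ => ρ) = ∑_κ c κ ep(κ · ρ)`, `c 0 = avg` (the average over `q : Fin 1 → Fin r → ZMod p` is the average over `ρ`). For `κ ≠ 0`: `‖∑_{n ∈ GF X} ep(κ · qf n)‖ ≤ C X^{1-δ}` for `X ≥ 1` by `lemA` (`H63/MA/ALem.lean`) with `E = ∅`, no further conditions (as in the module `ELrg`: `∑_{v ∈ n} fE D ∅ μ κ v = κ · qf n`). So the sum is
`O(X^{1-δ})`, and divided by `X * (log X)^0` it tends to `0`.
-/

set_option autoImplicit false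

open scoped NumberField
open IsDedekindDomain Filter Topology
open scoped Classical

noncomputable section

namespace H38.AS

open H63.MA H38.BB

variable {K : Type} [Field K] [NumberField K] {p : ℕ} {ζ : K} {m : ℕ}

theorem efo1 [NeZero p] (hp : p.Prime) (hζ : IsPrimitiveRoot ζ p)
    (D : RD K p ζ) (c : CR p m 1) (hc : Cen c 0) (b : Fin m → Kˣ)
    (Φ : (Fin 1 → Fin D.r → ZMod p) → ℝ) :
    Tendsto (fun X : ℝ =>
      (∑ f ∈ Fintype.piFinset (fun _ : Fin 1 => GF D.toRD0 X),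
        if Dj f ∧ ∏ i, nr (f i) ≤ X ∧ SpR c b f then
          Φ (fun i => qf D.toRD0 (f i)) -
            ((p : ℝ) ^ (1 * D.r))⁻¹ * ∑ q : Fin 1 → Fin D.r → ZMod p, Φ q else 0) /
        (X * Real.log X ^ (1 - 1))) atTop (𝓝 0) := by
  obtain ⟨C, A, δ, hC, hA, hδ, hδ1, hlem⟩ := lemA hp hζ D
  obtain ⟨av, hav⟩ : ∃ av : ℝ, av =
      ((p : ℝ) ^ (1 * D.r))⁻¹ * ∑ q : Fin 1 → Fin D.r → ZMod p, Φ q := ⟨_, rfl⟩
  simp only [← hav]
  have hx : ∀ i : Fin 1, c.x i = 0 := by
    intro i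
    rw [Subsingleton.elim i 0]
    exact hc.1
  have hdt : ∀ θ : Fin m → ZMod p, dt θ (0 : Fin m → ZMod p) = 0 := by
    intro θ
    unfold dt
    simp
  have hsp : ∀ f : Fin 1 → Finset (Pl K), SpR c b f ↔
      ∀ θ : Fin m → ZMod p, θ ≠ 0 → ¬ IsPow p (bp b θ) := by
    intro f
    unfold SpR
    refine forall_congr' fun θ => imp_congr_right fun _ => ?_
    constructor
    · rintro (⟨i, _, h⟩ | h)
      · exact absurd (by rw [hx i]; exact hdt θ) h
      · exact h
    · exact Or.inr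
  have hDj : ∀ f : Fin 1 → Finset (Pl K), Dj f := fun f a a' h =>
    absurd (Subsingleton.elim a a') h
  by_cases hP : ∀ θ : Fin m → ZMod p, θ ≠ 0 → ¬ IsPow p (bp b θ)
  swap
  · have hz : ∀ X : ℝ, (∑ f ∈ Fintype.piFinset (fun _ : Fin 1 => GF D.toRD0 X),
        if Dj f ∧ ∏ i, nr (f i) ≤ X ∧ SpR c b f then
          Φ (fun i => qf D.toRD0 (f i)) - av else 0) = 0 := by
      intro X
      refine Finset.sum_eq_zero fun f _ => ?_
      exact if_neg fun h => hP ((hsp f).1 h.2.2)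
    simp only [hz, zero_div]
    exact tendsto_const_nhds
  have hS : ∀ X : ℝ, (∑ f ∈ Fintype.piFinset (fun _ : Fin 1 => GF D.toRD0 X),
        if Dj f ∧ ∏ i, nr (f i) ≤ X ∧ SpR c b f then
          Φ (fun i => qf D.toRD0 (f i)) - av else 0) =
      ∑ n ∈ GF D.toRD0 X, (Φ (fun _ => qf D.toRD0 n) - av) := by
    intro X
    refine Finset.sum_nbij' (fun f => f 0) (fun n _ => n) ?_ ?_ ?_ ?_ ?_
    · intro f hf
      exact Fintype.mem_piFinset.1 hf 0
    · intro n hn
      exact Fintype.mem_piFinset.2 fun _ => hn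
    · intro f _
      funext i
      rw [Subsingleton.elim i 0]
    · intro n _
      rfl
    · intro f hf
      rw [if_pos]
      · have h1 : (fun i => qf D.toRD0 (f i)) = fun _ => qf D.toRD0 (f 0) := by
          funext i
          rw [Subsingleton.elim i 0]
        rw [h1]
      · refine ⟨hDj f, ?_, (hsp f).2 hP⟩
        rw [Fin.prod_univ_one]
        exact ((akb_mem_GF D.toRD0).1 (Fintype.mem_piFinset.1 hf 0)).1
  simp only [hS]
  -- Fourier inversion
  obtain ⟨H, hH⟩ : ∃ H : (Fin D.r → ZMod p) → ℂ, ∀ ρ, H ρ = ((Φ (fun _ => ρ) : ℝ) : ℂ) :=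
    ⟨_, fun _ => rfl⟩
  have hav2 : ((av : ℝ) : ℂ) = akcC p H 0 := by
    unfold akcC
    rw [hav, Fintype.card_fin, one_mul]
    push_cast
    congr 1
    refine Finset.sum_nbij' (fun q => q 0) (fun ρ _ => ρ) ?_ ?_ ?_ ?_ ?_
    · intro q _
      exact Finset.mem_univ _
    · intro q _
      exact Finset.mem_univ _
    · intro q _
      funext i
      rw [Subsingleton.elim i 0]
    · intro q _
      rfl
    · intro q _
      have h1 : (fun _ => q 0) = q := by
        funext i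
        rw [Subsingleton.elim i 0]
      rw [hH, h1]
      simp only [Pi.zero_apply, zero_mul, Finset.sum_const_zero, neg_zero, ep_zero, mul_one]
  have hF : ∀ n : Finset (Pl K), ((Φ (fun _ => qf D.toRD0 n) - av : ℝ) : ℂ) =
      ∑ χ ∈ Finset.univ.erase (0 : Fin D.r → ZMod p),
        akcC p H χ * ep p (dt χ (qf D.toRD0 n)) := by
    intro n
    have h := akc_inv hp H (qf D.toRD0 n)
    rw [← Finset.add_sum_erase _ _ (Finset.mem_univ (0 : Fin D.r → ZMod p))] at h
    simp only [Pi.zero_apply, zero_mul, Finset.sum_const_zero, ep_zero, mul_one] at h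
    rw [Complex.ofReal_sub, ← hH, h, hav2, add_sub_cancel_left]
    rfl
  have hone : ∀ χ : Fin D.r → ZMod p, χ ≠ 0 → ∀ X : ℝ, 1 ≤ X →
      ‖∑ n ∈ GF D.toRD0 X, ep p (dt χ (qf D.toRD0 n))‖ ≤ C * X ^ (1 - δ) := by
    intro χ hχ X hX
    have h := hlem ∅ ∅ (fun _ => 0) χ (fun _ => 1) (fun w hw => absurd hw (Finset.notMem_empty w))
      (Finset.Subset.refl _) (fun _ => by rw [norm_one]) (Or.inr ⟨fun _ => rfl, hχ⟩) X hX
    have e1 : (GF D.toRD0 X).filter (fun n => Disjoint n (∅ : Finset (Pl K))) = GF D.toRD0 X := by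
      rw [Finset.filter_true_of_mem]
      intro n _
      exact Finset.disjoint_empty_right n
    have e2 : nr (∅ : Finset (Pl K)) = 1 := by
      unfold nr
      rw [Finset.prod_empty]
    rw [e1, e2, Real.one_rpow, Finset.card_empty, pow_zero, mul_one, mul_one] at h
    have e3 : ∀ n : Finset (Pl K), (1 : ℂ) * ep p (∑ v ∈ n, fE D.toRD0 ∅ (fun _ => 0) χ v) =
        ep p (dt χ (qf D.toRD0 n)) := by
      intro n
      rw [one_mul, ← aph_dt_qf]
      congr 1
      refine Finset.sum_congr rfl fun v _ => ?_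
      unfold fE
      rw [Finset.sum_empty, zero_add]
    simp only [e3] at h
    exact h
  obtain ⟨B, hB⟩ : ∃ B : ℝ, B = ∑ χ ∈ Finset.univ.erase (0 : Fin D.r → ZMod p),
      ‖akcC p H χ‖ * C := ⟨_, rfl⟩
  have hbound : ∀ X : ℝ, 1 ≤ X →
      ‖∑ n ∈ GF D.toRD0 X, (Φ (fun _ => qf D.toRD0 n) - av)‖ ≤ B * X ^ (1 - δ) := by
    intro X hX
    rw [← Complex.norm_real, Complex.ofReal_sum, Finset.sum_congr rfl fun n _ => hF n,
      Finset.sum_comm, hB, Finset.sum_mul]
    refine (norm_sum_le _ _).trans (Finset.sum_le_sum fun χ hχ => ?_)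
    rw [← Finset.mul_sum, norm_mul, mul_assoc]
    exact mul_le_mul_of_nonneg_left (hone χ (Finset.ne_of_mem_erase hχ) X hX) (norm_nonneg _)
  have hlim : Tendsto (fun X : ℝ => B * X ^ (-δ)) atTop (𝓝 0) := by
    have := (tendsto_rpow_neg_atTop hδ).const_mul B
    rwa [mul_zero] at this
  refine squeeze_zero_norm' ?_ hlim
  filter_upwards [eventually_ge_atTop (1 : ℝ)] with X hX
  have hX0 : (0 : ℝ) < X := by linarith
  rw [Nat.sub_self, pow_zero, mul_one, norm_div, Real.norm_of_nonneg hX0.le, div_le_iff₀ hX0]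
  refine (hbound X hX).trans (le_of_eq ?_)
  rw [mul_assoc]
  congr 1
  rw [sub_eq_add_neg, Real.rpow_add hX0, Real.rpow_one, mul_comm]

end H38.AS
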