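import Pool.Agent.H38.AS.MCls

/-!
# [H38 AS MSM] the main terms as combinations of the UW, 60-110 lines. File Pool/Agent/H38/AS/MSum.lean

For unlinked `ϑ` and any function `h` of the classes, `MW D c b ∅ ϑ h Y = ∑_ψ γ ψ * UW D c b ψ Y` with coefficients `γ` not depending on `Y`.

Proof. `mcl` gives `F`; put `H q = h q * ep p (F q)`. So `MW = ∑_f [Dj f, ∏ nr ≤ Y] H (qf ∘ f) * wtR c.del f (LL v b)` (the families in the sum consist of good primes: `GF`; `Disjoint (f i) ∅` is trivial). Fourier inversion on the finite group `(Fin N → Fin D.r → ZMod p)`: `H q = ∑_ψ γ ψ * ep p (∑ i, dt (ψ i) (q i))` with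
`γ ψ = (p^(N r))⁻¹ ∑_q' H q' * ep p (- ∑ i, dt (ψ i) (q' i))` (`akc_inv` in `H63/MA/AKC.lean` is exactly this with the index type `Fin N × Fin D.r` or `ι → ZMod p`: use the equivalence `Fin N → Fin r → ZMod p ≃ (Fin N × Fin r) → ZMod p` (`Equiv.curry`), `dt ψ q = ∑ k, ψ k * q k`). Exchange the sums and compare with the definition of `UW` (`H38/BB/CPsi.lean`).
-/

set_option autoImplicit false

open scoped NumberField
open IsDedekindDomain
open scoped Classical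

noncomputable section

namespace H38.AS

open H63.MA H38.BB

variable {K : Type} [Field K] [NumberField K] {p : ℕ} {ζ : K} {m N : ℕ}

/-- Fourier inversion for functions of the classes -/
theorem msm_inv [NeZero p] (hp : p.Prime) (N r : ℕ) (H : (Fin N → Fin r → ZMod p) → ℂ) :
    ∃ γ : (Fin N → Fin r → ZMod p) → ℂ, ∀ q,
      H q = ∑ ψ : Fin N → Fin r → ZMod p, γ ψ * ep p (∑ i, dt (ψ i) (q i)) := by
  have hne : (((p : ℂ) ^ r) ^ N) ≠ 0 :=
    pow_ne_zero _ (pow_ne_zero _ (by exact_mod_cast hp.ne_zero))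
  refine ⟨fun ψ => (((p : ℂ) ^ r) ^ N)⁻¹ *
    ∑ q' : Fin N → Fin r → ZMod p, H q' * ep p (-∑ i, dt (ψ i) (q' i)), fun q => ?_⟩
  have e1 : ∀ ψ : Fin N → Fin r → ZMod p,
      ((((p : ℂ) ^ r) ^ N)⁻¹ *
        ∑ q' : Fin N → Fin r → ZMod p, H q' * ep p (-∑ i, dt (ψ i) (q' i))) *
        ep p (∑ i, dt (ψ i) (q i)) =
      (((p : ℂ) ^ r) ^ N)⁻¹ * ∑ q' : Fin N → Fin r → ZMod p,
        H q' * ep p (∑ i, dt (ψ i) (q i - q' i)) := by
    intro ψ
    rw [mul_assoc, Finset.sum_mul]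
    congr 1
    refine Finset.sum_congr rfl fun q' _ => ?_
    rw [mul_assoc, ← ep_add hp]
    congr 2
    rw [neg_add_eq_sub, ← Finset.sum_sub_distrib]
    refine Finset.sum_congr rfl fun i _ => ?_
    unfold dt
    rw [← Finset.sum_sub_distrib]
    refine Finset.sum_congr rfl fun k _ => ?_
    rw [Pi.sub_apply]
    ring
  have e2 : ∀ q' : Fin N → Fin r → ZMod p,
      ∑ ψ : Fin N → Fin r → ZMod p, H q' * ep p (∑ i, dt (ψ i) (q i - q' i)) =
        if q' = q then H q' * (((p : ℂ) ^ r) ^ N) else 0 := by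
    intro q'
    rw [← Finset.mul_sum, lb_orth hp (fun i => q i - q' i)]
    by_cases h : q' = q
    · rw [if_pos h, if_pos]
      intro i
      rw [h, sub_self]
    · rw [if_neg h, if_neg, mul_zero]
      intro h2
      apply h
      funext i
      exact (sub_eq_zero.1 (h2 i)).symm
  rw [Finset.sum_congr rfl fun ψ _ => e1 ψ, ← Finset.mul_sum, Finset.sum_comm,
    Finset.sum_congr rfl fun q' _ => e2 q', Finset.sum_ite_eq', if_pos (Finset.mem_univ _),
    mul_comm (H q), ← mul_assoc, inv_mul_cancel₀ hne, one_mul]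

theorem msm [NeZero p] (hp : p.Prime) (hp2 : MOne p K) (hζ : IsPrimitiveRoot ζ p)
    (D : RD K p ζ) (c : CR p m N) (b : Fin m → Kˣ) (hb : BS2 D.toRD0 b ∅)
    (ϑ : Fin N → Fin m → ZMod p) (hϑ : Unl c ϑ) (h : (Fin N → Fin D.r → ZMod p) → ℂ) :
    ∃ γ : (Fin N → Fin D.r → ZMod p) → ℂ, ∀ Y : ℝ,
      MW D.toRD0 c b ∅ ϑ h Y = ∑ ψ : Fin N → Fin D.r → ZMod p, γ ψ * UW D.toRD0 c b ψ Y := by
  obtain ⟨F, hF⟩ := mcl hp hp2 hζ D c b hb ϑ hϑ
  obtain ⟨γ, hγ⟩ := msm_inv hp N D.r (fun q => h q * ep p (F q))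
  refine ⟨γ, fun Y => ?_⟩
  unfold MW UW
  rw [Finset.sum_congr rfl fun ψ _ => Finset.mul_sum _ _ (γ ψ), Finset.sum_comm]
  refine Finset.sum_congr rfl fun f hf => ?_
  rw [Fintype.mem_piFinset] at hf
  have hdis : ∀ i, Disjoint (f i) (∅ : Finset (Pl K)) := fun i => Finset.disjoint_empty_right _
  by_cases h1 : Dj f ∧ ∏ i, nr (f i) ≤ Y
  · rw [if_pos ⟨h1.1, hdis, h1.2⟩, Finset.sum_congr rfl fun ψ _ => congrArg (γ ψ * ·) (if_pos h1),
      hF f h1.1 (fun i v hv => ((akb_mem_GF D.toRD0).1 (hf i)).2 v hv), ← mul_assoc]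
    have h2 := hγ (fun i => qf D.toRD0 (f i))
    beta_reduce at h2
    rw [h2, Finset.sum_mul]
    exact Finset.sum_congr rfl fun ψ _ => mul_assoc _ _ _
  · rw [if_neg (fun hc => h1 ⟨hc.1, hc.2.2⟩),
      Finset.sum_congr rfl fun ψ _ => congrArg (γ ψ * ·) (if_neg h1)]
    simp

end H38.AS
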