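import Pool.Agent.H38.AS.EOne
import Pool.Agent.H38.AS.MSum

/-!
# [H38 AS EFO] equidistribution of the classes of the central classes, 120-180 lines. File Pool/Agent/H38/AS/EFou.lean

`Z` a set of central classes of `c : CR p m N`, `2 ≤ N` or `Z = ∅`. `Φ f q ≥ 0` depends only on the `f i`, `i ∉ Z`, and on the `q i`, `i ∈ Z`, and is bounded by `C₀ wtR` (for pairwise disjoint families of good primes). Then
`∑_f (Φ f (qf ∘ f) - avg_q Φ f q) = o(X (log X)^{N-1})`, the sum over the families (disjoint, spanning, `∏ nr ≤ X`), where `avg_q Φ f q = (p^{N r})⁻¹ ∑_q Φ f q`.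

Proof. For fixed `f` Fourier inversion on `Fin N → Fin r → ZMod p` (`akc_inv` in `H63/MA/AKC.lean`, see `msm_inv` in `MSum`; here one needs the explicit coefficients): `Φ f q = ∑_ψ Φ̂ f ψ * ep(∑ i, dt (ψ i) (q i))`, `Φ̂ f ψ = (p^{N r})⁻¹ ∑_q Φ f q * ep(-∑ i, dt (ψ i) (q i))`, `Φ̂ f 0 = avg`. If `ψ i ≠ 0` for some `i ∉ Z` then `Φ̂ f ψ = 0`: shift `q i` by `t` with
`dt (ψ i) t ≠ 0`; `Φ` does not change and the sum is multiplied by `ep(-dt (ψ i) t) ≠ 1` (`akc_shift`). So `Φ f (qf ∘ f) - avg = ∑_{ψ ≠ 0, supp ψ ⊆ Z} Φ̂ f ψ * ep(∑_{i ∈ Z} dt (ψ i) (qf (f i)))`, a finite sum over `ψ`; it is enough to treat each such `ψ`. Choose `i₀ ∈ Z` with `ψ i₀ ≠ 0` (so `Z ≠ ∅`, `N ≥ 2`, `N = N' + 1` with `N' ≥ 1`). Apply `eon` to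
`Ψ f = C₀⁻¹ Φ̂ f ψ * ep(∑_{i ∈ Z, i ≠ i₀} dt (ψ i) (qf (f i)))` (for `C₀ > 0`) and `κ = ψ i₀`: `Ψ` does not depend on `f i₀`, and `‖Φ̂ f ψ‖ ≤ C₀ wtR` because `|Φ f q| ≤ C₀ wtR` for all `q`. (If `C₀ = 0` all terms vanish.)
-/

set_option autoImplicit false

open scoped NumberField
open IsDedekindDomain Filter Topology
open scoped Classical

noncomputable section

namespace H38.AS

open H63.MA H38.BB

variable {K : Type} [Field K] [NumberField K] {p : ℕ} {ζ : K} {m N : ℕ}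

private theorem efo_wt (c : CR p m N) (f : Fin N → Finset (Pl K)) (F : Pl K → Fin m → ZMod p) :
    0 ≤ wtR c f F := by
  unfold wtR
  refine Finset.prod_nonneg fun i _ => Finset.prod_nonneg fun v _ => ?_
  split_ifs
  · exact Nat.cast_nonneg _
  · exact le_rfl

private theorem efo_norm [NeZero p] (hp : p.Prime) {ι : Type} [Fintype ι] [DecidableEq ι]
    (G : (ι → ZMod p) → ℂ) (C : ℝ) (hG : ∀ q, ‖G q‖ ≤ C) (χ : ι → ZMod p) :
    ‖akcC p G χ‖ ≤ C := by
  unfold akcC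
  have hp0 : (0 : ℝ) < (p : ℝ) ^ Fintype.card ι := by
    have : (0 : ℝ) < p := by exact_mod_cast hp.pos
    positivity
  rw [norm_mul, norm_inv, norm_pow, Complex.norm_natCast]
  have h1 : ‖∑ q' : ι → ZMod p, G q' * ep p (-∑ i, χ i * q' i)‖ ≤
      (p : ℝ) ^ Fintype.card ι * C := by
    refine (norm_sum_le _ _).trans ?_
    have h2 : ∀ q' : ι → ZMod p, ‖G q' * ep p (-∑ i, χ i * q' i)‖ ≤ C := by
      intro q'
      rw [norm_mul, ep_norm, mul_one]
      exact hG q'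
    refine (Finset.sum_le_sum fun q' _ => h2 q').trans ?_
    rw [Finset.sum_const, nsmul_eq_mul, Finset.card_univ, Fintype.card_fun, ZMod.card]
    push_cast
    exact le_rfl
  calc ((p : ℝ) ^ Fintype.card ι)⁻¹ * ‖∑ q' : ι → ZMod p, G q' * ep p (-∑ i, χ i * q' i)‖
      ≤ ((p : ℝ) ^ Fintype.card ι)⁻¹ * ((p : ℝ) ^ Fintype.card ι * C) :=
        mul_le_mul_of_nonneg_left h1 (inv_nonneg.2 hp0.le)
    _ = C := by
        rw [← mul_assoc, inv_mul_cancel₀ hp0.ne', one_mul]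

private theorem efo_zero [NeZero p] (hp : p.Prime) {ι : Type} [Fintype ι] [DecidableEq ι]
    (G : (ι → ZMod p) → ℂ) (i : ι) (hG : ∀ q, G (q + Pi.single i 1) = G q) (χ : ι → ZMod p)
    (hχ : χ i ≠ 0) : akcC p G χ = 0 := by
  have h1 := akc_shift hp G (Pi.single i 1) 0 (by
    intro q
    rw [hG, ep_zero, mul_one]) χ
  have h2 : ∑ j, χ j * (Pi.single i (1 : ZMod p) : ι → ZMod p) j = χ i := by
    rw [Finset.sum_eq_single i]
    · rw [Pi.single_eq_same, mul_one]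
    · intro j _ hj
      rw [Pi.single_eq_of_ne hj, mul_zero]
    · intro h
      exact absurd (Finset.mem_univ i) h
  rw [h2, zero_sub] at h1
  by_contra hne
  have h3 : ep p (-χ i) = 1 := by
    have h4 : (1 - ep p (-χ i)) * akcC p G χ = 0 := by
      rw [sub_mul, one_mul, ← h1, sub_self]
    rcases mul_eq_zero.1 h4 with h5 | h5
    · exact (sub_eq_zero.1 h5).symm
    · exact absurd h5 hne
  rw [ep_eq_one hp, neg_eq_zero] at h3
  exact hχ h3

private theorem efo_avg [NeZero p] {r : ℕ} (g : (Fin N → Fin r → ZMod p) → ℝ) :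
    akcC p (fun q : Fin N × Fin r → ZMod p => ((g fun i k => q (i, k) : ℝ) : ℂ)) 0 =
      ((((p : ℝ) ^ (N * r))⁻¹ * ∑ q : Fin N → Fin r → ZMod p, g q : ℝ) : ℂ) := by
  unfold akcC
  rw [Fintype.card_prod, Fintype.card_fin, Fintype.card_fin]
  push_cast
  congr 1
  rw [← Equiv.sum_comp (Equiv.curry (Fin N) (Fin r) (ZMod p)) fun q => ((g q : ℝ) : ℂ)]
  refine Finset.sum_congr rfl fun q _ => ?_
  simp only [Pi.zero_apply, zero_mul, Finset.sum_const_zero, neg_zero, ep_zero, mul_one]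
  rfl

/-- the term of one character -/
private theorem efo_term [NeZero p] (hp : p.Prime) (hp2 : MOne p K) (hζ : IsPrimitiveRoot ζ p)
    (D : RD K p ζ) (c : CR p m N) (Z : Finset (Fin N)) (hZ : ∀ i ∈ Z, Cen c i)
    (hN : Z = ∅ ∨ 2 ≤ N) (b : Fin m → Kˣ) (hb : BS2 D.toRD0 b ∅)
    (A : (Fin N → Finset (Pl K)) → ℂ) (C₁ : ℝ) (hC₁ : 0 < C₁) (χ : Fin N × Fin D.r → ZMod p)
    (hχ : χ ≠ 0) (h0 : ∀ i k, i ∉ Z → χ (i, k) ≠ 0 → ∀ f, A f = 0)
    (h1 : ∀ f f', (∀ i, i ∉ Z → f i = f' i) → A f = A f')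
    (h2 : ∀ f, Dj f → (∀ i, ∀ v ∈ f i, D.Gd v) →
      ‖A f‖ ≤ C₁ * wtR c f (fun v k => D.LL v (akR D.toRD0 c b f k))) :
    Tendsto (fun X : ℝ => (∑ f ∈ Fintype.piFinset (fun _ : Fin N => GF D.toRD0 X),
      if Dj f ∧ ∏ i, nr (f i) ≤ X ∧ SpR c b f then
        A f * ep p (∑ x : Fin N × Fin D.r, χ x * qf D.toRD0 (f x.1) x.2) else 0) /
      ((X * Real.log X ^ (N - 1) : ℝ) : ℂ)) atTop (𝓝 0) := by
  obtain ⟨⟨i₀, k₀⟩, hik⟩ : ∃ x, χ x ≠ 0 := by
    by_contra hcon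
    push Not at hcon
    exact hχ (funext hcon)
  by_cases hi : i₀ ∈ Z
  · have h2N : 2 ≤ N := by
      rcases hN with h | h
      · rw [h] at hi
        exact absurd hi (Finset.notMem_empty _)
      · exact h
    obtain ⟨N', rfl⟩ : ∃ N', N = N' + 1 := ⟨N - 1, by omega⟩
    have hκ : (fun k => χ (i₀, k)) ≠ 0 := fun h => hik (congrFun h k₀)
    rw [Metric.tendsto_atTop]
    intro ε hε
    obtain ⟨X₀, hX₀, hX⟩ := eon hp hp2 hζ D c (by omega) i₀ (hZ i₀ hi) b hb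
      (fun k => χ (i₀, k)) hκ (ε / (2 * C₁)) (by positivity)
    refine ⟨X₀, fun X hXX => ?_⟩
    have h3 := hX X hXX (fun f => (C₁ : ℂ)⁻¹ * (A f *
      ep p (∑ x ∈ Finset.univ.filter (fun x : Fin (N' + 1) × Fin D.r => x.1 ≠ i₀),
        χ x * qf D.toRD0 (f x.1) x.2))) (by
        intro f n
        have e1 : A (Function.update f i₀ n) = A f := by
          apply h1
          intro i hiZ
          have : i ≠ i₀ := fun h => hiZ (h ▸ hi)
          rw [Function.update_of_ne this]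
        have e2 : ∑ x ∈ Finset.univ.filter (fun x : Fin (N' + 1) × Fin D.r => x.1 ≠ i₀),
            χ x * qf D.toRD0 (Function.update f i₀ n x.1) x.2 =
            ∑ x ∈ Finset.univ.filter (fun x : Fin (N' + 1) × Fin D.r => x.1 ≠ i₀),
            χ x * qf D.toRD0 (f x.1) x.2 := by
          refine Finset.sum_congr rfl fun x hx => ?_
          rw [Function.update_of_ne (Finset.mem_filter.1 hx).2]
        show (C₁ : ℂ)⁻¹ * (A (Function.update f i₀ n) * _) = (C₁ : ℂ)⁻¹ * (A f * _)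
        rw [e1, e2]) (by
        intro f hf hg
        have h4 := h2 f hf hg
        rw [norm_mul, norm_mul, ep_norm, mul_one, norm_inv, Complex.norm_real, Real.norm_eq_abs,
          abs_of_pos hC₁, inv_mul_le_iff₀ hC₁]
        exact h4)
    have e3 : ∑ f ∈ Fintype.piFinset (fun _ : Fin (N' + 1) => GF D.toRD0 X),
        (if Dj f ∧ ∏ i, nr (f i) ≤ X ∧ SpR c b f then
          ((C₁ : ℂ)⁻¹ * (A f * ep p (∑ x ∈ Finset.univ.filter
            (fun x : Fin (N' + 1) × Fin D.r => x.1 ≠ i₀), χ x * qf D.toRD0 (f x.1) x.2))) *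
            ep p (dt (fun k => χ (i₀, k)) (qf D.toRD0 (f i₀))) else 0) =
        (C₁ : ℂ)⁻¹ * ∑ f ∈ Fintype.piFinset (fun _ : Fin (N' + 1) => GF D.toRD0 X),
        (if Dj f ∧ ∏ i, nr (f i) ≤ X ∧ SpR c b f then
          A f * ep p (∑ x : Fin (N' + 1) × Fin D.r, χ x * qf D.toRD0 (f x.1) x.2) else 0) := by
      rw [Finset.mul_sum]
      refine Finset.sum_congr rfl fun f _ => ?_
      by_cases hc : Dj f ∧ ∏ i, nr (f i) ≤ X ∧ SpR c b f
      · rw [if_pos hc, if_pos hc, mul_assoc, mul_assoc, ← ep_add hp]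
        congr 3
        rw [← Finset.sum_filter_add_sum_filter_not Finset.univ
          (fun x : Fin (N' + 1) × Fin D.r => x.1 ≠ i₀)]
        congr 1
        have e4 : ∑ x ∈ Finset.univ.filter (fun x : Fin (N' + 1) × Fin D.r => ¬ x.1 ≠ i₀),
            χ x * qf D.toRD0 (f x.1) x.2 = ∑ k : Fin D.r, χ (i₀, k) * qf D.toRD0 (f i₀) k := by
          symm
          refine Finset.sum_bij (fun k _ => (i₀, k)) ?_ ?_ ?_ ?_
          · intro k _
            exact Finset.mem_filter.2 ⟨Finset.mem_univ _, fun h => h rfl⟩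
          · intro k _ k' _ h
            exact (Prod.mk.inj h).2
          · rintro ⟨i, k⟩ hx
            have hx2 : i = i₀ := not_not.1 (Finset.mem_filter.1 hx).2
            exact ⟨k, Finset.mem_univ _, by rw [hx2]⟩
          · intro k _
            rfl
        rw [e4]
        rfl
      · rw [if_neg hc, if_neg hc, mul_zero]
    have h5 := h3
    rw [e3, norm_mul, norm_inv, Complex.norm_real, Real.norm_eq_abs, abs_of_pos hC₁,
      inv_mul_le_iff₀ hC₁] at h5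
    have hX3 : 3 ≤ X := hX₀.trans hXX
    have hlog : 0 < Real.log X := Real.log_pos (by linarith)
    have hpos : 0 < X * Real.log X ^ N' := by positivity
    have e5 : N' + 1 - 1 = N' := by omega
    rw [dist_zero_right, norm_div, e5, Complex.norm_real, Real.norm_eq_abs, abs_of_pos hpos,
      div_lt_iff₀ hpos]
    refine h5.trans_lt ?_
    have e6 : C₁ * (ε / (2 * C₁) * (X * Real.log X ^ N')) = ε / 2 * (X * Real.log X ^ N') := by
      field_simp
    rw [e6]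
    exact mul_lt_mul_of_pos_right (by linarith) hpos
  · have h3 := h0 i₀ k₀ hi hik
    have e1 : ∀ X : ℝ, (∑ f ∈ Fintype.piFinset (fun _ : Fin N => GF D.toRD0 X),
      if Dj f ∧ ∏ i, nr (f i) ≤ X ∧ SpR c b f then
        A f * ep p (∑ x : Fin N × Fin D.r, χ x * qf D.toRD0 (f x.1) x.2) else 0) /
      ((X * Real.log X ^ (N - 1) : ℝ) : ℂ) = 0 := by
      intro X
      rw [Finset.sum_eq_zero, zero_div]
      intro f _
      rw [h3, zero_mul, ite_self]
    simp only [e1]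
    exact tendsto_const_nhds

theorem efo [NeZero p] (hp : p.Prime) (hp2 : MOne p K) (hζ : IsPrimitiveRoot ζ p)
    (D : RD K p ζ) (c : CR p m N) (Z : Finset (Fin N)) (hZ : ∀ i ∈ Z, Cen c i)
    (hN : Z = ∅ ∨ 2 ≤ N) (b : Fin m → Kˣ) (hb : BS2 D.toRD0 b ∅)
    (Φ : (Fin N → Finset (Pl K)) → (Fin N → Fin D.r → ZMod p) → ℝ) (C₀ : ℝ)
    (h1 : ∀ f f' q, (∀ i, i ∉ Z → f i = f' i) → Φ f q = Φ f' q)
    (h2 : ∀ f q q', (∀ i ∈ Z, q i = q' i) → Φ f q = Φ f q')
    (h3 : ∀ f q, Dj f → (∀ i, ∀ v ∈ f i, D.Gd v) → 0 ≤ Φ f q ∧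
      Φ f q ≤ C₀ * wtR c f (fun v k => D.LL v (akR D.toRD0 c b f k))) :
    Tendsto (fun X : ℝ =>
      (∑ f ∈ Fintype.piFinset (fun _ : Fin N => GF D.toRD0 X),
        if Dj f ∧ ∏ i, nr (f i) ≤ X ∧ SpR c b f then
          Φ f (fun i => qf D.toRD0 (f i)) -
            ((p : ℝ) ^ (N * D.r))⁻¹ * ∑ q : Fin N → Fin D.r → ZMod p, Φ f q else 0) /
        (X * Real.log X ^ (N - 1))) atTop (𝓝 0) := by
  obtain ⟨G, hG⟩ : ∃ G : (Fin N → Finset (Pl K)) → (Fin N × Fin D.r → ZMod p) → ℂ,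
      ∀ f, G f = fun q => ((Φ f fun i k => q (i, k) : ℝ) : ℂ) := ⟨_, fun _ => rfl⟩
  have hC₁ : 0 < |C₀| + 1 := by positivity
  -- the term of one character
  have hterm : ∀ χ ∈ (Finset.univ : Finset (Fin N × Fin D.r → ZMod p)).erase 0,
      Tendsto (fun X : ℝ => (∑ f ∈ Fintype.piFinset (fun _ : Fin N => GF D.toRD0 X),
      if Dj f ∧ ∏ i, nr (f i) ≤ X ∧ SpR c b f then
        akcC p (G f) χ * ep p (∑ x : Fin N × Fin D.r, χ x * qf D.toRD0 (f x.1) x.2) else 0) /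
      ((X * Real.log X ^ (N - 1) : ℝ) : ℂ)) atTop (𝓝 0) := by
    intro χ hχ
    refine efo_term hp hp2 hζ D c Z hZ hN b hb (fun f => akcC p (G f) χ) (|C₀| + 1) hC₁ χ
      (Finset.ne_of_mem_erase hχ) ?_ ?_ ?_
    · intro i k hi hik f
      refine efo_zero hp (G f) (i, k) (fun q => ?_) χ hik
      rw [hG]
      show ((Φ f _ : ℝ) : ℂ) = ((Φ f _ : ℝ) : ℂ)
      rw [h2 f _ (fun i k => q (i, k))]
      intro j hj
      funext l
      have hne : (j, l) ≠ (i, k) := fun h => hi ((Prod.mk.inj h).1 ▸ hj)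
      show (q + (Pi.single (i, k) 1 : Fin N × Fin D.r → ZMod p)) (j, l) = q (j, l)
      rw [Pi.add_apply, Pi.single_eq_of_ne hne, add_zero]
    · intro f f' hff
      show akcC p (G f) χ = akcC p (G f') χ
      have : G f = G f' := by
        rw [hG, hG]
        funext q
        rw [h1 f f' _ hff]
      rw [this]
    · intro f hf hg
      refine efo_norm hp (G f) _ (fun q => ?_) χ
      rw [hG]
      show ‖((Φ f _ : ℝ) : ℂ)‖ ≤ _
      obtain ⟨h4, h5⟩ := h3 f (fun i k => q (i, k)) hf hg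
      rw [Complex.norm_real, Real.norm_eq_abs, abs_of_nonneg h4]
      refine h5.trans (mul_le_mul_of_nonneg_right ?_ (efo_wt _ _ _))
      linarith [le_abs_self C₀]
  have hsum := tendsto_finsetSum _ hterm
  rw [Finset.sum_const_zero] at hsum
  have hre := (Complex.continuous_re.tendsto 0).comp hsum
  rw [Complex.zero_re] at hre
  refine hre.congr fun X => ?_
  show (∑ χ ∈ (Finset.univ : Finset (Fin N × Fin D.r → ZMod p)).erase 0,
    (∑ f ∈ Fintype.piFinset (fun _ : Fin N => GF D.toRD0 X),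
      if Dj f ∧ ∏ i, nr (f i) ≤ X ∧ SpR c b f then
        akcC p (G f) χ * ep p (∑ x : Fin N × Fin D.r, χ x * qf D.toRD0 (f x.1) x.2) else 0) /
      ((X * Real.log X ^ (N - 1) : ℝ) : ℂ)).re = _
  rw [← Finset.sum_div, Finset.sum_comm, Complex.div_ofReal_re]
  congr 1
  rw [Complex.re_sum]
  refine Finset.sum_congr rfl fun f _ => ?_
  by_cases hc : Dj f ∧ ∏ i, nr (f i) ≤ X ∧ SpR c b f
  · rw [if_pos hc, Finset.sum_congr rfl fun χ _ => if_pos hc]
    have e1 := akc_inv hp (G f) (fun x => qf D.toRD0 (f x.1) x.2)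
    rw [← Finset.add_sum_erase _ _ (Finset.mem_univ 0)] at e1
    have e2 : akcC p (G f) 0 = ((((p : ℝ) ^ (N * D.r))⁻¹ *
        ∑ q : Fin N → Fin D.r → ZMod p, Φ f q : ℝ) : ℂ) := by
      rw [hG]
      exact efo_avg (Φ f)
    have e3 : ep p (∑ i : Fin N × Fin D.r, (0 : Fin N × Fin D.r → ZMod p) i *
        qf D.toRD0 (f i.1) i.2) = 1 := by
      simp only [Pi.zero_apply, zero_mul, Finset.sum_const_zero, ep_zero]
    have e4 : G f (fun x => qf D.toRD0 (f x.1) x.2) =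
        ((Φ f (fun i => qf D.toRD0 (f i)) : ℝ) : ℂ) := by
      rw [hG]
    rw [e2, e3, mul_one, e4] at e1
    have e5 : ∑ χ ∈ (Finset.univ : Finset (Fin N × Fin D.r → ZMod p)).erase 0,
        akcC p (G f) χ * ep p (∑ x : Fin N × Fin D.r, χ x * qf D.toRD0 (f x.1) x.2) =
        ((Φ f (fun i => qf D.toRD0 (f i)) - ((p : ℝ) ^ (N * D.r))⁻¹ *
          ∑ q : Fin N → Fin D.r → ZMod p, Φ f q : ℝ) : ℂ) := by
      rw [Complex.ofReal_sub, e1]
      ring
    rw [e5, Complex.ofReal_re]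
  · rw [if_neg hc, Finset.sum_congr rfl fun χ _ => if_neg hc, Finset.sum_const_zero,
      Complex.zero_re]

end H38.AS
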