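import Pool.Agent.H38.BB.CLb
import Pool.Agent.H63.MB.BUe

/-!
# AS-ADEF: definitions for the asymptotic formula (analytic part), complete

P159 (helper38), proof: /team-store/h38_as_proof.md, part 3.

* `aw D Δ b v`: `#Δ` if `δ · (LL v (b k))_k = 0` for all `δ ∈ Δ`, and `0` otherwise.
* `V1 D a E y`: the sum of `∏_{v ∈ n} a v` over the finite sets `n` of good primes with `nr n ≤ y`, disjoint from `E`.
* `WU D a E y`: the sum of `∏_i ∏_{v ∈ f i} a i v` over the pairwise disjoint families of such sets with `∏ nr (f i) ≤ y`; `WN`: the same without disjointness.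
-/

set_option autoImplicit false

open scoped NumberField
open IsDedekindDomain
open scoped Classical

noncomputable section

namespace H38.AS

open H63.MA H38.BB

variable {K : Type} [Field K] [NumberField K] {p : ℕ} {ζ : K} {m N : ℕ}

/-- the weight of a prime attached to a subspace -/
def aw (D : RD0 K p ζ) (Δ : Submodule (ZMod p) (Fin m → ZMod p)) (b : Fin m → Kˣ) (v : Pl K) : ℝ :=
  if ∀ δ ∈ Δ, dt δ (fun k => D.LL v (b k)) = 0 then (Nat.card Δ : ℝ) else 0

/-- one class -/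
def V1 (D : RD0 K p ζ) (a : Pl K → ℝ) (E : Finset (Pl K)) (y : ℝ) : ℝ :=
  ∑ n ∈ (GF D y).filter (fun n => Disjoint n E), ∏ v ∈ n, a v

/-- pairwise disjoint families -/
def WU (D : RD0 K p ζ) (a : Fin N → Pl K → ℝ) (E : Finset (Pl K)) (y : ℝ) : ℝ :=
  ∑ f ∈ Fintype.piFinset (fun _ : Fin N => GF D y),
    if Dj f ∧ (∀ i, Disjoint (f i) E) ∧ ∏ i, nr (f i) ≤ y then ∏ i, ∏ v ∈ f i, a i v else 0

/-- all families -/
def WN (D : RD0 K p ζ) (a : Fin N → Pl K → ℝ) (E : Finset (Pl K)) (y : ℝ) : ℝ :=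
  ∑ f ∈ Fintype.piFinset (fun _ : Fin N => GF D y),
    if (∀ i, Disjoint (f i) E) ∧ ∏ i, nr (f i) ≤ y then ∏ i, ∏ v ∈ f i, a i v else 0

end H38.AS
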