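import Pool.Agent.H38.AS.KTow
import Pool.Agent.H38.AS.ADef

/-!
# [H38 AS KFD] the field attached to a subspace, 80-130 lines. File Pool/Agent/H38/AS/KFld.lean

`b k` of order `0` outside `S0`, `Δ` a subspace of `(ZMod p)^m` such that `b^δ` is not a `p`-th power for `0 ≠ δ ∈ Δ`. There is `M / K` such that for all `v ∉ S0` the number of primes `w` of `M` over `v` with `nm w = nm v` is `aw D Δ b v`; and at most `#Δ` primes of `M` lie over any prime of `K`.

Proof. Let `δ_1, …, δ_d` be a basis of `Δ` (`Module.finBasis`), `c_j = bp b δ_j`. `c` is independent modulo `p`-th powers: `∏_j c_j^{n_j}` (`n_j = (j_j).val`) is `bp b (∑ j_j δ_j)` times a `p`-th power (`∏_k (b k)^{∑_j n_j (δ_j k).val}`, and the exponent is `((∑_j j_j δ_j) k).val` modulo `p`; compare the proof of `fld` in `H38/BB/CFld.lean`), and `∑ j_j δ_j ≠ 0` for `j ≠ 0`.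
`ktw` gives `M` with `[M:K] = p^d = #Δ` (`Module.card_eq_pow_finrank`, `ZMod.card`). For `v ∉ S0`: `v ∤ p` (`D.above`), `ord v (c_j) = 0`, `lg v (c_j) = LL v (c_j)` (order `0`: unfold `RD0.LL`) `= δ_j · (LL v (b k))_k` (`aph_bp` in `MA/APh`); all `δ_j · y = 0` iff `δ · y = 0` for all `δ ∈ Δ` (`dt` is linear in `δ`). `over_card` (`CFld`) gives the last claim.
-/

set_option autoImplicit false

open scoped NumberField
open IsDedekindDomain
open scoped Classical

noncomputable section

namespace H38.AS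

open H63.MA H38.BB

private theorem kfd_exp {K : Type} [Field K] {p : ℕ} {m : ℕ} (b : Fin m → Kˣ)
    (e e' : Fin m → ℕ) (h : ∀ i, (e i : ZMod p) = (e' i : ZMod p))
    (h1 : IsPow p (∏ i, b i ^ e i)) : IsPow p (∏ i, b i ^ e' i) := by
  have ht : ∀ i, ∃ t : ℤ, (e' i : ℤ) = e i + p * t := by
    intro i
    have h2 : (((e i : ℕ) : ℤ) : ZMod p) = (((e' i : ℕ) : ℤ) : ZMod p) := by
      rw [Int.cast_natCast, Int.cast_natCast]
      exact h i
    rw [ZMod.intCast_eq_intCast_iff_dvd_sub] at h2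
    obtain ⟨t, ht⟩ := h2
    exact ⟨t, by linarith⟩
  choose t ht using ht
  obtain ⟨y, hy⟩ := h1
  refine ⟨y * ∏ i, b i ^ t i, ?_⟩
  rw [mul_pow, hy, ← Finset.prod_pow, ← Finset.prod_mul_distrib]
  refine Finset.prod_congr rfl fun i _ => ?_
  rw [← zpow_natCast (b i) (e' i), ht i, zpow_add, zpow_natCast, mul_comm (p : ℤ) (t i),
    zpow_mul, zpow_natCast]

theorem kfd {K : Type} [Field K] [NumberField K] {p : ℕ} {ζ : K} {m : ℕ} (hp : p.Prime)
    (hζ : IsPrimitiveRoot ζ p) (D : RD0 K p ζ) (b : Fin m → Kˣ)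
    (hb : ∀ k v, v ∉ D.S0 → ord v (b k) = 0) (Δ : Submodule (ZMod p) (Fin m → ZMod p))
    (hΔ : ∀ δ ∈ Δ, δ ≠ 0 → ¬ IsPow p (bp b δ)) :
    ∃ (M : Type) (_ : Field M) (_ : NumberField M) (_ : Algebra K M),
      (∀ (v : Pl K) (F : Finset (Pl M)), (∀ w ∈ F, Over w v) → F.card ≤ Nat.card Δ) ∧
      ∀ v : Pl K, v ∉ D.S0 →
        ({w : Pl M | Over w v ∧ nm w = nm v}.ncard : ℝ) = aw D Δ b v := by
  have hfact : Fact p.Prime := ⟨hp⟩
  have hnz : NeZero p := ⟨hp.ne_zero⟩
  let B := Module.finBasis (ZMod p) Δ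
  have hind : ∀ j : Fin (Module.finrank (ZMod p) Δ) → ZMod p, j ≠ 0 →
      ¬ IsPow p (∏ k, bp b (B k : Fin m → ZMod p) ^ (j k).val) := by
    intro j hj hpow
    have hδ0 : (∑ k, j k • B k : Δ) ≠ 0 := by
      intro h0
      apply hj
      funext k
      exact Fintype.linearIndependent_iff.1 B.linearIndependent j h0 k
    refine hΔ (∑ k, j k • B k : Δ) (∑ k, j k • B k : Δ).2 (fun h0 => hδ0 (Subtype.ext h0)) ?_
    have hprod : ∏ k, bp b (B k : Fin m → ZMod p) ^ (j k).val =
        ∏ i, b i ^ (∑ k, ((B k : Fin m → ZMod p) i).val * (j k).val) := by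
      unfold bp
      simp only [← Finset.prod_pow, ← pow_mul]
      rw [Finset.prod_comm]
      exact Finset.prod_congr rfl fun i _ => Finset.prod_pow_eq_pow_sum _ _ _
    rw [hprod] at hpow
    unfold bp
    refine kfd_exp b _ _ ?_ hpow
    intro i
    have e1 : ((∑ k, j k • B k : Δ) : Fin m → ZMod p) i =
        ∑ k, j k * (B k : Fin m → ZMod p) i := by
      have e2 : ((∑ k, j k • B k : Δ) : Fin m → ZMod p) =
          ∑ k, j k • (B k : Fin m → ZMod p) := by
        have e3 := map_sum (Submodule.subtype Δ) (fun k => j k • B k) Finset.univ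
        simp only [map_smul] at e3
        exact e3
      rw [e2, Finset.sum_apply]
      rfl
    rw [ZMod.natCast_zmod_val, e1]
    push_cast
    refine Finset.sum_congr rfl fun k _ => ?_
    rw [ZMod.natCast_zmod_val, ZMod.natCast_zmod_val, mul_comm]
  obtain ⟨M, i1, i2, i3, hdeg, hM⟩ := ktw (Module.finrank (ZMod p) Δ) K p hp ζ hζ
    (fun k => bp b (B k : Fin m → ZMod p)) hind
  have hcard : Nat.card Δ = p ^ Module.finrank (ZMod p) Δ := by
    rw [Module.natCard_eq_pow_finrank (K := ZMod p) (V := Δ), Nat.card_zmod]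
  refine ⟨M, i1, i2, i3, ?_, ?_⟩
  · intro v F hF
    rw [hcard, ← hdeg]
    exact over_card v F hF
  · intro v hv
    have hva : ¬ Above p v := fun h' => hv (D.above v h')
    have hord : ∀ δ : Fin m → ZMod p, ord v (bp b δ) = 0 := by
      intro δ
      unfold bp
      rw [ord_prod]
      apply Finset.sum_eq_zero
      intro k _
      rw [ord_pow, hb k v hv, mul_zero]
    have hlg : ∀ δ : Fin m → ZMod p, lg p ζ v (bp b δ) = dt δ fun k => D.LL v (b k) := by
      intro δ
      rw [← LL_unit hp hζ D hv (hord δ), aph_bp hp hζ D b _ hv]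
    rw [hM v hva (fun k => hord _)]
    have hiff : (∀ k, lg p ζ v (bp b (B k : Fin m → ZMod p)) = 0) ↔
        ∀ δ ∈ Δ, dt δ (fun k => D.LL v (b k)) = 0 := by
      constructor
      · intro h
        have hbas : ∀ j, dt (B j : Fin m → ZMod p) (fun k => D.LL v (b k)) = 0 := by
          intro j
          rw [← hlg]
          exact h j
        intro δ hδ
        have h5 : δ = ∑ j, B.repr ⟨δ, hδ⟩ j • (B j : Fin m → ZMod p) := by
          have h6 := congrArg (Submodule.subtype Δ) (B.sum_repr ⟨δ, hδ⟩)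
          rw [map_sum] at h6
          simp only [map_smul] at h6
          exact h6.symm
        rw [h5]
        unfold dt
        simp only [Finset.sum_apply, Pi.smul_apply, smul_eq_mul, Finset.sum_mul]
        rw [Finset.sum_comm]
        apply Finset.sum_eq_zero
        intro j _
        have h7 := hbas j
        unfold dt at h7
        rw [← mul_zero (B.repr ⟨δ, hδ⟩ j), ← h7, Finset.mul_sum]
        exact Finset.sum_congr rfl fun k _ => by ring
      · intro h k
        rw [hlg]
        exact h _ (B k).2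
    unfold aw
    by_cases hc : ∀ δ ∈ Δ, dt δ (fun k => D.LL v (b k)) = 0
    · rw [if_pos hc, if_pos (hiff.2 hc), hcard]
    · rw [if_neg hc, if_neg (fun h => hc (hiff.1 h)), Nat.cast_zero]

end H38.AS
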