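import Pool.Agent.H38.AS.ADef
import Pool.Agent.H38.BB.CSin
import Pool.Agent.H63.MB.BUf

/-!
# [H38 AS VCM] comparison with the sets of primes of an extension, 180-260 lines. File Pool/Agent/H38/AS/VCmp.lean

`M / K`, at most `q` primes of `M` over every prime of `K`, `a v` = the number of primes `w` of `M` over `v` with `nm w = nm v` for `v ∉ S0`; `D'` reciprocity data of `M` (only `D'.S0` and the notion of a good prime matter). For large `T`, if `F` contains `S0` and all `v` with `nm v ≤ T` and `F'` is the set of the primes of `M` over `F`, then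
`|V1 D a F y - UN D' 1 F' y| ≤ C T^(-1/4) y` for `y ≥ 1`.

Proof. `T₀` ≥ 3 and all `nm w`, `w ∈ D'.S0`. Let `β w` be the prime below `w` (`pzs_bel` in `MA/PzS`, `pzs_bel_over`, `pzs_bel_iff`). If `T ≥ T₀`: for `w ∈ D'.S0`, `nm (β w) ≤ nm w ≤ T` (`nm_over`), so `β w ∈ F` and `w ∈ F'`.
`UN D' 1 F' y` is the number of the `𝔫 ∈ GF D' y` disjoint from `F'` (`buf_UN_one` in `MB/BUf`; copy or import). For such `𝔫` and `w ∈ 𝔫`: `nm w` is prime, so `nm (β w) = nm w` (`nm_over`), `β w ∉ F`, so `β w` is good for `D` (`β w ∉ S0`). Call `𝔫` simple if `β` is injective on `𝔫`. For simple `𝔫`, `n = β(𝔫)` (image) is in `GF D y`, `nr n = nr 𝔫`, disjoint from `F`.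
Conversely for `n ∈ GF D y` disjoint from `F` the number of the simple `𝔫` with `β(𝔫) = n` is exactly `∏_{v ∈ n} a v`: such an `𝔫` is a choice of `w` over `v` with `nm w = nm v` for every `v ∈ n` (`Finset.card_pi`/`Fintype.card_pi`; `w ∉ D'.S0` as `D'.S0 ⊆ F'` and `w ∉ F'`, `nm w = nm v` prime). So `V1 D a F y` = number of simple `𝔫`, and
`0 ≤ UN D' 1 F' y - V1 D a F y` = number of non-simple `𝔫`. These contain `w ≠ w'` over the same `v`, `nm v = nm w = nm w' > T` (`v ∉ F`); for given `v, w, w'` removing both maps them injectively to `GF D' (y / (nm v)^2)`, at most `C₂ y / (nm v)^2` (`af_card M`; none if `y < (nm v)^2`, as `nr ≥ 1`); the number of pairs is `≤ q²`. Sum over `v`, `nm v > T`: `q² C₂ y ∑ (nm v)^(-2) ≤ q² C₂ y T^(-1/2) ∑_v (nm v)^(-3/2)`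
(`pz_summable` in `MA/PZb`; finite sets of `v` only). `T^(-1/2) ≤ T^(-1/4)`. Compare the proofs of `sing` in `H38/BB/CSin.lean` (which contains the same estimate for the non-simple sets) and `acntc_bad` in `MA/ACntC`, `buf_mem` in `MB/BUf`.
-/

set_option autoImplicit false

open scoped NumberField
open IsDedekindDomain
open scoped Classical

noncomputable section

namespace H38.AS

open H63.MA H38.BB

/-- the number of the simple sets with a given image -/
theorem vcm_fib {V W : Type} (β : W → V) (n : Finset V) (O : V → Finset W)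
    (hO : ∀ v ∈ n, ∀ w ∈ O v, β w = v) (G : Finset (Finset W))
    (hG : ∀ g, g ∈ G ↔ Set.InjOn β g ∧ g.image β = n ∧ ∀ w ∈ g, w ∈ O (β w)) :
    G.card = ∏ v ∈ n, (O v).card := by
  have h1 : (n.pi O).card = G.card := by
    refine Finset.card_bij (fun φ _ => n.attach.image fun v => φ v.1 v.2) ?_ ?_ ?_
    · intro φ hφ
      rw [Finset.mem_pi] at hφ
      rw [hG]
      have hβ : ∀ v (hv : v ∈ n), β (φ v hv) = v := fun v hv => hO v hv _ (hφ v hv)
      refine ⟨?_, ?_, ?_⟩
      · intro x hx x' hx' hxx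
        rw [Finset.mem_coe, Finset.mem_image] at hx hx'
        obtain ⟨⟨v, hv⟩, -, rfl⟩ := hx
        obtain ⟨⟨v', hv'⟩, -, rfl⟩ := hx'
        rw [hβ, hβ] at hxx
        subst hxx
        rfl
      · ext v
        rw [Finset.mem_image]
        constructor
        · rintro ⟨w, hw, rfl⟩
          obtain ⟨v, -, rfl⟩ := Finset.mem_image.1 hw
          rw [hβ]
          exact v.2
        · intro hv
          exact ⟨φ v hv, Finset.mem_image.2 ⟨⟨v, hv⟩, Finset.mem_attach _ _, rfl⟩, hβ v hv⟩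
      · intro w hw
        obtain ⟨v, -, rfl⟩ := Finset.mem_image.1 hw
        rw [hβ]
        exact hφ v.1 v.2
    · intro φ hφ φ' hφ' h
      rw [Finset.mem_pi] at hφ hφ'
      funext v hv
      have h2 : φ v hv ∈ n.attach.image fun v => φ' v.1 v.2 := by
        have h3 : φ v hv ∈ n.attach.image fun v => φ v.1 v.2 :=
          Finset.mem_image.2 ⟨⟨v, hv⟩, Finset.mem_attach _ _, rfl⟩
        rw [h] at h3
        exact h3
      obtain ⟨⟨v', hv''⟩, -, hv'⟩ := Finset.mem_image.1 h2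
      have h3 := hO v hv _ (hφ v hv)
      rw [← hv', hO v' hv'' _ (hφ' v' hv'')] at h3
      subst h3
      exact hv'.symm
    · intro g hg
      rw [hG] at hg
      obtain ⟨h2, h3, h4⟩ := hg
      have hex : ∀ v ∈ n, ∃ w ∈ g, β w = v := by
        intro v hv
        rw [← h3] at hv
        obtain ⟨w, hw, hwv⟩ := Finset.mem_image.1 hv
        exact ⟨w, hw, hwv⟩
      choose φ hφ1 hφ2 using hex
      refine ⟨φ, ?_, ?_⟩
      · rw [Finset.mem_pi]
        intro v hv
        have h5 := h4 _ (hφ1 v hv)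
        rw [hφ2 v hv] at h5
        exact h5
      · ext w
        rw [Finset.mem_image]
        constructor
        · rintro ⟨v, -, rfl⟩
          exact hφ1 _ _
        · intro hw
          have hv : β w ∈ n := by
            rw [← h3]
            exact Finset.mem_image_of_mem β hw
          exact ⟨⟨β w, hv⟩, Finset.mem_attach _ _, h2 (hφ1 _ hv) hw (hφ2 _ hv)⟩
  rw [← h1, Finset.card_pi]

theorem vcm {K : Type} [Field K] [NumberField K] {p : ℕ} {ζ : K} (D : RD0 K p ζ)
    {M : Type} [Field M] [NumberField M] [Algebra K M] {ζ' : M} (D' : RD0 M p ζ') (q : ℕ)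
    (hq : ∀ (v : Pl K) (F : Finset (Pl M)), (∀ w ∈ F, Over w v) → F.card ≤ q)
    (a : Pl K → ℝ)
    (ha : ∀ v : Pl K, v ∉ D.S0 → ({w : Pl M | Over w v ∧ nm w = nm v}.ncard : ℝ) = a v) :
    ∃ C T₀ : ℝ, 0 < C ∧ 3 ≤ T₀ ∧ ∀ T : ℝ, T₀ ≤ T → ∀ (F : Finset (Pl K)) (F' : Finset (Pl M)),
      (∀ v ∈ D.S0, v ∈ F) → (∀ v : Pl K, (nm v : ℝ) ≤ T → v ∈ F) →
      (∀ w, w ∈ F' ↔ ∃ v ∈ F, Over w v) → ∀ y : ℝ, 1 ≤ y →
        |V1 D a F y - UN D' 1 F' y| ≤ C * T ^ (-(1 / 4) : ℝ) * y := by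
  obtain ⟨CA, hCA, hcard⟩ := af_card M
  have hS0 : 0 ≤ ∑' v : Pl K, (nm v : ℝ) ^ (-(3 / 2) : ℝ) :=
    tsum_nonneg fun v => Real.rpow_nonneg (Nat.cast_nonneg _) _
  set S : ℝ := ∑' v : Pl K, (nm v : ℝ) ^ (-(3 / 2) : ℝ) with hS
  set β : Pl M → Pl K := pzs_bel K with hβ
  set O : Pl K → Finset (Pl M) := fun v =>
    (over_finite (L := M) v).toFinset.filter fun w => nm w = nm v with hO
  have hmO : ∀ w v, w ∈ O v ↔ Over w v ∧ nm w = nm v := by
    intro w v
    rw [hO]
    simp only [Finset.mem_filter, Set.Finite.mem_toFinset]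
    rfl
  have hcO : ∀ v, (O v).card ≤ q := by
    intro v
    exact hq v (O v) fun w hw => ((hmO w v).1 hw).1
  have haO : ∀ v, v ∉ D.S0 → a v = ((O v).card : ℝ) := by
    intro v hv
    rw [← ha v hv, ← Set.ncard_coe_finset]
    congr 2
    ext w
    rw [Finset.mem_coe, hmO]
    rfl
  refine ⟨(q : ℝ) ^ 2 * CA * S + 1, max 3 (∑ w ∈ D'.S0, (nm w : ℝ)), by positivity,
    le_max_left _ _, fun T hT F F' hF0 hFT hF' y hy => ?_⟩
  have hT3 : 3 ≤ T := (le_max_left _ _).trans hT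
  have hT0 : 0 < T := by linarith
  have hTS : ∑ v ∈ D'.S0, (nm v : ℝ) ≤ T := (le_max_right _ _).trans hT
  have hy0 : 0 < y := by linarith
  have hF'b : ∀ w, w ∈ F' ↔ β w ∈ F := by
    intro w
    rw [hF']
    constructor
    · rintro ⟨v, hv, hwv⟩
      rw [pzs_bel_iff] at hwv
      rw [hβ, hwv]
      exact hv
    · intro h
      exact ⟨β w, h, pzs_bel_over w⟩
  have hS0F : ∀ w ∈ D'.S0, w ∈ F' := by
    intro w hw
    rw [hF'b]
    apply hFT
    obtain ⟨f, hf1, hf⟩ := nm_over (pzs_bel_over (K := K) w)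
    have h1 : nm (β w) ≤ nm w := by
      rw [hf]
      exact Nat.le_self_pow (by omega) _
    have h2 : (nm w : ℝ) ≤ ∑ w ∈ D'.S0, (nm w : ℝ) :=
      Finset.single_le_sum (f := fun v : Pl M => (nm v : ℝ)) (fun v _ => Nat.cast_nonneg _) hw
    have h3 : (nm (β w) : ℝ) ≤ nm w := by exact_mod_cast h1
    linarith
  set G : Finset (Finset (Pl M)) := (GF D' y).filter fun n => Disjoint n F' with hG
  -- the primes in the sets of `G`
  have hprime : ∀ g ∈ G, ∀ w ∈ g, T < (nm w : ℝ) ∧ β w ∉ D.S0 ∧ (nm (β w)).Prime ∧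
      nm (β w) = nm w ∧ β w ∉ F := by
    intro g hg w hw
    rw [hG, Finset.mem_filter, GF, Finset.mem_filter] at hg
    obtain ⟨⟨-, hg1⟩, hg2⟩ := hg
    have hwF : w ∉ F' := Finset.disjoint_left.1 hg2 hw
    rw [hF'b] at hwF
    have hgd := hg1 w hw
    have hbel : Over w (β w) := pzs_bel_over w
    obtain ⟨f, hf1, hf⟩ := nm_over hbel
    have hpr : (nm w).Prime := hgd.2
    have hf2 : f = 1 := by
      have h1 := hpr
      rw [hf] at h1
      exact h1.eq_one_of_pow
    rw [hf2, pow_one] at hf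
    refine ⟨?_, fun h => hwF (hF0 _ h), ?_, hf.symm, hwF⟩
    · rw [hf]
      by_contra h
      exact hwF (hFT _ (not_lt.1 h))
    · rw [← hf]
      exact hpr
  -- the simple sets
  set Gs : Finset (Finset (Pl M)) := G.filter fun g => Set.InjOn β g with hGs
  set Gb : Finset (Finset (Pl M)) := G.filter fun g => ¬ Set.InjOn β g with hGb
  have hsplit : Gs.card + Gb.card = G.card := Finset.card_filter_add_card_filter_not _
  set Nn : Finset (Finset (Pl K)) := (GF D y).filter (fun n => Disjoint n F) with hNn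
  have hmap : ∀ g ∈ Gs, g.image β ∈ Nn := by
    intro g hg
    rw [hGs, Finset.mem_filter] at hg
    obtain ⟨hgG, hinj⟩ := hg
    have hpr := hprime g hgG
    have hnr : nr (g.image β) = nr g := by
      unfold nr
      rw [Finset.prod_image hinj]
      exact Finset.prod_congr rfl fun w hw => by rw [(hpr w hw).2.2.2.1]
    rw [hG, Finset.mem_filter, GF, Finset.mem_filter, mem_AF] at hgG
    rw [hNn, Finset.mem_filter, GF, Finset.mem_filter, mem_AF, hnr]
    refine ⟨⟨hgG.1.1, fun v hv => ?_⟩, ?_⟩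
    · obtain ⟨w, hw, rfl⟩ := Finset.mem_image.1 hv
      exact ⟨(hpr w hw).2.1, (hpr w hw).2.2.1⟩
    · rw [Finset.disjoint_left]
      intro v hv
      obtain ⟨w, hw, rfl⟩ := Finset.mem_image.1 hv
      exact (hpr w hw).2.2.2.2
  have hfib : ∀ n ∈ Nn, ((Gs.filter fun g => g.image β = n).card : ℝ) = ∏ v ∈ n, a v := by
    intro n hn
    rw [hNn, Finset.mem_filter, GF, Finset.mem_filter, mem_AF] at hn
    obtain ⟨⟨hn1, hn2⟩, hn3⟩ := hn
    have hw : ∀ v ∈ n, a v = ((O v).card : ℝ) := fun v hv => haO v (hn2 v hv).1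
    rw [Finset.prod_congr rfl hw]
    have h1 := vcm_fib β n O (fun v _ w hw => pzs_bel_iff.1 ((hmO w v).1 hw).1)
      (Gs.filter fun g => g.image β = n) ?_
    · exact_mod_cast h1
    · intro g
      rw [Finset.mem_filter, hGs, Finset.mem_filter]
      constructor
      · rintro ⟨⟨hg1, hg2⟩, hg3⟩
        refine ⟨hg2, hg3, fun w hw => (hmO w (β w)).2 ⟨pzs_bel_over w, ?_⟩⟩
        exact (hprime g hg1 w hw).2.2.2.1.symm
      · rintro ⟨hg1, hg2, hg3⟩
        have hnm : ∀ w ∈ g, nm w = nm (β w) := fun w hw => ((hmO _ _).1 (hg3 w hw)).2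
        have hnr : nr n = nr g := by
          rw [← hg2]
          unfold nr
          rw [Finset.prod_image hg1]
          exact Finset.prod_congr rfl fun w hw => by rw [hnm w hw]
        have hβn : ∀ w ∈ g, β w ∈ n := by
          intro w hw
          rw [← hg2]
          exact Finset.mem_image_of_mem β hw
        have hwF' : ∀ w ∈ g, w ∉ F' := by
          intro w hw
          rw [hF'b]
          exact Finset.disjoint_left.1 hn3 (hβn w hw)
        refine ⟨⟨?_, hg1⟩, hg2⟩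
        rw [hG, Finset.mem_filter, GF, Finset.mem_filter, mem_AF, ← hnr]
        refine ⟨⟨hn1, fun w hw => ⟨fun h => hwF' w hw (hS0F w h), ?_⟩⟩, ?_⟩
        · rw [hnm w hw]
          exact (hn2 _ (hβn w hw)).2
        · rw [Finset.disjoint_left]
          exact fun w hw => hwF' w hw
  have hsimple : V1 D a F y = (Gs.card : ℝ) := by
    unfold V1
    rw [Finset.card_eq_sum_card_fiberwise hmap, Nat.cast_sum]
    exact Finset.sum_congr rfl fun n hn => (hfib n hn).symm
  -- the sets which are not simple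
  set V : Finset (Pl K) := (G.biUnion id).image β with hV
  have hVT : ∀ v ∈ V, T < (nm v : ℝ) := by
    intro v hv
    rw [hV] at hv
    obtain ⟨w, hw, rfl⟩ := Finset.mem_image.1 hv
    obtain ⟨g, hg, hwg⟩ := Finset.mem_biUnion.1 hw
    have := hprime g hg w hwg
    rw [this.2.2.2.1]
    exact this.1
  set P : Pl K → Finset (Pl M × Pl M) := fun v => (O v).offDiag with hPd
  have hPc : ∀ v, ((P v).card : ℝ) ≤ (q : ℝ) ^ 2 := by
    intro v
    have h1 : (P v).card ≤ q ^ 2 := by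
      rw [hPd]
      dsimp only
      rw [Finset.offDiag_card]
      refine (Nat.sub_le _ _).trans ?_
      rw [sq]
      exact Nat.mul_le_mul (hcO v) (hcO v)
    exact_mod_cast h1
  have hbsub : Gb ⊆ V.biUnion fun v => (P v).biUnion fun x =>
      (AF M y).filter fun g => x.1 ∈ g ∧ x.2 ∈ g := by
    intro g hg
    rw [hGb, Finset.mem_filter] at hg
    obtain ⟨hg1, hg2⟩ := hg
    unfold Set.InjOn at hg2
    push Not at hg2
    obtain ⟨w, hw, w', hw', hww, hne⟩ := hg2
    rw [Finset.mem_coe] at hw hw'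
    rw [Finset.mem_biUnion]
    refine ⟨β w, ?_, ?_⟩
    · rw [hV]
      exact Finset.mem_image_of_mem β (Finset.mem_biUnion.2 ⟨g, hg1, hw⟩)
    · rw [Finset.mem_biUnion]
      refine ⟨(w, w'), ?_, ?_⟩
      · rw [hPd]
        dsimp only
        rw [Finset.mem_offDiag]
        refine ⟨(hmO _ _).2 ⟨pzs_bel_over w, (hprime g hg1 w hw).2.2.2.1.symm⟩,
          (hmO _ _).2 ⟨?_, ?_⟩, hne⟩
        · rw [hww]
          exact pzs_bel_over w'
        · rw [hww]
          exact (hprime g hg1 w' hw').2.2.2.1.symm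
      · rw [Finset.mem_filter]
        refine ⟨?_, hw, hw'⟩
        rw [hG, Finset.mem_filter, GF, Finset.mem_filter] at hg1
        exact hg1.1.1
  have hbad : (Gb.card : ℝ) ≤ (q : ℝ) ^ 2 * CA * S * T ^ (-(1 / 2) : ℝ) * y := by
    have h1 : (Gb.card : ℝ) ≤ ∑ v ∈ V, ∑ x ∈ P v,
        (((AF M y).filter fun g => x.1 ∈ g ∧ x.2 ∈ g).card : ℝ) := by
      have h2 := (Finset.card_le_card hbsub).trans Finset.card_biUnion_le
      have h3 : ∑ v ∈ V, ((P v).biUnion fun x =>
          (AF M y).filter fun g => x.1 ∈ g ∧ x.2 ∈ g).card ≤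
          ∑ v ∈ V, ∑ x ∈ P v, ((AF M y).filter fun g => x.1 ∈ g ∧ x.2 ∈ g).card :=
        Finset.sum_le_sum fun v _ => Finset.card_biUnion_le
      exact_mod_cast h2.trans h3
    have h4 : ∀ v ∈ V, ∑ x ∈ P v, (((AF M y).filter fun g => x.1 ∈ g ∧ x.2 ∈ g).card : ℝ) ≤
        (q : ℝ) ^ 2 * CA * y * (nm v : ℝ)⁻¹ ^ 2 := by
      intro v _
      have h5 : ∀ x ∈ P v, (((AF M y).filter fun g => x.1 ∈ g ∧ x.2 ∈ g).card : ℝ) ≤
          CA * y * (nm v : ℝ)⁻¹ ^ 2 := by
        intro x hx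
        rw [hPd] at hx
        dsimp only at hx
        rw [Finset.mem_offDiag, hmO, hmO] at hx
        refine (csin_two hCA hcard hx.2.2 hy0.le).trans (le_of_eq ?_)
        rw [hx.1.2, hx.2.1.2]
        ring
      refine (Finset.sum_le_sum h5).trans ?_
      rw [Finset.sum_const, nsmul_eq_mul]
      have h6 : 0 ≤ CA * y * (nm v : ℝ)⁻¹ ^ 2 := by positivity
      calc ((P v).card : ℝ) * (CA * y * (nm v : ℝ)⁻¹ ^ 2) ≤
            (q : ℝ) ^ 2 * (CA * y * (nm v : ℝ)⁻¹ ^ 2) := mul_le_mul_of_nonneg_right (hPc v) h6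
        _ = _ := by ring
    refine (h1.trans (Finset.sum_le_sum h4)).trans ?_
    rw [← Finset.mul_sum]
    have h7 := acntc_sum hT0 V hVT
    calc (q : ℝ) ^ 2 * CA * y * ∑ v ∈ V, (nm v : ℝ)⁻¹ ^ 2 ≤
          (q : ℝ) ^ 2 * CA * y * (T ^ (-(1 / 2) : ℝ) * S) :=
          mul_le_mul_of_nonneg_left h7 (by positivity)
      _ = _ := by ring
  have hsplit' : (Gs.card : ℝ) + Gb.card = G.card := by exact_mod_cast hsplit
  have hdiff : V1 D a F y - UN D' 1 F' y = -(Gb.card : ℝ) := by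
    rw [hsimple, buf_UN_one, ← hG, ← hsplit']
    ring
  rw [hdiff, abs_neg, abs_of_nonneg (Nat.cast_nonneg _)]
  refine hbad.trans ?_
  have hTT : T ^ (-(1 / 2) : ℝ) ≤ T ^ (-(1 / 4) : ℝ) :=
    Real.rpow_le_rpow_of_exponent_le (by linarith) (by norm_num)
  have hT4 : 0 ≤ T ^ (-(1 / 4) : ℝ) := Real.rpow_nonneg hT0.le _
  have hA : 0 ≤ (q : ℝ) ^ 2 * CA * S := by positivity
  calc (q : ℝ) ^ 2 * CA * S * T ^ (-(1 / 2) : ℝ) * y
      ≤ (q : ℝ) ^ 2 * CA * S * T ^ (-(1 / 4) : ℝ) * y :=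
        mul_le_mul_of_nonneg_right (mul_le_mul_of_nonneg_left hTT hA) hy0.le
    _ ≤ ((q : ℝ) ^ 2 * CA * S + 1) * T ^ (-(1 / 4) : ℝ) * y := by
        refine mul_le_mul_of_nonneg_right ?_ hy0.le
        exact mul_le_mul_of_nonneg_right (by linarith) hT4

end H38.AS
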