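import Pool.Agent.H38.AS.WSeq

/-!
# [H38 AS WDJ] disjoint families against all families, 110-170 lines. File Pool/Agent/H38/AS/WDj.lean

`0 ≤ a i v ≤ A₀`, `V1 D (a i) ∅ y ≤ C₁ y`. If `F` contains all `v` with `nm v ≤ T` then `|WU D a F y - WN D a F y| ≤ C T^(-1/4) y (1 + log y)^{N-1}` for `y ≥ 1`.

Proof. `WN - WU ≥ 0` is the sum over the families avoiding `F` which are not pairwise disjoint: there are `i ≠ j` and `v ∈ f i ∩ f j`, `v ∉ F`, so `nm v > T` and `v` is good. For given `i, j, v`: `f ↦ f'` with `v` removed from `f i` and `f j` is injective, `∏ nr (f' l) = ∏ nr (f l) / (nm v)^2 ≤ y / (nm v)^2`, and the weight is `a i v * a j v` times the weight of `f'`: the sum over these `f` is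
`≤ A₀² WN D a ∅ (y / (nm v)^2) ≤ A₀² C' y / (nm v)^2 (1 + log y)^{N-1}` by `wn_up` (and `0` if `y < (nm v)^2`). The sum over `v` with `nm v > T` (finitely many: `nm v ≤ y`) of `(nm v)^(-2) ≤ T^(-1/2) (nm v)^(-3/2)` is `≤ C'' T^(-1/2)` (`pz_summable`, `s = 3/2`), and there are `≤ N²` pairs. (Compare the proof of `tup` in `H38/BB/CTup.lean`, part (1), and `un_ti` in `H63/MB/BUc.lean`.)
-/

set_option autoImplicit false

open scoped NumberField
open IsDedekindDomain Filter Topology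
open scoped Classical

noncomputable section

namespace H38.AS

open H63.MA H38.BB

variable {K : Type} [Field K] [NumberField K] {p : ℕ} {ζ : K} {N : ℕ}

private theorem wdj_mem (D : RD0 K p ζ) {y : ℝ} {n : Finset (Pl K)} :
    n ∈ GF D y ↔ nr n ≤ y ∧ ∀ v ∈ n, D.Gd v := by
  unfold GF
  rw [Finset.mem_filter, mem_AF]

/-- a member of a family with bounded product -/
private theorem wdj_one {f : Fin N → Finset (Pl K)} {y : ℝ} (h : ∏ i, nr (f i) ≤ y) (i : Fin N) :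
    nr (f i) ≤ y := by
  refine le_trans ?_ h
  rw [← Finset.mul_prod_erase Finset.univ _ (Finset.mem_univ i)]
  have h3 : (1 : ℝ) ≤ ∏ j ∈ Finset.univ.erase i, nr (f j) := by
    have : ∏ j ∈ Finset.univ.erase i, (1 : ℝ) ≤ ∏ j ∈ Finset.univ.erase i, nr (f j) :=
      Finset.prod_le_prod (fun _ _ => zero_le_one) fun j _ => one_le_nr _
    rwa [Finset.prod_const_one] at this
  exact le_mul_of_one_le_right (zero_le_one.trans (one_le_nr _)) h3

private theorem wdj_zero (D : RD0 K p ζ) (a : Fin N → Pl K → ℝ) (F : Finset (Pl K)) {y : ℝ}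
    (hy : y < 1) : WN D a F y = 0 := by
  unfold WN
  refine Finset.sum_eq_zero fun f _ => if_neg ?_
  rintro ⟨-, h⟩
  have : (1 : ℝ) ≤ ∏ i, nr (f i) := by
    have : ∏ i : Fin N, (1 : ℝ) ≤ ∏ i, nr (f i) :=
      Finset.prod_le_prod (fun _ _ => zero_le_one) fun j _ => one_le_nr _
    rwa [Finset.prod_const_one] at this
  linarith

/-- removing `v` from two members -/
private def wdjE (i j : Fin N) (v : Pl K) (f : Fin N → Finset (Pl K)) : Fin N → Finset (Pl K) :=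
  fun l => if l = i ∨ l = j then (f l).erase v else f l

private theorem wdj_prod {i j : Fin N} (hij : i ≠ j) {v : Pl K} {f : Fin N → Finset (Pl K)}
    (hi : v ∈ f i) (hj : v ∈ f j) (c : Fin N → Pl K → ℝ) :
    ∏ l, ∏ w ∈ f l, c l w = c i v * c j v * ∏ l, ∏ w ∈ wdjE i j v f l, c l w := by
  have h1 : ∀ l, ∏ w ∈ f l, c l w =
      (if l = i ∨ l = j then c l v else 1) * ∏ w ∈ wdjE i j v f l, c l w := by
    intro l
    unfold wdjE
    split_ifs with hl
    · refine (Finset.mul_prod_erase (f l) _ ?_).symm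
      rcases hl with rfl | rfl
      · exact hi
      · exact hj
    · rw [one_mul]
  rw [Finset.prod_congr rfl fun l _ => h1 l, Finset.prod_mul_distrib]
  congr 1
  rw [Finset.prod_ite, Finset.prod_const_one, mul_one]
  have h4 : (Finset.univ.filter fun l : Fin N => l = i ∨ l = j) = {i, j} := by
    ext l
    simp
  rw [h4, Finset.prod_pair hij]

/-- the families with a common element in two members -/
private theorem wdj_pair (D : RD0 K p ζ) (a : Fin N → Pl K → ℝ) {A : ℝ} (hA : 0 ≤ A)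
    (ha : ∀ i v, 0 ≤ a i v ∧ a i v ≤ A) {i j : Fin N} (hij : i ≠ j) (v : Pl K) (y : ℝ) :
    ∑ f ∈ (Fintype.piFinset (fun _ : Fin N => GF D y)).filter
      (fun f => (v ∈ f i ∧ v ∈ f j) ∧ ∏ l, nr (f l) ≤ y), ∏ l, ∏ w ∈ f l, a l w ≤
      A ^ 2 * WN D a ∅ (y / (nm v : ℝ) ^ 2) := by
  have hv : (0 : ℝ) < (nm v : ℝ) := by exact_mod_cast (zero_lt_one.trans (one_lt_nm v))
  have hW : ∀ f : Fin N → Finset (Pl K), 0 ≤ ∏ l, ∏ v ∈ f l, a l v := fun f =>
    Finset.prod_nonneg fun l _ => Finset.prod_nonneg fun v _ => (ha l v).1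
  have h1 : ∑ f ∈ (Fintype.piFinset (fun _ : Fin N => GF D y)).filter
      (fun f => (v ∈ f i ∧ v ∈ f j) ∧ ∏ l, nr (f l) ≤ y), ∏ l, ∏ w ∈ f l, a l w ≤
      ∑ f ∈ (Fintype.piFinset (fun _ : Fin N => GF D y)).filter
      (fun f => (v ∈ f i ∧ v ∈ f j) ∧ ∏ l, nr (f l) ≤ y),
        A ^ 2 * ∏ l, ∏ w ∈ wdjE i j v f l, a l w := by
    refine Finset.sum_le_sum fun f hf => ?_
    rw [Finset.mem_filter] at hf
    rw [wdj_prod hij hf.2.1.1 hf.2.1.2 a, sq]
    refine mul_le_mul_of_nonneg_right ?_ (hW _)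
    exact mul_le_mul (ha i v).2 (ha j v).2 (ha j v).1 hA
  refine h1.trans ?_
  rw [← Finset.mul_sum]
  refine mul_le_mul_of_nonneg_left ?_ (sq_nonneg A)
  have hinj : Set.InjOn (wdjE i j v) ((Fintype.piFinset (fun _ : Fin N => GF D y)).filter
      (fun f => (v ∈ f i ∧ v ∈ f j) ∧ ∏ l, nr (f l) ≤ y) : Finset _) := by
    intro f hf g hg hfg
    rw [Finset.mem_coe, Finset.mem_filter] at hf hg
    funext l
    have h2 := congrFun hfg l
    unfold wdjE at h2
    by_cases hl : l = i ∨ l = j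
    · simp only [if_pos hl] at h2
      have h3 : v ∈ f l := by
        rcases hl with rfl | rfl
        · exact hf.2.1.1
        · exact hf.2.1.2
      have h4 : v ∈ g l := by
        rcases hl with rfl | rfl
        · exact hg.2.1.1
        · exact hg.2.1.2
      exact Finset.erase_injOn' v h3 h4 h2
    · simp only [if_neg hl] at h2
      exact h2
  rw [← Finset.sum_image (f := fun g : Fin N → Finset (Pl K) => ∏ l, ∏ w ∈ g l, a l w) hinj]
  unfold WN
  rw [← Finset.sum_filter]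
  refine Finset.sum_le_sum_of_subset_of_nonneg ?_ fun f _ _ => hW f
  intro g hg
  obtain ⟨f, hf, rfl⟩ := Finset.mem_image.1 hg
  rw [Finset.mem_filter, Fintype.mem_piFinset] at hf
  obtain ⟨hf1, ⟨hf2, hf3⟩, hf4⟩ := hf
  have h5 : ∏ l, nr (wdjE i j v f l) ≤ y / (nm v : ℝ) ^ 2 := by
    rw [le_div_iff₀ (pow_pos hv 2)]
    refine le_trans (le_of_eq ?_) hf4
    have h6 := wdj_prod hij hf2 hf3 (fun _ w => (nm w : ℝ))
    unfold nr
    rw [h6]
    ring
  rw [Finset.mem_filter, Fintype.mem_piFinset]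
  refine ⟨fun l => ?_, fun l => Finset.disjoint_empty_right _, h5⟩
  rw [wdj_mem]
  refine ⟨wdj_one h5 l, fun w hw => ?_⟩
  have h7 := ((wdj_mem D).1 (hf1 l)).2
  unfold wdjE at hw
  split_ifs at hw
  · exact h7 w (Finset.mem_of_mem_erase hw)
  · exact h7 w hw

theorem wdj (D : RD0 K p ζ) (hN : 1 ≤ N) (a : Fin N → Pl K → ℝ) (A₀ : ℝ) (hA : 0 ≤ A₀)
    (ha : ∀ i v, 0 ≤ a i v ∧ a i v ≤ A₀) (C₁ : ℝ)
    (hup : ∀ i, ∀ y : ℝ, 1 ≤ y → V1 D (a i) ∅ y ≤ C₁ * y) :
    ∃ C : ℝ, 0 < C ∧ ∀ T : ℝ, 1 ≤ T → ∀ F : Finset (Pl K),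
      (∀ v : Pl K, (nm v : ℝ) ≤ T → v ∈ F) → ∀ y : ℝ, 1 ≤ y →
        |WU D a F y - WN D a F y| ≤
          C * T ^ (-(1 / 4) : ℝ) * y * (1 + Real.log y) ^ (N - 1) := by
  obtain ⟨C0, hC0, hwn⟩ := wn_up D hN a (fun i v => (ha i v).1) C₁ hup
  set S : ℝ := ∑' v : Pl K, (nm v : ℝ) ^ (-(3 / 2) : ℝ) with hS
  have hS0 : 0 ≤ S := tsum_nonneg fun v => Real.rpow_nonneg (Nat.cast_nonneg _) _
  refine ⟨(N : ℝ) ^ 2 * (A₀ ^ 2 * C0 * S) + 1, by positivity, fun T hT F hF y hy => ?_⟩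
  have hT0 : 0 < T := by linarith
  have hy0 : 0 < y := by linarith
  have hlog : 0 ≤ Real.log y := Real.log_nonneg hy
  have hW : ∀ f : Fin N → Finset (Pl K), 0 ≤ ∏ l, ∏ v ∈ f l, a l v := fun f =>
    Finset.prod_nonneg fun l _ => Finset.prod_nonneg fun v _ => (ha l v).1
  -- the difference
  have hdiff : WN D a F y - WU D a F y = ∑ f ∈ Fintype.piFinset (fun _ : Fin N => GF D y),
      if ¬ Dj f ∧ (∀ i, Disjoint (f i) F) ∧ ∏ i, nr (f i) ≤ y then
        ∏ i, ∏ v ∈ f i, a i v else 0 := by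
    unfold WN WU
    rw [← Finset.sum_sub_distrib]
    refine Finset.sum_congr rfl fun f _ => ?_
    by_cases h1 : Dj f <;> by_cases h2 : (∀ i, Disjoint (f i) F) ∧ ∏ i, nr (f i) ≤ y
    · rw [if_pos h2, if_pos ⟨h1, h2⟩, if_neg fun h => h.1 h1, sub_self]
    · rw [if_neg h2, if_neg fun h => h2 h.2, if_neg fun h => h2 h.2, sub_zero]
    · rw [if_pos h2, if_neg fun h => h1 h.1, if_pos ⟨h1, h2⟩, sub_zero]
    · rw [if_neg h2, if_neg fun h => h2 h.2, if_neg fun h => h2 h.2, sub_zero]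
  have hnn : 0 ≤ WN D a F y - WU D a F y := by
    rw [hdiff]
    refine Finset.sum_nonneg fun f _ => ?_
    split_ifs
    · exact hW f
    · exact le_rfl
  rw [abs_sub_comm, abs_of_nonneg hnn, hdiff]
  -- the primes
  set V : Finset (Pl K) := ((GF D y).biUnion id).filter fun v => T < (nm v : ℝ) with hV
  have hVT : ∀ v ∈ V, T < (nm v : ℝ) := fun v hv => (Finset.mem_filter.1 hv).2
  have h1 : ∀ f ∈ Fintype.piFinset (fun _ : Fin N => GF D y),
      (if ¬ Dj f ∧ (∀ i, Disjoint (f i) F) ∧ ∏ i, nr (f i) ≤ y then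
        ∏ i, ∏ v ∈ f i, a i v else 0) ≤
      ∑ q ∈ (Finset.univ : Finset (Fin N)).offDiag, ∑ v ∈ V,
        if (v ∈ f q.1 ∧ v ∈ f q.2) ∧ ∏ i, nr (f i) ≤ y then
          ∏ i, ∏ v ∈ f i, a i v else 0 := by
    intro f hf
    have hnn : ∀ (q : Fin N × Fin N) (v : Pl K),
        0 ≤ if (v ∈ f q.1 ∧ v ∈ f q.2) ∧ ∏ i, nr (f i) ≤ y then
          ∏ i, ∏ v ∈ f i, a i v else 0 := by
      intro q v
      split_ifs
      · exact hW f
      · exact le_rfl
    by_cases hc : ¬ Dj f ∧ (∀ i, Disjoint (f i) F) ∧ ∏ i, nr (f i) ≤ y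
    swap
    · rw [if_neg hc]
      exact Finset.sum_nonneg fun q _ => Finset.sum_nonneg fun v _ => hnn q v
    rw [if_pos hc]
    obtain ⟨h2, h3, h4⟩ := hc
    unfold Dj at h2
    push Not at h2
    obtain ⟨b, b', haa, hd⟩ := h2
    rw [Finset.not_disjoint_iff] at hd
    obtain ⟨v, hv, hv'⟩ := hd
    have hvV : v ∈ V := by
      rw [hV, Finset.mem_filter, Finset.mem_biUnion]
      refine ⟨⟨f b, Fintype.mem_piFinset.1 hf b, hv⟩, ?_⟩
      by_contra hcon
      exact Finset.disjoint_left.1 (h3 b) hv (hF v (not_lt.1 hcon))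
    have hq : (b, b') ∈ (Finset.univ : Finset (Fin N)).offDiag := by
      rw [Finset.mem_offDiag]
      exact ⟨Finset.mem_univ _, Finset.mem_univ _, haa⟩
    refine le_trans ?_ (Finset.single_le_sum (f := fun q : Fin N × Fin N => ∑ v ∈ V,
      if (v ∈ f q.1 ∧ v ∈ f q.2) ∧ ∏ i, nr (f i) ≤ y then ∏ i, ∏ v ∈ f i, a i v else 0)
      (fun q _ => Finset.sum_nonneg fun v _ => hnn q v) hq)
    refine le_trans ?_ (Finset.single_le_sum (f := fun v : Pl K =>
      if (v ∈ f (b, b').1 ∧ v ∈ f (b, b').2) ∧ ∏ i, nr (f i) ≤ y then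
        ∏ i, ∏ v ∈ f i, a i v else 0)
      (fun v _ => hnn (b, b') v) hvV)
    simp only
    rw [if_pos ⟨⟨hv, hv'⟩, h4⟩]
  refine (Finset.sum_le_sum h1).trans ?_
  rw [Finset.sum_comm]
  have hLg : 0 ≤ (1 + Real.log y) ^ (N - 1) := by positivity
  have h7 : ∀ (q : Fin N × Fin N), q.1 ≠ q.2 → ∀ v : Pl K,
      ∑ f ∈ Fintype.piFinset (fun _ : Fin N => GF D y),
        (if (v ∈ f q.1 ∧ v ∈ f q.2) ∧ ∏ i, nr (f i) ≤ y then ∏ i, ∏ v ∈ f i, a i v else 0) ≤
      A₀ ^ 2 * C0 * y * (1 + Real.log y) ^ (N - 1) * (nm v : ℝ)⁻¹ ^ 2 := by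
    intro q hq v
    have hv : (1 : ℝ) ≤ (nm v : ℝ) := by exact_mod_cast (one_lt_nm v).le
    have hv2 : (1 : ℝ) ≤ (nm v : ℝ) ^ 2 := one_le_pow₀ hv
    rw [← Finset.sum_filter]
    refine (wdj_pair D a hA ha hq v y).trans ?_
    by_cases hz : 1 ≤ y / (nm v : ℝ) ^ 2
    · have h8 := hwn ∅ _ hz
      have h9 : Real.log (y / (nm v : ℝ) ^ 2) ≤ Real.log y := by
        refine Real.log_le_log (by linarith) ?_
        exact div_le_self hy0.le hv2
      have h10 : (1 + Real.log (y / (nm v : ℝ) ^ 2)) ^ (N - 1) ≤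
          (1 + Real.log y) ^ (N - 1) := by
        refine pow_le_pow_left₀ ?_ (by linarith) _
        have := Real.log_nonneg hz
        linarith
      have h11 : WN D a ∅ (y / (nm v : ℝ) ^ 2) ≤
          C0 * (y / (nm v : ℝ) ^ 2) * (1 + Real.log y) ^ (N - 1) := by
        refine h8.trans (mul_le_mul_of_nonneg_left h10 ?_)
        exact mul_nonneg hC0.le (by linarith)
      calc A₀ ^ 2 * WN D a ∅ (y / (nm v : ℝ) ^ 2)
          ≤ A₀ ^ 2 * (C0 * (y / (nm v : ℝ) ^ 2) * (1 + Real.log y) ^ (N - 1)) :=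
            mul_le_mul_of_nonneg_left h11 (sq_nonneg _)
        _ = _ := by
            rw [inv_pow, div_eq_mul_inv]
            ring
    · rw [wdj_zero D a ∅ (not_le.1 hz), mul_zero]
      positivity
  have h6 : ∀ q ∈ (Finset.univ : Finset (Fin N)).offDiag,
      ∑ f ∈ Fintype.piFinset (fun _ : Fin N => GF D y), ∑ v ∈ V,
        (if (v ∈ f q.1 ∧ v ∈ f q.2) ∧ ∏ i, nr (f i) ≤ y then ∏ i, ∏ v ∈ f i, a i v else 0) ≤
      A₀ ^ 2 * C0 * y * (1 + Real.log y) ^ (N - 1) * (T ^ (-(1 / 2) : ℝ) * S) := by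
    intro q hq
    rw [Finset.mem_offDiag] at hq
    rw [Finset.sum_comm]
    refine (Finset.sum_le_sum fun v _ => h7 q hq.2.2 v).trans ?_
    rw [← Finset.mul_sum]
    refine mul_le_mul_of_nonneg_left (acntc_sum hT0 V hVT) ?_
    positivity
  refine (Finset.sum_le_sum h6).trans ?_
  rw [Finset.sum_const, nsmul_eq_mul]
  have hcard : (((Finset.univ : Finset (Fin N)).offDiag.card : ℕ) : ℝ) ≤ (N : ℝ) ^ 2 := by
    rw [Finset.offDiag_card, Finset.card_univ, Fintype.card_fin, sq]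
    have : N * N - N ≤ N * N := Nat.sub_le _ _
    exact_mod_cast this
  have hTT : T ^ (-(1 / 2) : ℝ) ≤ T ^ (-(1 / 4) : ℝ) :=
    Real.rpow_le_rpow_of_exponent_le hT (by norm_num)
  have hTn : 0 ≤ T ^ (-(1 / 4) : ℝ) := Real.rpow_nonneg hT0.le _
  have hTn2 : 0 ≤ T ^ (-(1 / 2) : ℝ) := Real.rpow_nonneg hT0.le _
  calc (((Finset.univ : Finset (Fin N)).offDiag.card : ℕ) : ℝ) *
        (A₀ ^ 2 * C0 * y * (1 + Real.log y) ^ (N - 1) * (T ^ (-(1 / 2) : ℝ) * S))
      ≤ (N : ℝ) ^ 2 *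
        (A₀ ^ 2 * C0 * y * (1 + Real.log y) ^ (N - 1) * (T ^ (-(1 / 4) : ℝ) * S)) := by
        refine mul_le_mul hcard ?_ (by positivity) (by positivity)
        refine mul_le_mul_of_nonneg_left ?_ (by positivity)
        exact mul_le_mul_of_nonneg_right hTT hS0
    _ = (N : ℝ) ^ 2 * (A₀ ^ 2 * C0 * S) * T ^ (-(1 / 4) : ℝ) * y *
          (1 + Real.log y) ^ (N - 1) := by ring
    _ ≤ ((N : ℝ) ^ 2 * (A₀ ^ 2 * C0 * S) + 1) * T ^ (-(1 / 4) : ℝ) * y *
          (1 + Real.log y) ^ (N - 1) := by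
        refine mul_le_mul_of_nonneg_right ?_ hLg
        refine mul_le_mul_of_nonneg_right ?_ hy0.le
        refine mul_le_mul_of_nonneg_right ?_ hTn
        linarith

end H38.AS
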