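import Pool.Agent.H38.AS.WLim
import Pool.Agent.H38.AS.WDj
import Pool.Agent.H38.AS.KFld
import Pool.Agent.H38.AS.VCmp

/-!
# AS-TLIM: limits of the weighted sums (assembly of WLIM, WSEQ, WDJ, KFLD, VCMP)

* `tli`: if all `V1 D (a i) E y / y` converge then `WU D a E y / (y (log y)^{N-1})` converges.
* `sli`: `V1 D (aw D Δ b) E y / y` converges.
* `uw_lim`: `UW D c b 0 Y / (Y (log Y)^{N-1})` converges.
-/

set_option autoImplicit false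

open scoped NumberField
open IsDedekindDomain Filter Topology
open scoped Classical

noncomputable section

namespace H38.AS

open H63.MA H38.BB

variable {K : Type} [Field K] [NumberField K] {p : ℕ} {ζ : K} {m N : ℕ}

theorem tli (D : RD0 K p ζ) (hN : 1 ≤ N) (a : Fin N → Pl K → ℝ) (A₀ : ℝ) (hA : 0 ≤ A₀)
    (ha : ∀ i v, 0 ≤ a i v ∧ a i v ≤ A₀) (C₁ : ℝ)
    (hup : ∀ i, ∀ y : ℝ, 1 ≤ y → V1 D (a i) ∅ y ≤ C₁ * y)
    (hV : ∀ i (E : Finset (Pl K)), ∃ l : ℝ,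
      Tendsto (fun y : ℝ => V1 D (a i) E y / y) atTop (𝓝 l)) (E : Finset (Pl K)) :
    ∃ u : ℝ, 0 ≤ u ∧
      Tendsto (fun y : ℝ => WU D a E y / (y * Real.log y ^ (N - 1))) atTop (𝓝 u) := by
  obtain ⟨C, hC, h⟩ := wdj D hN a A₀ hA ha C₁ hup
  refine wu_lim_of D hN a A₀ hA ha C 3 hC le_rfl (fun T hT F hF hF' => ?_) E
  obtain ⟨l, hl⟩ := wn_lim D hN a (fun i v => (ha i v).1) C₁ hup F (fun i => hV i F)
  exact ⟨WN D a F, l, hl, fun y hy => h T (by linarith) F hF' y hy⟩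

theorem aw_nonneg (D : RD0 K p ζ) (Δ : Submodule (ZMod p) (Fin m → ZMod p)) (b : Fin m → Kˣ)
    (v : Pl K) : 0 ≤ aw D Δ b v ∧ aw D Δ b v ≤ (Nat.card Δ : ℝ) := by
  unfold aw
  split_ifs
  · exact ⟨Nat.cast_nonneg _, le_rfl⟩
  · exact ⟨le_rfl, Nat.cast_nonneg _⟩

theorem sli (hp : p.Prime) (hp2 : MOne p K) (hζ : IsPrimitiveRoot ζ p) (D : RD0 K p ζ)
    (b : Fin m → Kˣ) (hb : ∀ k v, v ∉ D.S0 → ord v (b k) = 0)
    (Δ : Submodule (ZMod p) (Fin m → ZMod p)) (hΔ : ∀ δ ∈ Δ, δ ≠ 0 → ¬ IsPow p (bp b δ))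
    (E : Finset (Pl K)) :
    ∃ l : ℝ, Tendsto (fun y : ℝ => V1 D (aw D Δ b) E y / y) atTop (𝓝 l) := by
  obtain ⟨M, iF, iN, iA, hq, hM⟩ := kfd hp hζ D b hb Δ hΔ
  have hζ' : IsPrimitiveRoot (algebraMap K M ζ) p :=
    hζ.map_of_injective (algebraMap K M).injective
  obtain ⟨D', -⟩ := exists_RD0_of M hp (mone_map hp2 M) hζ' ∅
  obtain ⟨C, T₀, hC, hT₀, h⟩ := vcm D D' (Nat.card Δ) hq (aw D Δ b) hM
  have hov : ∀ v : Pl K, {w : Pl M | Over w v}.Finite := fun v => over_finite v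
  have key := wu_lim_of D (N := 1) le_rfl (fun _ => aw D Δ b) (Nat.card Δ) (Nat.cast_nonneg _)
    (fun _ v => aw_nonneg D Δ b v) C T₀ hC hT₀ (fun T hT F hF hF' => by
      obtain ⟨F', hF1⟩ : ∃ F' : Finset (Pl M), ∀ w, w ∈ F' ↔ ∃ v ∈ F, Over w v := by
        refine ⟨F.biUnion fun v => (hov v).toFinset, fun w => ?_⟩
        simp only [Finset.mem_biUnion, Set.Finite.mem_toFinset, Set.mem_setOf_eq]
      obtain ⟨u, -, hu⟩ := un_lim D' 1 le_rfl F'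
      refine ⟨UN D' 1 F', u, hu, fun y hy => ?_⟩
      have := h T hT F F' hF hF' hF1 y hy
      rw [← v1_wu]
      simpa using this) E
  obtain ⟨u, -, hu⟩ := key
  refine ⟨u, hu.congr fun y => ?_⟩
  rw [← v1_wu]
  simp

theorem aw_tw [NeZero p] (D : RD0 K p ζ) (Δ : Submodule (ZMod p) (Fin m → ZMod p))
    (b : Fin m → Kˣ) (v : Pl K) : tw D 1 (fun _ => Δ) b v = aw D Δ b v := by
  unfold tw aw
  simp

theorem uw_wu (D : RD0 K p ζ) (c : CR p m N) (b : Fin m → Kˣ) (Y : ℝ) :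
    UW D c b 0 Y = ((WU D (fun i => aw D (c.del.Θ i) b) ∅ Y : ℝ) : ℂ) := by
  unfold UW WU
  push_cast
  refine Finset.sum_congr rfl fun f _ => ?_
  have h1 : (Dj f ∧ (∀ i, Disjoint (f i) ∅) ∧ ∏ i, nr (f i) ≤ Y) ↔
      (Dj f ∧ ∏ i, nr (f i) ≤ Y) := by
    simp
  have h2 : (∑ i, dt ((0 : Fin N → Fin D.r → ZMod p) i) (qf D (f i))) = 0 := by
    refine Finset.sum_eq_zero fun i _ => ?_
    unfold dt
    simp
  by_cases h : Dj f ∧ ∏ i, nr (f i) ≤ Y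
  · rw [if_pos h, if_pos (h1.2 h), h2, ep_zero, one_mul]
    unfold wtR aw
    push_cast
    rfl
  · rw [if_neg h, if_neg (fun h' => h (h1.1 h')), Complex.ofReal_zero]

theorem uw_lim [NeZero p] (hp : p.Prime) (hp2 : MOne p K) (hζ : IsPrimitiveRoot ζ p)
    (D : RD K p ζ) (c : CR p m N) (hN : 1 ≤ N) (b : Fin m → Kˣ) (hb : BS2 D.toRD0 b ∅)
    (h0 : Sp0 c b) :
    ∃ u : ℝ, Tendsto (fun Y : ℝ => UW D.toRD0 c b 0 Y / ((Y * Real.log Y ^ (N - 1) : ℝ) : ℂ))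
      atTop (𝓝 (u : ℂ)) := by
  have hb' : ∀ k v, v ∉ D.S0 → ord v (b k) = 0 := fun k v hv =>
    hb.2 k v hv (Finset.notMem_empty v)
  have hΔ : ∀ i, ∀ δ ∈ c.del.Θ i, δ ≠ 0 → ¬ IsPow p (bp b δ) := fun i δ hδ hδ0 =>
    h0 δ hδ.2 hδ0
  set A₀ : ℝ := ∑ i, (Nat.card (c.del.Θ i) : ℝ) with hA₀
  have hA : 0 ≤ A₀ := Finset.sum_nonneg fun i _ => Nat.cast_nonneg _
  have hup : ∀ i, ∃ C : ℝ, 0 ≤ C ∧ ∀ y : ℝ, 1 ≤ y → V1 D.toRD0 (aw D.toRD0 (c.del.Θ i) b) ∅ y ≤ C * y := by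
    intro i
    obtain ⟨C, hC, h⟩ := ubt hp hζ D m 1 le_rfl (fun _ => c.del.Θ i) 1 one_pos
    refine ⟨C, hC.le, fun y hy => ?_⟩
    have h1 := h b ∅ hb (fun _ => hΔ i) y hy
    have h2 : nr (∅ : Finset (Pl K)) = 1 := by simp [nr]
    rw [h2] at h1
    simp only [Real.rpow_one, mul_one, Nat.sub_self, pow_zero] at h1
    unfold V1
    simpa only [aw_tw] using h1
  choose C₁ hC₁ hC₁' using hup
  obtain ⟨u, -, hu⟩ := tli D.toRD0 hN (fun i => aw D.toRD0 (c.del.Θ i) b) A₀ hA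
    (fun i v => ⟨(aw_nonneg _ _ _ _).1, (aw_nonneg _ _ _ _).2.trans
      (Finset.single_le_sum (f := fun i => (Nat.card (c.del.Θ i) : ℝ))
        (fun i _ => Nat.cast_nonneg _) (Finset.mem_univ i))⟩) (∑ i, C₁ i)
    (fun i y hy => (hC₁' i y hy).trans (mul_le_mul_of_nonneg_right
      (Finset.single_le_sum (fun i _ => hC₁ i) (Finset.mem_univ i)) (by linarith)))
    (fun i E => sli hp hp2 hζ D.toRD0 b hb' (c.del.Θ i) (hΔ i) E) ∅
  refine ⟨u, ?_⟩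
  have h1 := (Complex.continuous_ofReal.tendsto u).comp hu
  refine h1.congr fun Y => ?_
  rw [uw_wu]
  simp only [Function.comp_apply]
  push_cast
  rfl

end H38.AS
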