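import Pool.Agent.H38.AS.MSum
import Pool.Agent.H38.AS.TLim

/-!
# AS-SLIM: `sw_lim`: the weighted sum over all families has an asymptotic formula (assembly)
-/

set_option autoImplicit false

open scoped NumberField
open IsDedekindDomain Filter Topology
open scoped Classical

noncomputable section

namespace H38.AS

open H63.MA H38.BB

variable {K : Type} [Field K] [NumberField K] {p : ℕ} {ζ : K} {m N : ℕ}

theorem slim_small (N : ℕ) (C X₀ : ℝ) (F : ℝ → ℂ) (hF : ∀ Y : ℝ, X₀ ≤ Y →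
    ‖F Y‖ ≤ C * Y * Real.log Y ^ (N - 1) * Real.log Y ^ (-(1 / 2) : ℝ)) :
    Tendsto (fun Y : ℝ => F Y / ((Y * Real.log Y ^ (N - 1) : ℝ) : ℂ)) atTop (𝓝 0) := by
  have h1 : Tendsto (fun Y : ℝ => C * Real.log Y ^ (-(1 / 2) : ℝ)) atTop (𝓝 0) := by
    have h2 := (tendsto_rpow_neg_atTop (show (0 : ℝ) < 1 / 2 by norm_num)).comp
      Real.tendsto_log_atTop
    simpa using h2.const_mul C
  refine squeeze_zero_norm' ?_ h1
  filter_upwards [eventually_ge_atTop X₀, eventually_gt_atTop (1 : ℝ)] with Y hY hY1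
  have hlog := Real.log_pos hY1
  have hP : 0 < Y * Real.log Y ^ (N - 1) := by positivity
  rw [norm_div, Complex.norm_real, Real.norm_of_nonneg hP.le, div_le_iff₀ hP]
  refine (hF Y hY).trans (le_of_eq ?_)
  ring

theorem sw_lim [NeZero p] (hp : p.Prime) (hp2 : MOne p K) (hζ : IsPrimitiveRoot ζ p)
    (D : RD K p ζ) (c : CR p m N) (hN : 1 ≤ N) (b : Fin m → Kˣ)
    (hb : BS2 D.toRD0 b ∅) (h : (Fin N → Fin D.r → ZMod p) → ℝ) (hh : ∀ q, |h q| ≤ 1) :
    ∃ l : ℝ, Tendsto (fun Y : ℝ => SW D.toRD0 c b ∅ h Y / (Y * Real.log Y ^ (N - 1)))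
      atTop (𝓝 l) := by
  by_cases h0 : Sp0 c b
  · -- the main terms
    obtain ⟨u, hu⟩ := uw_lim hp hp2 hζ D c hN b hb h0
    have hψ : ∀ ψ : Fin N → Fin D.r → ZMod p, ∃ u : ℂ,
        Tendsto (fun Y : ℝ => UW D.toRD0 c b ψ Y / ((Y * Real.log Y ^ (N - 1) : ℝ) : ℂ))
          atTop (𝓝 u) := by
      intro ψ
      rcases psi hp hζ D c hN b hb h0 ψ with h1 | ⟨C, X₀, -, -, h1⟩
      · exact ⟨u, by simpa only [h1] using hu⟩
      · exact ⟨0, slim_small N C X₀ _ h1⟩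
    choose uψ huψ using hψ
    have hT : ∀ T ∈ JJ c, ∃ u : ℂ, Tendsto (fun Y : ℝ =>
        RW D.toRD0 c b ∅ (fun S => if S ⊆ T then 1 else 0) (fun q => ((h q : ℝ) : ℂ)) Y /
          ((Y * Real.log Y ^ (N - 1) : ℝ) : ℂ)) atTop (𝓝 u) := by
      intro T hT
      unfold JJ at hT
      rw [Finset.mem_image] at hT
      obtain ⟨ϑ, hϑ, rfl⟩ := hT
      rw [Finset.mem_filter] at hϑ
      obtain ⟨γ, hγ⟩ := msm hp hp2 hζ D c b hb ϑ hϑ.2 (fun q => ((h q : ℝ) : ℂ))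
      refine ⟨∑ ψ, γ ψ * uψ ψ, ?_⟩
      have h2 := tendsto_finsetSum (Finset.univ : Finset (Fin N → Fin D.r → ZMod p))
        fun ψ _ => (huψ ψ).const_mul (γ ψ)
      refine h2.congr fun Y => ?_
      rw [← mw_rw hp hζ D c b ∅ ϑ hϑ.2.1, hγ Y, Finset.sum_div]
      exact Finset.sum_congr rfl fun ψ _ => by rw [mul_div_assoc]
    choose! uT huT using hT
    obtain ⟨C, X₀, hC, hX₀, hdec⟩ := dec hp hp2 hζ D c hN 0
    have h3 := slim_small N C X₀ (fun Y => ((SW D.toRD0 c b ∅ h Y : ℝ) : ℂ) -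
          ∑ T ∈ JJ c, RW D.toRD0 c b ∅ (fun S => if S ⊆ T then 1 else 0)
            (fun q => ((h q : ℝ) : ℂ)) Y) (fun Y hY => hdec Y hY b ∅ hb (by simp [nr]) h0 h hh)
    have h4 := tendsto_finsetSum (JJ c) fun T hT => huT T hT
    have h5 := h3.add h4
    rw [zero_add] at h5
    have h6 : Tendsto (fun Y : ℝ => ((SW D.toRD0 c b ∅ h Y / (Y * Real.log Y ^ (N - 1)) : ℝ) : ℂ))
        atTop (𝓝 (∑ T ∈ JJ c, uT T)) := by
      refine h5.congr fun Y => ?_
      rw [← Finset.sum_div, ← add_div, sub_add_cancel]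
      push_cast
      rfl
    refine ⟨(∑ T ∈ JJ c, uT T).re, ?_⟩
    exact (Complex.continuous_re.tendsto _).comp h6
  · refine ⟨0, tendsto_const_nhds.congr fun Y => ?_⟩
    symm
    have h1 : SW D.toRD0 c b ∅ h Y = 0 := by
      unfold SW
      refine Finset.sum_eq_zero fun f _ => if_neg ?_
      rintro ⟨-, -, -, hs⟩
      apply h0
      intro θ hθ hθ0
      rcases hs θ hθ0 with ⟨i, -, hi⟩ | h2
      · exact absurd (hθ i) hi
      · exact h2
    rw [h1, zero_div]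

end H38.AS
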