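import Pool.Agent.H38.AS.GHs
import Pool.Agent.H38.AS.GSy
import Pool.Agent.H38.AS.GFb
import Pool.Agent.H38.AS.EFou
import Pool.Agent.H38.AS.EFo1
import Pool.Agent.H38.AS.SLim

/-!
# AS-GTL: the number of typed surjective homomorphisms of given type (assembly of GHS, GSY, GFB, GEP, EFO, EF1, SLIM)
-/

set_option autoImplicit false

open scoped NumberField
open IsDedekindDomain Filter Topology
open scoped Classical

noncomputable section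

namespace H38.AS

open H63.MA H38.BB H38.BG

variable {K : Type} [Field K] [NumberField K] {Ω : Type} [Field Ω] [Algebra K Ω]
  [IsAlgClosure K Ω] {p m u w N : ℕ} {ζ : K} {G : Type} [Group G]

/-- the classes with `y i = 0` are central -/
theorem gtl_cen [NeZero p] (hp : p.Prime) (Dg : GT p m u w N G) (i : Fin N) (h : Dg.y i = 0) :
    Cen Dg.cr i := by
  haveI := Fact.mk hp
  constructor
  · change mv Dg.ι (Dg.y i) = 0
    rw [h]
    funext j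
    simp [mv]
  · change Dg.Θ i = ⊥
    rw [eq_bot_iff]
    intro θ hθ
    rw [Submodule.mem_bot]
    funext k
    have h1 := (Dg.ann i (Pi.single k 1)).2 (by
      rw [h]
      funext c
      simp [bl]) θ hθ
    unfold dt at h1
    rw [Finset.sum_eq_single k] at h1
    · simpa using h1
    · intro j _ hj
      rw [Pi.single_eq_of_ne hj, mul_zero]
    · intro h2
      exact absurd (Finset.mem_univ k) h2

theorem phi_f (D : RD0 K p ζ) (L : LDs D Ω) (Q : DP K Ω) (Dg : GT p m u w N G)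
    (β : Gal(Ω/K) →* G ⧸ WS Dg) (φ₁ : Gal(Ω/K) →* G) (f f' : Fin N → Finset (Pl K))
    (q : Fin N → Fin D.r → ZMod p) (h : ∀ i, Dg.y i ≠ 0 → f i = f' i) :
    Phi D L Q Dg β φ₁ f q = Phi D L Q Dg β φ₁ f' q := by
  have h1 : hat Dg f = hat Dg f' := by
    funext i
    unfold hat
    by_cases hi : Dg.y i = 0
    · rw [if_pos hi, if_pos hi]
    · rw [if_neg hi, if_neg hi, h i hi]
  unfold Phi
  rw [h1]

theorem phi_q (D : RD0 K p ζ) (L : LDs D Ω) (Q : DP K Ω) (Dg : GT p m u w N G)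
    (β : Gal(Ω/K) →* G ⧸ WS Dg) (φ₁ : Gal(Ω/K) →* G) (f : Fin N → Finset (Pl K))
    (q q' : Fin N → Fin D.r → ZMod p) (h : ∀ i, Dg.y i = 0 → q i = q' i) :
    Phi D L Q Dg β φ₁ f q = Phi D L Q Dg β φ₁ f q' := by
  have h1 : psi (Ω := Ω) D Dg q = psi D Dg q' := by
    unfold psi
    refine Finset.prod_congr rfl fun i hi => ?_
    rw [h i (Finset.mem_filter.1 hi).2]
  unfold Phi
  rw [h1]

/-- the sum for one base homomorphism -/
theorem gtl_one [Finite G] (hp : p.Prime) (hp2 : MOne p K) (hζ : IsPrimitiveRoot ζ p)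
    (D : RD K p ζ) (L : LDs D.toRD0 Ω) (Q : DP K Ω) (Dg : GT p m u w N G) (hN : 1 ≤ N)
    (hcen : ∀ a : Fin w → ZMod p, a ≠ 0 → ∃ i, Dg.a i = a ∧ Dg.y i = 0)
    (β : Gal(Ω/K) →* G ⧸ WS Dg) (hβ : IsB D.toRD0 L Dg β) (ε : Fin m → Kˣ)
    (hε : EpB D.toRD0 Dg ε β) (φ₁ : Gal(Ω/K) →* G) (hφ₁ : H38.ML.FT φ₁) :
    ∃ l : ℝ, Tendsto (fun X : ℝ =>
      (∑ f ∈ Fintype.piFinset (fun _ : Fin N => GF D.toRD0 X),
        if Dj f ∧ ∏ i, nr (f i) ≤ X ∧ SpR Dg.cr ε f then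
          (({φ ∈ XB D.toRD0 L Dg β f | Teq D.S0 Q φ φ₁}.ncard : ℕ) : ℝ) else 0) /
        (X * Real.log X ^ (N - 1))) atTop (𝓝 l) := by
  haveI : NeZero p := ⟨hp.ne_zero⟩
  set Z : Finset (Fin N) := Finset.univ.filter fun i => Dg.y i = 0 with hZ
  set Φ : (Fin N → Finset (Pl K)) → (Fin N → Fin D.r → ZMod p) → ℝ :=
    fun f q => (Phi D.toRD0 L Q Dg β φ₁ f q : ℝ) with hΦ
  set C₀ : ℝ := (Nat.card (chbU D.toRD0 L (Wg p w)) : ℝ) with hC₀
  have hb : BS2 D.toRD0 ε ∅ := ⟨fun v hv => absurd hv (Finset.notMem_empty v),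
    fun k v hv _ => hε.1 k v hv⟩
  have hZc : ∀ i ∈ Z, Cen Dg.cr i := fun i hi => gtl_cen hp Dg i (Finset.mem_filter.1 hi).2
  have hΦ1 : ∀ f f' q, (∀ i, i ∉ Z → f i = f' i) → Φ f q = Φ f' q := by
    intro f f' q h
    simp only [hΦ]
    rw [phi_f D.toRD0 L Q Dg β φ₁ f f' q fun i hi => h i (by
      rw [hZ, Finset.mem_filter]
      exact fun h' => hi h'.2)]
  have hΦ2 : ∀ f q q', (∀ i ∈ Z, q i = q' i) → Φ f q = Φ f q' := by
    intro f q q' h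
    simp only [hΦ]
    rw [phi_q D.toRD0 L Q Dg β φ₁ f q q' fun i hi => h i (by
      rw [hZ, Finset.mem_filter]
      exact ⟨Finset.mem_univ i, hi⟩)]
  have hok : ∀ f : Fin N → Finset (Pl K), Dj f → (∀ i, ∀ v ∈ f i, D.Gd v) → Ok D.toRD0 f :=
    fun f h h' => ⟨h, fun i v hv => (h' i v hv).1⟩
  have hΦ3 : ∀ f q, Dj f → (∀ i, ∀ v ∈ f i, D.Gd v) → 0 ≤ Φ f q ∧
      Φ f q ≤ C₀ * wtR Dg.cr f (fun v k => D.LL v (akR D.toRD0 Dg.cr ε f k)) := fun f q h h' =>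
    ⟨Nat.cast_nonneg _, (ghs hp hp2 hζ D.toRD0 L Q Dg hcen β hβ ε hε φ₁ hφ₁ f (hok f h h')).2 q⟩
  -- equidistribution
  have hEq : Tendsto (fun X : ℝ =>
      (∑ f ∈ Fintype.piFinset (fun _ : Fin N => GF D.toRD0 X),
        if Dj f ∧ ∏ i, nr (f i) ≤ X ∧ SpR Dg.cr ε f then
          Φ f (fun i => qf D.toRD0 (f i)) -
            ((p : ℝ) ^ (N * D.r))⁻¹ * ∑ q : Fin N → Fin D.r → ZMod p, Φ f q else 0) /
        (X * Real.log X ^ (N - 1))) atTop (𝓝 0) := by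
    by_cases hcase : Z = ∅ ∨ 2 ≤ N
    · exact efo hp hp2 hζ D Dg.cr Z hZc hcase ε hb Φ C₀ hΦ1 hΦ2 hΦ3
    · push Not at hcase
      obtain ⟨h1, h2⟩ := hcase
      have hN1 : N = 1 := by omega
      subst hN1
      have h0 : (0 : Fin 1) ∈ Z := by
        obtain ⟨i, hi⟩ := h1
        rwa [Subsingleton.elim (0 : Fin 1) i]
      have h3 := efo1 hp hζ D Dg.cr (hZc 0 h0) ε (fun q => Φ (fun _ => ∅) q)
      refine h3.congr fun X => ?_
      congr 1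
      refine Finset.sum_congr rfl fun f _ => ?_
      have h4 : ∀ q, Φ f q = Φ (fun _ => ∅) q := fun q => hΦ1 _ _ q fun i hi => by
        exact absurd (by rwa [Subsingleton.elim i 0]) hi
      simp only [h4]
  -- the main term
  obtain ⟨l, hl⟩ := sw_lim hp hp2 hζ D Dg.cr hN ε hb
    (fun q => if HQ D.toRD0 L Q Dg β φ₁ q then 1 else 0) (fun q => by
      split_ifs <;> norm_num)
  refine ⟨((p : ℝ) ^ (N * D.r))⁻¹ * ((g0 D.toRD0 L Q Dg : ℝ) * l), ?_⟩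
  have h5 := (hEq.add ((hl.const_mul (g0 D.toRD0 L Q Dg : ℝ)).const_mul
    ((p : ℝ) ^ (N * D.r))⁻¹))
  rw [zero_add] at h5
  refine h5.congr fun X => ?_
  rw [mul_div_assoc', mul_div_assoc', ← add_div]
  congr 1
  unfold SW
  rw [Finset.mul_sum, Finset.mul_sum, ← Finset.sum_add_distrib]
  refine Finset.sum_congr rfl fun f hf => ?_
  have hgd : ∀ i, ∀ v ∈ f i, D.Gd v := by
    intro i v hv
    have h6 := Fintype.mem_piFinset.1 hf i
    unfold GF at h6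
    exact (Finset.mem_filter.1 h6).2 v hv
  by_cases hc : Dj f ∧ ∏ i, nr (f i) ≤ X ∧ SpR Dg.cr ε f
  · rw [if_pos hc, if_pos hc, if_pos ⟨hc.1, fun i => Finset.disjoint_empty_right _, hc.2.1, hc.2.2⟩,
      gbj_phi hp hp2 hζ D.toRD0 L Q Dg β φ₁ f (hok f hc.1 hgd)]
    have h7 := (ghs hp hp2 hζ D.toRD0 L Q Dg hcen β hβ ε hε φ₁ hφ₁ f (hok f hc.1 hgd)).1
    push_cast at h7
    simp only [hΦ]
    rw [← h7]
    ring
  · rw [if_neg hc, if_neg hc, if_neg (fun h => hc ⟨h.1, h.2.2.1, h.2.2.2⟩)]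
    ring

theorem gtl [Finite G] (hp : p.Prime) (hp2 : MOne p K) (hζ : IsPrimitiveRoot ζ p)
    (D : RD K p ζ) (L : LDs D.toRD0 Ω) (Q : DP K Ω) (hnil : Group.IsNilpotent G)
    (Dg : GT p m u w N G) (hN : 1 ≤ N)
    (hcen : ∀ a : Fin w → ZMod p, a ≠ 0 → ∃ i, Dg.a i = a ∧ Dg.y i = 0)
    (z : K) (hz : IsPrimitiveRoot z (Nat.card G))
    (hS : ∀ v : Pl K, ((Nat.card G : ℕ) : 𝓞 K) ∈ v.asIdeal → v ∈ D.S0)
    (φ₁ : Gal(Ω/K) →* G) (hφ₁ : H38.ML.FT φ₁) :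
    ∃ l : ℝ, Tendsto (fun X : ℝ => ((SY D.toRD0 L Q Dg φ₁ X).ncard : ℝ) /
      (X * Real.log X ^ (N - 1))) atTop (𝓝 l) := by
  have hfin := gfb D.toRD0 L hnil Dg z hz hS
  set Bs : Finset (Gal(Ω/K) →* G ⧸ WS Dg) := hfin.toFinset with hBs
  have hB : ∀ β, β ∈ Bs ↔ IsB D.toRD0 L Dg β := fun β => by
    rw [hBs, Set.Finite.mem_toFinset]
    rfl
  have hex : ∀ β : Gal(Ω/K) →* G ⧸ WS Dg, ∃ ε : Fin m → Kˣ, β ∈ Bs →
      EpB D.toRD0 Dg ε β := by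
    intro β
    by_cases hβ : β ∈ Bs
    · obtain ⟨ε, hε⟩ := gep hp hζ D.toRD0 L Dg β ((hB β).1 hβ)
      exact ⟨ε, fun _ => hε⟩
    · exact ⟨fun _ => 1, fun h => absurd h hβ⟩
  choose ε hε using hex
  have hlim : ∀ β ∈ Bs, ∃ l : ℝ, Tendsto (fun X : ℝ =>
      (∑ f ∈ Fintype.piFinset (fun _ : Fin N => GF D.toRD0 X),
        if Dj f ∧ ∏ i, nr (f i) ≤ X ∧ SpR Dg.cr (ε β) f ∧
            (∀ g : G ⧸ WS Dg, ∃ σ x, g = β σ * vqW Dg x) then
          (({φ ∈ XB D.toRD0 L Dg β f | Teq D.S0 Q φ φ₁}.ncard : ℕ) : ℝ) else 0) /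
        (X * Real.log X ^ (N - 1))) atTop (𝓝 l) := by
    intro β hβ
    by_cases hs : ∀ g : G ⧸ WS Dg, ∃ σ x, g = β σ * vqW Dg x
    · obtain ⟨l, hl⟩ := gtl_one hp hp2 hζ D L Q Dg hN hcen β ((hB β).1 hβ) (ε β) (hε β hβ) φ₁ hφ₁
      refine ⟨l, hl.congr fun X => ?_⟩
      congr 1
      refine Finset.sum_congr rfl fun f _ => ?_
      refine if_congr ?_ rfl rfl
      constructor
      · rintro ⟨h1, h2, h3⟩
        exact ⟨h1, h2, h3, hs⟩
      · rintro ⟨h1, h2, h3, -⟩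
        exact ⟨h1, h2, h3⟩
    · refine ⟨0, tendsto_const_nhds.congr fun X => ?_⟩
      rw [Finset.sum_eq_zero fun f _ => if_neg fun h => hs h.2.2.2, zero_div]
  choose! l hl using hlim
  refine ⟨∑ β ∈ Bs, l β, ?_⟩
  have hsum := tendsto_finsetSum Bs fun β hβ => hl β hβ
  refine hsum.congr fun X => ?_
  rw [(gsy hp hζ D.toRD0 L Q Dg Bs hB ε (fun β hβ => hε β hβ) φ₁ X).2, Finset.sum_div]

end H38.AS
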