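import Pool.Agent.H38.AS.DFo
import Pool.Agent.H38.AS.ESa
import Pool.Agent.H38.AS.GTl

/-!
# AS-ESP: the number of homomorphisms with given untyped primes (assembly of DFO, ESA, GTL, GFT, GSY)
-/

set_option autoImplicit false

open scoped NumberField
open IsDedekindDomain Filter Topology H38.ML
open scoped Classical

noncomputable section

namespace H38.AS

open H63.MA H38.BB H38.BG

theorem esp_dvd {n : ℕ} (G : Subgroup (Equiv.Perm (Fin n))) : Nat.card G ∣ n.factorial := by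
  have h := Subgroup.card_subgroup_dvd_card G
  rwa [Nat.card_perm, Nat.card_fin] at h

/-- the exponent at typed primes -/
theorem esp_exp {n : ℕ} (G : Subgroup (Equiv.Perm (Fin n))) {p : ℕ} (hp : p.Prime)
    (K : IntermediateField ℚ QBar) [NumberField K] {ζ : K} (hζ : IsPrimitiveRoot ζ p)
    {m u w N : ℕ} (Dg : GT p m u w N G)
    (hI : ∀ (h : G) (i : Fin N), IsConj h (Dg.g i) → ind (h : Equiv.Perm (Fin n)) = indG G)
    {D : RD0 K p ζ} (L : LDs D QBar) (φ : Gal(QBar/K) →* G) (hft : FT φ) (v : Pl K)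
    (i : Fin N) (h : Ty Dg L φ i v) :
    n - orbs (((inr L v).map φ).map G.subtype) = indG G := by
  obtain ⟨hgd, hc, he⟩ := h
  have hv : v ∉ D.S0 := hgd.1
  have htm : L.t v ∈ inr L v := by
    unfold inr LDs.t
    rw [dif_pos hv, dif_pos hv]
    exact (L.ld v hv).ht
  have h1 : (inr L v).map φ = Subgroup.zpowers (φ (L.t v)) := by
    apply le_antisymm
    · rintro _ ⟨τ, hτ, rfl⟩
      rw [tm_z hp hζ L φ hft v hv he τ hτ]
      exact Subgroup.npow_mem_zpowers _ _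
    · rw [Subgroup.zpowers_le]
      exact ⟨L.t v, htm, rfl⟩
  have h2 : ((Subgroup.zpowers (φ (L.t v))).map G.subtype) =
      Subgroup.zpowers ((φ (L.t v) : G) : Equiv.Perm (Fin n)) := by
    rw [MonoidHom.map_zpowers]
    rfl
  rw [h1, h2]
  exact hI _ i hc

theorem esp_fin {n : ℕ} (G : Subgroup (Equiv.Perm (Fin n))) (hnil : Group.IsNilpotent G)
    {p : ℕ} (hp : p.Prime) (K : IntermediateField ℚ QBar) [NumberField K] {ζ : K}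
    (hζ : IsPrimitiveRoot ζ p) {m u w N : ℕ} (Dg : GT p m u w N G) (z : K)
    (hz : IsPrimitiveRoot z (Nat.card G)) (D : RD0 K p ζ)
    (hS : ∀ v : Pl K, ((Nat.card G : ℕ) : 𝓞 K) ∈ v.asIdeal → v ∈ D.S0)
    (L : LDs D QBar) (Q : DP K QBar) (φ₁ : Gal(QBar/K) →* G) (X : ℝ) :
    (SY D L Q Dg φ₁ X).Finite := by
  have hfin := gfb D L hnil Dg z hz hS
  have hB : ∀ β, β ∈ hfin.toFinset ↔ IsB D L Dg β := fun β => by
    rw [Set.Finite.mem_toFinset]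
    rfl
  have hex : ∀ β : Gal(QBar/K) →* G ⧸ WS Dg, ∃ ε : Fin m → Kˣ, β ∈ hfin.toFinset →
      EpB D Dg ε β := by
    intro β
    by_cases hβ : β ∈ hfin.toFinset
    · obtain ⟨ε, hε⟩ := gep hp hζ D L Dg β ((hB β).1 hβ)
      exact ⟨ε, fun _ => hε⟩
    · exact ⟨fun _ => 1, fun h => absurd h hβ⟩
  choose ε hε using hex
  exact (gsy hp hζ D L Q Dg hfin.toFinset hB ε (fun β hβ => hε β hβ) φ₁ X).1

theorem esp {n : ℕ} (hn : 2 ≤ n) (G : Subgroup (Equiv.Perm (Fin n)))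
    (hG : MulAction.IsPretransitive G (Fin n)) (hnil : Group.IsNilpotent G)
    {p : ℕ} (hp : p.Prime) (K : IntermediateField ℚ QBar) [NumberField K]
    (hp2 : MOne p K) {ζ : K} (hζ : IsPrimitiveRoot ζ p) {m u w N : ℕ}
    (Dg : GT p m u w N G) (hN : 1 ≤ N)
    (hcen : ∀ a : Fin w → ZMod p, a ≠ 0 → ∃ i, Dg.a i = a ∧ Dg.y i = 0)
    (hI : ∀ (h : G) (i : Fin N), IsConj h (Dg.g i) → ind (h : Equiv.Perm (Fin n)) = indG G)
    (ha : 0 < indG G) (z : K) (hz : IsPrimitiveRoot z (Nat.card G)) (D : RD K p ζ)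
    (hD : ∀ v : Pl K, ((n.factorial : ℕ) : 𝓞 K) ∈ v.asIdeal → v ∈ D.S0)
    (L : LDs D.toRD0 QBar) (Q : DP K QBar) (hLQ : LQ L Q) (i₀ : Fin n)
    (E : Finset (Pl K)) :
    (∀ B, (NE G K L Dg i₀ E B).Finite) ∧ ∃ c : ℝ, Tendsto (fun B : ℝ =>
      ((NE G K L Dg i₀ E B).ncard : ℝ) / (B ^ (1 / (indG G : ℝ)) * Real.log B ^ (N - 1)))
        atTop (𝓝 c) := by
  haveI : NeZero p := ⟨hp.ne_zero⟩
  have haR : (0 : ℝ) < (indG G : ℝ) := by exact_mod_cast ha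
  by_cases hE : ∃ v ∈ E, v ∈ D.S0
  · -- no homomorphisms
    obtain ⟨v, hvE, hvS⟩ := hE
    have hemp : ∀ B, NE G K L Dg i₀ E B = ∅ := by
      intro B
      rw [Set.eq_empty_iff_forall_notMem]
      rintro φ ⟨-, -, -, h⟩
      exact ((h v).1 hvE).1.1 hvS
    refine ⟨fun B => by rw [hemp]; exact Set.finite_empty, 0, ?_⟩
    refine tendsto_const_nhds.congr fun B => ?_
    rw [hemp, Set.ncard_empty, Nat.cast_zero, zero_div]
  push Not at hE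
  obtain ⟨D', hD'⟩ := exists_RD_of K hp hp2 hζ (D.S0 ∪ E)
  have hDD : ∀ v ∈ D.S0, v ∈ D'.S0 := fun v hv => hD' v (Finset.mem_union_left _ hv)
  have hED : ∀ v ∈ E, v ∈ D'.S0 := fun v hv => hD' v (Finset.mem_union_right _ hv)
  have hD2 : ∀ v : Pl K, ((n.factorial : ℕ) : 𝓞 K) ∈ v.asIdeal → v ∈ D'.S0 := fun v hv =>
    hDD v (hD v hv)
  have hS2 : ∀ v : Pl K, ((Nat.card G : ℕ) : 𝓞 K) ∈ v.asIdeal → v ∈ D'.S0 := fun v hv => by
    apply hD2 v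
    obtain ⟨k, hk⟩ := esp_dvd G
    rw [hk]
    push_cast
    exact Ideal.mul_mem_right _ _ hv
  obtain ⟨L', hL'⟩ := lds_of hp hζ D'.toRD0 Q
  obtain ⟨d, hd1, hd2⟩ := dfo hn G hG K D'.toRD0 hD2 L' Q i₀
  obtain ⟨R₀, hR1, hR2⟩ := gft hp hp2 hζ D'.toRD0 L' Q hnil Dg z hz hS2
  obtain ⟨hr, hs, ht⟩ := cfin_teq G K (S := D'.S0) Q
  obtain ⟨R, hRR, hR3, hR4⟩ := cfin_reps (fun φ φ' : Gal(QBar/K) →* G => Teq D'.S0 Q φ φ')
    hr hs ht R₀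
  -- typed homomorphisms
  have hdok : ∀ φ : Gal(QBar/K) →* G, FT φ → (∀ v, Rm L' φ v → ∃ i, Ty Dg L' φ i v) →
      ∀ v, Rm L' φ v → n - orbs (((inr L' v).map φ).map G.subtype) = H38.ML.indG G := by
    intro φ hft hty v hv
    obtain ⟨i, hi⟩ := hty v hv
    exact esp_exp G hp K hζ Dg hI L' φ hft v i hi
  -- the constants
  have hex : ∀ φ₁ : Gal(QBar/K) →* G, ∃ e : ℕ, 0 < e ∧ ∀ φ, FT φ → Function.Surjective φ →
      (∀ v, Rm L' φ v → ∃ i, Ty Dg L' φ i v) → Teq D'.S0 Q φ φ₁ → d φ = e := by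
    intro φ₁
    by_cases h : ∃ φ₂ : Gal(QBar/K) →* G, FT φ₂ ∧ Function.Surjective φ₂ ∧
        (∀ v, Rm L' φ₂ v → ∃ i, Ty Dg L' φ₂ i v) ∧ Teq D'.S0 Q φ₂ φ₁
    · obtain ⟨φ₂, h1, h2, h0, h3⟩ := h
      exact ⟨d φ₂, (hd1 φ₂ h2 h1 (hdok φ₂ h1 h0)).1, fun φ h4 h5 _ h6 => hd2 φ φ₂ h5 h4 h2 h1
        (ht _ _ _ h6 (hs _ _ h3))⟩
    · push Not at h
      exact ⟨1, one_pos, fun φ h4 h5 h0 h6 => absurd h6 (h φ h4 h5 h0)⟩
  choose e he0 he using hex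
  -- the condition on the discriminant
  have hdisc : ∀ φ₁ φ : Gal(QBar/K) →* G, FT φ → Function.Surjective φ →
      (∀ v, Rm L' φ v → ∃ i, Ty Dg L' φ i v) → Teq D'.S0 Q φ φ₁ →
      ∀ B : ℝ, 0 ≤ B → ((H38.ML.relDisc K (fieldOf i₀ φ) : ℝ) ≤ B ↔
        φ ∈ SY D'.toRD0 L' Q Dg φ₁ ((B / (e φ₁ : ℝ)) ^ (1 / (H38.ML.indG G : ℝ)))) := by
    intro φ₁ φ h1 h2 hty h3 B hB
    have hfin : {v : Pl K | Rm L' φ v}.Finite := H63.BU.uinr_fin L' φ h1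
    have hT : ∀ v, v ∈ hfin.toFinset ↔ Rm L' φ v := by
      intro v
      rw [Set.Finite.mem_toFinset]
      rfl
    have h4 := (hd1 φ h2 h1 (hdok φ h1 hty)).2 hfin.toFinset hT
    have hepos : (0 : ℝ) < (e φ₁ : ℝ) := by exact_mod_cast he0 φ₁
    have h5 : (H38.ML.relDisc K (fieldOf i₀ φ) : ℝ) =
        (e φ₁ : ℝ) * (∏ v ∈ hfin.toFinset, (nm v : ℝ)) ^ H38.ML.indG G := by
      rw [h4, he φ₁ φ h1 h2 hty h3]
      push_cast
      rfl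
    have hP0 : (0 : ℝ) ≤ ∏ v ∈ hfin.toFinset, (nm v : ℝ) :=
      Finset.prod_nonneg fun v _ => Nat.cast_nonneg _
    have h6 : (H38.ML.relDisc K (fieldOf i₀ φ) : ℝ) ≤ B ↔ ∏ v ∈ hfin.toFinset, (nm v : ℝ) ≤
        (B / (e φ₁ : ℝ)) ^ (1 / (H38.ML.indG G : ℝ)) := by
      rw [h5, mul_comm, ← le_div_iff₀ hepos, one_div, ← Real.rpow_natCast]
      rw [Real.le_rpow_inv_iff_of_pos hP0 (div_nonneg hB hepos.le) haR]
    rw [h6]
    constructor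
    · intro h7
      exact ⟨h1, h2, hty, h3, hfin.toFinset, hT, h7⟩
    · rintro ⟨-, -, -, -, T, hT', h7⟩
      have : T = hfin.toFinset := by
        ext v
        rw [hT' v, hT v]
      rw [← this]
      exact h7
  -- the classes with the right behaviour at `S0'`
  set RE : Finset (Gal(QBar/K) →* G) :=
    R.filter fun φ₁ => ∀ v ∈ D'.S0, (v ∈ E ↔ Ne Dg L φ₁ v) with hRE
  have hcover : ∀ B : ℝ, 0 ≤ B → NE G K L Dg i₀ E B = ⋃ φ₁ ∈ RE,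
      SY D'.toRD0 L' Q Dg φ₁ ((B / (e φ₁ : ℝ)) ^ (1 / (H38.ML.indG G : ℝ))) := by
    intro B hB
    ext φ
    simp only [Set.mem_iUnion, exists_prop]
    constructor
    · rintro ⟨h1, h2, h3, h4⟩
      obtain ⟨h5, h6⟩ := (esa_iff hp hζ hDD L L' Q hLQ hL' Dg φ h1 E hED).1 h4
      obtain ⟨φ₂, h7, h8⟩ := hR2 φ h1 h5
      obtain ⟨φ₁, h9, h10⟩ := hR3 φ₂ h7
      have h11 := ht _ _ _ h8 h10
      refine ⟨φ₁, Finset.mem_filter.2 ⟨h9, fun v hv => ?_⟩, (hdisc φ₁ φ h1 h2 h5 h11 B hB).1 h3⟩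
      rw [h6 v hv, esa_teq L Q hLQ Dg D'.S0 φ φ₁ h11 v hv]
    · rintro ⟨φ₁, h6, h7⟩
      obtain ⟨h8, h9⟩ := Finset.mem_filter.1 h6
      refine ⟨h7.1, h7.2.1, (hdisc φ₁ φ h7.1 h7.2.1 h7.2.2.1 h7.2.2.2.1 B hB).2 h7, ?_⟩
      rw [esa_iff hp hζ hDD L L' Q hLQ hL' Dg φ h7.1 E hED]
      refine ⟨h7.2.2.1, fun v hv => ?_⟩
      rw [h9 v hv, esa_teq L Q hLQ Dg D'.S0 φ φ₁ h7.2.2.2.1 v hv]
  have hfinX : ∀ φ₁ X, (SY D'.toRD0 L' Q Dg φ₁ X : Set (Gal(QBar/K) →* G)).Finite := fun φ₁ X =>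
    esp_fin G hnil hp K hζ Dg z hz D'.toRD0 hS2 L' Q φ₁ X
  refine ⟨fun B => ?_, ?_⟩
  · have h1 : NE G K L Dg i₀ E B ⊆ NE G K L Dg i₀ E (max B 0) := fun φ hφ =>
      ⟨hφ.1, hφ.2.1, hφ.2.2.1.trans (le_max_left _ _), hφ.2.2.2⟩
    refine Set.Finite.subset ?_ h1
    rw [hcover _ (le_max_right _ _)]
    exact Set.Finite.biUnion (Finset.finite_toSet _) fun φ₁ _ => hfinX _ _
  · have hl : ∀ φ₁ : Gal(QBar/K) →* G, ∃ l : ℝ, φ₁ ∈ R → Tendsto (fun X : ℝ =>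
        ((SY D'.toRD0 L' Q Dg φ₁ X).ncard : ℝ) / (X * Real.log X ^ (N - 1))) atTop (𝓝 l) := by
      intro φ₁
      by_cases h : φ₁ ∈ R
      · obtain ⟨l, hl⟩ := gtl hp hp2 hζ D' L' Q hnil Dg hN hcen z hz hS2 φ₁ (hR1 φ₁ (hRR h))
        exact ⟨l, fun _ => hl⟩
      · exact ⟨0, fun h' => absurd h' h⟩
    choose l hl using hl
    refine ⟨∑ φ₁ ∈ RE, l φ₁ * ((e φ₁ : ℝ) ^ (-(1 / (H38.ML.indG G : ℝ))) *
      (1 / (H38.ML.indG G : ℝ)) ^ (N - 1)), ?_⟩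
    have hsum := tendsto_finsetSum RE fun φ₁ hφ₁ =>
      cfin_lim (fun X => ((SY D'.toRD0 L' Q Dg φ₁ X).ncard : ℝ)) (l φ₁) (N - 1)
        (hl φ₁ (Finset.mem_filter.1 hφ₁).1)
        (H38.ML.indG G : ℝ) haR (e φ₁ : ℝ) (by exact_mod_cast he0 φ₁)
    refine hsum.congr' ?_
    filter_upwards [eventually_ge_atTop 0] with B hB
    rw [← Finset.sum_div]
    congr 1
    rw [hcover B hB]
    have h1 : (⋃ φ₁ ∈ RE, SY D'.toRD0 L' Q Dg φ₁ ((B / (e φ₁ : ℝ)) ^ (1 / (H38.ML.indG G : ℝ))) :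
        Set (Gal(QBar/K) →* G)) = ((RE.biUnion fun φ₁ =>
          (hfinX φ₁ ((B / (e φ₁ : ℝ)) ^ (1 / (H38.ML.indG G : ℝ)))).toFinset :
            Finset (Gal(QBar/K) →* G)) : Set (Gal(QBar/K) →* G)) := by
      rw [Finset.coe_biUnion]
      refine Set.iUnion₂_congr fun φ₁ _ => ?_
      rw [Set.Finite.coe_toFinset]
    rw [h1, Set.ncard_coe_finset, Finset.card_biUnion]
    · push_cast
      refine Finset.sum_congr rfl fun φ₁ _ => ?_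
      rw [Set.ncard_eq_toFinset_card _ (hfinX φ₁ _)]
    · intro φ₁ h1 φ₂ h2 hne
      refine Finset.disjoint_left.2 fun φ hφ hφ' => ?_
      rw [Set.Finite.mem_toFinset] at hφ hφ'
      exact hne (hR4 φ₁ (Finset.mem_filter.1 h1).1 φ₂ (Finset.mem_filter.1 h2).1
        (ht _ _ _ (hs _ _ hφ.2.2.2.1) hφ'.2.2.2.1))

end H38.AS
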