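import Pool.Agent.H38.AS.QLdc

/-!
# [H38 AS DFO] the discriminant, typed outside S0, 110-170 lines (as disc_form in H63/MC/CDb). File Pool/Agent/H38/AS/DFo.lean

`G` any transitive group, `S0` contains all `v` with `n! ∈ v`. There is a function `d` such that for surjective `φ : Γ → G` of finite type with `n - orbs (((inr L v).map φ).map G.subtype) = indG G` for every ramified `v ∉ S0` (`Rm L φ v`): `relDisc K (fieldOf i₀ φ) = d φ (∏_{v ∈ T} nm v)^{indG G}`, `T` the set of the ramified `v ∉ S0`, `d φ ≥ 1`; and `d φ = d φ'` for all surjective `φ, φ'` of finite type with `Teq S0 Q φ φ'`.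

Proof. As `disc_form` (`H63/MC/CDb.lean`, copy): `d φ = ∏_{v ∈ S0} nm v ^ ldx K (fieldOf i₀ φ) v`. `small_field` (`H38/ML`) gives `FiniteDimensional K L` and `finrank K L = n` for `L = fieldOf i₀ φ` (in place of `field_gal`). The part on `Teq`: `ldc3` (imported, QLdc.lean). It remains to show for `v ∉ S0`: `ldx K L v = indG G` if `v` is ramified and `0` if not.
`cdb_ldx_add` (`n! ∉ v`): `ldx K L v + ∑ f_P = n`. `embOrb_le` (`H38/ML/EmbOrb.lean`) and `embOrb_ge` (`H38/BG/DEmb.lean`) for `(L.ld v hv).P`: `∑ f_P = embOrb L (inertia)`, and this is `orbs (((inr L v).map φ).map G.subtype)` (`small_field`, fourth component; `inr L v` by `dif_pos`). So `ldx = n - orbs`, which is `indG G` by hypothesis if `v` is ramified.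
If `v` is unramified then `(inr L v).map φ = ⊥` and `orbs = n` (`orbs_bot`), `ldx = 0`.
-/

set_option autoImplicit false

open scoped NumberField
open IsDedekindDomain H38.ML

noncomputable section

namespace H38.AS

open H63.MA H38.BB H38.BG

theorem dfo_out {n : ℕ} (G : Subgroup (Equiv.Perm (Fin n)))
    (hG : MulAction.IsPretransitive G (Fin n)) {p : ℕ}
    (K : IntermediateField ℚ QBar) [NumberField K] {ζ : K} (D : RD0 K p ζ)
    (hD : ∀ v : Pl K, ((n.factorial : ℕ) : 𝓞 K) ∈ v.asIdeal → v ∈ D.S0) (L : LDs D QBar)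
    (i₀ : Fin n) (φ : Gal(QBar/K) →* G) (hφ : Function.Surjective φ) (hft : FT φ)
    (htm : ∀ v, Rm L φ v → n - orbs (((inr L v).map φ).map G.subtype) = H38.ML.indG G)
    [NumberField (fieldOf i₀ φ)] (v : Pl K) (hv : v ∉ D.S0) :
    (Rm L φ v → ldx K (fieldOf i₀ φ) v = H38.ML.indG G) ∧
      (¬ Rm L φ v → ldx K (fieldOf i₀ φ) v = 0) := by
  classical
  obtain ⟨hfd, hdeg, -, hemb⟩ := small_field G hG K i₀ φ hφ hft
  have hvm : v.asIdeal.IsMaximal := v.isMaximal
  have : Fintype (v.asIdeal.primesOver (𝓞 (fieldOf i₀ φ))) :=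
    Set.Finite.fintype (IsDedekindDomain.primesOver_finite v.asIdeal (𝓞 (fieldOf i₀ φ)))
  have h1 := cdb_ldx_add K (fieldOf i₀ φ) v (by
    rw [hdeg]
    exact fun h => hv (hD v h))
  rw [hdeg] at h1
  have h2 := embOrb_le (fieldOf i₀ φ) v.asIdeal v.isPrime v.ne_bot (L.ld v hv).P
    (L.ld v hv).prime (L.ld v hv).under
  have h2' := embOrb_ge (fieldOf i₀ φ) v.asIdeal v.isPrime v.ne_bot (L.ld v hv).P
    (L.ld v hv).prime (L.ld v hv).under
  rw [hemb] at h2 h2'
  have hin : inr L v = (L.ld v hv).P.inertia Gal(QBar/K) := by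
    unfold inr
    rw [dif_pos hv]
  rw [← hin] at h2 h2'
  constructor
  · intro hR
    have h4 := htm v hR
    omega
  · intro hno
    have hJ : (inr L v).map φ = ⊥ := by
      rw [eq_bot_iff]
      rintro _ ⟨σ, hσ, rfl⟩
      rw [Subgroup.mem_bot]
      by_contra h
      exact hno ⟨hv, σ, hσ, h⟩
    rw [hJ, Subgroup.map_bot, orbs_bot] at h2
    omega

theorem dfo {n : ℕ} (hn : 2 ≤ n) (G : Subgroup (Equiv.Perm (Fin n)))
    (hG : MulAction.IsPretransitive G (Fin n)) {p : ℕ}
    (K : IntermediateField ℚ QBar) [NumberField K] {ζ : K} (D : RD0 K p ζ)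
    (hD : ∀ v : Pl K, ((n.factorial : ℕ) : 𝓞 K) ∈ v.asIdeal → v ∈ D.S0) (L : LDs D QBar)
    (Q : DP K QBar) (i₀ : Fin n) :
    ∃ d : (Gal(QBar/K) →* G) → ℕ,
      (∀ φ : Gal(QBar/K) →* G, Function.Surjective φ → FT φ →
        (∀ v, Rm L φ v → n - orbs (((inr L v).map φ).map G.subtype) = H38.ML.indG G) →
        0 < d φ ∧ ∀ T : Finset (Pl K), (∀ v, v ∈ T ↔ Rm L φ v) →
        H38.ML.relDisc K (fieldOf i₀ φ) = d φ * (∏ v ∈ T, nm v) ^ H38.ML.indG G) ∧
      ∀ φ φ' : Gal(QBar/K) →* G, Function.Surjective φ → FT φ → Function.Surjective φ' → FT φ' →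
        Teq D.S0 Q φ φ' → d φ = d φ' := by
  classical
  refine ⟨fun φ => if h : NumberField (fieldOf i₀ φ) then
    ∏ v ∈ D.S0, nm v ^ ldx K (fieldOf i₀ φ) v else 1, ?_, ?_⟩
  · intro φ hφ hft htm
    obtain ⟨hfd, hdeg, -, -⟩ := small_field G hG K i₀ φ hφ hft
    have hnf : NumberField (fieldOf i₀ φ) := NumberField.of_module_finite K (fieldOf i₀ φ)
    have hout := fun v hv =>
      dfo_out G hG K D hD L i₀ φ hφ hft htm v hv
    simp only [dif_pos hnf]
    refine ⟨Finset.prod_pos fun v _ => Nat.pow_pos (by have := one_lt_nm v; omega), ?_⟩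
    intro T hT
    have hrel : H38.ML.relDisc K (fieldOf i₀ φ) =
        Ideal.absNorm (differentIdeal (𝓞 K) (𝓞 (fieldOf i₀ φ))) := by
      unfold H38.ML.relDisc
      rw [dif_pos hnf]
    have hdisj : Disjoint D.S0 T := by
      rw [Finset.disjoint_left]
      intro v hv hvT
      exact ((hT v).1 hvT).1 hv
    rw [hrel, (ldx_prod K (fieldOf i₀ φ)).2 (D.S0 ∪ T) ?_, Finset.prod_union hdisj,
      ← Finset.prod_pow]
    · congr 1
      refine Finset.prod_congr rfl fun v hv => ?_
      have hvR := (hT v).1 hv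
      rw [(hout v hvR.1).1 hvR]
    · intro v hv
      rw [Finset.mem_union]
      by_cases hv0 : v ∈ D.S0
      · exact Or.inl hv0
      · refine Or.inr ((hT v).2 ?_)
        by_contra h1
        exact hv ((hout v hv0).2 h1)
  · intro φ φ' hφ hft hφ' hft' hT
    obtain ⟨hfd, hdeg, -, -⟩ := small_field G hG K i₀ φ hφ hft
    obtain ⟨hfd', hdeg', -, -⟩ := small_field G hG K i₀ φ' hφ' hft'
    have hnf : NumberField (fieldOf i₀ φ) := NumberField.of_module_finite K (fieldOf i₀ φ)
    have hnf' : NumberField (fieldOf i₀ φ') := NumberField.of_module_finite K (fieldOf i₀ φ')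
    simp only [dif_pos hnf, dif_pos hnf']
    refine Finset.prod_congr rfl fun v hv => ?_
    congr 1
    exact ldc3 hn G hG K Q i₀ φ φ' hφ hft hφ' hft' v fun σ hσ => hT v hv σ hσ

end H38.AS
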