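import Pool.Agent.H38.AS.Fin

/-!
# AS-DICH: if two elements of least index do not commute then some element of least index is central
-/

set_option autoImplicit false

open scoped Classical
open H38.ML

namespace H38.AS

open H63.MA H38.BB H38.BG

section orb

variable {n : ℕ}

theorem dich_burn {p : ℕ} (hp : p.Prime) (g : Equiv.Perm (Fin n)) (hg : g ^ p = 1) (h1 : g ≠ 1) :
    ∑ s : Subgroup.zpowers g, Fintype.card (MulAction.fixedBy (Fin n) s) =
      orbs (Subgroup.zpowers g) * p := by
  have h := MulAction.sum_card_fixedBy_eq_card_orbits_mul_card_group (Subgroup.zpowers g) (Fin n)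
  rw [h]
  unfold orbs
  rw [Nat.card_eq_fintype_card, ← Nat.card_eq_fintype_card (α := Subgroup.zpowers g),
    Nat.card_zpowers, orderOf_eq_prime hg h1 (hp := ⟨hp⟩)]

theorem dich_card {p : ℕ} (hp : p.Prime) (g : Equiv.Perm (Fin n)) (hg : g ^ p = 1) (h1 : g ≠ 1) :
    Fintype.card (Subgroup.zpowers g) = p := by
  rw [← Nat.card_eq_fintype_card, Nat.card_zpowers, orderOf_eq_prime hg h1 (hp := ⟨hp⟩)]

/-- no fixed points: every orbit has `p` elements -/
theorem dich_free {p : ℕ} (hp : p.Prime) (g : Equiv.Perm (Fin n)) (hg : g ^ p = 1) (h1 : g ≠ 1)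
    (hf : ∀ x, g x ≠ x) : orbs (Subgroup.zpowers g) * p = n := by
  rw [← dich_burn hp g hg h1, Finset.sum_eq_single (1 : Subgroup.zpowers g)]
  · rw [Fintype.card_eq_nat_card, MulAction.fixedBy_one_eq_univ]
    simp
  · intro s _ hs
    rw [Fintype.card_eq_zero_iff]
    refine ⟨fun ⟨x, hx⟩ => ?_⟩
    -- `g` is a power of `s`
    have hord : orderOf g = p := orderOf_eq_prime hg h1 (hp := ⟨hp⟩)
    have hcard : Nat.card (Subgroup.zpowers g) = p := by rw [Nat.card_zpowers, hord]
    have hz : Subgroup.zpowers s = ⊤ := by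
      haveI : Fact (Nat.card (Subgroup.zpowers g)).Prime := ⟨by rw [hcard]; exact hp⟩
      exact zpowers_eq_top_of_prime_card rfl hs
    obtain ⟨k, hk⟩ := Subgroup.mem_zpowers_iff.1
      (show (⟨g, Subgroup.mem_zpowers g⟩ : Subgroup.zpowers g) ∈ Subgroup.zpowers s by
        rw [hz]; exact Subgroup.mem_top _)
    have hst : s ∈ MulAction.stabilizer (Subgroup.zpowers g) x := by
      rw [MulAction.mem_stabilizer_iff]
      exact MulAction.mem_fixedBy.1 hx
    have h2 := (MulAction.stabilizer (Subgroup.zpowers g) x).zpow_mem hst k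
    rw [hk, MulAction.mem_stabilizer_iff] at h2
    exact hf x h2
  · intro h
    exact absurd (Finset.mem_univ _) h

/-- a fixed point: some orbit is smaller -/
theorem dich_fix {p : ℕ} (hp : p.Prime) (g : Equiv.Perm (Fin n)) (hg : g ^ p = 1) (h1 : g ≠ 1)
    (x : Fin n) (hx : g x = x) : n < orbs (Subgroup.zpowers g) * p := by
  rw [← dich_burn hp g hg h1]
  have hpos : ∀ s : Subgroup.zpowers g, 0 < Fintype.card (MulAction.fixedBy (Fin n) s) := by
    intro s
    rw [Fintype.card_pos_iff]
    refine ⟨⟨x, ?_⟩⟩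
    rw [MulAction.mem_fixedBy]
    obtain ⟨s, hs⟩ := s
    obtain ⟨k, rfl⟩ := Subgroup.mem_zpowers_iff.1 hs
    have h2 : g ∈ MulAction.stabilizer (Equiv.Perm (Fin n)) x := hx
    exact (MulAction.stabilizer (Equiv.Perm (Fin n)) x).zpow_mem h2 k
  have hcard := dich_card hp g hg h1
  obtain ⟨t, ht⟩ : ∃ t : Subgroup.zpowers g, t ≠ 1 := by
    haveI : Nontrivial (Subgroup.zpowers g) := by
      rw [← Fintype.one_lt_card_iff_nontrivial, hcard]
      exact hp.one_lt
    exact exists_ne 1
  have h3 : Fintype.card (MulAction.fixedBy (Fin n) (1 : Subgroup.zpowers g)) = n := by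
    rw [Fintype.card_eq_nat_card, MulAction.fixedBy_one_eq_univ]
    simp
  calc n < Fintype.card (MulAction.fixedBy (Fin n) (1 : Subgroup.zpowers g)) +
        Fintype.card (MulAction.fixedBy (Fin n) t) := by
          rw [h3]
          have := hpos t
          omega
    _ = ∑ s ∈ ({1, t} : Finset (Subgroup.zpowers g)),
        Fintype.card (MulAction.fixedBy (Fin n) s) := by
          rw [Finset.sum_pair (Ne.symm ht)]
    _ ≤ _ := Finset.sum_le_sum_of_subset (Finset.subset_univ _)

end orb

theorem dich {n : ℕ} (hn : 2 ≤ n) (G : Subgroup (Equiv.Perm (Fin n)))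
    (hG : MulAction.IsPretransitive G (Fin n))
    (hZ : ∀ g : G, g ≠ 1 → ind (g : Equiv.Perm (Fin n)) = indG G →
      ∀ h k : G, k * (g * h * g⁻¹ * h⁻¹) = g * h * g⁻¹ * h⁻¹ * k)
    (g h : G) (hg1 : g ≠ 1) (hg : ind (g : Equiv.Perm (Fin n)) = indG G) (hh1 : h ≠ 1)
    (hh : ind (h : Equiv.Perm (Fin n)) = indG G) (hne : g * h ≠ h * g) :
    ∃ z : G, z ≠ 1 ∧ ind (z : Equiv.Perm (Fin n)) = indG G ∧ ∀ k : G, z * k = k * z := by
  obtain ⟨-, -, hmin, -, -⟩ := pidx_pos hn G hG
  obtain ⟨p, hp, hpI⟩ := pidx hn G hG hZ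
  have hgp : g ^ p = 1 := hpI g hg1 hg
  have hhp : h ^ p = 1 := hpI h hh1 hh
  have hle : ∀ s : Equiv.Perm (Fin n), orbs (Subgroup.zpowers s) ≤ n := by
    intro s
    unfold orbs
    calc _ ≤ Nat.card (Fin n) := Nat.card_le_card_of_surjective
          (Quotient.mk'' : Fin n → MulAction.orbitRel.Quotient (Subgroup.zpowers s) (Fin n))
          Quotient.mk''_surjective
      _ = n := Nat.card_fin n
  have horb : orbs (Subgroup.zpowers (g : Equiv.Perm (Fin n))) =
      orbs (Subgroup.zpowers (h : Equiv.Perm (Fin n))) := by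
    have h1 := hg.trans hh.symm
    unfold ind at h1
    have h2 := hle (g : Equiv.Perm (Fin n))
    have h3 := hle (h : Equiv.Perm (Fin n))
    omega
  have hco : ∀ s : G, s ≠ 1 → (s : Equiv.Perm (Fin n)) ≠ 1 := fun s hs h =>
    hs (Subtype.ext h)
  have hcp : ∀ s : G, s ^ p = 1 → (s : Equiv.Perm (Fin n)) ^ p = 1 := by
    intro s hs
    rw [← Subgroup.coe_pow, hs, Subgroup.coe_one]
  -- the commutator
  set z : G := g * h * g⁻¹ * h⁻¹ with hz
  have hzc : ∀ k : G, k * z = z * k := fun k => hZ g hg1 hg h k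
  have hz1 : z ≠ 1 := by
    intro h0
    apply hne
    rw [hz, mul_inv_eq_one, mul_inv_eq_iff_eq_mul] at h0
    exact h0
  have hzp : z ^ p = 1 := by
    have h1 : ∀ k : ℕ, (h * g * h⁻¹) ^ k * z ^ k = g ^ k := by
      intro k
      have h2 : g = (h * g * h⁻¹) * z := by
        have h3 : (h * g * h⁻¹) * z = z * (h * g * h⁻¹) := hzc _
        rw [h3, hz]
        group
      have h4 : Commute (h * g * h⁻¹) z := hzc _
      calc (h * g * h⁻¹) ^ k * z ^ k = ((h * g * h⁻¹) * z) ^ k := (h4.mul_pow k).symm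
        _ = g ^ k := by rw [← h2]
    have h5 := h1 p
    rw [hgp, conj_pow, hgp, mul_one, mul_inv_cancel, one_mul] at h5
    exact h5
  -- `g` has no fixed points
  have hfree : ∀ x, (g : Equiv.Perm (Fin n)) x ≠ x := by
    intro x hx
    by_cases hy : ∃ y, (h : Equiv.Perm (Fin n)) y = y
    · obtain ⟨y, hy⟩ := hy
      obtain ⟨k, hk⟩ := hG.exists_smul_eq y x
      -- `k h k⁻¹ = c h` with `c` central
      set c : G := k * h * k⁻¹ * h⁻¹ with hc
      have hcc : ∀ t : G, t * c = c * t := by
        intro t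
        have h2 := hZ h hh1 hh k t
        have h3 : c = (h * k * h⁻¹ * k⁻¹)⁻¹ := by rw [hc]; group
        have h4 : Commute t (h * k * h⁻¹ * k⁻¹) := h2
        rw [h3]
        exact h4.inv_right
      have h5 : (c * h) • x = x := by
        have h6 : c * h = k * h * k⁻¹ := by rw [hc]; group
        rw [h6, ← hk, mul_smul, inv_smul_smul, mul_smul]
        congr 1
      have h7 : g • x = x := hx
      have h8 : z • x = x := by
        have h9 : z = g * (c * h) * g⁻¹ * (c * h)⁻¹ := by
          have h10 : g * (c * h) = c * (g * h) := by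
            rw [← mul_assoc, hcc g, mul_assoc]
          have h11 : (c * h)⁻¹ = h⁻¹ * c⁻¹ := mul_inv_rev c h
          rw [h10, h11]
          have h12 : c * (g * h) * g⁻¹ * (h⁻¹ * c⁻¹) = c * z * c⁻¹ := by
            rw [hz]; group
          rw [h12, hzc c, mul_inv_cancel_right]
        have hs1 : g ∈ MulAction.stabilizer G x := h7
        have hs2 : c * h ∈ MulAction.stabilizer G x := h5
        have hs3 : z ∈ MulAction.stabilizer G x := by
          rw [h9]
          exact mul_mem (mul_mem (mul_mem hs1 hs2) (inv_mem hs1)) (inv_mem hs2)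
        exact hs3
      -- a central element with a fixed point
      apply hz1
      apply Subtype.ext
      change (z : Equiv.Perm (Fin n)) = 1
      ext y'
      obtain ⟨t, ht⟩ := hG.exists_smul_eq x y'
      have h13 : z • y' = y' := by
        rw [← ht, ← mul_smul, ← hzc t, mul_smul, h8]
      have h14 : (z : Equiv.Perm (Fin n)) y' = y' := h13
      rw [h14]
      rfl
    · push Not at hy
      have h1 := dich_free hp (h : Equiv.Perm (Fin n)) (hcp h hhp) (hco h hh1) hy
      have h2 := dich_fix hp (g : Equiv.Perm (Fin n)) (hcp g hgp) (hco g hg1) x hx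
      rw [horb, h1] at h2
      exact lt_irrefl _ h2
  have h1 := dich_free hp (g : Equiv.Perm (Fin n)) (hcp g hgp) (hco g hg1) hfree
  have h2 := fin_cen G hG hp z hz1 hzp (fun k => (hzc k).symm)
  refine ⟨z, hz1, le_antisymm ?_ (hmin z hz1), fun k => (hzc k).symm⟩
  rw [← hg]
  unfold ind
  have h3 : orbs (Subgroup.zpowers (z : Equiv.Perm (Fin n))) =
      orbs (Subgroup.zpowers (g : Equiv.Perm (Fin n))) := by
    refine Nat.eq_of_mul_eq_mul_left hp.pos ?_
    rw [h2, mul_comm, h1]
  rw [h3]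

end H38.AS
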