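import Pool.Agent.H38.AS.ADef

/-!
# AS-EDEF: removing one class (definitions, complete)

`rmc c i₀`: the class data without the class `i₀` (`c : CR p m (N + 1)`).
-/

set_option autoImplicit false

open scoped NumberField
open IsDedekindDomain
open scoped Classical

noncomputable section

namespace H38.AS

open H63.MA H38.BB

variable {K : Type} [Field K] [NumberField K] {p : ℕ} {ζ : K} {m N : ℕ}

/-- the class data without the class `i₀` -/
def rmc (c : CR p m (N + 1)) (i₀ : Fin (N + 1)) : CR p m N where
  x i := c.x (i₀.succAbove i)
  Θ i := c.Θ (i₀.succAbove i)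
  self i := c.self (i₀.succAbove i)

/-- the index `i` is a central class: it does not occur in the phases -/
def Cen (c : CR p m N) (i : Fin N) : Prop := c.x i = 0 ∧ c.Θ i = ⊥

end H38.AS
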