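import Pool.Agent.H38.AS.ADef

/-!
# [H38 AS EPW] weighted reciprocal sums, 50-90 lines. File Pool/Agent/H38/AS/EPow.lean

`epw`: for `B ≥ 0`: `∑_{n ∈ AF K y} B^{#n} / nr n ≤ C (1 + log y)^A` for `y ≥ 1`.

Proof. All `v ∈ n`, `n ∈ AF K y`, have `nm v ≤ nr n ≤ y`; so `AF K y` is contained in the powerset of the finite set `W` of the primes of norm `≤ y` (as in `CHR`, or take `W` = the union of the `n ∈ AF K y`), and the sum is `≤ ∏_{v ∈ W} (1 + B / nm v)` (`Finset.prod_one_add`/`Finset.prod_add`: `B^{#n} / nr n = ∏_{v ∈ n} B / nm v`).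
For `y ≥ 3` use `mert_low` (`MA/ACntA`, `T = y`): with `k = ⌈B⌉₊`: `1 + B x ≤ (1 + x)^k ≤ ((1 - x)⁻¹)^k` for `x = 1/nm v ∈ (0, 1/2]`, so the product is `≤ (c (log y)^(-3))^(-k) = c^(-k) (log y)^{3k}`. For `1 ≤ y ≤ 3`: `AF K y ⊆ AF K 3` (monotone) and `1 + log y ≥ 1`.
-/

set_option autoImplicit false

open scoped NumberField
open IsDedekindDomain
open scoped Classical

noncomputable section

namespace H38.AS

open H63.MA H38.BB

private theorem epw_term {K : Type} [Field K] [NumberField K] (B : ℝ) (n : Finset (Pl K)) :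
    B ^ n.card * (nr n)⁻¹ = ∏ v ∈ n, (B * ((nm v : ℝ))⁻¹) := by
  unfold nr
  rw [Finset.prod_mul_distrib, Finset.prod_const, Finset.prod_inv_distrib]

private theorem epw_nm_le {K : Type} [Field K] [NumberField K] {n : Finset (Pl K)} {v : Pl K}
    (hv : v ∈ n) : (nm v : ℝ) ≤ nr n := by
  have h : nr n = (nm v : ℝ) * nr (n.erase v) := by
    unfold nr
    rw [Finset.mul_prod_erase n (fun v => (nm v : ℝ)) hv]
  rw [h]
  have h1 := one_le_nr (n.erase v)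
  have h2 : (0 : ℝ) ≤ (nm v : ℝ) := by positivity
  nlinarith

private theorem epw_fac (B x : ℝ) (hx : 0 ≤ x) (hx1 : x < 1) :
    1 + B * x ≤ ((1 - x) ^ (⌈B⌉₊))⁻¹ := by
  have h1 : B ≤ (⌈B⌉₊ : ℝ) := Nat.le_ceil B
  have h2 : 1 + B * x ≤ (1 + x) ^ (⌈B⌉₊) := by
    have h3 := one_add_mul_le_pow (a := x) (by linarith : (-2 : ℝ) ≤ x) (⌈B⌉₊)
    have h4 : B * x ≤ (⌈B⌉₊ : ℝ) * x := mul_le_mul_of_nonneg_right h1 hx
    linarith
  have h5 : (1 + x) ^ (⌈B⌉₊) ≤ ((1 - x)⁻¹) ^ (⌈B⌉₊) := by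
    apply pow_le_pow_left₀ (by linarith)
    rw [le_inv_comm₀ (by linarith) (by linarith)]
    rw [inv_eq_one_div, le_div_iff₀ (by linarith)]
    nlinarith
  calc 1 + B * x ≤ (1 + x) ^ (⌈B⌉₊) := h2
    _ ≤ ((1 - x)⁻¹) ^ (⌈B⌉₊) := h5
    _ = ((1 - x) ^ (⌈B⌉₊))⁻¹ := by rw [inv_pow]

theorem epw (K : Type) [Field K] [NumberField K] (B : ℝ) (hB : 0 ≤ B) :
    ∃ (C : ℝ) (A : ℕ), 0 < C ∧ ∀ y : ℝ, 1 ≤ y →
      ∑ n ∈ AF K y, B ^ n.card * (nr n)⁻¹ ≤ C * (1 + Real.log y) ^ A := by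
  obtain ⟨c, hc, hm⟩ := mert_low K
  set k := ⌈B⌉₊ with hk
  set S3 := ∑ n ∈ AF K 3, B ^ n.card * (nr n)⁻¹ with hS3
  have hnn : ∀ n : Finset (Pl K), 0 ≤ B ^ n.card * (nr n)⁻¹ := by
    intro n
    have := one_le_nr n
    positivity
  have hS0 : 0 ≤ S3 := Finset.sum_nonneg fun n _ => hnn n
  refine ⟨S3 + (c ^ k)⁻¹, 3 * k, by positivity, fun y hy => ?_⟩
  have hlog : 0 ≤ Real.log y := Real.log_nonneg hy
  have hp1 : (1 : ℝ) ≤ (1 + Real.log y) ^ (3 * k) := one_le_pow₀ (by linarith)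
  rcases le_total y 3 with h3 | h3
  · have h1 : ∑ n ∈ AF K y, B ^ n.card * (nr n)⁻¹ ≤ S3 := by
      apply Finset.sum_le_sum_of_subset_of_nonneg
      · intro n hn
        rw [mem_AF] at hn ⊢
        linarith
      · intro n _ _
        exact hnn n
    have h2 : 0 < (c ^ k)⁻¹ := by positivity
    nlinarith
  · set W : Finset (Pl K) := (AF K y).biUnion id with hW
    have hWm : ∀ v ∈ W, (nm v : ℝ) ≤ y := by
      intro v hv
      rw [hW, Finset.mem_biUnion] at hv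
      obtain ⟨n, hn, hvn⟩ := hv
      rw [mem_AF] at hn
      exact (epw_nm_le hvn).trans hn
    have h1 : ∑ n ∈ AF K y, B ^ n.card * (nr n)⁻¹ ≤ ∏ v ∈ W, (1 + B * ((nm v : ℝ))⁻¹) := by
      rw [Finset.prod_one_add]
      have e : ∀ n : Finset (Pl K), ∏ v ∈ n, (B * ((nm v : ℝ))⁻¹) = B ^ n.card * (nr n)⁻¹ :=
        fun n => (epw_term B n).symm
      simp only [e]
      apply Finset.sum_le_sum_of_subset_of_nonneg
      · intro n hn
        rw [Finset.mem_powerset]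
        intro v hv
        rw [hW, Finset.mem_biUnion]
        exact ⟨n, hn, hv⟩
      · intro n _ _
        exact hnn n
    have h2 : ∏ v ∈ W, (1 + B * ((nm v : ℝ))⁻¹) ≤ ∏ v ∈ W, ((1 - ((nm v : ℝ))⁻¹) ^ k)⁻¹ := by
      apply Finset.prod_le_prod
      · intro v _
        positivity
      · intro v _
        have hv : (1 : ℝ) < (nm v : ℝ) := by exact_mod_cast one_lt_nm v
        exact epw_fac B _ (by positivity) (inv_lt_one_of_one_lt₀ hv)
    have h3' : ∏ v ∈ W, ((1 - ((nm v : ℝ))⁻¹) ^ k)⁻¹ = ((∏ v ∈ W, (1 - ((nm v : ℝ))⁻¹)) ^ k)⁻¹ := by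
      rw [Finset.prod_inv_distrib, Finset.prod_pow]
    have h4 := hm y h3 W hWm
    have hlog1 : 0 < Real.log y := Real.log_pos (by linarith)
    have h5 : 0 < c * Real.log y ^ (-3 : ℝ) := by positivity
    have h6 : ((∏ v ∈ W, (1 - ((nm v : ℝ))⁻¹)) ^ k)⁻¹ ≤ ((c * Real.log y ^ (-3 : ℝ)) ^ k)⁻¹ := by
      apply inv_anti₀ (by positivity)
      exact pow_le_pow_left₀ h5.le h4 k
    have h7 : ((c * Real.log y ^ (-3 : ℝ)) ^ k)⁻¹ = (c ^ k)⁻¹ * (Real.log y) ^ (3 * k) := by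
      have e1 : Real.log y ^ (-3 : ℝ) = ((Real.log y) ^ 3)⁻¹ := by
        rw [Real.rpow_neg hlog1.le]
        norm_cast
      rw [e1, mul_pow, mul_inv, inv_pow, inv_inv, ← pow_mul]
    have h8 : (Real.log y) ^ (3 * k) ≤ (1 + Real.log y) ^ (3 * k) :=
      pow_le_pow_left₀ hlog1.le (by linarith) _
    have h9 : 0 < (c ^ k)⁻¹ := by positivity
    calc ∑ n ∈ AF K y, B ^ n.card * (nr n)⁻¹ ≤ (c ^ k)⁻¹ * (Real.log y) ^ (3 * k) := by
          rw [← h7]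
          exact h1.trans (h2.trans (h3'.le.trans h6))
      _ ≤ (c ^ k)⁻¹ * (1 + Real.log y) ^ (3 * k) := mul_le_mul_of_nonneg_left h8 h9.le
      _ ≤ (S3 + (c ^ k)⁻¹) * (1 + Real.log y) ^ (3 * k) := by
          apply mul_le_mul_of_nonneg_right _ (by positivity)
          linarith

end H38.AS
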