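import Pool.Agent.H38.AS.ERem
import Pool.Agent.H38.AS.EPow
import Pool.Agent.H38.BB.CUb

/-!
# [H38 AS ELG] cancellation in a large central class, 150-220 lines. File Pool/Agent/H38/AS/ELrg.lean

`i₀` central, `κ ≠ 0`. For every `Ψ` which does not depend on `f i₀` and is bounded by the weight `wtR` (for pairwise disjoint families of good primes): the sum of `Ψ f * ep(κ · qf (f i₀))` over the families `f` (disjoint, spanning, `∏ nr ≤ X`) with `z < nr (f i₀)` is at most `C X z^(-δ) (1 + log X)^A` in absolute value, for `X, z ≥ 1`.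

Proof. Write `f` as the pair `(n, f')`, `n = f i₀`, `f' j = f (i₀.succAbove j)`. The conditions are: `n, f' j` pairwise disjoint sets of good primes, `nr n * P ≤ X` with `P = ∏ nr (f' j)`, `SpR (rmc c i₀) b f'` (`erm_sp`), `z < nr n`. For fixed `f'` let `F = ⋃ f' j`, `Y = X / P`; the sum over `n` of `ep(κ · qf n)` is `S(Y) - S(z)` if `Y > z` and `0` otherwise,
`S(y) = ∑_{n ∈ GF y, n ∩ F = ∅} ep(κ · qf n)`. `lemA` (`MA/ALem`) with `E = ∅`, `H = 1`: `∑_{v ∈ n} fE D ∅ μ κ v = κ · qf n` (`fE` with the empty sum, `aph_dt_qf`): `‖S(y)‖ ≤ C 2^{#F} y^{1-δ}` (`nr ∅ = 1`). So the sum over `n` is `≤ 2 C 2^{#F} Y^{1-δ} ≤ 2 C 2^{#F} Y z^{-δ}` as `Y ≥ z`.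
The coefficient: `‖Ψ f‖ ≤ wtR ≤ A₀^{#F}` where `A₀ = ∑ i, #(Θ i)` bounds all factors (`‖Ψ f‖ = ‖Ψ (f with f i₀ replaced by ∅)‖`, whose weight is the weight of `f'`, or use `f` itself: `erm_wt`). So the total is `≤ 2 C X z^{-δ} ∑_{f'} (2 A₀)^{#F} / P ≤ 2 C X z^{-δ} (∑_{n ∈ AF X} (2 A₀)^{#n} / nr n)^N ≤ C' X z^{-δ} (1 + log X)^A` by `epw` (`#F = ∑ #(f' j)`, `Finset.prod_univ_sum`).
-/

set_option autoImplicit false

open scoped NumberField
open IsDedekindDomain
open scoped Classical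

noncomputable section

namespace H38.AS

open H63.MA H38.BB

variable {K : Type} [Field K] [NumberField K] {p : ℕ} {ζ : K} {m N : ℕ}

/-- summing over a family by splitting off one index -/
theorem elg_split {M X : Type} [AddCommMonoid M] (s : Finset X) (i₀ : Fin (N + 1))
    (G : (Fin (N + 1) → X) → M) :
    ∑ f ∈ Fintype.piFinset (fun _ : Fin (N + 1) => s), G f =
      ∑ f' ∈ Fintype.piFinset (fun _ : Fin N => s), ∑ n ∈ s,
        G (Fin.insertNth (α := fun _ => X) i₀ n f') := by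
  rw [← Finset.sum_product']
  refine (Finset.sum_nbij' (fun q : (Fin N → X) × X =>
    Fin.insertNth (α := fun _ => X) i₀ q.2 q.1)
    (fun f => (fun j => f (i₀.succAbove j), f i₀)) ?_ ?_ ?_ ?_ ?_).symm
  · rintro ⟨f', n⟩ h
    rw [Finset.mem_product, Fintype.mem_piFinset] at h
    rw [Fintype.mem_piFinset]
    intro i
    rcases Fin.eq_self_or_eq_succAbove i₀ i with rfl | ⟨j, rfl⟩
    · simpa using h.2
    · simpa using h.1 j
  · intro f h
    rw [Fintype.mem_piFinset] at h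
    rw [Finset.mem_product, Fintype.mem_piFinset]
    exact ⟨fun j => h _, h i₀⟩
  · rintro ⟨f', n⟩ _
    simp
  · intro f _
    ext i
    rcases Fin.eq_self_or_eq_succAbove i₀ i with rfl | ⟨j, rfl⟩
    · simp
    · simp
  · rintro ⟨f', n⟩ _
    rfl

theorem elg_prod (i₀ : Fin (N + 1)) (n : Finset (Pl K)) (f' : Fin N → Finset (Pl K)) :
    ∏ i, nr (Fin.insertNth (α := fun _ => Finset (Pl K)) i₀ n f' i) = nr n * ∏ j, nr (f' j) := by
  rw [Fin.prod_univ_succAbove _ i₀]
  simp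

theorem elg_dj (i₀ : Fin (N + 1)) (n : Finset (Pl K)) (f' : Fin N → Finset (Pl K)) :
    Dj (Fin.insertNth (α := fun _ => Finset (Pl K)) i₀ n f') ↔
      Dj f' ∧ Disjoint n (Finset.univ.biUnion f') := by
  rw [Finset.disjoint_biUnion_right]
  constructor
  · intro h
    refine ⟨fun a a' ha => ?_, fun j _ => ?_⟩
    · have h1 := h (i₀.succAbove a) (i₀.succAbove a')
        (fun h2 => ha (Fin.succAbove_right_injective h2))
      simpa using h1
    · have h1 := h i₀ (i₀.succAbove j) (Fin.succAbove_ne i₀ j).symm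
      simpa using h1
  · rintro ⟨h, h'⟩ a a' ha
    rcases Fin.eq_self_or_eq_succAbove i₀ a with rfl | ⟨j, rfl⟩
    · rcases Fin.eq_self_or_eq_succAbove a a' with h1 | ⟨j, rfl⟩
      · exact absurd h1.symm ha
      · simpa using h' j (Finset.mem_univ j)
    · rcases Fin.eq_self_or_eq_succAbove i₀ a' with rfl | ⟨j', rfl⟩
      · simpa using (h' j (Finset.mem_univ j)).symm
      · have h1 := h j j' (fun h2 => ha (by rw [h2]))
        simpa using h1

/-- the bound of the weight -/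
theorem elg_wt (c : CR p m N) (A₀ : ℝ) (hA : ∀ i, (Nat.card (c.Θ i) : ℝ) ≤ A₀)
    (f : Fin N → Finset (Pl K)) (hf : Dj f) (F : Pl K → Fin m → ZMod p) (hA0 : 0 ≤ A₀) :
    wtR c f F ≤ A₀ ^ (Finset.univ.biUnion f).card := by
  unfold wtR
  rw [Finset.card_biUnion (fun i _ j _ hij => hf i j hij), ← Finset.prod_pow_eq_pow_sum]
  refine Finset.prod_le_prod (fun i _ => Finset.prod_nonneg fun v _ => ?_) fun i _ => ?_
  · split_ifs
    · exact Nat.cast_nonneg _
    · exact le_rfl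
  · rw [← Finset.prod_const]
    refine Finset.prod_le_prod (fun v _ => ?_) fun v _ => ?_
    · split_ifs
      · exact Nat.cast_nonneg _
      · exact le_rfl
    · split_ifs
      · exact hA i
      · exact hA0

theorem elg [NeZero p] (hp : p.Prime) (hζ : IsPrimitiveRoot ζ p)
    (D : RD K p ζ) (c : CR p m (N + 1)) (i₀ : Fin (N + 1)) (hc : Cen c i₀)
    (b : Fin m → Kˣ) (κ : Fin D.r → ZMod p) (hκ : κ ≠ 0) :
    ∃ (C δ : ℝ) (A : ℕ), 0 < C ∧ 0 < δ ∧ ∀ X z : ℝ, 1 ≤ X → 1 ≤ z →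
      ∀ Ψ : (Fin (N + 1) → Finset (Pl K)) → ℂ, (∀ f n, Ψ (Function.update f i₀ n) = Ψ f) →
      (∀ f, Dj f → (∀ i, ∀ v ∈ f i, D.Gd v) →
        ‖Ψ f‖ ≤ wtR c f (fun v k => D.LL v (akR D.toRD0 c b f k))) →
      ‖∑ f ∈ Fintype.piFinset (fun _ : Fin (N + 1) => GF D.toRD0 X),
        (if Dj f ∧ ∏ i, nr (f i) ≤ X ∧ SpR c b f ∧ z < nr (f i₀) then
          Ψ f * ep p (dt κ (qf D.toRD0 (f i₀))) else 0)‖ ≤
        C * X * z ^ (-δ) * (1 + Real.log X) ^ A := by
  obtain ⟨C₀, A₁, δ, hC₀, -, hδ, hδ1, hA⟩ := lemA hp hζ D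
  obtain ⟨A₀, hA₀⟩ : ∃ A₀ : ℝ, A₀ = ∑ i, (Nat.card ((rmc c i₀).Θ i) : ℝ) := ⟨_, rfl⟩
  have hA₀0 : 0 ≤ A₀ := by
    rw [hA₀]
    exact Finset.sum_nonneg fun i _ => Nat.cast_nonneg _
  have hA₀i : ∀ i, (Nat.card ((rmc c i₀).Θ i) : ℝ) ≤ A₀ := by
    intro i
    rw [hA₀]
    exact Finset.single_le_sum (f := fun i => (Nat.card ((rmc c i₀).Θ i) : ℝ))
      (fun i _ => Nat.cast_nonneg _) (Finset.mem_univ i)
  obtain ⟨C₁, A, hC₁, hepw⟩ := epw K (2 * A₀) (by positivity)
  refine ⟨2 * C₀ * C₁ ^ N, δ, A * N, by positivity, hδ, fun X z hX hz Ψ hΨ hΨ' => ?_⟩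
  have hz0 : 0 < z := by linarith
  have hX0 : 0 < X := by linarith
  -- the sum over the class `i₀`
  have hS : ∀ (F : Finset (Pl K)) (y : ℝ), 1 ≤ y →
      ‖∑ n ∈ (GF D.toRD0 y).filter (fun n => Disjoint n F), ep p (dt κ (qf D.toRD0 n))‖ ≤
        C₀ * 2 ^ F.card * y ^ (1 - δ) := by
    intro F y hy
    have h1 := hA ∅ F (fun _ => 0) κ (fun _ => 1) (by simp) (Finset.empty_subset _)
      (by simp) (Or.inr ⟨fun _ => rfl, hκ⟩) y hy
    have h2 : nr (∅ : Finset (Pl K)) = 1 := by simp [nr]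
    rw [h2, Real.one_rpow, mul_one] at h1
    have h3 : ∀ n : Finset (Pl K), (1 : ℂ) * ep p (∑ v ∈ n, fE D.toRD0 ∅ (fun _ => 0) κ v) =
        ep p (dt κ (qf D.toRD0 n)) := by
      intro n
      rw [one_mul, ← aph_dt_qf]
      congr 1
      refine Finset.sum_congr rfl fun v _ => ?_
      unfold fE
      rw [Finset.sum_empty, zero_add]
    simp only [h3] at h1
    exact h1
  rw [elg_split (GF D.toRD0 X) i₀]
  have key : ∀ f' ∈ Fintype.piFinset (fun _ : Fin N => GF D.toRD0 X),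
      ‖∑ n ∈ GF D.toRD0 X,
        (if Dj (Fin.insertNth (α := fun _ => Finset (Pl K)) i₀ n f') ∧
            ∏ i, nr (Fin.insertNth (α := fun _ => Finset (Pl K)) i₀ n f' i) ≤ X ∧
            SpR c b (Fin.insertNth (α := fun _ => Finset (Pl K)) i₀ n f') ∧
            z < nr (Fin.insertNth (α := fun _ => Finset (Pl K)) i₀ n f' i₀) then
          Ψ (Fin.insertNth (α := fun _ => Finset (Pl K)) i₀ n f') *
            ep p (dt κ (qf D.toRD0 (Fin.insertNth (α := fun _ => Finset (Pl K)) i₀ n f' i₀)))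
          else 0)‖ ≤
      2 * C₀ * X * z ^ (-δ) * ∏ j, ((2 * A₀) ^ (f' j).card * (nr (f' j))⁻¹) := by
    intro f' hf'
    rw [Fintype.mem_piFinset] at hf'
    have hP1 : 1 ≤ ∏ j, nr (f' j) := atupa_prod_one f' Finset.univ
    obtain ⟨P, hP⟩ : ∃ P : ℝ, P = ∏ j, nr (f' j) := ⟨_, rfl⟩
    rw [← hP] at hP1
    have hP0 : 0 < P := by linarith
    have hR0 : 0 ≤ 2 * C₀ * X * z ^ (-δ) * ∏ j, ((2 * A₀) ^ (f' j).card * (nr (f' j))⁻¹) := by
      have h1 : 0 ≤ ∏ j, ((2 * A₀) ^ (f' j).card * (nr (f' j))⁻¹) :=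
        Finset.prod_nonneg fun j _ => by
          have := one_le_nr (f' j)
          positivity
      have h2 : 0 ≤ z ^ (-δ) := Real.rpow_nonneg hz0.le _
      positivity
    have hup : ∀ n, Fin.insertNth (α := fun _ => Finset (Pl K)) i₀ n f' =
        Function.update (Fin.insertNth (α := fun _ => Finset (Pl K)) i₀ ∅ f') i₀ n := by
      intro n
      ext i
      rcases Fin.eq_self_or_eq_succAbove i₀ i with rfl | ⟨j, rfl⟩
      · simp
      · simp
    have hΨ0 : ∀ n, Ψ (Fin.insertNth (α := fun _ => Finset (Pl K)) i₀ n f') =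
        Ψ (Fin.insertNth (α := fun _ => Finset (Pl K)) i₀ ∅ f') := by
      intro n
      rw [hup n, hΨ]
    have hsp : ∀ n, SpR c b (Fin.insertNth (α := fun _ => Finset (Pl K)) i₀ n f') ↔
        SpR (rmc c i₀) b f' := by
      intro n
      rw [erm_sp c i₀ hc b]
      simp only [Fin.insertNth_apply_succAbove]
    by_cases hD : Dj f'
    swap
    · rw [Finset.sum_eq_zero, norm_zero]
      · exact hR0
      · intro n _
        rw [if_neg]
        rintro ⟨h1, -⟩
        exact hD ((elg_dj i₀ n f').1 h1).1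
    by_cases hSp : SpR (rmc c i₀) b f'
    swap
    · rw [Finset.sum_eq_zero, norm_zero]
      · exact hR0
      · intro n _
        rw [if_neg]
        rintro ⟨-, -, h1, -⟩
        exact hSp ((hsp n).1 h1)
    obtain ⟨F, hF⟩ : ∃ F : Finset (Pl K), F = Finset.univ.biUnion f' := ⟨_, rfl⟩
    have hFc : F.card = ∑ j, (f' j).card := by
      rw [hF, Finset.card_biUnion (fun i _ j _ hij => hD i j hij)]
    -- the coefficient
    have hco : ‖Ψ (Fin.insertNth (α := fun _ => Finset (Pl K)) i₀ ∅ f')‖ ≤ A₀ ^ F.card := by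
      have h1 := hΨ' (Fin.insertNth (α := fun _ => Finset (Pl K)) i₀ ∅ f')
        ((elg_dj i₀ ∅ f').2 ⟨hD, Finset.disjoint_empty_left _⟩) (by
          intro i
          rcases Fin.eq_self_or_eq_succAbove i₀ i with rfl | ⟨j, rfl⟩
          · simp
          · rw [Fin.insertNth_apply_succAbove]
            exact (atupa_mem_GF.1 (hf' j)).2)
      rw [erm_wt c i₀ hc] at h1
      simp only [Fin.insertNth_apply_succAbove] at h1
      refine h1.trans ?_
      rw [hF]
      exact elg_wt (rmc c i₀) A₀ hA₀i f' hD _ hA₀0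
    have hsum : ∑ n ∈ GF D.toRD0 X,
        (if Dj (Fin.insertNth (α := fun _ => Finset (Pl K)) i₀ n f') ∧
            ∏ i, nr (Fin.insertNth (α := fun _ => Finset (Pl K)) i₀ n f' i) ≤ X ∧
            SpR c b (Fin.insertNth (α := fun _ => Finset (Pl K)) i₀ n f') ∧
            z < nr (Fin.insertNth (α := fun _ => Finset (Pl K)) i₀ n f' i₀) then
          Ψ (Fin.insertNth (α := fun _ => Finset (Pl K)) i₀ n f') *
            ep p (dt κ (qf D.toRD0 (Fin.insertNth (α := fun _ => Finset (Pl K)) i₀ n f' i₀)))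
          else 0) =
        Ψ (Fin.insertNth (α := fun _ => Finset (Pl K)) i₀ ∅ f') *
          ∑ n ∈ (GF D.toRD0 (X / P)).filter (fun n => Disjoint n F ∧ z < nr n),
            ep p (dt κ (qf D.toRD0 n)) := by
      rw [Finset.mul_sum, ← Finset.sum_filter]
      refine Finset.sum_congr ?_ fun n _ => ?_
      · ext n
        rw [Finset.mem_filter, Finset.mem_filter, elg_dj, elg_prod, hsp n,
          Fin.insertNth_apply_same, atupa_mem_GF, atupa_mem_GF, ← hF, ← hP, le_div_iff₀ hP0]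
        constructor
        · rintro ⟨⟨-, h2⟩, ⟨-, h3⟩, h4, -, h5⟩
          exact ⟨⟨h4, h2⟩, h3, h5⟩
        · rintro ⟨⟨h1, h2⟩, h3, h5⟩
          refine ⟨⟨?_, h2⟩, ⟨hD, h3⟩, h1, hSp, h5⟩
          refine le_trans ?_ h1
          exact le_mul_of_one_le_right (by linarith [one_le_nr n]) hP1
      · rw [hΨ0, Fin.insertNth_apply_same]
    rw [hsum, norm_mul]
    have hin : ‖∑ n ∈ (GF D.toRD0 (X / P)).filter (fun n => Disjoint n F ∧ z < nr n),
        ep p (dt κ (qf D.toRD0 n))‖ ≤ 2 * C₀ * 2 ^ F.card * (X / P) * z ^ (-δ) := by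
      rcases le_or_gt (X / P) z with hY | hY
      · rw [Finset.sum_eq_zero, norm_zero]
        · have h2 : 0 ≤ z ^ (-δ) := Real.rpow_nonneg hz0.le _
          positivity
        · intro n hn
          rw [Finset.mem_filter, atupa_mem_GF] at hn
          exact absurd (hn.2.2.trans_le hn.1.1) (not_lt.2 hY)
      · have hY1 : 1 ≤ X / P := hz.trans hY.le
        have hY0 : 0 < X / P := by linarith
        have hsub : ∑ n ∈ (GF D.toRD0 (X / P)).filter (fun n => Disjoint n F ∧ z < nr n),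
            ep p (dt κ (qf D.toRD0 n)) =
            ∑ n ∈ (GF D.toRD0 (X / P)).filter (fun n => Disjoint n F),
              ep p (dt κ (qf D.toRD0 n)) -
            ∑ n ∈ (GF D.toRD0 z).filter (fun n => Disjoint n F), ep p (dt κ (qf D.toRD0 n)) := by
          rw [eq_sub_iff_add_eq, ← Finset.sum_union]
          · refine Finset.sum_congr ?_ fun n _ => rfl
            ext n
            rw [Finset.mem_union, Finset.mem_filter, Finset.mem_filter, Finset.mem_filter,
              atupa_mem_GF, atupa_mem_GF]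
            constructor
            · rintro (⟨h1, h2, -⟩ | ⟨⟨h1, h2⟩, h3⟩)
              · exact ⟨h1, h2⟩
              · exact ⟨⟨h1.trans hY.le, h2⟩, h3⟩
            · rintro ⟨⟨h1, h2⟩, h3⟩
              rcases le_or_gt (nr n) z with h4 | h4
              · exact Or.inr ⟨⟨h4, h2⟩, h3⟩
              · exact Or.inl ⟨⟨h1, h2⟩, h3, h4⟩
          · rw [Finset.disjoint_left]
            intro n h1 h2
            rw [Finset.mem_filter] at h1 h2
            exact absurd (atupa_mem_GF.1 h2.1).1 (not_le.2 h1.2.2)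
        rw [hsub]
        refine (norm_sub_le _ _).trans ?_
        have h1 := hS F (X / P) hY1
        have h2 := hS F z hz
        have h3 : z ^ (1 - δ) ≤ (X / P) ^ (1 - δ) :=
          Real.rpow_le_rpow hz0.le hY.le (by linarith)
        have h4 : (X / P) ^ (1 - δ) ≤ (X / P) * z ^ (-δ) := by
          rw [show (1 : ℝ) - δ = 1 + -δ by ring, Real.rpow_add hY0, Real.rpow_one]
          refine mul_le_mul_of_nonneg_left ?_ hY0.le
          exact Real.rpow_le_rpow_of_nonpos hz0 hY.le (by linarith)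
        have h5 : 0 ≤ C₀ * 2 ^ F.card := by positivity
        calc _ ≤ C₀ * 2 ^ F.card * (X / P) ^ (1 - δ) + C₀ * 2 ^ F.card * z ^ (1 - δ) :=
              add_le_add h1 h2
          _ ≤ C₀ * 2 ^ F.card * ((X / P) * z ^ (-δ)) + C₀ * 2 ^ F.card * ((X / P) * z ^ (-δ)) :=
              add_le_add (mul_le_mul_of_nonneg_left h4 h5)
                (mul_le_mul_of_nonneg_left (h3.trans h4) h5)
          _ = _ := by ring
    have hprod : ∏ j, ((2 * A₀) ^ (f' j).card * (nr (f' j))⁻¹) = (2 * A₀) ^ F.card * P⁻¹ := by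
      rw [Finset.prod_mul_distrib, Finset.prod_pow_eq_pow_sum, hFc, Finset.prod_inv_distrib, hP]
    rw [hprod]
    calc ‖Ψ (Fin.insertNth (α := fun _ => Finset (Pl K)) i₀ ∅ f')‖ *
          ‖∑ n ∈ (GF D.toRD0 (X / P)).filter (fun n => Disjoint n F ∧ z < nr n),
            ep p (dt κ (qf D.toRD0 n))‖ ≤
          A₀ ^ F.card * (2 * C₀ * 2 ^ F.card * (X / P) * z ^ (-δ)) :=
          mul_le_mul hco hin (norm_nonneg _) (by positivity)
      _ = _ := by rw [mul_pow, div_eq_mul_inv]; ring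
  refine (norm_sum_le _ _).trans ((Finset.sum_le_sum key).trans ?_)
  have h10 : ∑ f' ∈ Fintype.piFinset (fun _ : Fin N => GF D.toRD0 X),
      ∏ j, ((2 * A₀) ^ (f' j).card * (nr (f' j))⁻¹) =
      (∑ n ∈ GF D.toRD0 X, (2 * A₀) ^ n.card * (nr n)⁻¹) ^ N := by
    have h11 := Finset.prod_univ_sum (fun _ : Fin N => GF D.toRD0 X)
      (fun _ n => (2 * A₀) ^ n.card * (nr n)⁻¹)
    rw [Finset.prod_const, Finset.card_univ, Fintype.card_fin] at h11
    rw [h11]
  rw [← Finset.mul_sum, h10]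
  have h6 : ∑ n ∈ GF D.toRD0 X, (2 * A₀) ^ n.card * (nr n)⁻¹ ≤ C₁ * (1 + Real.log X) ^ A := by
    refine le_trans ?_ (hepw X hX)
    refine Finset.sum_le_sum_of_subset_of_nonneg ?_ fun n _ _ => by
      have := one_le_nr n
      positivity
    intro n hn
    exact mem_AF.2 (atupa_mem_GF.1 hn).1
  have h7 : 0 ≤ ∑ n ∈ GF D.toRD0 X, (2 * A₀) ^ n.card * (nr n)⁻¹ :=
    Finset.sum_nonneg fun n _ => by
      have := one_le_nr n
      positivity
  have h8 := pow_le_pow_left₀ h7 h6 N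
  have h9 : 0 ≤ z ^ (-δ) := Real.rpow_nonneg hz0.le _
  calc 2 * C₀ * X * z ^ (-δ) * (∑ n ∈ GF D.toRD0 X, (2 * A₀) ^ n.card * (nr n)⁻¹) ^ N ≤
        2 * C₀ * X * z ^ (-δ) * (C₁ * (1 + Real.log X) ^ A) ^ N := by
        refine mul_le_mul_of_nonneg_left h8 ?_
        positivity
    _ = _ := by rw [mul_pow, ← pow_mul]; ring

end H38.AS
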