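import Pool.Agent.H38.AS.ESml
import Pool.Agent.H38.AS.ELrg

/-!
# [H38 AS EON] a nontrivial character of a central class gives cancellation, 80-130 lines. File Pool/Agent/H38/AS/EOne.lean

`eon`: with the notation of `ELG`: for every `ε > 0` there is `X₀` such that for `X ≥ X₀` and all `Ψ` as in `elg`: `‖∑_f Ψ f * ep(κ · qf (f i₀))‖ ≤ ε X (log X)^N` (`N + 1` classes, `N ≥ 1`).

Proof. Let `δ, A` be as in `elg` and `z = (log X)^k`, `k` a natural number with `k δ ≥ A + 1` (so `z ≥ 1` for `X ≥ 3`). Split the sum into the families with `nr (f i₀) ≤ z` and `> z`. The second part is `≤ C X (log X)^{-kδ} (1 + log X)^A ≤ C 2^A X (log X)^{-1}`. The first is, in absolute value (`‖ep‖ = 1`, `‖Ψ f‖ ≤ wtR`), `≤ C' X (1 + log X)^{N-1} (1 + k log log X)` by `esm`.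
Both are `≤ (ε/2) X (log X)^N` for large `X`, because `(1 + k log log X) / log X → 0` and `(1 + log X)^{N-1} ≤ 2^{N-1} (log X)^{N-1}` for `X ≥ 3`, `(log X)^{-1} → 0`, `(log X)^N ≥ 1`. The families in the sum are in `GF`: all primes good (`atupa_mem_GF`).
-/

set_option autoImplicit false

open scoped NumberField
open IsDedekindDomain
open scoped Classical

noncomputable section

namespace H38.AS

open H63.MA H38.BB

variable {K : Type} [Field K] [NumberField K] {p : ℕ} {ζ : K} {m N : ℕ}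

theorem eon [NeZero p] (hp : p.Prime) (hp2 : MOne p K) (hζ : IsPrimitiveRoot ζ p)
    (D : RD K p ζ) (c : CR p m (N + 1)) (hN : 1 ≤ N) (i₀ : Fin (N + 1)) (hc : Cen c i₀)
    (b : Fin m → Kˣ) (hb : BS2 D.toRD0 b ∅) (κ : Fin D.r → ZMod p) (hκ : κ ≠ 0) (ε : ℝ)
    (hε : 0 < ε) :
    ∃ X₀ : ℝ, 3 ≤ X₀ ∧ ∀ X : ℝ, X₀ ≤ X →
      ∀ Ψ : (Fin (N + 1) → Finset (Pl K)) → ℂ, (∀ f n, Ψ (Function.update f i₀ n) = Ψ f) →
      (∀ f, Dj f → (∀ i, ∀ v ∈ f i, D.Gd v) →
        ‖Ψ f‖ ≤ wtR c f (fun v k => D.LL v (akR D.toRD0 c b f k))) →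
      ‖∑ f ∈ Fintype.piFinset (fun _ : Fin (N + 1) => GF D.toRD0 X),
        (if Dj f ∧ ∏ i, nr (f i) ≤ X ∧ SpR c b f then
          Ψ f * ep p (dt κ (qf D.toRD0 (f i₀))) else 0)‖ ≤ ε * (X * Real.log X ^ N) := by
  obtain ⟨C, δ, A, hC, hδ, hLg⟩ := elg hp hζ D c i₀ hc b κ hκ
  obtain ⟨C', hC', hSm⟩ := esm hp hp2 hζ D c hN i₀ hc b hb
  obtain ⟨k, hk⟩ := exists_nat_ge (((A : ℝ) + 1) / δ)
  have hk' : ((A : ℝ) + 1) ≤ (k : ℝ) * δ := by
    rwa [div_le_iff₀ hδ] at hk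
  have hlim : ∀ᶠ L : ℝ in Filter.atTop,
      C' * 2 ^ (N - 1) * (1 + (k : ℝ) * Real.log L) ≤ ε / 2 * L := by
    have h1 : (fun L : ℝ => C' * 2 ^ (N - 1) * (1 + (k : ℝ) * Real.log L)) =o[Filter.atTop]
        (id : ℝ → ℝ) := by
      refine Asymptotics.IsLittleO.const_mul_left ?_ _
      refine Asymptotics.IsLittleO.add ?_ ?_
      · exact Asymptotics.isLittleO_const_id_atTop 1
      · exact Real.isLittleO_log_id_atTop.const_mul_left _
    have h2 := h1.bound (half_pos hε)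
    filter_upwards [h2, Filter.eventually_ge_atTop 0] with L h hL0
    have h3 := le_trans (le_abs_self _) h
    rw [id, Real.norm_eq_abs, abs_of_nonneg hL0] at h3
    exact h3
  obtain ⟨L1, hL1⟩ := Filter.eventually_atTop.1 hlim
  refine ⟨max 3 (Real.exp (max L1 (2 ^ (A + 1) * C / ε))), le_max_left _ _,
    fun X hX Ψ hΨ hΨ' => ?_⟩
  have hX3 : 3 ≤ X := le_trans (le_max_left _ _) hX
  have hX0 : 0 < X := by linarith
  have hXL : max L1 (2 ^ (A + 1) * C / ε) ≤ Real.log X := by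
    rw [Real.le_log_iff_exp_le hX0]
    exact le_trans (le_max_right _ _) hX
  have hl1 : L1 ≤ Real.log X := le_trans (le_max_left _ _) hXL
  have hl2 : 2 ^ (A + 1) * C / ε ≤ Real.log X := le_trans (le_max_right _ _) hXL
  have hlog1 : 1 ≤ Real.log X := by
    rw [Real.le_log_iff_exp_le hX0]
    have := Real.exp_one_lt_d9
    linarith
  obtain ⟨l, hl⟩ : ∃ l, l = Real.log X := ⟨_, rfl⟩
  rw [← hl] at hl1 hl2 hlog1 ⊢
  have hl0 : 0 < l := by linarith
  have hz1 : (1 : ℝ) ≤ l ^ k := one_le_pow₀ hlog1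
  have hlogz : Real.log (l ^ k) = (k : ℝ) * Real.log l := by rw [Real.log_pow]
  have hX1 : 1 ≤ X := by linarith
  -- the two bounds
  have hA := hLg X (l ^ k) hX1 hz1 Ψ hΨ hΨ'
  have hB := hSm X (l ^ k) hX1 hz1
  rw [← hl] at hA hB
  rw [hlogz] at hB
  have hbA : C * X * (l ^ k) ^ (-δ) * (1 + l) ^ A ≤ ε / 2 * (X * l ^ N) := by
    have e1 : (l ^ k : ℝ) ^ (-δ) ≤ (l ^ (A + 1))⁻¹ := by
      rw [← Real.rpow_natCast l k, ← Real.rpow_mul hl0.le, ← Real.rpow_natCast l (A + 1),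
        ← Real.rpow_neg hl0.le]
      refine Real.rpow_le_rpow_of_exponent_le hlog1 ?_
      push_cast
      linarith
    have e2 : (1 + l) ^ A ≤ 2 ^ A * l ^ A := by
      rw [← mul_pow]
      exact pow_le_pow_left₀ (by linarith) (by linarith) _
    have e3 : 2 ^ (A + 1) * C ≤ ε * l := by
      rw [div_le_iff₀ hε] at hl2
      linarith
    have e4 : (1 : ℝ) ≤ l ^ N := one_le_pow₀ hlog1
    calc C * X * (l ^ k) ^ (-δ) * (1 + l) ^ A
        ≤ C * X * (l ^ (A + 1))⁻¹ * (2 ^ A * l ^ A) := by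
          refine mul_le_mul ?_ e2 (by positivity) (by positivity)
          exact mul_le_mul_of_nonneg_left e1 (by positivity)
      _ = X * ((2 ^ (A + 1) * C) / (2 * l)) := by
          field_simp
          ring
      _ ≤ X * (ε / 2) := by
          refine mul_le_mul_of_nonneg_left ?_ hX0.le
          rw [div_le_iff₀ (by positivity)]
          linarith
      _ ≤ ε / 2 * (X * l ^ N) := by
          have : X * (ε / 2) * 1 ≤ X * (ε / 2) * l ^ N :=
            mul_le_mul_of_nonneg_left e4 (by positivity)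
          linarith
  have hbB : C' * X * (1 + l) ^ (N - 1) * (1 + (k : ℝ) * Real.log l) ≤ ε / 2 * (X * l ^ N) := by
    have e0 := hL1 l hl1
    have e1 : 0 ≤ Real.log l := Real.log_nonneg hlog1
    have e2 : (1 + l) ^ (N - 1) ≤ 2 ^ (N - 1) * l ^ (N - 1) := by
      rw [← mul_pow]
      exact pow_le_pow_left₀ (by linarith) (by linarith) _
    have e3 : l ^ N = l ^ (N - 1) * l := by
      rw [← pow_succ, Nat.sub_add_cancel hN]
    calc C' * X * (1 + l) ^ (N - 1) * (1 + (k : ℝ) * Real.log l)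
        ≤ C' * X * (2 ^ (N - 1) * l ^ (N - 1)) * (1 + (k : ℝ) * Real.log l) := by
          refine mul_le_mul_of_nonneg_right ?_ (by positivity)
          exact mul_le_mul_of_nonneg_left e2 (by positivity)
      _ = (X * l ^ (N - 1)) * (C' * 2 ^ (N - 1) * (1 + (k : ℝ) * Real.log l)) := by ring
      _ ≤ (X * l ^ (N - 1)) * (ε / 2 * l) := mul_le_mul_of_nonneg_left e0 (by positivity)
      _ = ε / 2 * (X * l ^ N) := by rw [e3]; ring
  -- the splitting
  have hsplit : ∑ f ∈ Fintype.piFinset (fun _ : Fin (N + 1) => GF D.toRD0 X),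
        (if Dj f ∧ ∏ i, nr (f i) ≤ X ∧ SpR c b f then
          Ψ f * ep p (dt κ (qf D.toRD0 (f i₀))) else 0) =
      ∑ f ∈ Fintype.piFinset (fun _ : Fin (N + 1) => GF D.toRD0 X),
        (if Dj f ∧ ∏ i, nr (f i) ≤ X ∧ SpR c b f ∧ nr (f i₀) ≤ l ^ k then
          Ψ f * ep p (dt κ (qf D.toRD0 (f i₀))) else 0) +
      ∑ f ∈ Fintype.piFinset (fun _ : Fin (N + 1) => GF D.toRD0 X),
        (if Dj f ∧ ∏ i, nr (f i) ≤ X ∧ SpR c b f ∧ l ^ k < nr (f i₀) then
          Ψ f * ep p (dt κ (qf D.toRD0 (f i₀))) else 0) := by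
    rw [← Finset.sum_add_distrib]
    refine Finset.sum_congr rfl fun f _ => ?_
    by_cases h : Dj f ∧ ∏ i, nr (f i) ≤ X ∧ SpR c b f
    · rcases le_or_gt (nr (f i₀)) (l ^ k) with h2 | h2
      · rw [if_pos h, if_pos ⟨h.1, h.2.1, h.2.2, h2⟩, if_neg, add_zero]
        exact fun h3 => absurd h3.2.2.2 (not_lt.2 h2)
      · rw [if_pos h, if_neg, if_pos ⟨h.1, h.2.1, h.2.2, h2⟩, zero_add]
        exact fun h3 => absurd h3.2.2.2 (not_le.2 h2)
    · rw [if_neg h, if_neg, if_neg, add_zero]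
      · exact fun h3 => h ⟨h3.1, h3.2.1, h3.2.2.1⟩
      · exact fun h3 => h ⟨h3.1, h3.2.1, h3.2.2.1⟩
  have hfirst : ‖∑ f ∈ Fintype.piFinset (fun _ : Fin (N + 1) => GF D.toRD0 X),
        (if Dj f ∧ ∏ i, nr (f i) ≤ X ∧ SpR c b f ∧ nr (f i₀) ≤ l ^ k then
          Ψ f * ep p (dt κ (qf D.toRD0 (f i₀))) else 0)‖ ≤
      ∑ f ∈ Fintype.piFinset (fun _ : Fin (N + 1) => GF D.toRD0 X),
        (if Dj f ∧ ∏ i, nr (f i) ≤ X ∧ SpR c b f ∧ nr (f i₀) ≤ l ^ k then
          wtR c f (fun v k => D.LL v (akR D.toRD0 c b f k)) else 0) := by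
    refine norm_sum_le_of_le _ fun f hf => ?_
    split_ifs with h
    · rw [norm_mul, ep_norm, mul_one]
      refine hΨ' f h.1 fun i v hv => ?_
      exact (atupa_mem_GF.1 (Fintype.mem_piFinset.1 hf i)).2 v hv
    · rw [norm_zero]
  rw [hsplit]
  calc _ ≤ _ := norm_add_le _ _
    _ ≤ ε / 2 * (X * l ^ N) + ε / 2 * (X * l ^ N) :=
        add_le_add (hfirst.trans (hB.trans hbB)) (hA.trans hbA)
    _ = ε * (X * l ^ N) := by ring

end H38.AS
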