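import Pool.Agent.H38.AS.EDef

/-!
# [H38 AS ERM] a central class does not occur in the weights, 80-130 lines. File Pool/Agent/H38/AS/ERem.lean

`i₀` a central class (`c.x i₀ = 0`, `c.Θ i₀ = ⊥`), `f'` the family without `f i₀` (`f' j = f (i₀.succAbove j)`). Then `akR`, `SpR`, `wtR` of `f` for `c` are those of `f'` for `rmc c i₀`; they do not depend on `f i₀`.

Proof. `Fin.prod_univ_succAbove`: `∏ i, F i = F i₀ * ∏ j, F (i₀.succAbove j)`. `akR`: the factor of `i₀` is `∏_{w ∈ f i₀} pi w ^ ((0 : ZMod p).val) = 1` (`ZMod.val_zero`). `wtR`: the factor of `i₀` is `∏_{v ∈ f i₀} 1` because the condition for `θ ∈ ⊥` is trivial (`dt 0 _ = 0`) and `Nat.card (⊥ : Submodule) = 1`.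
`SpR`: an index `i` with `dt θ (c.x i) ≠ 0` is not `i₀` (`dt θ 0 = 0`), so it is some `i₀.succAbove j` (`Fin.exists_succAbove_eq`).
-/

set_option autoImplicit false

open scoped NumberField
open IsDedekindDomain
open scoped Classical

noncomputable section

namespace H38.AS

open H63.MA H38.BB

variable {K : Type} [Field K] [NumberField K] {p : ℕ} {ζ : K} {m N : ℕ}

theorem erm_ak (D : RD0 K p ζ) (c : CR p m (N + 1)) (i₀ : Fin (N + 1)) (hc : Cen c i₀)
    (b : Fin m → Kˣ) (f : Fin (N + 1) → Finset (Pl K)) (k : Fin m) :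
    akR D c b f k = akR D (rmc c i₀) b (fun j => f (i₀.succAbove j)) k := by
  unfold akR
  rw [Fin.prod_univ_succAbove _ i₀]
  have h : ∏ w ∈ f i₀, D.pi w ^ (c.x i₀ k).val = 1 := by
    refine Finset.prod_eq_one fun w _ => ?_
    rw [hc.1, Pi.zero_apply, ZMod.val_zero, pow_zero]
  rw [h, one_mul]
  rfl

theorem erm_sp (c : CR p m (N + 1)) (i₀ : Fin (N + 1)) (hc : Cen c i₀)
    (b : Fin m → Kˣ) (f : Fin (N + 1) → Finset (Pl K)) :
    SpR c b f ↔ SpR (rmc c i₀) b (fun j => f (i₀.succAbove j)) := by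
  unfold SpR
  refine forall_congr' fun θ => forall_congr' fun _ => or_congr_left ?_
  constructor
  · rintro ⟨i, h1, h2⟩
    have hi : i ≠ i₀ := by
      rintro rfl
      apply h2
      rw [hc.1]
      simp [dt]
    obtain ⟨j, rfl⟩ := Fin.exists_succAbove_eq hi
    exact ⟨j, h1, h2⟩
  · rintro ⟨j, h1, h2⟩
    exact ⟨i₀.succAbove j, h1, h2⟩

theorem erm_wt (c : CR p m (N + 1)) (i₀ : Fin (N + 1)) (hc : Cen c i₀)
    (f : Fin (N + 1) → Finset (Pl K)) (F : Pl K → Fin m → ZMod p) :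
    wtR c f F = wtR (rmc c i₀) (fun j => f (i₀.succAbove j)) F := by
  unfold wtR
  rw [Fin.prod_univ_succAbove _ i₀]
  have h : (∏ v ∈ f i₀, if ∀ θ ∈ c.Θ i₀, dt θ (F v) = 0 then (Nat.card (c.Θ i₀) : ℝ) else 0) =
      1 := by
    refine Finset.prod_eq_one fun v _ => ?_
    rw [if_pos]
    · rw [hc.2]
      simp
    · intro θ hθ
      rw [hc.2, Submodule.mem_bot] at hθ
      rw [hθ]
      simp [dt]
  rw [h, one_mul]
  rfl

end H38.AS
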