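import Pool.Agent.H38.AS.ERem
import Pool.Agent.H38.BB.CUb

/-!
# [H38 AS ESM] the families with a small central class, 100-150 lines. File Pool/Agent/H38/AS/ESml.lean

`c : CR p m (N + 1)`, `N ≥ 1`, `i₀` central, `b` supported on `S0`. The sum of the weights of the families `f` (disjoint, spanning, `∏ nr ≤ X`) with `nr (f i₀) ≤ z` is `≤ C X (1 + log X)^{N-1} (1 + log z)` for `X, z ≥ 1`.

Proof. Write `f` as the pair `(n, f')`, `n = f i₀`, `f' j = f (i₀.succAbove j)` (`Fin.insertNthEquiv`/`Fin.insertNth`, or an injective map into the product and nonnegativity of the terms). By `ERM` the term is `wtR (rmc c i₀) f' (LL v (akR (rmc c i₀) b f'))` (nonnegative: `wtR ≥ 0`). `∏ nr (f i) = nr n * ∏ nr (f' j)`; all `nr ≥ 1` (`one_le_nr`).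
For fixed `n` with `nr n ≤ z` and `nr n ≤ X` the sum over `f'` is at most `SW D (rmc c i₀) b ∅ 1 (X / nr n)` (conditions: `Dj f'`, `∏ nr (f' j) ≤ X / nr n`, `SpR`, each `f' j ∈ GF (X / nr n)`), which is `≤ C (X / nr n) (1 + log X)^{N-1}` by `ub` with `E = ∅`, `η = 1` (`nr ∅ = 1`). `∑_{n ∈ GF z} 1 / nr n ≤ C' (1 + log z)` (`af_inv` in `MA/ADivJ`; `GF ⊆ AF`).
-/

set_option autoImplicit false

open scoped NumberField
open IsDedekindDomain
open scoped Classical

noncomputable section

namespace H38.AS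

open H63.MA H38.BB

variable {K : Type} [Field K] [NumberField K] {p : ℕ} {ζ : K} {m N : ℕ}

/-- summing over a family by splitting off one index -/
theorem esm_split {M X : Type} [AddCommMonoid M] (s : Finset X) (i₀ : Fin (N + 1))
    (G : (Fin (N + 1) → X) → M) :
    ∑ f ∈ Fintype.piFinset (fun _ : Fin (N + 1) => s), G f =
      ∑ n ∈ s, ∑ f' ∈ Fintype.piFinset (fun _ : Fin N => s),
        G (Fin.insertNth (α := fun _ => X) i₀ n f') := by
  rw [← Finset.sum_product']
  refine (Finset.sum_nbij' (fun q : X × (Fin N → X) => Fin.insertNth (α := fun _ => X) i₀ q.1 q.2)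
    (fun f => (f i₀, fun j => f (i₀.succAbove j))) ?_ ?_ ?_ ?_ ?_).symm
  · rintro ⟨n, f'⟩ h
    rw [Finset.mem_product, Fintype.mem_piFinset] at h
    rw [Fintype.mem_piFinset]
    intro i
    rcases Fin.eq_self_or_eq_succAbove i₀ i with rfl | ⟨j, rfl⟩
    · simpa using h.1
    · simpa using h.2 j
  · intro f h
    rw [Fintype.mem_piFinset] at h
    rw [Finset.mem_product, Fintype.mem_piFinset]
    exact ⟨h i₀, fun j => h _⟩
  · rintro ⟨n, f'⟩ _
    simp
  · intro f _
    ext i
    rcases Fin.eq_self_or_eq_succAbove i₀ i with rfl | ⟨j, rfl⟩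
    · simp
    · simp
  · rintro ⟨n, f'⟩ _
    rfl

theorem esm_prod (i₀ : Fin (N + 1)) (n : Finset (Pl K)) (f' : Fin N → Finset (Pl K)) :
    ∏ i, nr (Fin.insertNth (α := fun _ => Finset (Pl K)) i₀ n f' i) = nr n * ∏ j, nr (f' j) := by
  rw [Fin.prod_univ_succAbove _ i₀]
  simp

theorem esm_dj (i₀ : Fin (N + 1)) (n : Finset (Pl K)) (f' : Fin N → Finset (Pl K))
    (h : Dj (Fin.insertNth (α := fun _ => Finset (Pl K)) i₀ n f')) :
    Dj f' ∧ ∀ j, Disjoint n (f' j) := by
  constructor
  · intro a a' ha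
    have h1 := h (i₀.succAbove a) (i₀.succAbove a')
      (fun h2 => ha (Fin.succAbove_right_injective h2))
    simpa using h1
  · intro j
    have h1 := h i₀ (i₀.succAbove j) (Fin.succAbove_ne i₀ j).symm
    simpa using h1

theorem esm_dj' (i₀ : Fin (N + 1)) (n : Finset (Pl K)) (f' : Fin N → Finset (Pl K))
    (h : Dj f') (h' : ∀ j, Disjoint n (f' j)) :
    Dj (Fin.insertNth (α := fun _ => Finset (Pl K)) i₀ n f') := by
  intro a a' ha
  rcases Fin.eq_self_or_eq_succAbove i₀ a with rfl | ⟨j, rfl⟩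
  · rcases Fin.eq_self_or_eq_succAbove a a' with h1 | ⟨j, rfl⟩
    · exact absurd h1.symm ha
    · simpa using h' j
  · rcases Fin.eq_self_or_eq_succAbove i₀ a' with rfl | ⟨j', rfl⟩
    · simpa using (h' j).symm
    · have h1 := h j j' (fun h2 => ha (by rw [h2]))
      simpa using h1

theorem esm_wt0 (c : CR p m N) (f : Fin N → Finset (Pl K)) (F : Pl K → Fin m → ZMod p) :
    0 ≤ wtR c f F := by
  unfold wtR
  refine Finset.prod_nonneg fun i _ => Finset.prod_nonneg fun v _ => ?_
  split_ifs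
  · exact Nat.cast_nonneg _
  · exact le_rfl

theorem esm [NeZero p] (hp : p.Prime) (hp2 : MOne p K) (hζ : IsPrimitiveRoot ζ p)
    (D : RD K p ζ) (c : CR p m (N + 1)) (hN : 1 ≤ N) (i₀ : Fin (N + 1)) (hc : Cen c i₀)
    (b : Fin m → Kˣ) (hb : BS2 D.toRD0 b ∅) :
    ∃ C : ℝ, 0 < C ∧ ∀ X z : ℝ, 1 ≤ X → 1 ≤ z →
      ∑ f ∈ Fintype.piFinset (fun _ : Fin (N + 1) => GF D.toRD0 X),
        (if Dj f ∧ ∏ i, nr (f i) ≤ X ∧ SpR c b f ∧ nr (f i₀) ≤ z then
          wtR c f (fun v k => D.LL v (akR D.toRD0 c b f k)) else 0) ≤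
        C * X * (1 + Real.log X) ^ (N - 1) * (1 + Real.log z) := by
  have : NeZero p := inferInstance
  obtain ⟨C₁, hC₁, hub⟩ := ub hp hp2 hζ D (rmc c i₀) hN 1 one_pos
  obtain ⟨C₂, hC₂, hinv⟩ := af_inv K
  refine ⟨C₁ * C₂, by positivity, fun X z hX hz => ?_⟩
  have hLX : 0 ≤ Real.log X := Real.log_nonneg hX
  have hLz : 0 ≤ Real.log z := Real.log_nonneg hz
  rw [esm_split (GF D.toRD0 X) i₀]
  have key : ∀ n ∈ GF D.toRD0 X,
      (∑ f' ∈ Fintype.piFinset (fun _ : Fin N => GF D.toRD0 X),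
        (if Dj (Fin.insertNth (α := fun _ => Finset (Pl K)) i₀ n f') ∧
            ∏ i, nr (Fin.insertNth (α := fun _ => Finset (Pl K)) i₀ n f' i) ≤ X ∧
            SpR c b (Fin.insertNth (α := fun _ => Finset (Pl K)) i₀ n f') ∧
            nr (Fin.insertNth (α := fun _ => Finset (Pl K)) i₀ n f' i₀) ≤ z then
          wtR c (Fin.insertNth (α := fun _ => Finset (Pl K)) i₀ n f')
            (fun v k => D.LL v (akR D.toRD0 c b
              (Fin.insertNth (α := fun _ => Finset (Pl K)) i₀ n f') k)) else 0)) ≤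
      if nr n ≤ z then C₁ * X * (1 + Real.log X) ^ (N - 1) * (nr n)⁻¹ else 0 := by
    intro n hn
    have hn1 : 1 ≤ nr n := one_le_nr n
    have hn0 : 0 < nr n := by linarith
    have hnX : nr n ≤ X := (atupa_mem_GF.1 hn).1
    split_ifs with hnz
    · have hY1 : 1 ≤ X / nr n := by rwa [le_div_iff₀ hn0, one_mul]
      have h1 := hub b ∅ hb (X / nr n) hY1
      have hnr0 : nr (∅ : Finset (Pl K)) = 1 := by simp [nr]
      rw [hnr0, Real.one_rpow, mul_one] at h1
      have h2 : C₁ * (X / nr n) * (1 + Real.log (X / nr n)) ^ (N - 1) ≤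
          C₁ * X * (1 + Real.log X) ^ (N - 1) * (nr n)⁻¹ := by
        have h3 : (1 + Real.log (X / nr n)) ^ (N - 1) ≤ (1 + Real.log X) ^ (N - 1) := by
          refine pow_le_pow_left₀ (by linarith [Real.log_nonneg hY1]) ?_ _
          have h4 : Real.log (X / nr n) ≤ Real.log X :=
            Real.log_le_log (by linarith) (div_le_self (by linarith) hn1)
          linarith
        calc C₁ * (X / nr n) * (1 + Real.log (X / nr n)) ^ (N - 1) ≤
              C₁ * (X / nr n) * (1 + Real.log X) ^ (N - 1) := by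
              refine mul_le_mul_of_nonneg_left h3 ?_
              positivity
          _ = _ := by rw [div_eq_mul_inv]; ring
      refine le_trans ?_ (h1.trans h2)
      unfold SW
      rw [← Finset.sum_filter, ← Finset.sum_filter]
      have hterm : ∀ f' : Fin N → Finset (Pl K),
          wtR c (Fin.insertNth (α := fun _ => Finset (Pl K)) i₀ n f')
            (fun v k => D.LL v (akR D.toRD0 c b
              (Fin.insertNth (α := fun _ => Finset (Pl K)) i₀ n f') k)) =
          1 * wtR (rmc c i₀) f' (fun v k => D.LL v (akR D.toRD0 (rmc c i₀) b f' k)) := by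
        intro f'
        rw [erm_wt c i₀ hc, one_mul]
        simp only [erm_ak D.toRD0 c i₀ hc, Fin.insertNth_apply_succAbove]
      simp only [hterm]
      refine Finset.sum_le_sum_of_subset_of_nonneg ?_ fun f _ _ => by
        rw [one_mul]; exact esm_wt0 _ _ _
      intro f' hf'
      rw [Finset.mem_filter, Fintype.mem_piFinset] at hf'
      obtain ⟨hf1, hf2, hf3, hf4, -⟩ := hf'
      rw [esm_prod] at hf3
      have hP : ∏ j, nr (f' j) ≤ X / nr n := by
        rw [le_div_iff₀ hn0, mul_comm]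
        exact hf3
      rw [Finset.mem_filter, Fintype.mem_piFinset]
      refine ⟨fun j => ?_, (esm_dj i₀ n f' hf2).1, fun i => Finset.disjoint_empty_right _, hP, ?_⟩
      · rw [atupa_mem_GF]
        exact ⟨(atupa_le_prod f' j).trans hP, (atupa_mem_GF.1 (hf1 j)).2⟩
      · have h5 := (erm_sp c i₀ hc b _).1 hf4
        simpa only [Fin.insertNth_apply_succAbove] using h5
    · refine Finset.sum_nonpos fun f' _ => ?_
      rw [if_neg]
      rintro ⟨-, -, -, h4⟩
      rw [Fin.insertNth_apply_same] at h4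
      exact hnz h4
  refine (Finset.sum_le_sum key).trans ?_
  rw [← Finset.sum_filter, ← Finset.mul_sum]
  have h5 : ∑ n ∈ (GF D.toRD0 X).filter (fun n => nr n ≤ z), (nr n)⁻¹ ≤
      C₂ * (1 + Real.log z) := by
    refine le_trans ?_ (hinv z hz)
    refine Finset.sum_le_sum_of_subset_of_nonneg ?_ fun n _ _ => by
      have := one_le_nr n
      positivity
    intro n hn
    rw [Finset.mem_filter] at hn
    exact mem_AF.2 hn.2
  calc C₁ * X * (1 + Real.log X) ^ (N - 1) *
        ∑ n ∈ (GF D.toRD0 X).filter (fun n => nr n ≤ z), (nr n)⁻¹ ≤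
        C₁ * X * (1 + Real.log X) ^ (N - 1) * (C₂ * (1 + Real.log z)) := by
        refine mul_le_mul_of_nonneg_left h5 ?_
        positivity
    _ = _ := by ring

end H38.AS
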