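import Pool.Agent.H38.AS.GQb

/-!
# [H38 AS GBJ] removing the central classes, 90-140 lines. File Pool/Agent/H38/AS/GBj.lean

* `eta_hat`: `eta D Dg (hat Dg f) = eta D Dg f`, because `pi v ^ (y i k).val = pi v ^ 0 = 1` if `y i = 0` (unfold `xi`, `hat`; `Finset.prod_congr`).
* `gbj`: for `Ok D f`, `φ ↦ twc (psf f) φ` is a bijection from `XB β (hat f)` to `XB β f`, with inverse `twc (psf f)⁻¹`. Proof: `twc` does not change `mkW ∘ φ` (`twc_mk`) and preserves finite type (`twc_ft`, `psf_ft`); `eta_hat`. Let `φ ∈ XB β (hat f)`, `v ∉ S0`. If `v ∈ f i` and `y i = 0` then `v` is in no `hat f j` (`Dj f`), so `φ (t v) = 1` and `twc (psf f) φ (t v) = e (a i) 0 = g i` (`psf_t`; `Dg.g i = e (a i) (y i)`).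
  If `v ∈ f i`, `y i ≠ 0`, then `v` is in no `f j` with `y j = 0`, so `psf f (t v) = 1` and the value `φ (t v)`, conjugate to `g i`, is unchanged; the same if `v` is in no `f i` (value `1`). Conversely let `φ ∈ XB β f`; for `v ∈ f i`, `y i = 0`: `φ (t v)` is conjugate to the central element `g i = e (a i) 0` (`gt_cen`), so equal to it, and `twc (psf f)⁻¹ φ (t v) = e (- a i) 0 * e (a i) 0 = 1`.
* `gbj_card`: so `#XB β (hat f) = #XB β f` (`Set.BijOn` and `Set.ncard`), and one is finite iff the other is.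
* `gbj_phi`: `#{φ ∈ XB β f | Teq S0 Q φ φ₁} = Phi β φ₁ f (fun i => qf (f i))`: the same bijection, because `Teq S0 Q (twc (psf f) φ) (twc (psi (qf ∘ f)) φ)` (`psi_f`, `teq_twc`).
-/

set_option autoImplicit false

open scoped NumberField
open IsDedekindDomain
open scoped Classical

noncomputable section

namespace H38.AS

open H63.MA H38.BB H38.BG

variable {K : Type} [Field K] [NumberField K] {Ω : Type} [Field Ω] [Algebra K Ω]
  [IsAlgClosure K Ω] {p m u w N : ℕ} {ζ : K} {G : Type} [Group G]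

theorem eta_hat (D : RD0 K p ζ) (Dg : GT p m u w N G) (f : Fin N → Finset (Pl K))
    (σ : Gal(Ω/K)) : eta D Dg (hat Dg f) σ = eta D Dg f σ := by
  unfold eta
  funext k
  congr 1
  unfold xi
  refine Finset.prod_congr rfl fun i _ => ?_
  unfold hat
  by_cases hy : Dg.y i = 0
  · rw [if_pos hy, Finset.prod_empty, eq_comm]
    refine Finset.prod_eq_one fun v _ => ?_
    rw [hy, Pi.zero_apply, ZMod.val_zero, pow_zero]
  · rw [if_neg hy]

theorem gbj_hat (Dg : GT p m u w N G) (f : Fin N → Finset (Pl K)) (i : Fin N) (v : Pl K) :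
    v ∈ hat Dg f i ↔ Dg.y i ≠ 0 ∧ v ∈ f i := by
  unfold hat
  by_cases hy : Dg.y i = 0
  · rw [if_pos hy]
    exact ⟨fun h => absurd h (Finset.notMem_empty v), fun h => absurd hy h.1⟩
  · rw [if_neg hy]
    exact ⟨fun h => ⟨hy, h⟩, fun h => h.2⟩

theorem gbj_a (hp : p.Prime) (hζ : IsPrimitiveRoot ζ p) (D : RD0 K p ζ) (L : LDs D Ω)
    (Dg : GT p m u w N G) (β : Gal(Ω/K) →* G ⧸ WS Dg) (f : Fin N → Finset (Pl K))
    (hf : Ok D f) : ∀ φ ∈ XB D L Dg β (hat Dg f), twc Dg (psf D Dg f) φ ∈ XB D L Dg β f := by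
  rintro φ ⟨h1, h2, h3, h4⟩
  refine ⟨twc_ft Dg _ φ (psf_ft hp hζ D Dg f) h1, fun σ => ?_, fun i v hv => ?_,
    fun v hv hv' => ?_⟩
  · rw [twc_mk, h2, eta_hat]
  · have hvS := hf.2 i v hv
    have hpt := psf_t hp hζ D L Dg f hf v hvS
    have hj : ∀ j, v ∈ f j → j = i := by
      intro j hj
      by_contra h
      exact (Finset.disjoint_left.1 (hf.1 j i h)) hj hv
    by_cases hy : Dg.y i = 0
    · have h5 : φ (L.t v) = 1 := by
        refine h4 v hvS fun j hj' => ?_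
        obtain ⟨hyj, hvj⟩ := (gbj_hat Dg f j v).1 hj'
        rw [hj j hvj] at hyj
        exact hyj hy
      rw [twc_apply, hpt.1 i hy hv, h5, mul_one, toAdd_ofAdd, GT.g, hy]
    · rw [twc_apply, hpt.2 (fun j hyj hvj => by rw [hj j hvj] at hyj; exact hy hyj), toAdd_one,
        gt_e0, one_mul]
      exact h3 i v ((gbj_hat Dg f i v).2 ⟨hy, hv⟩)
  · rw [twc_apply, (psf_t hp hζ D L Dg f hf v hv).2 (fun j _ => hv' j), toAdd_one, gt_e0, one_mul]
    exact h4 v hv fun j hj => hv' j ((gbj_hat Dg f j v).1 hj).2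

theorem gbj_b (hp : p.Prime) (hζ : IsPrimitiveRoot ζ p) (D : RD0 K p ζ) (L : LDs D Ω)
    (Dg : GT p m u w N G) (β : Gal(Ω/K) →* G ⧸ WS Dg) (f : Fin N → Finset (Pl K))
    (hf : Ok D f) : ∀ φ ∈ XB D L Dg β f, twc Dg (psf D Dg f)⁻¹ φ ∈ XB D L Dg β (hat Dg f) := by
  rintro φ ⟨h1, h2, h3, h4⟩
  refine ⟨twc_ft Dg _ φ (chb_ft_inv (psf_ft hp hζ D Dg f)) h1, fun σ => ?_, fun i v hv => ?_,
    fun v hv hv' => ?_⟩
  · rw [twc_mk, h2, eta_hat]
  · obtain ⟨hy, hv⟩ := (gbj_hat Dg f i v).1 hv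
    have hvS := hf.2 i v hv
    have hpt := psf_t hp hζ D L Dg f hf v hvS
    have hj : ∀ j, v ∈ f j → j = i := by
      intro j hj
      by_contra h
      exact (Finset.disjoint_left.1 (hf.1 j i h)) hj hv
    rw [twc_apply, MonoidHom.inv_apply,
      hpt.2 (fun j hyj hvj => by rw [hj j hvj] at hyj; exact hy hyj), inv_one, toAdd_one,
      gt_e0, one_mul]
    exact h3 i v hv
  · have hpt := psf_t hp hζ D L Dg f hf v hv
    by_cases h5 : ∃ i, v ∈ f i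
    · obtain ⟨i, hi⟩ := h5
      have hy : Dg.y i = 0 := by
        by_contra hy
        exact hv' i ((gbj_hat Dg f i v).2 ⟨hy, hi⟩)
      have h6 := h3 i v hi
      rw [GT.g, hy] at h6
      obtain ⟨c, hc⟩ := isConj_iff.1 h6.symm
      rw [← gt_cen Dg (Dg.a i) c, mul_inv_cancel_right] at hc
      rw [twc_apply, MonoidHom.inv_apply, hpt.1 i hy hi, ← hc, ← ofAdd_neg, toAdd_ofAdd,
        gt_mul0, neg_add_cancel, gt_e0]
    · push Not at h5
      rw [twc_apply, MonoidHom.inv_apply, hpt.2 (fun j _ => h5 j), inv_one, toAdd_one, gt_e0,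
        one_mul]
      exact h4 v hv h5

theorem gbj (hp : p.Prime) (hζ : IsPrimitiveRoot ζ p) (D : RD0 K p ζ) (L : LDs D Ω)
    (Dg : GT p m u w N G) (β : Gal(Ω/K) →* G ⧸ WS Dg) (f : Fin N → Finset (Pl K))
    (hf : Ok D f) : Set.BijOn (twc Dg (psf D Dg f)) (XB D L Dg β (hat Dg f))
      (XB D L Dg β f) := by
  have hA := gbj_a hp hζ D L Dg β f hf
  have hB := gbj_b hp hζ D L Dg β f hf
  refine ⟨hA, fun φ _ φ' _ h => ?_, fun φ hφ => ⟨twc Dg (psf D Dg f)⁻¹ φ, hB φ hφ, ?_⟩⟩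
  · have h1 := congrArg (twc Dg (psf D Dg f)⁻¹) h
    rw [← twc_mul, ← twc_mul, inv_mul_cancel, twc_one, twc_one] at h1
    exact h1
  · rw [← twc_mul, mul_inv_cancel, twc_one]

theorem gbj_card (hp : p.Prime) (hζ : IsPrimitiveRoot ζ p) (D : RD0 K p ζ) (L : LDs D Ω)
    (Dg : GT p m u w N G) (β : Gal(Ω/K) →* G ⧸ WS Dg) (f : Fin N → Finset (Pl K))
    (hf : Ok D f) : (XB D L Dg β (hat Dg f)).ncard = (XB D L Dg β f).ncard ∧
      ((XB D L Dg β (hat Dg f)).Finite ↔ (XB D L Dg β f).Finite) := by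
  have h := gbj hp hζ D L Dg β f hf
  refine ⟨?_, h.finite_iff_finite⟩
  rw [← h.image_eq, Set.ncard_image_of_injOn h.injOn]

theorem gbj_phi (hp : p.Prime) (hp2 : MOne p K) (hζ : IsPrimitiveRoot ζ p) (D : RD0 K p ζ)
    (L : LDs D Ω) (Q : DP K Ω) (Dg : GT p m u w N G) (β : Gal(Ω/K) →* G ⧸ WS Dg)
    (φ₁ : Gal(Ω/K) →* G) (f : Fin N → Finset (Pl K)) (hf : Ok D f) :
    {φ ∈ XB D L Dg β f | Teq D.S0 Q φ φ₁}.ncard =
      Phi D L Q Dg β φ₁ f (fun i => qf D (f i)) := by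
  have h := gbj hp hζ D L Dg β f hf
  have hT : ∀ φ : Gal(Ω/K) →* G, Teq D.S0 Q (twc Dg (psf D Dg f) φ) φ₁ ↔
      Teq D.S0 Q (twc Dg (psi D Dg fun i => qf D (f i)) φ) φ₁ := by
    intro φ
    have h1 := (teq_twc Dg D.S0 Q _ _ φ).2 (psi_f (Ω := Ω) hp hp2 hζ D Q Dg f hf)
    constructor
    · intro h2 v hv σ hσ
      rw [← h1 v hv σ hσ, h2 v hv σ hσ]
    · intro h2 v hv σ hσ
      rw [h1 v hv σ hσ, h2 v hv σ hσ]
  have himg : {φ ∈ XB D L Dg β f | Teq D.S0 Q φ φ₁} = twc Dg (psf D Dg f) ''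
      {φ ∈ XB D L Dg β (hat Dg f) |
        Teq D.S0 Q (twc Dg (psi D Dg fun i => qf D (f i)) φ) φ₁} := by
    ext φ
    constructor
    · rintro ⟨h2, h3⟩
      obtain ⟨φ', h4, rfl⟩ := h.surjOn h2
      exact ⟨φ', ⟨h4, (hT φ').1 h3⟩, rfl⟩
    · rintro ⟨φ', ⟨h4, h5⟩, rfl⟩
      exact ⟨h.mapsTo h4, (hT φ').2 h5⟩
  rw [himg, Set.ncard_image_of_injOn (h.injOn.mono fun φ hφ => hφ.1), Phi]

end H38.AS
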