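import Pool.Agent.H38.AS.GCo
import Pool.Agent.H38.AS.GBj

/-!
# [H38 AS GAV] the average over the types, 80-130 lines. File Pool/Agent/H38/AS/GAv.lean

`gav`: let `XB β (hat f)` be finite, with `M` elements, `y0` the number of the `χ : Γ → Wg p w` of finite type with `χ (t v) = 1` for `v ∉ S0` (`chbU`, finite by `hw_fin`). Then `y0 ∑_q Phi β φ₁ f q = g0 M` if `Cmp β φ₁ f`, and `= 0` otherwise.

Proof. Let `X = XB β (hat f)`, `𝒰 = chbU D L (Wg p w)` (a finite subgroup). Count the triples `(φ, χ, q) ∈ X × 𝒰 × 𝒬` (`𝒬` all functions `Fin N → Fin r → ZMod p`) with `Teq S0 Q (twc (χ * psi q) φ) φ₁`. (1) For fixed `χ`: `twc (χ * psi q) φ = twc (psi q) (twc χ φ)` (`twc_mul`, commutativity) and `φ ↦ twc χ φ` is a bijection of `X` (`xb_twc` for `χ` and `χ⁻¹`, `twc_mul`, `twc_one`);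
so the number of the `(φ, q)` is `∑_q Phi β φ₁ f q`, total `y0 ∑_q Phi`. (2) For fixed `φ ∈ X`: if `Cmp β φ₁ f` then `mkW (φ₁ σ) = β σ * vqW (eta f σ) = β σ * vqW (eta (hat f) σ) = mkW (φ σ)` on the decomposition groups (`eta_hat`, definition of `XB`), and `gco` gives exactly `g0` pairs `(χ, q)`. If `Cmp` fails, there are none: `Teq (twc (χ * psi q) φ) φ₁` implies `mkW (φ σ) = mkW (φ₁ σ)`
on all of them (`twc_mk`), i.e. `Cmp`. Total `g0 M` resp. `0`.
(Use finite sets: `hX.toFinset`, the `Fintype` of `𝒰`, `Finset.univ` for `𝒬`; `Finset.card_filter`/`Finset.sum_comm` or `Finset.card_eq_sum_card_fiberwise`; `Phi` is the `ncard` of a subset of `X`.)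
-/

set_option autoImplicit false

open scoped NumberField
open IsDedekindDomain
open scoped Classical

noncomputable section

namespace H38.AS

open H63.MA H38.BB H38.BG

variable {K : Type} [Field K] [NumberField K] {Ω : Type} [Field Ω] [Algebra K Ω]
  [IsAlgClosure K Ω] {p m u w N : ℕ} {ζ : K} {G : Type} [Group G]

theorem gav [NeZero p] (hp : p.Prime) (hp2 : MOne p K) (hζ : IsPrimitiveRoot ζ p)
    (D : RD0 K p ζ) (L : LDs D Ω) (Q : DP K Ω) (Dg : GT p m u w N G)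
    (hcen : ∀ a : Fin w → ZMod p, a ≠ 0 → ∃ i, Dg.a i = a ∧ Dg.y i = 0)
    (β : Gal(Ω/K) →* G ⧸ WS Dg) (φ₁ : Gal(Ω/K) →* G) (hφ₁ : H38.ML.FT φ₁)
    (f : Fin N → Finset (Pl K)) (hf : Ok D f) (hX : (XB D L Dg β (hat Dg f)).Finite) :
    Nat.card (chbU D L (Wg p w)) * ∑ q : Fin N → Fin D.r → ZMod p, Phi D L Q Dg β φ₁ f q =
      if Cmp D Q Dg β φ₁ f then g0 D L Q Dg * (XB D L Dg β (hat Dg f)).ncard else 0 := by
  have hUf : ({χ : Gal(Ω/K) →* Wg p w | H38.ML.FT χ ∧ ∀ v, v ∉ D.S0 → χ (L.t v) = 1}).Finite :=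
    hw_fin hp hζ D L wg_pow
  have hUm : ∀ χ : Gal(Ω/K) →* Wg p w, χ ∈ hUf.toFinset ↔ χ ∈ chbU D L (Wg p w) := by
    intro χ
    rw [Set.Finite.mem_toFinset]
    rfl
  have hUc : Nat.card (chbU D L (Wg p w)) = hUf.toFinset.card := by
    rw [← Set.ncard_eq_toFinset_card _ hUf]
    rfl
  have hhat : ∀ i, ∀ v ∈ hat Dg f i, v ∉ D.S0 := by
    intro i v hv
    exact hf.2 i v ((gbj_hat Dg f i v).1 hv).2
  have hmap : ∀ χ ∈ chbU D L (Wg p w), ∀ φ ∈ XB D L Dg β (hat Dg f),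
      twc Dg χ φ ∈ XB D L Dg β (hat Dg f) := by
    intro χ hχ φ hφ
    exact xb_twc D L Dg β (hat Dg f) hhat χ hχ.1 hχ.2 φ hφ
  have hPhi : ∀ χ ∈ chbU D L (Wg p w), ∀ q, Phi D L Q Dg β φ₁ f q =
      ∑ φ ∈ hX.toFinset, if Teq D.S0 Q (twc Dg (χ * psi D Dg q) φ) φ₁ then 1 else 0 := by
    intro χ hχ q
    rw [← Finset.card_filter, ← Set.ncard_coe_finset, Phi]
    have himg : {φ ∈ XB D L Dg β (hat Dg f) | Teq D.S0 Q (twc Dg (psi D Dg q) φ) φ₁} =
        twc Dg χ '' ((hX.toFinset.filter fun φ =>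
          Teq D.S0 Q (twc Dg (χ * psi D Dg q) φ) φ₁ : Finset (Gal(Ω/K) →* G)) :
          Set (Gal(Ω/K) →* G)) := by
      ext φ
      constructor
      · rintro ⟨h1, h2⟩
        refine ⟨twc Dg χ⁻¹ φ, ?_, ?_⟩
        · rw [Finset.mem_coe, Finset.mem_filter, Set.Finite.mem_toFinset]
          refine ⟨hmap _ (inv_mem hχ) φ h1, ?_⟩
          rw [← twc_mul]
          have h3 : χ * psi D Dg q * χ⁻¹ = psi D Dg q := by
            rw [mul_comm χ, mul_inv_cancel_right]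
          rw [h3]
          exact h2
        · rw [← twc_mul, mul_inv_cancel, twc_one]
      · rintro ⟨φ', h1, rfl⟩
        rw [Finset.mem_coe, Finset.mem_filter, Set.Finite.mem_toFinset] at h1
        refine ⟨hmap χ hχ φ' h1.1, ?_⟩
        rw [← twc_mul, mul_comm]
        exact h1.2
    rw [himg, Set.ncard_image_of_injective]
    intro φ φ' h
    have h1 := congrArg (twc Dg χ⁻¹) h
    simp only [← twc_mul, inv_mul_cancel, twc_one] at h1
    exact h1
  have hmk : ∀ φ ∈ XB D L Dg β (hat Dg f), ∀ σ,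
      mkW Dg (φ σ) = β σ * vqW Dg (eta D Dg f σ) := by
    intro φ hφ σ
    rw [hφ.2.1 σ, eta_hat]
  have hG : ∀ φ ∈ XB D L Dg β (hat Dg f),
      (∑ χ ∈ hUf.toFinset, ∑ q : Fin N → Fin D.r → ZMod p,
        if Teq D.S0 Q (twc Dg (χ * psi D Dg q) φ) φ₁ then 1 else 0) =
      if Cmp D Q Dg β φ₁ f then g0 D L Q Dg else 0 := by
    intro φ hφ
    by_cases hC : Cmp D Q Dg β φ₁ f
    · rw [if_pos hC, ← gco hp hp2 hζ D L Q Dg hcen φ φ₁ hφ.1 hφ₁ (fun v hv σ hσ => by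
        rw [hmk φ hφ σ]
        exact (hC v hv σ hσ).symm)]
      rw [← Finset.sum_product' hUf.toFinset Finset.univ
        (fun χ q => if Teq D.S0 Q (twc Dg (χ * psi D Dg q) φ) φ₁ then 1 else 0),
        ← Finset.card_filter, ← Set.ncard_coe_finset]
      congr 1
      ext e
      rw [Finset.mem_coe, Finset.mem_filter, Finset.mem_product, hUm]
      simp only [Finset.mem_univ, and_true, Set.mem_setOf_eq]
    · rw [if_neg hC]
      refine Finset.sum_eq_zero fun χ _ => Finset.sum_eq_zero fun q _ => if_neg fun hT => ?_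
      apply hC
      intro v hv σ hσ
      rw [← hT v hv σ hσ, twc_mk, hmk φ hφ σ]
  calc Nat.card (chbU D L (Wg p w)) * ∑ q : Fin N → Fin D.r → ZMod p, Phi D L Q Dg β φ₁ f q =
      ∑ χ ∈ hUf.toFinset, ∑ q : Fin N → Fin D.r → ZMod p, Phi D L Q Dg β φ₁ f q := by
        rw [Finset.sum_const, smul_eq_mul, hUc]
    _ = ∑ χ ∈ hUf.toFinset, ∑ q : Fin N → Fin D.r → ZMod p, ∑ φ ∈ hX.toFinset,
          if Teq D.S0 Q (twc Dg (χ * psi D Dg q) φ) φ₁ then 1 else 0 := by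
        refine Finset.sum_congr rfl fun χ hχ => Finset.sum_congr rfl fun q _ => ?_
        exact hPhi χ ((hUm χ).1 hχ) q
    _ = ∑ χ ∈ hUf.toFinset, ∑ φ ∈ hX.toFinset, ∑ q : Fin N → Fin D.r → ZMod p,
          if Teq D.S0 Q (twc Dg (χ * psi D Dg q) φ) φ₁ then 1 else 0 :=
        Finset.sum_congr rfl fun χ _ => Finset.sum_comm
    _ = ∑ φ ∈ hX.toFinset, ∑ χ ∈ hUf.toFinset, ∑ q : Fin N → Fin D.r → ZMod p,
          if Teq D.S0 Q (twc Dg (χ * psi D Dg q) φ) φ₁ then 1 else 0 := Finset.sum_comm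
    _ = ∑ φ ∈ hX.toFinset, if Cmp D Q Dg β φ₁ f then g0 D L Q Dg else 0 := by
        refine Finset.sum_congr rfl fun φ hφ => ?_
        exact hG φ ((Set.Finite.mem_toFinset hX).1 hφ)
    _ = _ := by
        rw [Finset.sum_const, smul_eq_mul, Set.ncard_eq_toFinset_card _ hX]
        by_cases hC : Cmp D Q Dg β φ₁ f
        · rw [if_pos hC, if_pos hC, mul_comm]
        · rw [if_neg hC, if_neg hC, mul_zero]

end H38.AS
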