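import Pool.Agent.H38.AS.GKu

/-!
# [H38 AS GCO] the number of twists of a given type, 70-110 lines. File Pool/Agent/H38/AS/GCo.lean

`g0 D L Q Dg` = the number of the pairs `(χ, q)`, `χ : Γ → Wg p w` of finite type with `χ (t v) = 1` for `v ∉ S0`, such that `χ * psi q` is trivial on the decomposition groups of the `P v`, `v ∈ S0`. If `φ, φ₁` are of finite type and agree modulo `W` on these decomposition groups then exactly `g0` pairs `(χ, q)` satisfy `Teq S0 Q (twc (χ * psi q) φ) φ₁`.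

Proof. `twc_loc` gives `δ` of finite type with `Teq S0 Q (twc δ φ) φ₁`; `gku` gives `χ', q'` with `Teq S0 Q δ (χ' * psi q')`. `Teq` is an equivalence relation, so by `teq_twc` the condition on `(χ, q)` is `Teq S0 Q (χ * psi q) (χ' * psi q')`. The bijection `(χ, q) ↦ (χ * χ'⁻¹, q - q')` maps these pairs onto the pairs counted by `g0`: by `psi_add` for `(q - q') + q' = q`, on the decomposition groups
`psi q = psi (q - q') * psi q'`, so `χ * psi q = χ' * psi q'` there iff `(χ * χ'⁻¹) * psi (q - q') = 1` there (`Γ →* Wg p w` is a commutative group, everything evaluated at `σ`). Use `Set.ncard_congr` or `Set.ncard_image_of_injective` with the equivalence `Equiv.prodCongr (Equiv.mulRight χ'⁻¹) (Equiv.subRight q')`; `χ * χ'⁻¹` is in `chbU` (a subgroup).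
-/

set_option autoImplicit false

open scoped NumberField
open IsDedekindDomain
open scoped Classical

noncomputable section

namespace H38.AS

open H63.MA H38.BB H38.BG

variable {K : Type} [Field K] [NumberField K] {Ω : Type} [Field Ω] [Algebra K Ω]
  [IsAlgClosure K Ω] {p m u w N : ℕ} {ζ : K} {G : Type} [Group G]

/-- the number of the twists which are trivial at `S0` -/
def g0 (D : RD0 K p ζ) (L : LDs D Ω) (Q : DP K Ω) (Dg : GT p m u w N G) : ℕ :=
  {e : (Gal(Ω/K) →* Wg p w) × (Fin N → Fin D.r → ZMod p) |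
    e.1 ∈ chbU D L (Wg p w) ∧ Teq D.S0 Q (e.1 * psi D Dg e.2) 1}.ncard

theorem gco (hp : p.Prime) (hp2 : MOne p K) (hζ : IsPrimitiveRoot ζ p) (D : RD0 K p ζ)
    (L : LDs D Ω) (Q : DP K Ω) (Dg : GT p m u w N G)
    (hcen : ∀ a : Fin w → ZMod p, a ≠ 0 → ∃ i, Dg.a i = a ∧ Dg.y i = 0)
    (φ φ₁ : Gal(Ω/K) →* G) (hφ : H38.ML.FT φ) (hφ₁ : H38.ML.FT φ₁)
    (h : ∀ v ∈ D.S0, ∀ σ ∈ dec (K := K) (Q.P v), mkW Dg (φ₁ σ) = mkW Dg (φ σ)) :
    {e : (Gal(Ω/K) →* Wg p w) × (Fin N → Fin D.r → ZMod p) |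
      e.1 ∈ chbU D L (Wg p w) ∧
        Teq D.S0 Q (twc Dg (e.1 * psi D Dg e.2) φ) φ₁}.ncard = g0 D L Q Dg := by
  obtain ⟨δ, hδ, hδT⟩ := twc_loc hp hζ D Q Dg φ φ₁ hφ hφ₁ h
  obtain ⟨χ', hχ', ht', q', hq'⟩ := gku hp hp2 hζ D L Q Dg hcen δ hδ
  have hU : χ' ∈ chbU D L (Wg p w) := ⟨hχ', ht'⟩
  have key : ∀ (χ : Gal(Ω/K) →* Wg p w) (q : Fin N → Fin D.r → ZMod p),
      Teq D.S0 Q (twc Dg (χ * psi D Dg q) φ) φ₁ ↔
        Teq D.S0 Q ((χ * χ'⁻¹) * psi D Dg (q - q')) 1 := by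
    intro χ q
    have h1 : Teq D.S0 Q (twc Dg (χ * psi D Dg q) φ) φ₁ ↔
        Teq D.S0 Q (twc Dg (χ * psi D Dg q) φ) (twc Dg δ φ) := by
      constructor
      · intro h1 v hv σ hσ
        rw [h1 v hv σ hσ, hδT v hv σ hσ]
      · intro h1 v hv σ hσ
        rw [h1 v hv σ hσ, hδT v hv σ hσ]
    rw [h1, teq_twc]
    have h2 := psi_add (Ω := Ω) hp hp2 hζ D Q Dg (q - q') q'
    rw [sub_add_cancel] at h2
    refine forall_congr' fun v => forall_congr' fun hv => forall_congr' fun σ =>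
      forall_congr' fun hσ => ?_
    have h3 := h2 v hv σ hσ
    have h4 := hq' v hv σ hσ
    rw [MonoidHom.mul_apply] at h3 h4
    rw [h4, MonoidHom.mul_apply, MonoidHom.mul_apply, MonoidHom.mul_apply, MonoidHom.inv_apply,
      MonoidHom.one_apply, h3, ← mul_assoc, mul_left_inj]
    have h6 : χ σ * (χ' σ)⁻¹ * psi D Dg (q - q') σ = χ σ * psi D Dg (q - q') σ * (χ' σ)⁻¹ := by
      rw [mul_assoc, mul_comm (χ' σ)⁻¹, ← mul_assoc]
    rw [h6, mul_inv_eq_one]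
  obtain ⟨F, hF⟩ : ∃ F : ((Gal(Ω/K) →* Wg p w) × (Fin N → Fin D.r → ZMod p)) ≃
      ((Gal(Ω/K) →* Wg p w) × (Fin N → Fin D.r → ZMod p)),
      F = Equiv.prodCongr (Equiv.mulRight χ'⁻¹) (Equiv.subRight q') := ⟨_, rfl⟩
  have hFa : ∀ e, F e = (e.1 * χ'⁻¹, e.2 - q') := by
    intro e
    rw [hF]
    rfl
  unfold g0
  rw [← Set.ncard_image_of_injective _ F.injective]
  congr 1
  have hmem : ∀ e : (Gal(Ω/K) →* Wg p w) × (Fin N → Fin D.r → ZMod p),
      (e.1 ∈ chbU D L (Wg p w) ∧ Teq D.S0 Q (twc Dg (e.1 * psi D Dg e.2) φ) φ₁) ↔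
      ((F e).1 ∈ chbU D L (Wg p w) ∧ Teq D.S0 Q ((F e).1 * psi D Dg (F e).2) 1) := by
    intro e
    rw [hFa e, key e.1 e.2]
    refine and_congr_left fun _ => ?_
    exact (Subgroup.mul_mem_cancel_right _ (inv_mem hU)).symm
  ext e
  constructor
  · rintro ⟨a, ha, rfl⟩
    exact (hmem a).1 ha
  · intro he
    refine ⟨F.symm e, (hmem _).2 ?_, F.apply_symm_apply e⟩
    rw [F.apply_symm_apply]
    exact he

end H38.AS
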