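import Pool.Agent.H38.BG.LRel
import Pool.Agent.H38.BG.LXi

/-!
# [H38 AS GLC] the local condition for two families, 130-200 lines. File Pool/Agent/H38/AS/GLc.lean

`v ∉ S0` (so `v ∤ p` by `D.above`), `B = B p ζ v` is bilinear (`B_mul_left`, `B_mul_right`, inverses and powers: `B_zpow_left`, symmetric version by `B_symm`) and antisymmetric (`B_symm`).
* `glc_ak`: `B s (akR ε f j) = B s (ε j) + ∑_k ι j k B s (xi f k)` for `Dg.cr`. Proof: both are `B s (ε j) + ∑_i (mv ι (y i) j) ∑_{w ∈ f i} B s (pi w)` (values in `ZMod p`, `((x i j).val : ZMod p) = x i j`; compare `lxi_fam`, `xi_ll` in `H38/BG/LXi.lean`).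
* `glc_q`: let `ε j` be of order `0` at `v`, `Ok D f` and `bl β (LL v (akR ε f)) (y i) = 0` if `v ∈ f i`. Then for every `c`: `- ∑_{j,k} β c j k B (xi f k) (ε j) + ∑_{k,k'} n c k k' B (xi f k) (xi f k') = 0`. Proof (as in `lrel`, `LRel.lean`, the case `v ∉ S0`): `B (x) (ε j) = - ord v x * LL v (ε j)` (`B_symm`, `B_unit`), `B x x' = LL x * ord x' - ord x * LL x'` (`b_eq`, `D.pi_self`),
  with `o k = ord v (xi f k)`, `Λ k = LL v (xi f k)`: the sum is `bl β (LL ε) o c + (bl n Λ o - bl n o Λ) c = bl β (LL ε + mv ι Λ) o c` (`gt_com`, `lrel_add_left`) `= bl β (LL v (akR ε f)) o c` (`xi_ll`), and `o = y i` if `v ∈ f i` (`xi_ord_mem`; `0` by hypothesis), `o = 0` if `v` is in no `f i` (`xi_ord_not`).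
* `glc`: for two such families `f, f₀` and `s k = xi f k * (xi f₀ k)⁻¹`: `- ∑_{j,k} β c j k B (s k) (akR ε f₀ j) + ∑_{k,k'} n c k k' B (s k) (s k') = 0`.
  Proof. Write `x k = xi f k`, `x0 k = xi f₀ k` and `Q(x) = - ∑ β c j k B (x k) (ε j) + ∑ n c k k' B (x k) (x k')`. Claim: the sum is `Q(x) - Q(x0)`, so `0` by `glc_q`. By `glc_ak` it is
  `- ∑_{j,k} β c j k (B (x k) (ε j) - B (x0 k) (ε j)) - ∑_{j,k,l} β c j k ι j l (B (x k) (x0 l) - B (x0 k) (x0 l)) + ∑_{k,k'} n c k k' (B (x k) (x k') - B (x k) (x0 k') - B (x0 k) (x k') + B (x0 k) (x0 k'))`.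
  Use `B (x0 k) (x k') = - B (x k') (x0 k)` and (from `gt_com` for unit vectors, or in the form of bilinear identities) `n c k l - n c l k = ∑_j β c j l ι j k`. The coefficient of `B (x k) (x0 l)` is `- ∑_j β c j k ι j l - n c k l + n c l k = - (n c l k - n c k l) - n c k l + n c l k = 0`. The terms with `B (x0 k) (x0 l)`: coefficient `∑_j β c j k ι j l + n c k l = n c l k`, and
  `∑_{k,l} n c l k B (x0 k) (x0 l) = - ∑_{k,l} n c l k B (x0 l) (x0 k) = - ∑_{k,l} n c k l B (x0 k) (x0 l)`, as in `- Q(x0)`.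
-/

set_option autoImplicit false

open scoped NumberField
open IsDedekindDomain

noncomputable section

namespace H38.AS

open H63.MA H38.BB H38.BG

variable {K : Type} [Field K] [NumberField K] {p m u w N : ℕ} {ζ : K}
  {G : Type} [Group G]

private theorem glc_pow (hp : p.Prime) (hζ : IsPrimitiveRoot ζ p) {v : Pl K} (hv : ¬ Above p v)
    (s x : Kˣ) (n : ℕ) : B p ζ v s (x ^ n) = n * B p ζ v s x := by
  rw [B_symm hp hζ hv, ← zpow_natCast, B_zpow_left hp hζ hv, B_symm hp hζ hv x s,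
    Int.cast_natCast]
  ring

private theorem glc_prod (hp : p.Prime) (hζ : IsPrimitiveRoot ζ p) {v : Pl K}
    (hv : ¬ Above p v) (s : Kˣ) {J : Type} (t : Finset J) (g : J → Kˣ) :
    B p ζ v s (∏ i ∈ t, g i) = ∑ i ∈ t, B p ζ v s (g i) := by
  classical
  induction t using Finset.induction_on with
  | empty => rw [Finset.prod_empty, Finset.sum_empty, B_one_right hp hζ hv]
  | insert a t ha ih =>
    rw [Finset.prod_insert ha, Finset.sum_insert ha, B_mul_right hp hζ hv, ih]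

private theorem glc_fam (hp : p.Prime) (hζ : IsPrimitiveRoot ζ p) (D : RD0 K p ζ)
    {v : Pl K} (hv : ¬ Above p v) (s : Kˣ) (z : Fin N → ZMod p) (f : Fin N → Finset (Pl K)) :
    B p ζ v s (∏ i, ∏ w ∈ f i, D.pi w ^ (z i).val) =
      ∑ i, z i * ∑ w ∈ f i, B p ζ v s (D.pi w) := by
  have : NeZero p := ⟨hp.ne_zero⟩
  rw [glc_prod hp hζ hv]
  refine Finset.sum_congr rfl fun i _ => ?_
  rw [glc_prod hp hζ hv, Finset.mul_sum]
  refine Finset.sum_congr rfl fun w _ => ?_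
  rw [glc_pow hp hζ hv, ZMod.natCast_zmod_val]

theorem glc_ak (hp : p.Prime) (hζ : IsPrimitiveRoot ζ p) (D : RD0 K p ζ) (Dg : GT p m u w N G)
    (ε : Fin m → Kˣ) (f : Fin N → Finset (Pl K)) (v : Pl K) (hv : v ∉ D.S0) (s : Kˣ)
    (j : Fin m) :
    B p ζ v s (akR D Dg.cr ε f j) =
      B p ζ v s (ε j) + ∑ k, Dg.ι j k * B p ζ v s (xi D Dg.y f k) := by
  have hva : ¬ Above p v := fun h => hv (D.above v h)
  have h1 : B p ζ v s (akR D Dg.cr ε f j) =
      B p ζ v s (ε j) + ∑ i, mv Dg.ι (Dg.y i) j * ∑ w ∈ f i, B p ζ v s (D.pi w) := by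
    unfold akR
    rw [B_mul_right hp hζ hva, glc_fam hp hζ D hva s (fun i => Dg.cr.x i j) f]
    rfl
  have h2 : ∀ k, B p ζ v s (xi D Dg.y f k) =
      ∑ i, Dg.y i k * ∑ w ∈ f i, B p ζ v s (D.pi w) := fun k =>
    glc_fam hp hζ D hva s (fun i => Dg.y i k) f
  rw [h1]
  congr 1
  have h3 : ∀ i, mv Dg.ι (Dg.y i) j * ∑ w ∈ f i, B p ζ v s (D.pi w) =
      ∑ k, Dg.ι j k * Dg.y i k * ∑ w ∈ f i, B p ζ v s (D.pi w) := fun i =>
    Finset.sum_mul _ _ _
  have h4 : ∀ k, Dg.ι j k * B p ζ v s (xi D Dg.y f k) =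
      ∑ i, Dg.ι j k * Dg.y i k * ∑ w ∈ f i, B p ζ v s (D.pi w) := by
    intro k
    rw [h2, Finset.mul_sum]
    refine Finset.sum_congr rfl fun i _ => ?_
    rw [mul_assoc]
  rw [Finset.sum_congr rfl fun i _ => h3 i, Finset.sum_congr rfl fun k _ => h4 k,
    Finset.sum_comm]

theorem glc_q (hp : p.Prime) (hζ : IsPrimitiveRoot ζ p) (D : RD0 K p ζ) (Dg : GT p m u w N G)
    (ε : Fin m → Kˣ) (f : Fin N → Finset (Pl K)) (hdj : Dj f) (hS : ∀ i, ∀ v ∈ f i, v ∉ D.S0)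
    (v : Pl K) (hv : v ∉ D.S0) (hε : ∀ j, ord v (ε j) = 0)
    (hw : ∀ i, v ∈ f i → bl Dg.β (fun j => D.LL v (akR D Dg.cr ε f j)) (Dg.y i) = 0)
    (c : Fin w) :
    -(∑ j, ∑ k, Dg.β c j k * B p ζ v (xi D Dg.y f k) (ε j)) +
      ∑ k, ∑ k', Dg.n c k k' * B p ζ v (xi D Dg.y f k) (xi D Dg.y f k') = 0 := by
  have hva : ¬ Above p v := fun h => hv (D.above v h)
  have hL : ∀ j, D.LL v (ε j) = lg p ζ v (ε j) := by
    intro j
    unfold RD0.LL
    rw [hε j, neg_zero, zpow_zero, mul_one]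
  have hB1 : ∀ k j, B p ζ v (xi D Dg.y f k) (ε j) =
      -((ord v (xi D Dg.y f k) : ZMod p) * D.LL v (ε j)) := by
    intro k j
    rw [B_symm hp hζ hva, B_unit hp hζ hva (hε j), hL j]
  have hB2 : ∀ k k', B p ζ v (xi D Dg.y f k) (xi D Dg.y f k') =
      D.LL v (xi D Dg.y f k) * (ord v (xi D Dg.y f k') : ZMod p) -
        (ord v (xi D Dg.y f k) : ZMod p) * D.LL v (xi D Dg.y f k') := by
    intro k k'
    rw [b_eq hp hζ hva (D.pi_self v hv)]
    rfl
  have e1 : -(∑ j, ∑ k, Dg.β c j k * B p ζ v (xi D Dg.y f k) (ε j)) =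
      bl Dg.β (fun j => D.LL v (ε j)) (fun k => (ord v (xi D Dg.y f k) : ZMod p)) c := by
    unfold bl
    rw [← Finset.sum_neg_distrib]
    refine Finset.sum_congr rfl fun j _ => ?_
    rw [← Finset.sum_neg_distrib]
    refine Finset.sum_congr rfl fun k _ => ?_
    rw [hB1]
    ring
  have e2 : ∑ k, ∑ k', Dg.n c k k' * B p ζ v (xi D Dg.y f k) (xi D Dg.y f k') =
      bl Dg.n (fun k => D.LL v (xi D Dg.y f k))
        (fun k => (ord v (xi D Dg.y f k) : ZMod p)) c -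
      bl Dg.n (fun k => (ord v (xi D Dg.y f k) : ZMod p))
        (fun k => D.LL v (xi D Dg.y f k)) c := by
    unfold bl
    rw [← Finset.sum_sub_distrib]
    refine Finset.sum_congr rfl fun k _ => ?_
    rw [← Finset.sum_sub_distrib]
    refine Finset.sum_congr rfl fun k' _ => ?_
    rw [hB2]
    ring
  rw [e1, e2]
  have h8 := congrFun (gt_com Dg (fun k => D.LL v (xi D Dg.y f k))
    (fun k => (ord v (xi D Dg.y f k) : ZMod p))) c
  rw [Pi.sub_apply] at h8
  rw [h8]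
  have h10 := congrFun (lrel_add_left Dg.β (fun j => D.LL v (ε j))
    (mv Dg.ι (fun k => D.LL v (xi D Dg.y f k)))
    (fun k => (ord v (xi D Dg.y f k) : ZMod p))) c
  rw [Pi.add_apply] at h10
  rw [← h10]
  have h3 : (fun j => D.LL v (ε j)) + mv Dg.ι (fun k => D.LL v (xi D Dg.y f k)) =
      fun j => D.LL v (akR D Dg.cr ε f j) := by
    funext j
    exact xi_ll hp hζ D Dg.y Dg.ι Dg.cr (fun i => rfl) ε f hS hv j
  rw [h3]
  by_cases hf : ∃ i, v ∈ f i
  · obtain ⟨i, hi⟩ := hf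
    have h4 : (fun k => ((ord v (xi D Dg.y f k) : ℤ) : ZMod p)) = Dg.y i :=
      funext fun k => xi_ord_mem hp D Dg.y f hdj hS k hi
    rw [h4, hw i hi]
    rfl
  · have hf' : ∀ i, v ∉ f i := fun i hi => hf ⟨i, hi⟩
    unfold bl
    refine Finset.sum_eq_zero fun j _ => Finset.sum_eq_zero fun k _ => ?_
    beta_reduce
    rw [xi_ord_not D Dg.y f hS k hv hf', Int.cast_zero, mul_zero]

private theorem glc_alg (β : Fin m → Fin u → ZMod p) (n : Fin u → Fin u → ZMod p)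
    (ι : Fin m → Fin u → ZMod p) (E E0 : Fin u → Fin m → ZMod p)
    (P R R' Q : Fin u → Fin u → ZMod p)
    (hG : ∀ k l, ∑ j, β j k * ι j l = n l k - n k l) (hQ : ∀ k l, Q k l = -Q l k)
    (hR : ∀ k l, R' k l = -R l k)
    (h1 : -(∑ j, ∑ k, β j k * E k j) + ∑ k, ∑ l, n k l * P k l = 0)
    (h0 : -(∑ j, ∑ k, β j k * E0 k j) + ∑ k, ∑ l, n k l * Q k l = 0) :
    -(∑ j, ∑ k, β j k * (E k j - E0 k j + ∑ l, ι j l * (R k l - Q k l))) +
      ∑ k, ∑ l, n k l * (P k l - R k l - R' k l + Q k l) = 0 := by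
  have e1 : ∑ j, ∑ k, β j k * (E k j - E0 k j + ∑ l, ι j l * (R k l - Q k l)) =
      ∑ j, ∑ k, β j k * E k j - ∑ j, ∑ k, β j k * E0 k j +
        ∑ k, ∑ l, (n l k - n k l) * (R k l - Q k l) := by
    have e2 : ∑ k, ∑ l, (n l k - n k l) * (R k l - Q k l) =
        ∑ j, ∑ k, β j k * ∑ l, ι j l * (R k l - Q k l) := by
      rw [Finset.sum_comm]
      conv_rhs => rw [Finset.sum_comm]
      rw [Finset.sum_comm]
      refine Finset.sum_congr rfl fun k _ => ?_
      simp only [← hG, Finset.sum_mul, Finset.mul_sum]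
      rw [Finset.sum_comm]
      refine Finset.sum_congr rfl fun j _ => Finset.sum_congr rfl fun l _ => ?_
      ring
    rw [e2, ← Finset.sum_sub_distrib, ← Finset.sum_add_distrib]
    refine Finset.sum_congr rfl fun j _ => ?_
    rw [← Finset.sum_sub_distrib, ← Finset.sum_add_distrib]
    refine Finset.sum_congr rfl fun k _ => ?_
    ring
  have e3 : ∑ k, ∑ l, (n l k - n k l) * (R k l - Q k l) =
      ∑ k, ∑ l, n k l * R l k - ∑ k, ∑ l, n k l * Q l k - ∑ k, ∑ l, n k l * R k l +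
        ∑ k, ∑ l, n k l * Q k l := by
    have f1 : ∑ k, ∑ l, n k l * R l k = ∑ k, ∑ l, n l k * R k l := Finset.sum_comm
    have f2 : ∑ k, ∑ l, n k l * Q l k = ∑ k, ∑ l, n l k * Q k l := Finset.sum_comm
    rw [f1, f2, ← Finset.sum_sub_distrib, ← Finset.sum_sub_distrib, ← Finset.sum_add_distrib]
    refine Finset.sum_congr rfl fun k _ => ?_
    rw [← Finset.sum_sub_distrib, ← Finset.sum_sub_distrib, ← Finset.sum_add_distrib]
    refine Finset.sum_congr rfl fun l _ => ?_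
    ring
  have e4 : ∑ k, ∑ l, n k l * Q l k = -∑ k, ∑ l, n k l * Q k l := by
    rw [← Finset.sum_neg_distrib]
    refine Finset.sum_congr rfl fun k _ => ?_
    rw [← Finset.sum_neg_distrib]
    refine Finset.sum_congr rfl fun l _ => ?_
    rw [hQ k l]
    ring
  have e5 : ∑ k, ∑ l, n k l * (P k l - R k l - R' k l + Q k l) =
      ∑ k, ∑ l, n k l * P k l - ∑ k, ∑ l, n k l * R k l + ∑ k, ∑ l, n k l * R l k +
        ∑ k, ∑ l, n k l * Q k l := by
    rw [← Finset.sum_sub_distrib, ← Finset.sum_add_distrib, ← Finset.sum_add_distrib]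
    refine Finset.sum_congr rfl fun k _ => ?_
    rw [← Finset.sum_sub_distrib, ← Finset.sum_add_distrib, ← Finset.sum_add_distrib]
    refine Finset.sum_congr rfl fun l _ => ?_
    rw [hR k l]
    ring
  rw [e1, e3, e4, e5]
  linear_combination h1 - h0

theorem glc (hp : p.Prime) (hζ : IsPrimitiveRoot ζ p) (D : RD0 K p ζ) (Dg : GT p m u w N G)
    (ε : Fin m → Kˣ) (f f₀ : Fin N → Finset (Pl K)) (hdj : Dj f) (hdj₀ : Dj f₀)
    (hS : ∀ i, ∀ v ∈ f i, v ∉ D.S0) (hS₀ : ∀ i, ∀ v ∈ f₀ i, v ∉ D.S0)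
    (v : Pl K) (hv : v ∉ D.S0) (hε : ∀ j, ord v (ε j) = 0)
    (hw : ∀ i, v ∈ f i → bl Dg.β (fun j => D.LL v (akR D Dg.cr ε f j)) (Dg.y i) = 0)
    (hw₀ : ∀ i, v ∈ f₀ i → bl Dg.β (fun j => D.LL v (akR D Dg.cr ε f₀ j)) (Dg.y i) = 0)
    (c : Fin w) :
    -(∑ j, ∑ k, Dg.β c j k * B p ζ v (xi D Dg.y f k * (xi D Dg.y f₀ k)⁻¹)
        (akR D Dg.cr ε f₀ j)) +
      ∑ k, ∑ k', Dg.n c k k' * B p ζ v (xi D Dg.y f k * (xi D Dg.y f₀ k)⁻¹)
        (xi D Dg.y f k' * (xi D Dg.y f₀ k')⁻¹) = 0 := by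
  have hva : ¬ Above p v := fun h => hv (D.above v h)
  have hG : ∀ k l, ∑ j, Dg.β c j k * Dg.ι j l = Dg.n c l k - Dg.n c k l := by
    intro k l
    have h1 := congrFun (gt_com Dg (Pi.single l 1) (Pi.single k 1)) c
    rw [Pi.sub_apply] at h1
    have h2 : ∀ k l, bl Dg.n (Pi.single l 1) (Pi.single k 1) c = Dg.n c l k := by
      intro k l
      unfold bl
      rw [Finset.sum_eq_single l]
      · rw [Finset.sum_eq_single k]
        · rw [Pi.single_eq_same, Pi.single_eq_same, mul_one, mul_one]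
        · intro k' _ hk'
          rw [Pi.single_eq_of_ne hk', mul_zero]
        · intro h
          exact absurd (Finset.mem_univ _) h
      · intro l' _ hl'
        refine Finset.sum_eq_zero fun k' _ => ?_
        rw [Pi.single_eq_of_ne hl', mul_zero, zero_mul]
      · intro h
        exact absurd (Finset.mem_univ _) h
    rw [h2, h2] at h1
    rw [h1]
    unfold bl
    refine Finset.sum_congr rfl fun j _ => ?_
    rw [Finset.sum_eq_single k]
    · rw [Pi.single_eq_same, mul_one]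
      congr 1
      unfold mv
      rw [Finset.sum_eq_single l]
      · rw [Pi.single_eq_same, mul_one]
      · intro l' _ hl'
        rw [Pi.single_eq_of_ne hl', mul_zero]
      · intro h
        exact absurd (Finset.mem_univ _) h
    · intro k' _ hk'
      rw [Pi.single_eq_of_ne hk', mul_zero]
    · intro h
      exact absurd (Finset.mem_univ _) h
  have key := glc_alg (Dg.β c) (Dg.n c) Dg.ι
    (fun k j => B p ζ v (xi D Dg.y f k) (ε j)) (fun k j => B p ζ v (xi D Dg.y f₀ k) (ε j))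
    (fun k l => B p ζ v (xi D Dg.y f k) (xi D Dg.y f l))
    (fun k l => B p ζ v (xi D Dg.y f k) (xi D Dg.y f₀ l))
    (fun k l => B p ζ v (xi D Dg.y f₀ k) (xi D Dg.y f l))
    (fun k l => B p ζ v (xi D Dg.y f₀ k) (xi D Dg.y f₀ l)) hG
    (fun k l => B_symm hp hζ hva _ _) (fun k l => B_symm hp hζ hva _ _)
    (glc_q hp hζ D Dg ε f hdj hS v hv hε hw c) (glc_q hp hζ D Dg ε f₀ hdj₀ hS₀ v hv hε hw₀ c)
  have hs : ∀ (k : Fin u) (x : Kˣ), B p ζ v (xi D Dg.y f k * (xi D Dg.y f₀ k)⁻¹) x =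
      B p ζ v (xi D Dg.y f k) x - B p ζ v (xi D Dg.y f₀ k) x := by
    intro k x
    rw [B_mul_left hp hζ hva, B_inv_left hp hζ hva, sub_eq_add_neg]
  have hs' : ∀ (x : Kˣ) (k : Fin u), B p ζ v x (xi D Dg.y f k * (xi D Dg.y f₀ k)⁻¹) =
      B p ζ v x (xi D Dg.y f k) - B p ζ v x (xi D Dg.y f₀ k) := by
    intro x k
    rw [B_mul_right hp hζ hva, B_inv_right hp hζ hva, sub_eq_add_neg]
  rw [← key]
  congr 1
  · congr 1
    refine Finset.sum_congr rfl fun j _ => Finset.sum_congr rfl fun k _ => ?_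
    rw [glc_ak hp hζ D Dg ε f₀ v hv]
    simp only [hs]
  · refine Finset.sum_congr rfl fun k _ => Finset.sum_congr rfl fun k' _ => ?_
    rw [hs', hs, hs]
    ring

end H38.AS
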