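import Pool.Agent.H38.AS.GIn
import Pool.Agent.H38.AS.GEp
import Pool.Agent.H38.BG.TFrob

/-!
# [H38 AS GWT] the weight of a family with a homomorphism, 60-100 lines (as in ukum, H63/BU/UKum). File Pool/Agent/H38/AS/GWt.lean

`gwt`: let `IsB β`, `EpB ε β`, `Ok D f`, `XB β f` nonempty. Then `Dg.β (LL v (akR ε f), y i) = 0` for `v ∈ f i`, and `wtR Dg.cr f (LL v (akR ε f)) = ∏_i #(class_i)^{#(f i)}`.

Proof. Let `φ ∈ XB β f`, `v ∈ f i`. `gin` gives `φ τ ^ p = 1` for `τ ∈ inr L v`; `tfrob_z` (`H38/BG/TFrob.lean`) with `a j = akR ε f j` gives `F` with `φ F` commuting with `φ (t v)` and `kk (a j) F = LL v (a j)`. `φ (t v) = e b (y i)` for some `b` (`gt_conj`), `Dg.conj` for `φ F`: `bl β (toAdd (π (φ F))) (y i) = 0` (`Dg.inj`), and `toAdd (π (φ F)) j = kk (a j) F` (`gep_pi`).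
So by `Dg.ann` all conditions `dt θ (LL v (a j))_j = 0`, `θ ∈ Θ i`, hold, every factor of `wtR` (`if_pos`) is `#(Θ i) = #class_i` (`Dg.card`; `Dg.cr.Θ = Dg.Θ` by `rfl`).
* `gwt_iff`: conversely, if `wtR ≠ 0` then `bl Dg.β (LL v (akR ε f j))_j (y i) = 0` for `v ∈ f i` (every factor is nonzero: `Finset.prod_ne_zero_iff`, `Dg.ann`), and `wtR = ∏_i #(class_i)^{#(f i)}`.
-/

set_option autoImplicit false

open scoped NumberField
open IsDedekindDomain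
open scoped Classical

noncomputable section

namespace H38.AS

open H63.MA H38.BB H38.BG

variable {K : Type} [Field K] [NumberField K] {Ω : Type} [Field Ω] [Algebra K Ω]
  [IsAlgClosure K Ω] {p m u w N : ℕ} {ζ : K} {G : Type} [Group G]

private theorem gwt_w (D : RD0 K p ζ) (Dg : GT p m u w N G) (ε : Fin m → Kˣ)
    (f : Fin N → Finset (Pl K))
    (h : ∀ i, ∀ v ∈ f i, bl Dg.β (fun j => D.LL v (akR D Dg.cr ε f j)) (Dg.y i) = 0) :
    wtR Dg.cr f (fun v k => D.LL v (akR D Dg.cr ε f k)) =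
      ∏ i, (Nat.card {h : G // IsConj h (Dg.g i)} : ℝ) ^ (f i).card := by
  unfold wtR
  refine Finset.prod_congr rfl fun i _ => ?_
  rw [← Finset.prod_const]
  refine Finset.prod_congr rfl fun v hv => ?_
  rw [if_pos]
  · exact congrArg (Nat.cast) (Dg.card i)
  · exact (Dg.ann i _).2 (h i v hv)

theorem gwt [Finite G] (hp : p.Prime) (hζ : IsPrimitiveRoot ζ p) (D : RD0 K p ζ) (L : LDs D Ω)
    (Dg : GT p m u w N G) (β : Gal(Ω/K) →* G ⧸ WS Dg) (hβ : IsB D L Dg β)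
    (ε : Fin m → Kˣ) (hε : EpB D Dg ε β) (f : Fin N → Finset (Pl K)) (hf : Ok D f)
    (hne : (XB D L Dg β f).Nonempty) :
    (∀ i, ∀ v ∈ f i, bl Dg.β (fun j => D.LL v (akR D Dg.cr ε f j)) (Dg.y i) = 0) ∧
      wtR Dg.cr f (fun v k => D.LL v (akR D Dg.cr ε f k)) =
        ∏ i, (Nat.card {h : G // IsConj h (Dg.g i)} : ℝ) ^ (f i).card := by
  have hbl : ∀ i, ∀ v ∈ f i,
      bl Dg.β (fun j => D.LL v (akR D Dg.cr ε f j)) (Dg.y i) = 0 := by
    obtain ⟨φ, hφ⟩ := hne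
    intro i v hv
    have hvS := hf.2 i v hv
    have he : ∀ τ ∈ inr L v, φ τ ^ p = 1 := fun τ hτ =>
      (gin hp hζ D L Dg β hβ f hf φ hφ v hvS τ hτ).1
    have hconj := hφ.2.2.1 i v hv
    obtain ⟨F, hFt, hFk⟩ := tfrob_z hp hζ L φ hφ.1 v hvS he (akR D Dg.cr ε f)
    obtain ⟨c, hc⟩ := isConj_iff.1 hconj
    have h1 : (c * φ F * c⁻¹) * Dg.g i * (c * φ F * c⁻¹)⁻¹ = Dg.g i := by
      rw [mul_inv_eq_iff_eq_mul, ← hc]
      calc c * φ F * c⁻¹ * (c * φ (L.t v) * c⁻¹) = c * (φ F * φ (L.t v)) * c⁻¹ := by group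
        _ = c * (φ (L.t v) * φ F) * c⁻¹ := by rw [hFt]
        _ = c * φ (L.t v) * c⁻¹ * (c * φ F * c⁻¹) := by group
    have h2 := Dg.conj (c * φ F * c⁻¹) (Dg.a i) (Dg.y i)
    have h3 : Dg.π (c * φ F * c⁻¹) = Dg.π (φ F) := by
      rw [map_mul, map_mul, map_inv, mul_comm (Dg.π c), mul_inv_cancel_right]
    have h4 : Dg.e (Dg.a i + bl Dg.β (Multiplicative.toAdd (Dg.π (φ F))) (Dg.y i)) (Dg.y i) =
        Dg.e (Dg.a i) (Dg.y i) := by
      rw [← h3, ← h2]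
      exact h1
    have h5 : bl Dg.β (Multiplicative.toAdd (Dg.π (φ F))) (Dg.y i) = 0 := by
      have h6 := (Dg.inj _ _ _ _ h4).1
      exact add_eq_left.1 h6
    have h8 : (fun k => D.LL v (akR D Dg.cr ε f k)) = Multiplicative.toAdd (Dg.π (φ F)) := by
      funext k
      rw [← hFk k, gep_pi hp hζ D L Dg β ε hε f φ hφ F k]
    rw [h8]
    exact h5
  exact ⟨hbl, gwt_w D Dg ε f hbl⟩

theorem gwt_iff (D : RD0 K p ζ) (Dg : GT p m u w N G) (ε : Fin m → Kˣ)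
    (f : Fin N → Finset (Pl K))
    (hw : wtR Dg.cr f (fun v k => D.LL v (akR D Dg.cr ε f k)) ≠ 0) :
    (∀ i, ∀ v ∈ f i, bl Dg.β (fun j => D.LL v (akR D Dg.cr ε f j)) (Dg.y i) = 0) ∧
      wtR Dg.cr f (fun v k => D.LL v (akR D Dg.cr ε f k)) =
        ∏ i, (Nat.card {h : G // IsConj h (Dg.g i)} : ℝ) ^ (f i).card := by
  have hbl : ∀ i, ∀ v ∈ f i,
      bl Dg.β (fun j => D.LL v (akR D Dg.cr ε f j)) (Dg.y i) = 0 := by
    intro i v hv
    unfold wtR at hw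
    have h1 := Finset.prod_ne_zero_iff.1 hw i (Finset.mem_univ i)
    have h2 := Finset.prod_ne_zero_iff.1 h1 v hv
    have h3 : ∀ θ ∈ Dg.cr.Θ i, dt θ (fun k => D.LL v (akR D Dg.cr ε f k)) = 0 := by
      by_contra h
      exact h2 (if_neg h)
    exact (Dg.ann i _).1 h3
  exact ⟨hbl, gwt_w D Dg ε f hbl⟩

end H38.AS
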