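import Pool.Agent.H38.AS.GLr
import Pool.Agent.H38.AS.GLc
import Pool.Agent.H38.AS.GTp
import Pool.Agent.H38.AS.GWt
import Pool.Agent.H38.AS.GTw

/-!
# [H38 AS GLI] lifting, 90-140 lines. File Pool/Agent/H38/AS/GLi.lean

`gli`: let `IsB β`, `EpB ε β`, `Ok D f`, `Ok D f₀`, `qf (f i) = qf (f₀ i)` for all `i`, `XB β f₀` nonempty and `wtR (f) ≠ 0`. Then `XB β f` is nonempty.

Proof. Let `φ₂ ∈ XB β f₀`. `glr` for `φ₂`, `b j = akR ε f₀ j` (`gep_pi`), `ξ k = xi f k * (xi f₀ k)⁻¹` (`gtp_ps`); its local condition is `glc` (the weight conditions are `gwt` for `f₀` and `gwt_iff` for `f`; `ord v (ε j) = 0` for `v ∉ S0` because `ε j` is an `S0`-unit). This gives `φ σ = e (l σ) (kk (ξ k) σ)_k * φ₂ σ` of finite type.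
`mkW (φ σ) = vqW (kk ξ σ) * β σ * vqW (eta f₀ σ) = β σ * vqW (eta f σ)` (`mkW_e`, `vqW_cen`, `vqW_add`; `kk (ξ k) σ = eta f σ k - eta f₀ σ k`). For `v ∉ S0`: `β (t v) = 1` and `eta f (t v) = y i` if `v ∈ f i`, `= 0` otherwise (`eta_t`), so `φ (t v) = e (c v) (y i)` resp. `e (c v) 0` (`mkW_eq`). Let `s v = a i - c v` for `v ∈ f i` (`Dj f`), `s v = - c v` for the other `v ∉ S0`, `0` for `v ∈ S0`;
`s v ≠ 0` only for finitely many `v` (for `v ∉ ⋃ f i`, `s v ≠ 0` implies `φ (t v) ≠ 1`: `ram_finite`). `ltw` (`H38/BG/LTw.lean`) gives `φ' σ = e (l' σ) 0 * φ σ` of finite type with `l' (t v) = s v`, so `φ' (t v) = e (a i) (y i) = g i` for `v ∈ f i` and `φ' (t v) = e 0 0 = 1` for the other `v ∉ S0` (`gt_mul0`, `gt_e0`), and `mkW (φ' σ) = mkW (φ σ)`. So `φ' ∈ XB β f`.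
-/

set_option autoImplicit false

open scoped NumberField
open IsDedekindDomain
open scoped Classical

noncomputable section

namespace H38.AS

open H63.MA H38.BB H38.BG

variable {K : Type} [Field K] [NumberField K] {Ω : Type} [Field Ω] [Algebra K Ω]
  [IsAlgClosure K Ω] {p m u w N : ℕ} {ζ : K} {G : Type} [Group G]

private theorem gli_t {D : RD0 K p ζ} (L : LDs D Ω) {v : Pl K} (hv : v ∉ D.S0) :
    L.t v ∈ inr L v := by
  unfold inr
  rw [dif_pos hv, gtw_t L v hv]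
  exact (L.ld v hv).ht

theorem gli [Finite G] (hp : p.Prime) (hp2 : MOne p K) (hζ : IsPrimitiveRoot ζ p)
    (D : RD0 K p ζ) (L : LDs D Ω) (Dg : GT p m u w N G) (β : Gal(Ω/K) →* G ⧸ WS Dg)
    (hβ : IsB D L Dg β) (ε : Fin m → Kˣ) (hε : EpB D Dg ε β)
    (f f₀ : Fin N → Finset (Pl K)) (hf : Ok D f) (hf₀ : Ok D f₀)
    (hq : ∀ i, qf D (f i) = qf D (f₀ i)) (hne : (XB D L Dg β f₀).Nonempty)
    (hw : wtR Dg.cr f (fun v k => D.LL v (akR D Dg.cr ε f k)) ≠ 0) :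
    (XB D L Dg β f).Nonempty := by
  obtain ⟨φ₂, hφ₂⟩ := hne
  have hS : ∀ i, ∀ v ∈ f i, v ∉ D.S0 := fun i v hv h => hf.2 i v hv h
  have hS₀ : ∀ i, ∀ v ∈ f₀ i, v ∉ D.S0 := fun i v hv h => hf₀.2 i v hv h
  obtain ⟨φ, l, hft, hφ⟩ := glr (N := N) hp hp2 hζ D Dg φ₂ hφ₂.1 (akR D Dg.cr ε f₀)
    (fun σ j => gep_pi hp hζ D L Dg β ε hε f₀ φ₂ hφ₂ σ j)
    (fun k => xi D Dg.y f k * (xi D Dg.y f₀ k)⁻¹)
    (fun k => gtp_ps hp hp2 hζ D Dg.y f f₀ hS hS₀ hq k)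
    (fun v hv c => glc hp hζ D Dg ε f f₀ hf.1 hf₀.1 hS hS₀ v hv (fun j => hε.1 j v hv)
      (fun i hi => (gwt_iff D Dg ε f hw).1 i v hi)
      (fun i hi => (gwt hp hζ D L Dg β hβ ε hε f₀ hf₀ ⟨φ₂, hφ₂⟩).1 i v hi) c)
  -- the class modulo `W`
  have hmk : ∀ σ, mkW Dg (φ σ) = β σ * vqW Dg (eta D Dg f σ) := by
    intro σ
    rw [hφ σ, map_mul, mkW_e, hφ₂.2.1 σ, ← mul_assoc, vqW_cen Dg _ (β σ), mul_assoc, ← vqW_add]
    congr 2
    funext k
    rw [Pi.add_apply]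
    unfold eta
    rw [← kk_mul_arg hp hζ, inv_mul_cancel_right]
  have htv : ∀ v, v ∉ D.S0 → mkW Dg (φ (L.t v)) = vqW Dg (eta D Dg f (L.t v)) := by
    intro v hv
    rw [hmk, hβ.2 v hv (L.t v) (gli_t L hv), one_mul]
  have hc : ∀ v, ∃ c : Fin w → ZMod p, v ∉ D.S0 →
      φ (L.t v) = Dg.e c (eta D Dg f (L.t v)) := by
    intro v
    by_cases hv : v ∈ D.S0
    · exact ⟨0, fun h => absurd hv h⟩
    · obtain ⟨c, hc⟩ := (mkW_eq Dg _ _).1 (htv v hv)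
      exact ⟨c, fun _ => by rw [hc, gt_mul0, add_zero]⟩
  choose c hc using hc
  -- the correction
  set s : Pl K → Fin w → ZMod p := fun v =>
    if v ∈ D.S0 then 0 else if h : ∃ i, v ∈ f i then Dg.a h.choose - c v else - c v with hs
  have hs1 : ∀ i, ∀ v ∈ f i, s v = Dg.a i - c v := by
    intro i v hv
    have h : ∃ i, v ∈ f i := ⟨i, hv⟩
    have hi : h.choose = i := by
      by_contra hne
      exact Finset.disjoint_left.1 (hf.1 _ _ hne) h.choose_spec hv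
    rw [hs]
    beta_reduce
    rw [if_neg (hS i v hv), dif_pos h, hi]
  have hs2 : ∀ v, v ∉ D.S0 → (∀ i, v ∉ f i) → s v = - c v := by
    intro v hv h
    rw [hs]
    beta_reduce
    rw [if_neg hv, dif_neg (fun ⟨i, hi⟩ => h i hi)]
  have hfin : {v | s v ≠ 0}.Finite := by
    refine (((Finset.univ.biUnion f).finite_toSet).union (ram_finite hp D L φ hft)).subset ?_
    intro v hv
    by_contra h
    rw [Set.mem_union, not_or] at h
    obtain ⟨h1, h2⟩ := h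
    have h3 : ∀ i, v ∉ f i := fun i hi =>
      h1 (Finset.mem_coe.2 (Finset.mem_biUnion.2 ⟨i, Finset.mem_univ i, hi⟩))
    apply hv
    by_cases h4 : v ∈ D.S0
    · rw [hs]
      exact if_pos h4
    · rw [hs2 v h4 h3, neg_eq_zero]
      have h5 : φ (L.t v) = 1 := by
        by_contra h6
        exact h2 ⟨h4, h6⟩
      rw [hc v h4, (eta_t hp hζ D L Dg f hf v h4).2 h3, ← gt_e0 Dg] at h5
      exact (Dg.inj _ _ _ _ h5).1
  obtain ⟨φ', l', h1, h2, h3⟩ := ltw hp hζ D L Dg φ hft s hfin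
  refine ⟨φ', h1, fun σ => ?_, fun i v hv => ?_, fun v hv h => ?_⟩
  · rw [← hmk σ]
    exact (mkW_eq Dg _ _).2 ⟨_, h2 σ⟩
  · have hv0 := hS i v hv
    have h4 : φ' (L.t v) = Dg.g i := by
      rw [h2, h3 v hv0, hs1 i v hv, hc v hv0, (eta_t hp hζ D L Dg f hf v hv0).1 i hv, gt_mul0,
        sub_add_cancel]
      rfl
    rw [h4]
  · rw [h2, h3 v hv, hs2 v hv h, hc v hv, (eta_t hp hζ D L Dg f hf v hv).2 h, gt_mul0,
      neg_add_cancel, gt_e0]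

end H38.AS
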