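import Pool.Agent.H38.AS.GAv
import Pool.Agent.H38.AS.GCt
import Pool.Agent.H38.AS.GLi

/-!
# AS-GHS: the average over the types is a function of the classes (assembly of GAV, GCT, GLI, GWT, GTP)
-/

set_option autoImplicit false

open scoped NumberField
open IsDedekindDomain
open scoped Classical

noncomputable section

namespace H38.AS

open H63.MA H38.BB H38.BG

variable {K : Type} [Field K] [NumberField K] {Ω : Type} [Field Ω] [Algebra K Ω]
  [IsAlgClosure K Ω] {p m u w N : ℕ} {ζ : K} {G : Type} [Group G]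

theorem wtR_nonneg (c : CR p m N) (f : Fin N → Finset (Pl K)) (F : Pl K → Fin m → ZMod p) :
    0 ≤ wtR c f F := by
  unfold wtR
  refine Finset.prod_nonneg fun i _ => Finset.prod_nonneg fun v _ => ?_
  split_ifs
  · exact Nat.cast_nonneg _
  · exact le_rfl

theorem ghs [NeZero p] [Finite G] (hp : p.Prime) (hp2 : MOne p K) (hζ : IsPrimitiveRoot ζ p)
    (D : RD0 K p ζ) (L : LDs D Ω) (Q : DP K Ω) (Dg : GT p m u w N G)
    (hcen : ∀ a : Fin w → ZMod p, a ≠ 0 → ∃ i, Dg.a i = a ∧ Dg.y i = 0)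
    (β : Gal(Ω/K) →* G ⧸ WS Dg) (hβ : IsB D L Dg β) (ε : Fin m → Kˣ) (hε : EpB D Dg ε β)
    (φ₁ : Gal(Ω/K) →* G) (hφ₁ : H38.ML.FT φ₁)
    (f : Fin N → Finset (Pl K)) (hf : Ok D f) :
    (((∑ q : Fin N → Fin D.r → ZMod p, Phi D L Q Dg β φ₁ f q) : ℕ) : ℝ) =
      (g0 D L Q Dg : ℝ) * ((if HQ D L Q Dg β φ₁ (fun i => qf D (f i)) then 1 else 0) *
        wtR Dg.cr f (fun v k => D.LL v (akR D Dg.cr ε f k))) ∧
    ∀ q, (Phi D L Q Dg β φ₁ f q : ℝ) ≤ (Nat.card (chbU D L (Wg p w)) : ℝ) *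
      wtR Dg.cr f (fun v k => D.LL v (akR D Dg.cr ε f k)) := by
  have hy0 := gct_pos hp hζ D L w
  have hy0R : (0 : ℝ) < (Nat.card (chbU D L (Wg p w)) : ℝ) := by exact_mod_cast hy0
  by_cases hne : (XB D L Dg β f).Nonempty
  · obtain ⟨hfin, hcard⟩ := gct hp hζ D L Dg β f hf hne
    obtain ⟨hc, hfh⟩ := gbj_card hp hζ D L Dg β f hf
    have hX := hfh.2 hfin
    obtain ⟨-, hwt⟩ := gwt hp hζ D L Dg β hβ ε hε f hf hne
    have hav := gav hp hp2 hζ D L Q Dg hcen β φ₁ hφ₁ f hf hX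
    have hcR : ((XB D L Dg β (hat Dg f)).ncard : ℝ) = (Nat.card (chbU D L (Wg p w)) : ℝ) *
        wtR Dg.cr f (fun v k => D.LL v (akR D Dg.cr ε f k)) := by
      rw [hc, hcard, hwt]
      push_cast
      rfl
    refine ⟨?_, fun q => ?_⟩
    · by_cases hC : Cmp D Q Dg β φ₁ f
      · have hH : HQ D L Q Dg β φ₁ (fun i => qf D (f i)) := ⟨f, hf, fun _ => rfl, hne, hC⟩
        rw [if_pos hC] at hav
        rw [if_pos hH, one_mul]
        have h1 : (Nat.card (chbU D L (Wg p w)) : ℝ) *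
            (((∑ q : Fin N → Fin D.r → ZMod p, Phi D L Q Dg β φ₁ f q) : ℕ) : ℝ) =
            (g0 D L Q Dg : ℝ) * ((XB D L Dg β (hat Dg f)).ncard : ℝ) := by
          exact_mod_cast hav
        rw [hcR] at h1
        refine mul_left_cancel₀ hy0R.ne' ?_
        rw [h1]
        ring
      · have hH : ¬ HQ D L Q Dg β φ₁ (fun i => qf D (f i)) := by
          rintro ⟨f₀, hf₀, hq, -, hC₀⟩
          apply hC
          intro v hv σ hσ
          rw [gtp hp hp2 hζ D Q Dg f f₀ hf.2 hf₀.2 (fun i => (hq i).symm) v hv σ hσ]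
          exact hC₀ v hv σ hσ
        rw [if_neg hC] at hav
        rw [if_neg hH, zero_mul, mul_zero]
        have h1 : ∑ q : Fin N → Fin D.r → ZMod p, Phi D L Q Dg β φ₁ f q = 0 := by
          rcases Nat.mul_eq_zero.1 hav with h2 | h2
          · exact absurd h2 hy0.ne'
          · exact h2
        rw [h1, Nat.cast_zero]
    · rw [← hcR]
      have h1 : Phi D L Q Dg β φ₁ f q ≤ (XB D L Dg β (hat Dg f)).ncard :=
        Set.ncard_le_ncard (fun φ hφ => hφ.1) hX
      exact_mod_cast h1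
  · have hemp : XB D L Dg β (hat Dg f) = ∅ := by
      by_contra h
      obtain ⟨φ, hφ⟩ := Set.nonempty_iff_ne_empty.2 h
      exact hne ⟨_, (gbj hp hζ D L Dg β f hf).mapsTo hφ⟩
    have hP : ∀ q, Phi D L Q Dg β φ₁ f q = 0 := by
      intro q
      unfold Phi
      rw [hemp]
      simp
    refine ⟨?_, fun q => ?_⟩
    · rw [Finset.sum_eq_zero fun q _ => hP q, Nat.cast_zero]
      symm
      by_cases hH : HQ D L Q Dg β φ₁ (fun i => qf D (f i))
      · obtain ⟨f₀, hf₀, hq, hne₀, -⟩ := hH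
        have hw : wtR Dg.cr f (fun v k => D.LL v (akR D Dg.cr ε f k)) = 0 := by
          by_contra h
          exact hne (gli hp hp2 hζ D L Dg β hβ ε hε f f₀ hf hf₀ (fun i => (hq i).symm) hne₀ h)
        rw [hw, mul_zero, mul_zero]
      · rw [if_neg hH, zero_mul, mul_zero]
    · rw [hP q, Nat.cast_zero]
      exact mul_nonneg hy0R.le (wtR_nonneg _ _ _)

end H38.AS
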