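import Pool.Agent.H38.AS.GDef
import Pool.Agent.H38.BG.TTam

/-!
# [H38 AS GIN] inertia and homomorphisms over a base homomorphism, 90-140 lines (as lhom_in, lhom_exp in H38/BG/LHom). File Pool/Agent/H38/AS/GIn.lean

* `eta_in`: `Ok D f`, `v ∉ S0`, `τ ∈ inr L v`: `eta f τ = kk (pi v) τ • y i` if `v ∈ f i`, and `= 0` if `v` is in no `f i`. Proof: `kk (xi k) τ = ord v (xi k) * kk (pi v) τ` (`ld_kk` for `L.ld v hv`; `inr` by `dif_pos`, `D.above`, `D.pi_self`), `ord v (xi k) = y i k` in `ZMod p` (`xi_ord_mem`), `= 0` (`xi_ord_not`).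
* `eta_t`: so `eta f (t v) = y i`, resp. `0` (`LD.ht`, `kk_pi`).
* `gin`: let `IsB D L Dg β`, `Ok D f`, `φ ∈ XB β f`, `v ∉ S0`, `τ ∈ inr L v`. Then `φ τ ^ p = 1`, `φ τ = φ (t v) ^ (kk (pi v) τ).val`, and `φ τ = 1` if `v` is in no `f i`. Proof: `β τ = 1`, so `mkW (φ τ) = vqW (eta f τ)`, and `φ τ = e a (kk (pi v) τ • y i)` resp. `e a 0` for some `a` (`mkW_eq`, `vqW`, `gt_mul0`), so `φ τ ^ p = 1` (`gt_pow`, resp. `(e a 0)^p = e (p • a) 0 = 1`, `ltw_smul`).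
  This holds for all `τ ∈ inr L v`, and `tm_z` (`H38/BG/TTam.lean`; `G` finite) gives the second claim; if `v` is in no `f i` then `φ (t v) = 1` by definition of `XB`.
* `gin_ty`: if moreover all primes in the `f i` are good: `Ty Dg L φ i v ↔ v ∈ f i`. (`←`: `gin`; `→`: if `v` is in no `f j`, `φ (t v) = 1` is not conjugate to `g i` (`Dg.ne`); if `v ∈ f j`, `φ (t v)` is conjugate to `g j` and `g i`, so `i = j` (`Dg.uni`).)
* `gin_rm`: `Rm L φ v ↔ ∃ i, v ∈ f i` (`→`: `gin`; `←`: `t v ∈ inr L v`, `φ (t v)` is conjugate to `g i ≠ 1`).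
-/

set_option autoImplicit false

open scoped NumberField
open IsDedekindDomain
open scoped Classical

noncomputable section

namespace H38.AS

open H63.MA H38.BB H38.BG

variable {K : Type} [Field K] [NumberField K] {Ω : Type} [Field Ω] [Algebra K Ω]
  [IsAlgClosure K Ω] {p m u w N : ℕ} {ζ : K} {G : Type} [Group G]

private theorem gin_mem {D : RD0 K p ζ} (L : LDs D Ω) {v : Pl K} (hv : v ∉ D.S0)
    {τ : Gal(Ω/K)} (hτ : τ ∈ inr L v) : τ ∈ (L.ld v hv).P.inertia Gal(Ω/K) := by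
  unfold inr at hτ
  rw [dif_pos hv] at hτ
  exact hτ

private theorem gin_tmem {D : RD0 K p ζ} (L : LDs D Ω) {v : Pl K} (hv : v ∉ D.S0) :
    L.t v ∈ inr L v := by
  unfold inr
  rw [dif_pos hv, gtw_t L v hv]
  exact (L.ld v hv).ht

theorem eta_in (hp : p.Prime) (hζ : IsPrimitiveRoot ζ p) (D : RD0 K p ζ) (L : LDs D Ω)
    (Dg : GT p m u w N G) (f : Fin N → Finset (Pl K)) (hf : Ok D f) (v : Pl K) (hv : v ∉ D.S0)
    (τ : Gal(Ω/K)) (hτ : τ ∈ inr L v) :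
    (∀ i, v ∈ f i → eta D Dg f τ = kk p ζ (D.pi v) τ • Dg.y i) ∧
      ((∀ i, v ∉ f i) → eta D Dg f τ = 0) := by
  have h1 : ∀ k, kk p ζ (xi D Dg.y f k) τ =
      ((ord v (xi D Dg.y f k) : ℤ) : ZMod p) * kk p ζ (D.pi v) τ := fun k =>
    ld_kk hp hζ (fun h => hv (D.above v h)) (D.pi_self v hv) (L.ld v hv) τ (gin_mem L hv hτ) _
  refine ⟨fun i hi => ?_, fun hfv => ?_⟩
  · funext k
    show kk p ζ (xi D Dg.y f k) τ = _
    rw [h1, xi_ord_mem hp D Dg.y f hf.1 hf.2 k hi, Pi.smul_apply, smul_eq_mul, mul_comm]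
  · funext k
    show kk p ζ (xi D Dg.y f k) τ = _
    rw [h1, xi_ord_not D Dg.y f hf.2 k hv hfv, Int.cast_zero, zero_mul, Pi.zero_apply]

theorem eta_t (hp : p.Prime) (hζ : IsPrimitiveRoot ζ p) (D : RD0 K p ζ) (L : LDs D Ω)
    (Dg : GT p m u w N G) (f : Fin N → Finset (Pl K)) (hf : Ok D f) (v : Pl K)
    (hv : v ∉ D.S0) :
    (∀ i, v ∈ f i → eta D Dg f (L.t v) = Dg.y i) ∧
      ((∀ i, v ∉ f i) → eta D Dg f (L.t v) = 0) := by
  have h1 := eta_in hp hζ D L Dg f hf v hv (L.t v) (gin_tmem L hv)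
  have h2 := (kk_pi hp hζ D L v v hv hv).1 rfl
  refine ⟨fun i hi => ?_, h1.2⟩
  rw [h1.1 i hi, h2, one_smul]

theorem gin [Finite G] (hp : p.Prime) (hζ : IsPrimitiveRoot ζ p) (D : RD0 K p ζ) (L : LDs D Ω)
    (Dg : GT p m u w N G) (β : Gal(Ω/K) →* G ⧸ WS Dg) (hβ : IsB D L Dg β)
    (f : Fin N → Finset (Pl K)) (hf : Ok D f) (φ : Gal(Ω/K) →* G) (hφ : φ ∈ XB D L Dg β f)
    (v : Pl K) (hv : v ∉ D.S0) (τ : Gal(Ω/K)) (hτ : τ ∈ inr L v) :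
    φ τ ^ p = 1 ∧ φ τ = φ (L.t v) ^ (kk p ζ (D.pi v) τ).val ∧
      ((∀ i, v ∉ f i) → φ τ = 1) := by
  have hpow : ∀ τ ∈ inr L v, φ τ ^ p = 1 := by
    intro τ hτ
    have h1 := hφ.2.1 τ
    rw [hβ.2 v hv τ hτ, one_mul] at h1
    obtain ⟨a, ha⟩ := (mkW_eq Dg _ _).1 h1
    rw [gt_mul0, add_zero] at ha
    by_cases hfv : ∃ i, v ∈ f i
    · obtain ⟨i, hi⟩ := hfv
      rw [ha, (eta_in hp hζ D L Dg f hf v hv τ hτ).1 i hi]
      exact gt_pow hp Dg i _ _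
    · rw [ha, (eta_in hp hζ D L Dg f hf v hv τ hτ).2 (fun i hi => hfv ⟨i, hi⟩), ltw_smul]
      have h3 : p • a = 0 := by
        funext c
        rw [Pi.smul_apply, nsmul_eq_mul, CharP.cast_eq_zero, zero_mul, Pi.zero_apply]
      rw [h3, gt_e0]
  have h2 := tm_z hp hζ L φ hφ.1 v hv hpow τ hτ
  refine ⟨hpow τ hτ, h2, fun hfv => ?_⟩
  rw [h2, hφ.2.2.2 v hv hfv, one_pow]

theorem gin_ty [Finite G] (hp : p.Prime) (hζ : IsPrimitiveRoot ζ p) (D : RD0 K p ζ)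
    (L : LDs D Ω) (Dg : GT p m u w N G) (β : Gal(Ω/K) →* G ⧸ WS Dg) (hβ : IsB D L Dg β)
    (f : Fin N → Finset (Pl K)) (hf : Dj f) (hg : ∀ i, ∀ v ∈ f i, D.Gd v)
    (φ : Gal(Ω/K) →* G) (hφ : φ ∈ XB D L Dg β f) (i : Fin N) (v : Pl K) :
    Ty Dg L φ i v ↔ v ∈ f i := by
  have hok : Ok D f := ⟨hf, fun i v hv => (hg i v hv).1⟩
  constructor
  · rintro ⟨hgd, hc, -⟩
    by_cases hfv : ∃ j, v ∈ f j
    · obtain ⟨j, hj⟩ := hfv
      have h1 := hφ.2.2.1 j v hj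
      have h2 := Dg.uni i j (hc.symm.trans h1)
      rw [h2]
      exact hj
    · exfalso
      have h1 := hφ.2.2.2 v hgd.1 (fun j hj => hfv ⟨j, hj⟩)
      rw [h1] at hc
      exact Dg.ne i (isConj_one_right.1 hc)
  · intro hi
    exact ⟨hg i v hi, hφ.2.2.1 i v hi, fun τ hτ =>
      (gin hp hζ D L Dg β hβ f hok φ hφ v (hg i v hi).1 τ hτ).1⟩

theorem gin_rm [Finite G] (hp : p.Prime) (hζ : IsPrimitiveRoot ζ p) (D : RD0 K p ζ)
    (L : LDs D Ω) (Dg : GT p m u w N G) (β : Gal(Ω/K) →* G ⧸ WS Dg) (hβ : IsB D L Dg β)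
    (f : Fin N → Finset (Pl K)) (hf : Ok D f) (φ : Gal(Ω/K) →* G) (hφ : φ ∈ XB D L Dg β f)
    (v : Pl K) : Rm L φ v ↔ ∃ i, v ∈ f i := by
  constructor
  · rintro ⟨hv, τ, hτ, hne⟩
    by_contra hfv
    exact hne ((gin hp hζ D L Dg β hβ f hf φ hφ v hv τ hτ).2.2 (fun i hi => hfv ⟨i, hi⟩))
  · rintro ⟨i, hi⟩
    have hv := hf.2 i v hi
    refine ⟨hv, L.t v, gin_tmem L hv, fun h => ?_⟩
    have h1 := hφ.2.2.1 i v hi
    rw [h] at h1
    exact Dg.ne i (isConj_one_right.1 h1)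

end H38.AS
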