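import Pool.Agent.H38.AS.GQb

/-!
# [H38 AS GKU] every type of a central character comes from psi and an unramified character, 100-160 lines. File Pool/Agent/H38/AS/GKu.lean

Suppose every `a ≠ 0` in `(ZMod p)^w` is `a i` for some `i` with `y i = 0`. Then every `χ : Γ → Wg p w` of finite type agrees on the decomposition groups of the `P v`, `v ∈ S0`, with `χ' * psi q` for some `q` and some `χ'` of finite type with `χ' (t v) = 1` for all `v ∉ S0`.

Proof. The coordinates `σ ↦ ofAdd (toAdd (χ σ) c)` are characters of finite type, so `toAdd (χ σ) c = kk (B c) σ` (`kc_all`). Let `T` be the finite set of the `v ∉ S0` with `ord v (B c) ≢ 0 mod p` for some `c` (`finite_ord`-type lemma, or `ram_finite` for `χ`: `toAdd (χ (t v)) c = ord v (B c)` by `ld_kk_t`), and `n v ∈ (ZMod p)^w`, `n v c = ord v (B c)`.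
`B c / ∏_{v ∈ T} pi v ^ (n v c).val` has orders divisible by `p` outside `S0` (`D.pi_self`, `D.pi_ne`), so it is `u c * y^p` with an `S0`-unit `u c` (`unit_of_ord` in `H63/MA/GUpA.lean`). So `kk (B c) σ = kk (u c) σ + ∑_{v ∈ T} n v c * kk (pi v) σ` for all `σ` (`kk_mul_arg`, `kk_eq_zero_iff` or `kk` of a `p`-th power `= 0`).
`χ' σ = ofAdd (fun c => kk (u c) σ)` is a homomorphism of finite type (as in `kw_ft`; e.g. a product of `kw (u c) (Pi.single c 1)`), `χ' (t v) = 1` as `kk (u c) (t v) = ord v (u c) = 0`. For `v ∈ T`, `n v ≠ 0`; choose `i v` with `a (i v) = n v`, `y (i v) = 0`. Let `q i = ∑_{v ∈ T, i v = i} q v`. For `σ` in `dec (Q.P v')`, `v' ∈ S0`: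
`∑_{v ∈ T} kk (pi v) σ • n v = ∑_{i, y i = 0} (∑_{v ∈ T, i v = i} kk (pi v) σ) • a i = ∑_{i, y i = 0} kk (xq (q i)) σ • a i` by `xq_fin` (`qf D (T.filter (i v = i)) = q i`), i.e. the value of `psi q` (`Finset.sum_fiberwise`-like regrouping).
-/

set_option autoImplicit false

open scoped NumberField
open IsDedekindDomain
open scoped Classical

noncomputable section

namespace H38.AS

open H63.MA H38.BB H38.BG

variable {K : Type} [Field K] [NumberField K] {Ω : Type} [Field Ω] [Algebra K Ω]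
  [IsAlgClosure K Ω] {p m u w N : ℕ} {ζ : K} {G : Type} [Group G]

theorem gku (hp : p.Prime) (hp2 : MOne p K) (hζ : IsPrimitiveRoot ζ p) (D : RD0 K p ζ)
    (L : LDs D Ω) (Q : DP K Ω) (Dg : GT p m u w N G)
    (hcen : ∀ a : Fin w → ZMod p, a ≠ 0 → ∃ i, Dg.a i = a ∧ Dg.y i = 0)
    (χ : Gal(Ω/K) →* Wg p w) (hχ : H38.ML.FT χ) :
    ∃ χ' : Gal(Ω/K) →* Wg p w, H38.ML.FT χ' ∧ (∀ v, v ∉ D.S0 → χ' (L.t v) = 1) ∧
      ∃ q : Fin N → Fin D.r → ZMod p, Teq D.S0 Q χ (χ' * psi D Dg q) := by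
  have hp0 : NeZero p := ⟨hp.ne_zero⟩
  have hB : ∀ c : Fin w, ∃ B : Kˣ, ∀ σ : Gal(Ω/K),
      Multiplicative.toAdd (χ σ) c = kk p ζ B σ := by
    intro c
    obtain ⟨B, hB⟩ := kc_all hp hζ
      ((AddMonoidHom.toMultiplicative (Pi.evalAddMonoidHom (fun _ : Fin w => ZMod p) c)).comp χ)
      (H38.ML.ft_comp _ χ hχ)
    refine ⟨B, fun σ => ?_⟩
    unfold kk
    rw [← hB]
    rfl
  choose B hB using hB
  have hkt : ∀ v, v ∉ D.S0 → ∀ x : Kˣ, kk p ζ x (L.t v) = ((ord v x : ℤ) : ZMod p) := by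
    intro v hv x
    rw [gtw_t L v hv]
    exact ld_kk_t hp hζ (fun h => hv (D.above v h)) (D.pi_self v hv) (L.ld v hv) x
  have hfin := ram_finite hp D L χ hχ
  obtain ⟨T, hT⟩ : ∃ T : Finset (Pl K), T = hfin.toFinset := ⟨_, rfl⟩
  have hTm : ∀ v, v ∈ T ↔ v ∉ D.S0 ∧ χ (L.t v) ≠ 1 := by
    intro v
    rw [hT, Set.Finite.mem_toFinset]
    rfl
  obtain ⟨nv, hnv⟩ : ∃ nv : Pl K → Fin w → ZMod p,
      ∀ v, nv v = Multiplicative.toAdd (χ (L.t v)) := ⟨_, fun _ => rfl⟩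
  have hnvB : ∀ v, v ∉ D.S0 → ∀ c, nv v c = ((ord v (B c) : ℤ) : ZMod p) := by
    intro v hv c
    rw [hnv, hB, hkt v hv]
  have hnv0 : ∀ v, v ∉ D.S0 → v ∉ T → nv v = 0 := by
    intro v hv hvT
    have h1 : χ (L.t v) = 1 := by
      by_contra h
      exact hvT ((hTm v).2 ⟨hv, h⟩)
    rw [hnv, h1]
    rfl
  have hidx : ∀ v ∈ T, ∃ i, Dg.a i = nv v ∧ Dg.y i = 0 := by
    intro v hv
    apply hcen
    intro h0
    apply ((hTm v).1 hv).2
    apply Multiplicative.toAdd.injective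
    rw [← hnv, h0]
    rfl
  choose idx hidx using hidx
  have hord : ∀ v, v ∉ D.S0 → ∀ v' ∈ T, ord v (D.pi v') = if v = v' then 1 else 0 := by
    intro v hv v' hv'
    by_cases h : v = v'
    · rw [if_pos h, ← h, D.pi_self v hv]
    · rw [if_neg h, D.pi_ne v' v ((hTm v').1 hv').1 hv h]
  have hu : ∀ c, ∃ x y : Kˣ, TUnit D.S0 x ∧
      B c * (∏ v ∈ T, D.pi v ^ (((nv v c).val : ℕ) : ℤ))⁻¹ = x * y ^ p := by
    intro c
    apply unit_of_ord hp D
    intro v hv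
    rw [ord_mul, ord_inv, ord_prod]
    have h1 : ∑ v' ∈ T, ord v (D.pi v' ^ (((nv v' c).val : ℕ) : ℤ)) =
        ∑ v' ∈ T, if v = v' then (((nv v' c).val : ℕ) : ℤ) else 0 := by
      refine Finset.sum_congr rfl fun v' hv' => ?_
      rw [ord_zpow, hord v hv v' hv', mul_ite, mul_one, mul_zero]
    rw [h1, Finset.sum_ite_eq, ← (ZMod.intCast_zmod_eq_zero_iff_dvd _ p)]
    by_cases hvT : v ∈ T
    · rw [if_pos hvT]
      push_cast
      rw [ZMod.natCast_zmod_val, ← hnvB v hv c, add_neg_cancel]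
    · rw [if_neg hvT, neg_zero, add_zero, ← hnvB v hv c, hnv0 v hv hvT, Pi.zero_apply]
  choose ξ y hξ hy using hu
  have hkB : ∀ c, ∀ σ : Gal(Ω/K), kk p ζ (B c) σ =
      kk p ζ (ξ c) σ + ∑ v ∈ T, nv v c * kk p ζ (D.pi v) σ := by
    intro c σ
    have h1 : B c = ξ c * y c ^ (p : ℤ) * ∏ v ∈ T, D.pi v ^ (((nv v c).val : ℕ) : ℤ) := by
      rw [zpow_natCast, ← hy c, inv_mul_cancel_right]
    conv_lhs => rw [h1]
    rw [kk_mul_arg hp hζ, kk_mul_arg hp hζ, kk_zpow_arg hp hζ, kk_prod_arg hp hζ,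
      Int.cast_natCast, CharP.cast_eq_zero, zero_mul, add_zero]
    congr 1
    refine Finset.sum_congr rfl fun v _ => ?_
    rw [kk_zpow_arg hp hζ, Int.cast_natCast, ZMod.natCast_zmod_val]
  have hχ'v : ∀ σ : Gal(Ω/K), (∏ c, kw (Ω := Ω) p ζ (ξ c) (Pi.single c 1)) σ =
      Multiplicative.ofAdd (fun c => kk p ζ (ξ c) σ) := by
    intro σ
    rw [MonoidHom.finsetProd_apply]
    have h1 : ∏ c, (kw (Ω := Ω) p ζ (ξ c) (Pi.single c 1)) σ =
        ∏ c, Multiplicative.ofAdd (kk p ζ (ξ c) σ • (Pi.single c 1 : Fin w → ZMod p)) :=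
      Finset.prod_congr rfl fun c _ => kw_apply _ _ _
    rw [h1, ← ofAdd_sum]
    congr 1
    conv_rhs => rw [← Finset.univ_sum_single (fun c => kk p ζ (ξ c) σ)]
    refine Finset.sum_congr rfl fun c _ => ?_
    rw [← Pi.single_smul, smul_eq_mul, mul_one]
  refine ⟨∏ c, kw p ζ (ξ c) (Pi.single c 1), ?_, ?_,
    fun i => qf D (T.filter fun v => ∃ h : v ∈ T, idx v h = i), ?_⟩
  · exact Finset.prod_induction _ (fun χ => H38.ML.FT χ) (fun a b ha hb => chb_ft_mul ha hb)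
      chb_ft_one fun c _ => kw_ft hp hζ _ _
  · intro v hv
    rw [hχ'v]
    have h1 : (fun c => kk p ζ (ξ c) (L.t v)) = 0 := by
      funext c
      rw [hkt v hv, hξ c v hv, Int.cast_zero, Pi.zero_apply]
    rw [h1, ofAdd_zero]
  · intro v hv σ hσ
    rw [MonoidHom.mul_apply, hχ'v, psi, MonoidHom.finsetProd_apply]
    have h1 : ∏ i ∈ Finset.univ.filter (fun i => Dg.y i = 0),
        (kw (Ω := Ω) p ζ (xq D (qf D (T.filter fun v => ∃ h : v ∈ T, idx v h = i)))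
          (Dg.a i)) σ = ∏ i ∈ Finset.univ.filter (fun i => Dg.y i = 0),
        Multiplicative.ofAdd ((∑ v ∈ T.filter (fun v => ∃ h : v ∈ T, idx v h = i),
          kk p ζ (D.pi v) σ) • Dg.a i) := by
      refine Finset.prod_congr rfl fun i _ => ?_
      rw [kw_apply, xq_fin hp hp2 hζ D Q _ (fun v hv => ((hTm v).1 (Finset.mem_filter.1 hv).1).1)
        v hv σ hσ]
    rw [h1, ← ofAdd_sum, ← ofAdd_add]
    apply Multiplicative.toAdd.injective
    rw [toAdd_ofAdd]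
    funext c
    rw [hB c σ, hkB c σ, Pi.add_apply]
    congr 1
    rw [Finset.sum_apply]
    have h2 : ∀ i, (((∑ v ∈ T.filter (fun v => ∃ h : v ∈ T, idx v h = i),
          kk p ζ (D.pi v) σ) • Dg.a i) c : ZMod p) =
        ∑ v ∈ T, if ∃ h : v ∈ T, idx v h = i then kk p ζ (D.pi v) σ * Dg.a i c else 0 := by
      intro i
      rw [Pi.smul_apply, smul_eq_mul, Finset.sum_mul, Finset.sum_filter]
    rw [Finset.sum_congr rfl fun i _ => h2 i, Finset.sum_comm]
    refine Finset.sum_congr rfl fun v hv => ?_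
    rw [Finset.sum_eq_single (idx v hv)]
    · rw [if_pos ⟨hv, rfl⟩, (hidx v hv).1, mul_comm]
    · intro i _ hne
      rw [if_neg]
      rintro ⟨h, h3⟩
      exact hne h3.symm
    · intro h
      exact absurd (by simpa using (hidx v hv).2) h

end H38.AS
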