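import Pool.Agent.H38.BG.LRel

/-!
# [H38 AS GLR] relative lifting, the base homomorphism may be ramified, 100-150 lines (copy of lrel, H38/BG/LRel.lean). File Pool/Agent/H38/AS/GLr.lean

As `lrel`, but `φ₀` may be ramified outside `S0` and the local condition is stated with the symbols `B p ζ v`: for `v ∉ S0` and every `c`: `- ∑_{j,k} β c j k B v (ξ k) (b j) + ∑_{k,k'} n c k k' B v (ξ k) (ξ k') = 0`.

Proof. Copy the proof of `lrel`. The exceptional set `T` is the finite set of the `v` with `ord v (ξ k) ≠ 0` for some `k` or `ord v (b j) ≠ 0` for some `j` (`finite_ord`). In the application of `locglob`: the condition for all `v ∤ p`: for `v ∈ S0` all terms are `0` (`hξ`), for `v ∉ S0` the sum is the hypothesis `h1` (`B_zpow_left`, `hcast`; `(-β).val` casts to `-β`). For `v ∤ p`, `v ∉ T`: for `v ∈ S0` as before;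
for `v ∉ S0`: `B v (ξ k) x = ord v x * lg v (ξ k) = 0` for `x = b j, ξ k'` (`B_unit`, all orders are `0`). The rest (the cochain identity, `lrel_prod`, finite level) is unchanged.
-/

set_option autoImplicit false

open scoped NumberField
open IsDedekindDomain

noncomputable section

namespace H38.AS

open H63.MA H38.BB H38.BG

variable {K : Type} [Field K] [NumberField K] {Ω : Type} [Field Ω] [Algebra K Ω]
  [IsAlgClosure K Ω] {p m u w N : ℕ} {ζ : K}

theorem glr (hp : p.Prime) (hp2 : MOne p K) (hζ : IsPrimitiveRoot ζ p) (D : RD0 K p ζ)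
    {G : Type} [Group G] [Finite G] (Dg : GT p m u w N G)
    (φ₀ : Gal(Ω/K) →* G) (hφ₀ : H38.ML.FT φ₀) (b : Fin m → Kˣ)
    (hb : ∀ σ j, Multiplicative.toAdd (Dg.π (φ₀ σ)) j = kk p ζ (b j) σ)
    (ξ : Fin u → Kˣ) (hξ : ∀ k, PS p ζ D.S0 (ξ k))
    (h1 : ∀ v, v ∉ D.S0 → ∀ c : Fin w,
      -(∑ j, ∑ k, Dg.β c j k * B p ζ v (ξ k) (b j)) +
        ∑ k, ∑ k', Dg.n c k k' * B p ζ v (ξ k) (ξ k') = 0) :
    ∃ (φ : Gal(Ω/K) →* G) (l : Gal(Ω/K) → Fin w → ZMod p), H38.ML.FT φ ∧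
      ∀ σ, φ σ = Dg.e (l σ) (fun k => kk p ζ (ξ k) σ) * φ₀ σ := by
  classical
  have : NeZero p := ⟨hp.ne_zero⟩
  have hcast : ∀ x : ZMod p, (((x.val : ℕ) : ℤ) : ZMod p) = x := by
    intro x
    rw [Int.cast_natCast, ZMod.natCast_zmod_val]
  -- the exceptional set
  have hfin : ({v : Pl K | ∃ k, ord v (ξ k) ≠ 0} ∪ {v : Pl K | ∃ j, ord v (b j) ≠ 0}).Finite := by
    have h2 : {v : Pl K | ∃ k, ord v (ξ k) ≠ 0} = ⋃ k, {v : Pl K | ord v (ξ k) ≠ 0} := by
      ext v
      simp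
    have h3 : {v : Pl K | ∃ j, ord v (b j) ≠ 0} = ⋃ j, {v : Pl K | ord v (b j) ≠ 0} := by
      ext v
      simp
    rw [h2, h3]
    exact (Set.finite_iUnion fun k => finite_ord (ξ k)).union
      (Set.finite_iUnion fun j => finite_ord (b j))
  -- local values
  have hS : ∀ v : Pl K, ¬ Above p v → v ∈ D.S0 → ∀ k x, B p ζ v (ξ k) x = 0 :=
    fun v hv hvS k x => (hξ k).2 v hvS hv x
  have htv : ∀ c : Fin w, Tv (fun σ τ : Gal(Ω/K) =>
      bl Dg.β (fun j => kk p ζ (b j) σ) (fun k => kk p ζ (ξ k) τ) c +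
        bl Dg.n (fun k => kk p ζ (ξ k) σ) (fun k => kk p ζ (ξ k) τ) c) := by
    intro c
    have h3 := locglob (K := K) (p := p) (ζ := ζ) Ω hp hp2 hζ
      (ι := (Fin m × Fin u) ⊕ (Fin u × Fin u))
      (Sum.elim (fun j : Fin m × Fin u => ξ j.2 ^ (((-Dg.β c j.1 j.2).val : ℕ) : ℤ))
        (fun j : Fin u × Fin u => ξ j.1 ^ (((Dg.n c j.1 j.2).val : ℕ) : ℤ)))
      (Sum.elim (fun j : Fin m × Fin u => b j.1) (fun j : Fin u × Fin u => ξ j.2)) ?_ hfin.toFinset ?_ ?_
    · have h4 : ∀ (j : Fin m) (k : Fin u), Tv (fun σ τ : Gal(Ω/K) =>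
          Dg.β c j k * (cu p ζ (b j) (ξ k) σ τ + cu p ζ (ξ k) (b j) σ τ)) :=
        fun j k => tv_smul _ _ (tv_swap hp hζ (b j) (ξ k))
      have h5 : Tv (fun σ τ : Gal(Ω/K) => ∑ j : Fin m, ∑ k : Fin u,
          Dg.β c j k * (cu p ζ (b j) (ξ k) σ τ + cu p ζ (ξ k) (b j) σ τ)) :=
        tv_sum Finset.univ (fun j σ τ => ∑ k : Fin u,
          Dg.β c j k * (cu p ζ (b j) (ξ k) σ τ + cu p ζ (ξ k) (b j) σ τ)) fun j _ =>
          tv_sum Finset.univ (fun k σ τ =>
            Dg.β c j k * (cu p ζ (b j) (ξ k) σ τ + cu p ζ (ξ k) (b j) σ τ)) fun k _ => h4 j k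
      have h6 := tv_add _ _ h3 h5
      have h7 : (fun σ τ : Gal(Ω/K) =>
          bl Dg.β (fun j => kk p ζ (b j) σ) (fun k => kk p ζ (ξ k) τ) c +
            bl Dg.n (fun k => kk p ζ (ξ k) σ) (fun k => kk p ζ (ξ k) τ) c) =
          fun σ τ => (∑ i : (Fin m × Fin u) ⊕ (Fin u × Fin u),
            cu p ζ (Sum.elim (fun j : Fin m × Fin u => ξ j.2 ^ (((-Dg.β c j.1 j.2).val : ℕ) : ℤ))
              (fun j : Fin u × Fin u => ξ j.1 ^ (((Dg.n c j.1 j.2).val : ℕ) : ℤ)) i)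
              (Sum.elim (fun j : Fin m × Fin u => b j.1) (fun j : Fin u × Fin u => ξ j.2) i) σ τ) +
            ∑ j : Fin m, ∑ k : Fin u,
              Dg.β c j k * (cu p ζ (b j) (ξ k) σ τ + cu p ζ (ξ k) (b j) σ τ) := by
        funext σ τ
        rw [Fintype.sum_sum_type, Fintype.sum_prod_type, Fintype.sum_prod_type]
        have e1 : ∑ j : Fin m, ∑ k : Fin u,
            cu p ζ (Sum.elim (fun j : Fin m × Fin u => ξ j.2 ^ (((-Dg.β c j.1 j.2).val : ℕ) : ℤ))
              (fun j : Fin u × Fin u => ξ j.1 ^ (((Dg.n c j.1 j.2).val : ℕ) : ℤ)) (Sum.inl (j, k)))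
              (Sum.elim (fun j : Fin m × Fin u => b j.1) (fun j : Fin u × Fin u => ξ j.2) (Sum.inl (j, k))) σ τ =
            ∑ j : Fin m, ∑ k : Fin u, -(Dg.β c j k * cu p ζ (ξ k) (b j) σ τ) := by
          refine Finset.sum_congr rfl fun j _ => Finset.sum_congr rfl fun k _ => ?_
          simp only [Sum.elim_inl, cu]
          rw [kk_zpow_arg hp hζ, hcast]
          ring
        have e2 : ∑ k : Fin u, ∑ k' : Fin u,
            cu p ζ (Sum.elim (fun j : Fin m × Fin u => ξ j.2 ^ (((-Dg.β c j.1 j.2).val : ℕ) : ℤ))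
              (fun j : Fin u × Fin u => ξ j.1 ^ (((Dg.n c j.1 j.2).val : ℕ) : ℤ)) (Sum.inr (k, k')))
              (Sum.elim (fun j : Fin m × Fin u => b j.1) (fun j : Fin u × Fin u => ξ j.2) (Sum.inr (k, k'))) σ τ =
            bl Dg.n (fun k => kk p ζ (ξ k) σ) (fun k => kk p ζ (ξ k) τ) c := by
          refine Finset.sum_congr rfl fun k _ => Finset.sum_congr rfl fun k' _ => ?_
          simp only [Sum.elim_inr, cu]
          rw [kk_zpow_arg hp hζ, hcast]
        rw [e1, e2]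
        have e3 : bl Dg.β (fun j => kk p ζ (b j) σ) (fun k => kk p ζ (ξ k) τ) c =
            ∑ j : Fin m, ∑ k : Fin u, -(Dg.β c j k * cu p ζ (ξ k) (b j) σ τ) +
            ∑ j : Fin m, ∑ k : Fin u,
              Dg.β c j k * (cu p ζ (b j) (ξ k) σ τ + cu p ζ (ξ k) (b j) σ τ) := by
          unfold bl
          rw [← Finset.sum_add_distrib]
          refine Finset.sum_congr rfl fun j _ => ?_
          rw [← Finset.sum_add_distrib]
          refine Finset.sum_congr rfl fun k _ => ?_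
          unfold cu
          ring
        rw [e3]
        ring
      rw [h7]
      exact h6
    · rintro (j | j)
      · exact prim_zpow hp hp2 hζ (hξ j.2).1 _
      · exact prim_zpow hp hp2 hζ (hξ j.1).1 _
    · intro v hv
      rw [Fintype.sum_sum_type]
      simp only [Sum.elim_inl, Sum.elim_inr]
      by_cases hvS : v ∈ D.S0
      · have e1 : ∑ j : Fin m × Fin u, B p ζ v (ξ j.2 ^ (((-Dg.β c j.1 j.2).val : ℕ) : ℤ)) (b j.1) =
            0 := Finset.sum_eq_zero fun j _ => by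
          rw [B_zpow_left hp hζ hv, hS v hv hvS, mul_zero]
        have e2 : ∑ j : Fin u × Fin u, B p ζ v (ξ j.1 ^ (((Dg.n c j.1 j.2).val : ℕ) : ℤ)) (ξ j.2) =
            0 := Finset.sum_eq_zero fun j _ => by
          rw [B_zpow_left hp hζ hv, hS v hv hvS, mul_zero]
        rw [e1, e2, add_zero]
      · have e1 : ∑ j : Fin m × Fin u, B p ζ v (ξ j.2 ^ (((-Dg.β c j.1 j.2).val : ℕ) : ℤ)) (b j.1) =
            -(∑ j, ∑ k, Dg.β c j k * B p ζ v (ξ k) (b j)) := by
          rw [Fintype.sum_prod_type, ← Finset.sum_neg_distrib]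
          refine Finset.sum_congr rfl fun j _ => ?_
          rw [← Finset.sum_neg_distrib]
          refine Finset.sum_congr rfl fun k _ => ?_
          rw [B_zpow_left hp hζ hv, hcast]
          ring
        have e2 : ∑ j : Fin u × Fin u, B p ζ v (ξ j.1 ^ (((Dg.n c j.1 j.2).val : ℕ) : ℤ)) (ξ j.2) =
            ∑ k, ∑ k', Dg.n c k k' * B p ζ v (ξ k) (ξ k') := by
          rw [Fintype.sum_prod_type]
          refine Finset.sum_congr rfl fun k _ => Finset.sum_congr rfl fun k' _ => ?_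
          rw [B_zpow_left hp hζ hv, hcast]
        rw [e1, e2]
        exact h1 v hvS c
    · intro v hv hvT j
      have hvT' : ∀ k, ord v (ξ k) = 0 := by
        intro k
        by_contra h
        exact hvT (hfin.mem_toFinset.2 (Or.inl ⟨k, h⟩))
      have hvT2 : ∀ j, ord v (b j) = 0 := by
        intro j
        by_contra h
        exact hvT (hfin.mem_toFinset.2 (Or.inr ⟨j, h⟩))
      rcases j with j | j
      · simp only [Sum.elim_inl]
        rw [B_zpow_left hp hζ hv]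
        by_cases hvS : v ∈ D.S0
        · rw [hS v hv hvS, mul_zero]
        · rw [B_unit hp hζ hv (hvT' _), hvT2, Int.cast_zero, zero_mul, mul_zero]
      · simp only [Sum.elim_inr]
        rw [B_zpow_left hp hζ hv]
        by_cases hvS : v ∈ D.S0
        · rw [hS v hv hvS, mul_zero]
        · rw [B_unit hp hζ hv (hvT' _), hvT', Int.cast_zero, zero_mul, mul_zero]
  choose l hl hl2 using htv
  have hπ : ∀ σ : Gal(Ω/K), Multiplicative.toAdd (Dg.π (φ₀ σ)) = fun j => kk p ζ (b j) σ :=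
    fun σ => funext (hb σ)
  have hφ : ∀ σ τ : Gal(Ω/K),
      Dg.e (fun c => l c (σ * τ)) (fun k => kk p ζ (ξ k) (σ * τ)) * φ₀ (σ * τ) =
        Dg.e (fun c => l c σ) (fun k => kk p ζ (ξ k) σ) * φ₀ σ *
          (Dg.e (fun c => l c τ) (fun k => kk p ζ (ξ k) τ) * φ₀ τ) := by
    intro σ τ
    rw [lrel_prod, hπ, map_mul]
    congr 2
    · funext c
      rw [hl2 c σ τ]
      simp only [Pi.add_apply]
      ring
    · funext k
      exact kk_mul (ξ k) σ τ
  refine ⟨MonoidHom.mk' (fun σ : Gal(Ω/K) =>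
    Dg.e (fun c => l c σ) (fun k => kk p ζ (ξ k) σ) * φ₀ σ) hφ, fun σ c => l c σ, ?_,
    fun σ => rfl⟩
  apply lev_ft
  have hL1 : Lev (fun (σ : Gal(Ω/K)) c => l c σ) := glift_lev_pi l hl
  have hL2 : Lev (fun (σ : Gal(Ω/K)) k => kk p ζ (ξ k) σ) :=
    glift_lev_pi (fun k σ => kk p ζ (ξ k) σ) fun k => glift_lev_kk hp hζ (ξ k)
  have hL3 : Lev (fun σ : Gal(Ω/K) => φ₀ σ) := ft_lev φ₀ hφ₀
  exact glift_lev_comp2 _ _ (fun z => z.1 * z.2)
    (glift_lev_comp2 _ _ (fun z => Dg.e z.1 z.2) hL1 hL2) hL3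

end H38.AS
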