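import Pool.Agent.H38.AS.GIn

/-!
# [H38 AS GOF] the base homomorphism of a typed homomorphism, 80-130 lines. File Pool/Agent/H38/AS/GOf.lean

* `gof`: let `φ` be of finite type such that every ramified prime outside `S0` is of some type (`Ty`), and `f i = {v : Ty Dg L φ i v}`. There is `β` with `IsB D L Dg β` and `φ ∈ XB β f`. (And `Ok D f`: `gof_ok`.)
  Proof. `gof_ok`: the types are disjoint by `Dg.uni`; `Ty` implies `D.Gd v`, so `v ∉ S0`. `β σ = mkW (φ σ) * (vqW (eta f σ))⁻¹` is a homomorphism: `eta` is additive (`kk` of a product of group elements: `kc` is a homomorphism), `vqW_add`, `vqW_cen`. Finite type: `φ` and all `kk (xi k)` are (`kc_is`), intersect. Let `v ∉ S0`, `τ ∈ inr L v`. If `v ∈ f i`: `φ τ = φ (t v) ^ k.val`,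
  `k = kk (pi v) τ` (`tm_z`, the exponent condition is in `Ty`), `φ (t v) = e b (y i)` for some `b` (`gt_conj`), so `mkW (φ τ) = vqW (y i) ^ k.val = vqW (k • y i) = vqW (eta f τ)` (`eta_in`), `β τ = 1`. If `v` is in no `f i` then `v` is not ramified (hypothesis), `φ τ = 1`, `eta f τ = 0`.
  `φ ∈ XB β f`: `β σ * vqW (eta f σ) = mkW (φ σ)` by definition; for `v ∈ f i`, `φ (t v)` is conjugate to `g i` by `Ty`; for the other `v ∉ S0`, `t v ∈ inr L v` and `v` is unramified: `φ (t v) = 1`.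
* `gof_uni`: if `φ ∈ XB β f` and `φ ∈ XB β' f` then `β = β'`.
-/

set_option autoImplicit false

open scoped NumberField
open IsDedekindDomain
open scoped Classical

noncomputable section

namespace H38.AS

open H63.MA H38.BB H38.BG

variable {K : Type} [Field K] [NumberField K] {Ω : Type} [Field Ω] [Algebra K Ω]
  [IsAlgClosure K Ω] {p m u w N : ℕ} {ζ : K} {G : Type} [Group G]

theorem gof_ok (D : RD0 K p ζ) (L : LDs D Ω) (Dg : GT p m u w N G) (φ : Gal(Ω/K) →* G)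
    (f : Fin N → Finset (Pl K)) (hf : ∀ i v, v ∈ f i ↔ Ty Dg L φ i v) :
    Ok D f ∧ ∀ i, ∀ v ∈ f i, D.Gd v := by
  refine ⟨⟨fun i j hij => Finset.disjoint_left.2 fun v hi hj => hij ?_,
    fun i v hv => ((hf i v).1 hv).1.1⟩, fun i v hv => ((hf i v).1 hv).1⟩
  exact Dg.uni i j ((((hf i v).1 hi).2.1).symm.trans ((hf j v).1 hj).2.1)

private theorem gof_kk1 (x : Kˣ) : kk p ζ x (1 : Gal(Ω/K)) = 0 := by
  unfold kk
  rw [map_one, toAdd_one]

private theorem gof_kkm (x : Kˣ) (σ τ : Gal(Ω/K)) :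
    kk p ζ x (σ * τ) = kk p ζ x σ + kk p ζ x τ := by
  unfold kk
  rw [map_mul, toAdd_mul]

private theorem gof_eta1 (D : RD0 K p ζ) (Dg : GT p m u w N G) (f : Fin N → Finset (Pl K)) :
    eta D Dg f (1 : Gal(Ω/K)) = 0 := by
  funext k
  exact gof_kk1 _

private theorem gof_etam (D : RD0 K p ζ) (Dg : GT p m u w N G) (f : Fin N → Finset (Pl K))
    (σ τ : Gal(Ω/K)) : eta D Dg f (σ * τ) = eta D Dg f σ + eta D Dg f τ := by
  funext k
  exact gof_kkm _ _ _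

private theorem gof_tmem {D : RD0 K p ζ} (L : LDs D Ω) {v : Pl K} (hv : v ∉ D.S0) :
    L.t v ∈ inr L v := by
  unfold inr
  rw [dif_pos hv, gtw_t L v hv]
  exact (L.ld v hv).ht

private theorem gof_vpow (Dg : GT p m u w N G) (x : Fin u → ZMod p) (n : ℕ) :
    vqW Dg x ^ n = vqW Dg ((n : ZMod p) • x) := by
  induction n with
  | zero => rw [pow_zero, Nat.cast_zero, zero_smul, vqW_zero]
  | succ n ih => rw [pow_succ, ih, ← vqW_add, Nat.cast_succ, add_smul, one_smul]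

/-- the base homomorphism -/
private def gofB (D : RD0 K p ζ) (Dg : GT p m u w N G) (φ : Gal(Ω/K) →* G)
    (f : Fin N → Finset (Pl K)) : Gal(Ω/K) →* G ⧸ WS Dg where
  toFun σ := mkW Dg (φ σ) * (vqW Dg (eta D Dg f σ))⁻¹
  map_one' := by
    rw [gof_eta1, vqW_zero, inv_one, mul_one, map_one, map_one]
  map_mul' σ τ := by
    have h1 : mkW Dg (φ τ) * (vqW Dg (eta D Dg f σ))⁻¹ =
        (vqW Dg (eta D Dg f σ))⁻¹ * mkW Dg (φ τ) := by
      have h2 := vqW_cen Dg (eta D Dg f σ) (mkW Dg (φ τ))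
      rw [mul_inv_eq_iff_eq_mul, mul_assoc, ← h2, inv_mul_cancel_left]
    have h3 : (vqW Dg (eta D Dg f τ))⁻¹ * (vqW Dg (eta D Dg f σ))⁻¹ =
        (vqW Dg (eta D Dg f σ))⁻¹ * (vqW Dg (eta D Dg f τ))⁻¹ := by
      rw [← mul_inv_rev, ← mul_inv_rev, vqW_cen]
    rw [map_mul, map_mul, gof_etam, vqW_add, mul_inv_rev, h3]
    calc mkW Dg (φ σ) * mkW Dg (φ τ) *
        ((vqW Dg (eta D Dg f σ))⁻¹ * (vqW Dg (eta D Dg f τ))⁻¹) =
        mkW Dg (φ σ) * (mkW Dg (φ τ) * (vqW Dg (eta D Dg f σ))⁻¹) *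
          (vqW Dg (eta D Dg f τ))⁻¹ := by group
      _ = mkW Dg (φ σ) * ((vqW Dg (eta D Dg f σ))⁻¹ * mkW Dg (φ τ)) *
          (vqW Dg (eta D Dg f τ))⁻¹ := by rw [h1]
      _ = _ := by group

private theorem gofB_apply (D : RD0 K p ζ) (Dg : GT p m u w N G) (φ : Gal(Ω/K) →* G)
    (f : Fin N → Finset (Pl K)) (σ : Gal(Ω/K)) :
    gofB D Dg φ f σ = mkW Dg (φ σ) * (vqW Dg (eta D Dg f σ))⁻¹ := rfl

private theorem gofB_ft (hp : p.Prime) (hζ : IsPrimitiveRoot ζ p) (D : RD0 K p ζ)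
    (Dg : GT p m u w N G) (φ : Gal(Ω/K) →* G) (hφ : H38.ML.FT φ)
    (f : Fin N → Finset (Pl K)) : H38.ML.FT (gofB D Dg φ f) := by
  obtain ⟨E, hE, hle⟩ := hφ
  have h1 : ∀ k : Fin u, ∃ F : IntermediateField K Ω, FiniteDimensional K F ∧
      F.fixingSubgroup ≤ (kc p ζ Ω (xi D Dg.y f k)).ker := fun k =>
    (kc_is (Ω := Ω) hp hζ (xi D Dg.y f k)).1
  choose F hF1 hF2 using h1
  have hfd : FiniteDimensional K (⨆ k, F k : IntermediateField K Ω) :=
    IntermediateField.finiteDimensional_iSup_of_finite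
  refine ⟨E ⊔ ⨆ k, F k, inferInstance, fun σ hσ => ?_⟩
  have h2 : σ ∈ E.fixingSubgroup := IntermediateField.fixingSubgroup_antitone le_sup_left hσ
  have h3 : ∀ k, σ ∈ (F k).fixingSubgroup := fun k =>
    IntermediateField.fixingSubgroup_antitone ((le_iSup F k).trans le_sup_right) hσ
  have h4 := hle h2
  rw [MonoidHom.mem_ker] at h4 ⊢
  have h5 : eta D Dg f σ = 0 := by
    funext k
    have h6 := hF2 k (h3 k)
    rw [MonoidHom.mem_ker] at h6
    show kk p ζ (xi D Dg.y f k) σ = 0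
    unfold kk
    rw [h6, toAdd_one]
  rw [gofB_apply, h4, h5, vqW_zero, inv_one, mul_one, map_one]

theorem gof [Finite G] (hp : p.Prime) (hζ : IsPrimitiveRoot ζ p) (D : RD0 K p ζ) (L : LDs D Ω)
    (Dg : GT p m u w N G) (φ : Gal(Ω/K) →* G) (hφ : H38.ML.FT φ)
    (hty : ∀ v, Rm L φ v → ∃ i, Ty Dg L φ i v) (f : Fin N → Finset (Pl K))
    (hf : ∀ i v, v ∈ f i ↔ Ty Dg L φ i v) :
    ∃ β, IsB D L Dg β ∧ φ ∈ XB D L Dg β f := by
  have hok := gof_ok D L Dg φ f hf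
  have hun : ∀ v, v ∉ D.S0 → (∀ i, v ∉ f i) → ∀ τ ∈ inr L v, φ τ = 1 := by
    intro v hv hvf τ hτ
    by_contra h
    obtain ⟨i, hi⟩ := hty v ⟨hv, τ, hτ, h⟩
    exact hvf i ((hf i v).2 hi)
  refine ⟨gofB D Dg φ f, ⟨gofB_ft hp hζ D Dg φ hφ f, fun v hv τ hτ => ?_⟩,
    hφ, fun σ => ?_, fun i v hv => ((hf i v).1 hv).2.1, fun v hv hvf => ?_⟩
  · rw [gofB_apply, mul_inv_eq_one]
    by_cases hex : ∃ i, v ∈ f i
    · obtain ⟨i, hi⟩ := hex
      have hTy := (hf i v).1 hi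
      haveI : NeZero p := ⟨hp.ne_zero⟩
      rw [(eta_in hp hζ D L Dg f hok.1 v hv τ hτ).1 i hi,
        tm_z hp hζ L φ hφ v hv hTy.2.2 τ hτ]
      obtain ⟨z, hz⟩ := (gt_conj Dg i _).1 hTy.2.1
      rw [hz, map_pow, mkW_e, gof_vpow, ZMod.natCast_zmod_val]
    · have hvf : ∀ i, v ∉ f i := fun i hi => hex ⟨i, hi⟩
      rw [(eta_in hp hζ D L Dg f hok.1 v hv τ hτ).2 hvf, hun v hv hvf τ hτ, vqW_zero, map_one]
  · rw [gofB_apply, inv_mul_cancel_right]
  · exact hun v hv hvf _ (gof_tmem L hv)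

theorem gof_uni (D : RD0 K p ζ) (L : LDs D Ω) (Dg : GT p m u w N G)
    (β β' : Gal(Ω/K) →* G ⧸ WS Dg) (f : Fin N → Finset (Pl K)) (φ : Gal(Ω/K) →* G)
    (h : φ ∈ XB D L Dg β f) (h' : φ ∈ XB D L Dg β' f) : β = β' := by
  refine MonoidHom.ext fun σ => ?_
  have h1 := h.2.1 σ
  have h2 := h'.2.1 σ
  exact mul_right_cancel (h1.symm.trans h2)

end H38.AS
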