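import Pool.Agent.H38.AS.GTw

/-!
# [H38 AS GQB] the elements xq and the characters psi, 110-170 lines. File Pool/Agent/H38/AS/GQb.lean

On the decomposition groups of the `P v`, `v ∈ S0`, `kk x` for a product `x` of `pi v`, `v ∉ S0`, depends only on the class of `x`.
* `xq_ex`: every `ρ ∈ (ZMod p)^r` is `∑ n_v q v` for a finitely supported `n : Pl K → ℤ` with `n v = 0` for `v ∈ S0`. Proof: the span of the `q v` is everything, otherwise a nonzero functional `κ` kills all `q v`, contradicting `D.q_non` (compare `chb_span` in `H63/MC/CHb.lean`: `Submodule.exists_le_ker_of_lt_top` or `exists_dual...`, a functional on `(ZMod p)^r` is `x ↦ ∑ κ i x i`; `ggd_dual`); so `ρ` is a finite linear combination `∑ c_v q v`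
  (`Finsupp.mem_span_range_iff_exists_finsupp`), `n v = (c_v).val` for `v ∉ S0` and `0` for `v ∈ S0` (`D.q_zero`).
* `xq_cls`: `kk (∏ pi v ^ n v) σ = kk (xq ρ) σ` for `ρ = ∑ n v q v`, `σ ∈ dec (Q.P v)`, `v ∈ S0`. Proof: by `xq_ex`, `xq ρ = ∏ pi v ^ n' v` with `n'` of the same class (`dif_pos`, `choose_spec`); `n - n'` has class `0`, so `∏ pi v ^ (n - n') v` is `PS` (`D.prim_of`) and `kk` of it vanishes on `dec` (`ps_triv`); `kk_mul_arg`, `kk_zpow_arg` etc. (`H63/MA/GKum.lean`; `kk (x y⁻¹) = kk x - kk y`), `Finsupp.prod_sub`/`prod_add`.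
* `xq_add`: so `kk (xq (ρ + ρ')) σ = kk (xq ρ) σ + kk (xq ρ') σ`.
* `xq_fin`: for a finite set `n` of primes outside `S0`: `kk (xq (qf n)) σ = ∑_{v ∈ n} kk (pi v) σ` (`qf D n = ∑ v ∈ n, q v`: unfold).
* `psi_add`: `psi (q + q')` and `psi q * psi q'` agree there (`Finset.prod_mul_distrib`, `kw_apply`, `xq_add`; evaluate with `MonoidHom.finset_prod_apply`, `MonoidHom.mul_apply`).
* `psi_f`: `psf f` and `psi (fun i => qf (f i))` agree there.
* `psf_ft`, `psi_ft`: of finite type (`kw_ft`; `chb_ft_one`, `chb_ft_mul`, induction over the product). `psf_t`: for `Ok D f` and `w ∉ S0`: `psf f (t w) = a i` if `w ∈ f i`, `y i = 0`, and `1` if `w` is in no `f i` with `y i = 0` (`kk_pi`: `kk (pi v) (t w) = δ`; `Dj f`).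
-/

set_option autoImplicit false

open scoped NumberField
open IsDedekindDomain
open scoped Classical

noncomputable section

namespace H38.AS

open H63.MA H38.BB H38.BG

variable {K : Type} [Field K] [NumberField K] {Ω : Type} [Field Ω] [Algebra K Ω]
  [IsAlgClosure K Ω] {p m u w N : ℕ} {ζ : K} {G : Type} [Group G]

theorem gqb_dual {p m : ℕ} [Fact p.Prime] (φ : Module.Dual (ZMod p) (Fin m → ZMod p))
    (w : Fin m → ZMod p) : φ w = ∑ k, φ (Pi.single k 1) * w k := by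
  conv_lhs => rw [← Finset.univ_sum_single w]
  rw [map_sum]
  refine Finset.sum_congr rfl fun k _ => ?_
  have : (Pi.single k (w k) : Fin m → ZMod p) = w k • Pi.single k 1 := by
    rw [← Pi.single_smul, smul_eq_mul, mul_one]
  rw [this, map_smul, smul_eq_mul, mul_comm]

theorem xq_ex (hp : p.Prime) (D : RD0 K p ζ) (ρ : Fin D.r → ZMod p) :
    ∃ n : Pl K →₀ ℤ, (∀ v ∈ D.S0, n v = 0) ∧
      (n.sum fun v k => (k : ZMod p) • D.q v) = ρ := by
  have hpf : Fact p.Prime := ⟨hp⟩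
  have h1 : Submodule.span (ZMod p) (Set.range D.q) = ⊤ := by
    by_contra h
    obtain ⟨F, hF0, hF⟩ := Submodule.exists_le_ker_of_lt_top _ (lt_top_iff_ne_top.2 h)
    obtain ⟨v, hv⟩ := D.q_non (fun k => F (Pi.single k 1)) (by
      intro h0
      apply hF0
      apply LinearMap.ext
      intro x
      rw [gqb_dual F x, LinearMap.zero_apply]
      refine Finset.sum_eq_zero fun k _ => ?_
      have h2 := congrFun h0 k
      simp only [Pi.zero_apply] at h2
      rw [h2, zero_mul])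
    apply hv
    rw [← gqb_dual F (D.q v)]
    exact LinearMap.mem_ker.1 (hF (Submodule.subset_span ⟨v, rfl⟩))
  have h2 : ρ ∈ Submodule.span (ZMod p) (Set.range D.q) := by
    rw [h1]
    trivial
  obtain ⟨c, hc⟩ := Finsupp.mem_span_range_iff_exists_finsupp.1 h2
  refine ⟨Finsupp.onFinset c.support (fun v => if v ∈ D.S0 then 0 else ((c v).val : ℤ)) ?_,
    ?_, ?_⟩
  · intro v hv
    rw [Finsupp.mem_support_iff]
    intro h0
    apply hv
    simp only [h0, ZMod.val_zero, Nat.cast_zero, ite_self]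
  · intro v hv
    rw [Finsupp.onFinset_apply, if_pos hv]
  · rw [Finsupp.onFinset_sum _ (fun v => by rw [Int.cast_zero, zero_smul]), ← hc, Finsupp.sum]
    refine Finset.sum_congr rfl fun v _ => ?_
    by_cases hv : v ∈ D.S0
    · rw [D.q_zero v hv, smul_zero, smul_zero]
    · rw [if_neg hv, Int.cast_natCast, ZMod.natCast_zmod_val]

/-- the element of given class is a product of generators -/
theorem gqb_spec (hp : p.Prime) (D : RD0 K p ζ) (ρ : Fin D.r → ZMod p) :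
    ∃ n : Pl K →₀ ℤ, (∀ v ∈ D.S0, n v = 0) ∧
      (n.sum fun v k => (k : ZMod p) • D.q v) = ρ ∧
      xq D ρ = n.prod fun v k => D.pi v ^ k := by
  have h := xq_ex hp D ρ
  exact ⟨h.choose, h.choose_spec.1, h.choose_spec.2, by rw [xq, dif_pos h]⟩

theorem gqb_prod (hp : p.Prime) (hζ : IsPrimitiveRoot ζ p) (D : RD0 K p ζ)
    (n : Pl K →₀ ℤ) (σ : Gal(Ω/K)) : kk p ζ (n.prod fun v k => D.pi v ^ k) σ =
      n.sum fun v k => (k : ZMod p) * kk p ζ (D.pi v) σ := by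
  rw [Finsupp.prod, kk_prod_arg hp hζ, Finsupp.sum]
  exact Finset.sum_congr rfl fun v _ => kk_zpow_arg hp hζ _ _ σ

theorem xq_cls (hp : p.Prime) (hp2 : MOne p K) (hζ : IsPrimitiveRoot ζ p) (D : RD0 K p ζ)
    (Q : DP K Ω) (n : Pl K →₀ ℤ) (hn : ∀ v ∈ D.S0, n v = 0) (v : Pl K) (hv : v ∈ D.S0)
    (σ : Gal(Ω/K)) (hσ : σ ∈ dec (K := K) (Q.P v)) :
    kk p ζ (n.prod fun v k => D.pi v ^ k) σ =
      kk p ζ (xq D (n.sum fun v k => (k : ZMod p) • D.q v)) σ := by
  obtain ⟨n', h1, h2, h3⟩ := gqb_spec hp D (n.sum fun v k => (k : ZMod p) • D.q v)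
  rw [h3, gqb_prod hp hζ, gqb_prod hp hζ, ← sub_eq_zero,
    ← Finsupp.sum_sub_index (fun a b₁ b₂ => by push_cast; ring), ← gqb_prod hp hζ]
  refine ps_triv hp hp2 hζ D Q _ (D.prim_of (n - n') (fun v hv => ?_) ?_) v hv σ hσ
  · rw [Finsupp.sub_apply, hn v hv, h1 v hv, sub_zero]
  · rw [Finsupp.sum_sub_index (fun a b₁ b₂ => by rw [Int.cast_sub, sub_smul]), h2, sub_self]

theorem xq_add (hp : p.Prime) (hp2 : MOne p K) (hζ : IsPrimitiveRoot ζ p) (D : RD0 K p ζ)
    (Q : DP K Ω) (ρ ρ' : Fin D.r → ZMod p) (v : Pl K) (hv : v ∈ D.S0)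
    (σ : Gal(Ω/K)) (hσ : σ ∈ dec (K := K) (Q.P v)) :
    kk p ζ (xq D (ρ + ρ')) σ = kk p ζ (xq D ρ) σ + kk p ζ (xq D ρ') σ := by
  obtain ⟨n, h1, h2, h3⟩ := gqb_spec hp D ρ
  obtain ⟨n', h1', h2', h3'⟩ := gqb_spec hp D ρ'
  have h4 : ((n + n').sum fun v k => (k : ZMod p) • D.q v) = ρ + ρ' := by
    rw [Finsupp.sum_add_index' (fun v => by rw [Int.cast_zero, zero_smul])
      (fun v b₁ b₂ => by rw [Int.cast_add, add_smul]), h2, h2']
  have h5 := xq_cls hp hp2 hζ D Q (n + n') (fun v hv => by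
    rw [Finsupp.add_apply, h1 v hv, h1' v hv, add_zero]) v hv σ hσ
  rw [h4] at h5
  rw [← h5, h3, h3', gqb_prod hp hζ, gqb_prod hp hζ, gqb_prod hp hζ,
    Finsupp.sum_add_index' (fun v => by rw [Int.cast_zero, zero_mul])
      (fun v b₁ b₂ => by rw [Int.cast_add, add_mul])]

theorem xq_fin (hp : p.Prime) (hp2 : MOne p K) (hζ : IsPrimitiveRoot ζ p) (D : RD0 K p ζ)
    (Q : DP K Ω) (n : Finset (Pl K)) (hn : ∀ v ∈ n, v ∉ D.S0) (v : Pl K) (hv : v ∈ D.S0)
    (σ : Gal(Ω/K)) (hσ : σ ∈ dec (K := K) (Q.P v)) :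
    kk p ζ (xq D (qf D n)) σ = ∑ w ∈ n, kk p ζ (D.pi w) σ := by
  have h0 : ∀ w, (if w ∈ n then (1 : ℤ) else 0) ≠ 0 → w ∈ n := by
    intro w hw
    by_contra h
    exact hw (if_neg h)
  obtain ⟨m, hm⟩ : ∃ m : Pl K →₀ ℤ, m = Finsupp.onFinset n
    (fun w => if w ∈ n then (1 : ℤ) else 0) h0 := ⟨_, rfl⟩
  have h1 : (m.sum fun v k => (k : ZMod p) • D.q v) = qf D n := by
    rw [hm, Finsupp.onFinset_sum _ (fun v => by rw [Int.cast_zero, zero_smul]), qf]
    refine Finset.sum_congr rfl fun w hw => ?_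
    rw [if_pos hw, Int.cast_one, one_smul]
  have h2 := xq_cls hp hp2 hζ D Q m (fun w hw => by
    rw [hm, Finsupp.onFinset_apply, if_neg (fun h => hn w h hw)]) v hv σ hσ
  rw [h1] at h2
  rw [← h2, gqb_prod hp hζ, hm,
    Finsupp.onFinset_sum _ (fun v => by rw [Int.cast_zero, zero_mul])]
  refine Finset.sum_congr rfl fun w hw => ?_
  rw [if_pos hw, Int.cast_one, one_mul]

theorem psi_ft (hp : p.Prime) (hζ : IsPrimitiveRoot ζ p) (D : RD0 K p ζ)
    (Dg : GT p m u w N G) (q : Fin N → Fin D.r → ZMod p) :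
    H38.ML.FT (psi (Ω := Ω) D Dg q) := by
  unfold psi
  exact Finset.prod_induction _ (fun χ => H38.ML.FT χ) (fun a b ha hb => chb_ft_mul ha hb)
    chb_ft_one fun i _ => kw_ft hp hζ _ _

theorem psf_ft (hp : p.Prime) (hζ : IsPrimitiveRoot ζ p) (D : RD0 K p ζ)
    (Dg : GT p m u w N G) (f : Fin N → Finset (Pl K)) :
    H38.ML.FT (psf (Ω := Ω) D Dg f) := by
  unfold psf
  refine Finset.prod_induction _ (fun χ => H38.ML.FT χ) (fun a b ha hb => chb_ft_mul ha hb)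
    chb_ft_one fun i _ => ?_
  exact Finset.prod_induction _ (fun χ => H38.ML.FT χ) (fun a b ha hb => chb_ft_mul ha hb)
    chb_ft_one fun v _ => kw_ft hp hζ _ _

theorem psf_t (hp : p.Prime) (hζ : IsPrimitiveRoot ζ p) (D : RD0 K p ζ) (L : LDs D Ω)
    (Dg : GT p m u w N G) (f : Fin N → Finset (Pl K)) (hf : Ok D f) (v : Pl K)
    (hv : v ∉ D.S0) :
    (∀ i, Dg.y i = 0 → v ∈ f i → psf D Dg f (L.t v) = Multiplicative.ofAdd (Dg.a i)) ∧
      ((∀ i, Dg.y i = 0 → v ∉ f i) → psf D Dg f (L.t v) = 1) := by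
  have h1 : ∀ i, v ∈ f i → ∏ w ∈ f i, (kw (Ω := Ω) p ζ (D.pi w) (Dg.a i)) (L.t v) =
      Multiplicative.ofAdd (Dg.a i) := by
    intro i hi
    rw [Finset.prod_eq_single v]
    · rw [kw_apply, (kk_pi hp hζ D L v v hv hv).1 rfl, one_smul]
    · intro w hw hne
      rw [kw_apply, (kk_pi hp hζ D L w v (hf.2 i w hw) hv).2 hne, zero_smul, ofAdd_zero]
    · intro h
      exact absurd hi h
  have h2 : ∀ i, v ∉ f i → ∏ w ∈ f i, (kw (Ω := Ω) p ζ (D.pi w) (Dg.a i)) (L.t v) = 1 := by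
    intro i hi
    refine Finset.prod_eq_one fun w hw => ?_
    rw [kw_apply, (kk_pi hp hζ D L w v (hf.2 i w hw) hv).2 (fun h => hi (h ▸ hw)), zero_smul,
      ofAdd_zero]
  have h3 : psf D Dg f (L.t v) = ∏ i ∈ Finset.univ.filter (fun i => Dg.y i = 0),
      ∏ w ∈ f i, (kw (Ω := Ω) p ζ (D.pi w) (Dg.a i)) (L.t v) := by
    rw [psf, MonoidHom.finsetProd_apply]
    exact Finset.prod_congr rfl fun i _ => MonoidHom.finsetProd_apply _ _ _
  refine ⟨fun i hy hi => ?_, fun h => ?_⟩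
  · rw [h3, Finset.prod_eq_single i]
    · exact h1 i hi
    · intro j _ hne
      exact h2 j fun hj => (Finset.disjoint_left.1 (hf.1 j i hne)) hj hi
    · intro h
      exact absurd (Finset.mem_filter.2 ⟨Finset.mem_univ i, hy⟩) h
  · rw [h3]
    exact Finset.prod_eq_one fun i hi => h2 i (h i (Finset.mem_filter.1 hi).2)

theorem psi_add (hp : p.Prime) (hp2 : MOne p K) (hζ : IsPrimitiveRoot ζ p) (D : RD0 K p ζ)
    (Q : DP K Ω) (Dg : GT p m u w N G) (q q' : Fin N → Fin D.r → ZMod p) :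
    Teq D.S0 Q (psi D Dg (q + q')) (psi D Dg q * psi D Dg q') := by
  intro v hv σ hσ
  rw [MonoidHom.mul_apply, psi, psi, psi, MonoidHom.finsetProd_apply,
    MonoidHom.finsetProd_apply, MonoidHom.finsetProd_apply, ← Finset.prod_mul_distrib]
  refine Finset.prod_congr rfl fun i _ => ?_
  rw [kw_apply, kw_apply, kw_apply, Pi.add_apply, xq_add hp hp2 hζ D Q _ _ v hv σ hσ, add_smul,
    ofAdd_add]

theorem psi_f (hp : p.Prime) (hp2 : MOne p K) (hζ : IsPrimitiveRoot ζ p) (D : RD0 K p ζ)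
    (Q : DP K Ω) (Dg : GT p m u w N G) (f : Fin N → Finset (Pl K)) (hf : Ok D f) :
    Teq D.S0 Q (psf D Dg f) (psi D Dg fun i => qf D (f i)) := by
  intro v hv σ hσ
  rw [psf, psi, MonoidHom.finsetProd_apply, MonoidHom.finsetProd_apply]
  refine Finset.prod_congr rfl fun i _ => ?_
  rw [MonoidHom.finsetProd_apply, kw_apply,
    xq_fin hp hp2 hζ D Q (f i) (hf.2 i) v hv σ hσ, Finset.sum_smul, ofAdd_sum]
  exact Finset.prod_congr rfl fun w _ => kw_apply _ _ _

end H38.AS
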