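import Pool.Agent.H63.MA.PzS
import Pool.Agent.H63.MA.GBase

/-!
# [H38 AS KST] primes in one Kummer step, 60-110 lines. File Pool/Agent/H38/AS/KStep.lean

`H : Kum p K ζ c L` (degree `p`), `v ∤ p`, `ord v c = 0`. (1) If `lg v c = 0` then exactly `p` primes `w` of `L` lie over `v`, all with `nm w = nm v`, and `ord w (inc x) = 0`, `lg w (inc x) = lg v x` for `ord v x = 0`. (2) If `lg v c ≠ 0` then `nm w ≠ nm v` for all `w` over `v`.

Proof. `B_unit` (`MA/SymC`): `B p ζ v c x = ord v x * lg v c`. (1) so `Spl p ζ v c`; `spl_split` (`MA/KumC`), `split_case` (`MA/KumB`: `nm w = nm v`, `ord w (inc x) = ord v x`). `bc_data` (`MA/GBase`): `lg w (inc x) = f * lg v x` with `nm w = nm v ^ f`; `nm v ≥ 2` (`one_lt_nm`), so `f = 1`.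
(2) not `Spl` (take `x` with `ord v x = 1`: search for the existence of a uniformizer in `MA/SymA`-`SymC`/`KumC`; e.g. the contrapositive of a lemma used in `inert_case` or `pzs_split`); `inert_case` gives `nm w = nm v ^ p`, `p ≥ 2`. Or: `bc_data` with `inc c = γ^p` as in `bc_inert`: `f * lg v c = 0` in `ZMod p`, so `p ∣ f`, and `nm w = nm v ^ f ≠ nm v` as `f ≠ 1`.
-/

set_option autoImplicit false

open scoped NumberField
open IsDedekindDomain

noncomputable section

namespace H38.AS

open H63.MA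

variable {K : Type} [Field K] [NumberField K] {L : Type} [Field L] [NumberField L] [Algebra K L]
  {p : ℕ} {ζ : K}

private theorem kst_pow {v : Pl K} {f : ℕ} (h : nm v = nm v ^ f) : f = 1 := by
  have h1 := one_lt_nm v
  have h2 : nm v ^ 1 = nm v ^ f := by rw [pow_one]; exact h
  exact (Nat.pow_right_injective h1 h2).symm

theorem kst (hp : p.Prime) (hζ : IsPrimitiveRoot ζ p) {c : Kˣ} (H : Kum p K ζ c L) {v : Pl K}
    (hv : ¬ Above p v) (hc : ord v c = 0) :
    (lg p ζ v c = 0 → {w : Pl L | Over w v}.ncard = p ∧ ∀ w : Pl L, Over w v → nm w = nm v ∧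
      ∀ x : Kˣ, ord v x = 0 → ord w (inc K L x) = 0 ∧
        lg p (algebraMap K L ζ) w (inc K L x) = lg p ζ v x) ∧
    (lg p ζ v c ≠ 0 → ∀ w : Pl L, Over w v → nm w ≠ nm v) := by
  constructor
  · intro h0
    have hspl : Spl p ζ v c := by
      intro x
      rw [B_unit hp hζ hv hc x, h0, mul_zero]
    have hn := spl_split hp hζ H hv hspl
    refine ⟨hn, fun w hw => ?_⟩
    obtain ⟨h1, h2, -⟩ := split_case hp hζ H hn hw
    refine ⟨h2, fun x hx => ⟨by rw [h1, hx], ?_⟩⟩
    obtain ⟨e, f, hf, -, hlg, -⟩ := bc_data hp hζ hw hv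
    have hf1 : f = 1 := kst_pow (by rw [← hf, h2])
    rw [hlg x hx, hf1, Nat.cast_one, one_mul]
  · intro h0 w hw hnm
    obtain ⟨e, f, hf, he, hlg, -⟩ := bc_data hp hζ hw hv
    have hf1 : f = 1 := kst_pow (by rw [← hf, hnm])
    have hwa : ¬ Above p w := fun hcon => hv ((above_over hw p).1 hcon)
    have hζ' : IsPrimitiveRoot (algebraMap K L ζ) p := GBase_zeta hζ
    have hγ : inc K L c = H.γ ^ (p : ℤ) := by
      rw [zpow_natCast]
      apply Units.ext
      rw [Units.val_pow_eq_pow_val, H.hγ]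
      rfl
    have h1 : ord w (inc K L c) = 0 := by rw [he, hc, mul_zero]
    have h2 : ord w H.γ = 0 := by
      rw [hγ, ord_zpow] at h1
      rcases mul_eq_zero.1 h1 with h | h
      · exfalso
        exact hp.ne_zero (by exact_mod_cast h)
      · exact h
    have h3 : lg p (algebraMap K L ζ) w (inc K L c) = 0 := by
      rw [hγ, lg_zpow hp hζ' hwa h2, Int.cast_natCast, ZMod.natCast_self, zero_mul]
    rw [hlg c hc, hf1, Nat.cast_one, one_mul] at h3
    exact h0 h3

end H38.AS
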