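import Pool.Agent.H38.AS.KStep
import Pool.Agent.H63.MA.GNorm

/-!
# [H38 AS KTW] primes in a multi-Kummer extension, 130-200 lines. File Pool/Agent/H38/AS/KTow.lean

`c : Fin d → Kˣ` independent modulo `p`-th powers. There is an extension `M / K` of degree `p^d` such that for `v ∤ p` with `ord v (c k) = 0` for all `k` the number of primes `w` of `M` over `v` with `nm w = nm v` is `p^d` if `lg v (c k) = 0` for all `k`, and `0` otherwise.

Proof. Induction on `d`, for all `K`. `d = 0`: `M = K` (`Algebra.id`; `Over w v` iff `w = v`: `Ideal.comap` of the identity; `HeightOneSpectrum.ext`). Step `d + 1`: `c 0` is not a `p`-th power (hypothesis for the unit vector), `kum_exists` (`MA/KumA`) gives `L = K((c 0)^{1/p})`, `Kum p K ζ (c 0) L`, of degree `p`.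
The elements `c' k = inc K L (c k.succ)` are independent modulo `p`-th powers in `L`: let `j ≠ 0`, `A = ∏_k (c k.succ)^(j k).val`; `inc K L A` is not a `p`-th power by `gnorm_indep` (`MA/GNorm`): if `A^i (c 0)^{i'}` is a `p`-th power then so is `∏_k (c k)^{(J k).val}` with `J = (i', i j_0, i j_1, …)` modulo `p` (the exponents agree modulo `p`), so `J = 0`,
`p ∣ i'` and `p ∣ i` (as `j ≠ 0`). Let `M / L` be given by the induction hypothesis for `c'` and `algebraMap K L ζ` (primitive, `IsPrimitiveRoot.map_of_injective`). `M` is a `K`-algebra via `((algebraMap L M).comp (algebraMap K L)).toAlgebra`, `IsScalarTower K L M`, `finrank K M = finrank K L * finrank L M` (`Module.finrank_mul_finrank`).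
Primes: `Over w v` (`K`-`M`) iff there is `u : Pl L` (the prime below `w`, `exists_below`, unique) with `Over w u` and `Over u v` (`Ideal.comap_comap` with the algebra maps on the rings of integers: the map `𝓞 K → 𝓞 M` is the composition, `IsScalarTower` for the rings of integers or `RingHom.ext`). `nm u = nm v ^ f`, `nm w = nm u ^ f'` (`nm_over`), so `nm w = nm v` iff
`nm u = nm v` and `nm w = nm u`. If `lg v (c 0) ≠ 0`: none by `kst` (2), and the right side is `0`. If `lg v (c 0) = 0`: the set is the disjoint union over the `p` primes `u` over `v` of `{w | Over w u ∧ nm w = nm u}`, each of `p^d` resp. `0` elements by the induction hypothesis (`¬ Above p u` by `above_over`; `ord u (c' k) = 0`, `lg u (c' k) = lg v (c k.succ)` by `kst` (1)).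
(`over_finite` for finiteness; `Set.ncard` of a finite disjoint union, e.g. via `Finset.card_biUnion` or `Finset.card_eq_sum_card_fiberwise`.)
-/

set_option autoImplicit false

open scoped NumberField
open IsDedekindDomain
open scoped Classical

noncomputable section

namespace H38.AS

open H63.MA

theorem ktw_trans {K L M : Type} [Field K] [NumberField K] [Field L] [NumberField L]
    [Field M] [NumberField M] [Algebra K L] [Algebra L M] [Algebra K M] [IsScalarTower K L M]
    {w : Pl M} {u : Pl L} {v : Pl K} (h1 : Over w u) (h2 : Over u v) : Over w v := by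
  have e : algebraMap (𝓞 K) (𝓞 M) =
      (algebraMap (𝓞 L) (𝓞 M)).comp (algebraMap (𝓞 K) (𝓞 L)) := by
    ext x
    exact IsScalarTower.algebraMap_apply K L M (x : K)
  unfold Over at *
  rw [e, ← Ideal.comap_comap, h1, h2]

theorem ktw_self {K : Type} [Field K] [NumberField K] {w v : Pl K} :
    Over w v ↔ w = v := by
  have e : Over w v = (w.asIdeal = v.asIdeal) := by
    unfold Over
    congr 1
  rw [e]
  exact ⟨fun h => HeightOneSpectrum.ext h, fun h => by rw [h]⟩

theorem ktw_val {G : Type} [CommGroup G] (p : ℕ) (hp : p ≠ 0) (c : G) (n : ℕ) :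
    ∃ y : G, c ^ n = c ^ ((n : ZMod p)).val * y ^ p := by
  have : NeZero p := ⟨hp⟩
  refine ⟨c ^ (n / p), ?_⟩
  rw [ZMod.val_natCast, ← pow_mul, ← pow_add]
  congr 1
  rw [mul_comm]
  exact (Nat.mod_add_div n p).symm

theorem ktw_ind {K : Type} [Field K] {p : ℕ} (hp : p.Prime) {d : ℕ} (c : Fin (d + 1) → Kˣ)
    (hc : ∀ j : Fin (d + 1) → ZMod p, j ≠ 0 → ¬ IsPow p (∏ k, c k ^ (j k).val))
    (j : Fin d → ZMod p) (hj : j ≠ 0) (a b : ℕ)
    (h : IsPow p ((∏ k, c (Fin.succ k) ^ (j k).val) ^ a * c 0 ^ b)) : p ∣ a ∧ p ∣ b := by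
  have hf : Fact p.Prime := ⟨hp⟩
  let J : Fin (d + 1) → ZMod p := Fin.cons (b : ZMod p) (fun k => (a : ZMod p) * j k)
  have h0 : J 0 = (b : ZMod p) := rfl
  have hs : ∀ k : Fin d, J k.succ = (a : ZMod p) * j k := fun k => rfl
  have hJ : J = 0 := by
    by_contra hne
    apply hc J hne
    obtain ⟨y, hy⟩ := h
    obtain ⟨y0, hy0⟩ := ktw_val p hp.ne_zero (c 0) b
    have h1 : ∀ k : Fin d, ∃ z : Kˣ, (c k.succ ^ (j k).val) ^ a =
        c k.succ ^ (J k.succ).val * z ^ p := by
      intro k
      obtain ⟨z, hz⟩ := ktw_val p hp.ne_zero (c k.succ) ((j k).val * a)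
      refine ⟨z, ?_⟩
      rw [← pow_mul, hz, hs]
      congr 3
      push_cast
      rw [ZMod.natCast_zmod_val, mul_comm]
    choose z hz using h1
    refine ⟨y * (y0 * ∏ k, z k)⁻¹, ?_⟩
    have h2 : (∏ k, c (Fin.succ k) ^ (j k).val) ^ a * c 0 ^ b =
        (∏ k, c k ^ (J k).val) * (y0 * ∏ k, z k) ^ p := by
      rw [Fin.prod_univ_succ, h0, hy0, ← Finset.prod_pow, Finset.prod_congr rfl fun k _ => hz k,
        Finset.prod_mul_distrib, Finset.prod_pow, mul_pow]
      simp only [mul_assoc, mul_comm, mul_left_comm]
    rw [mul_pow, inv_pow, hy, h2, mul_inv_cancel_right]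
  have hb : (b : ZMod p) = 0 := by rw [← h0, hJ]; rfl
  refine ⟨?_, (ZMod.natCast_eq_zero_iff _ _).1 hb⟩
  obtain ⟨k, hk⟩ : ∃ k, j k ≠ 0 := by
    by_contra hcon
    push Not at hcon
    exact hj (funext hcon)
  have ha : (a : ZMod p) * j k = 0 := by rw [← hs, hJ]; rfl
  rcases mul_eq_zero.1 ha with h1 | h1
  · exact (ZMod.natCast_eq_zero_iff _ _).1 h1
  · exact absurd h1 hk

theorem ktw (d : ℕ) : ∀ (K : Type) [Field K] [NumberField K] (p : ℕ) (_ : p.Prime) (ζ : K)
    (_ : IsPrimitiveRoot ζ p) (c : Fin d → Kˣ)
    (_ : ∀ j : Fin d → ZMod p, j ≠ 0 → ¬ IsPow p (∏ k, c k ^ (j k).val)),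
    ∃ (M : Type) (_ : Field M) (_ : NumberField M) (_ : Algebra K M),
      Module.finrank K M = p ^ d ∧ ∀ v : Pl K, ¬ Above p v → (∀ k, ord v (c k) = 0) →
        {w : Pl M | Over w v ∧ nm w = nm v}.ncard =
          if ∀ k, lg p ζ v (c k) = 0 then p ^ d else 0 := by
  induction d with
  | zero =>
    intro K _ _ p hp ζ hζ c hc
    refine ⟨K, inferInstance, inferInstance, Algebra.id K, ?_, ?_⟩
    · rw [pow_zero]
      exact Module.finrank_self K
    · intro v hv ho
      rw [if_pos (fun k => k.elim0), pow_zero]
      have : {w : Pl K | Over w v ∧ nm w = nm v} = {v} := by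
        ext w
        simp only [Set.mem_setOf_eq, Set.mem_singleton_iff]
        constructor
        · rintro ⟨h, -⟩
          exact ktw_self.1 h
        · rintro rfl
          exact ⟨ktw_self.2 rfl, rfl⟩
      rw [this, Set.ncard_singleton]
  | succ d ih =>
    intro K _ _ p hp ζ hζ c hc
    have hf : Fact p.Prime := ⟨hp⟩
    have h0 : ¬ IsPow p (c 0) := by
      have h1 := hc (Pi.single 0 1) (by simp)
      have h2 : ∏ k, c k ^ ((Pi.single 0 1 : Fin (d + 1) → ZMod p) k).val = c 0 := by
        rw [Finset.prod_eq_single 0]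
        · rw [Pi.single_eq_same, ZMod.val_one, pow_one]
        · intro k _ hk
          rw [Pi.single_eq_of_ne hk, ZMod.val_zero, pow_zero]
        · intro h
          exact absurd (Finset.mem_univ _) h
      rwa [h2] at h1
    obtain ⟨L, iL1, iL2, iL3, ⟨H⟩⟩ := kum_exists hp hζ h0
    have hζ' : IsPrimitiveRoot (algebraMap K L ζ) p :=
      hζ.map_of_injective (algebraMap K L).injective
    obtain ⟨M, iM1, iM2, iM3, hdeg, hM⟩ := ih L p hp (algebraMap K L ζ) hζ'
      (fun k => inc K L (c k.succ)) (by
        intro j hj hpow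
        have e : ∏ k, inc K L (c (Fin.succ k)) ^ (j k).val =
            inc K L (∏ k, c (Fin.succ k) ^ (j k).val) := by
          rw [map_prod]
          exact Finset.prod_congr rfl fun k _ => (map_pow _ _ _).symm
        rw [e] at hpow
        exact gnorm_indep hp hζ H (fun a b => ktw_ind hp c hc j hj a b) hpow)
    let iKM : Algebra K M := ((algebraMap L M).comp (algebraMap K L)).toAlgebra
    have iT : IsScalarTower K L M := IsScalarTower.of_algebraMap_eq' rfl
    refine ⟨M, iM1, iM2, iKM, ?_, ?_⟩
    · rw [← Module.finrank_mul_finrank K L M, H.deg, hdeg, pow_succ, mul_comm]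
    · intro v hv ho
      have hmem : ∀ w : Pl M, (Over w v ∧ nm w = nm v) ↔
          ∃ u : Pl L, (Over u v ∧ nm u = nm v) ∧ Over w u ∧ nm w = nm u := by
        intro w
        constructor
        · rintro ⟨h1, h2⟩
          obtain ⟨u, hu⟩ := exists_below (K := L) w
          obtain ⟨v', hv'⟩ := exists_below (K := K) u
          have e : v' = v := below_unique (ktw_trans hu hv') h1
          subst e
          obtain ⟨f, hf1, hf⟩ := nm_over hv'
          obtain ⟨g, hg1, hg⟩ := nm_over hu
          have hn := one_lt_nm v'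
          rw [hg, hf, ← pow_mul] at h2
          have h3 : f * g = 1 := by
            have := Nat.pow_right_injective (show 2 ≤ nm v' by omega)
              (show nm v' ^ (f * g) = nm v' ^ 1 by rw [h2, pow_one])
            exact this
          have hf' : f = 1 := Nat.eq_one_of_mul_eq_one_right h3
          have hg' : g = 1 := Nat.eq_one_of_mul_eq_one_left h3
          refine ⟨u, ⟨hv', by rw [hf, hf', pow_one]⟩, hu, by rw [hg, hg', pow_one]⟩
        · rintro ⟨u, ⟨h1, h2⟩, h3, h4⟩
          exact ⟨ktw_trans h3 h1, h4.trans h2⟩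
      obtain ⟨k1, k2⟩ := kst hp hζ H hv (ho 0)
      by_cases hl : lg p ζ v (c 0) = 0
      · obtain ⟨k3, k4⟩ := k1 hl
        have hU : {u : Pl L | Over u v ∧ nm u = nm v} = {u : Pl L | Over u v} := by
          ext u
          exact ⟨fun h => h.1, fun h => ⟨h, (k4 u h).1⟩⟩
        have hfin1 : {u : Pl L | Over u v}.Finite := over_finite v
        have hfin2 : {w : Pl M | Over w v ∧ nm w = nm v}.Finite :=
          (over_finite v).subset fun w hw => hw.1
        set N : ℕ := if ∀ k : Fin d, lg p ζ v (c k.succ) = 0 then p ^ d else 0 with hN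
        have hfib : ∀ u : Pl L, Over u v →
            {w : Pl M | Over w u ∧ nm w = nm u}.ncard = N := by
          intro u hu
          have hau : ¬ Above p u := fun h => hv ((above_over hu p).1 h)
          have h1 := hM u hau (fun k => ((k4 u hu).2 (c k.succ) (ho k.succ)).1)
          rw [h1, hN]
          have h2 : (∀ k : Fin d, lg p (algebraMap K L ζ) u (inc K L (c k.succ)) = 0) ↔
              ∀ k : Fin d, lg p ζ v (c k.succ) = 0 :=
            forall_congr' fun k => by rw [((k4 u hu).2 (c k.succ) (ho k.succ)).2]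
          by_cases h3 : ∀ k : Fin d, lg p ζ v (c k.succ) = 0
          · rw [if_pos h3, if_pos (h2.2 h3)]
          · rw [if_neg h3, if_neg (fun h => h3 (h2.1 h))]
        have hcount : {w : Pl M | Over w v ∧ nm w = nm v}.ncard = p * N := by
          rw [Set.ncard_eq_toFinset_card _ hfin2,
            Finset.card_eq_sum_card_fiberwise (f := fun w : Pl M => pzs_bel L w)
              (t := hfin1.toFinset)]
          · rw [Finset.sum_congr rfl (fun u hu => ?_ : ∀ u ∈ hfin1.toFinset, _ = N),
              Finset.sum_const, smul_eq_mul, ← Set.ncard_eq_toFinset_card _ hfin1, k3]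
            have hu' : Over u v := by simpa using hu
            rw [← hfib u hu', ← Set.ncard_coe_finset]
            congr 1
            ext w
            simp only [Finset.coe_filter, Set.Finite.mem_toFinset, Set.mem_setOf_eq]
            constructor
            · rintro ⟨⟨h1, h2⟩, h3⟩
              exact ⟨pzs_bel_iff.2 h3, h2.trans (k4 u hu').1.symm⟩
            · rintro ⟨h1, h2⟩
              exact ⟨⟨ktw_trans h1 hu', h2.trans (k4 u hu').1⟩, pzs_bel_iff.1 h1⟩
          · intro w hw
            have hw' : Over w v ∧ nm w = nm v := by simpa using hw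
            obtain ⟨u, ⟨h1, h2⟩, h3, h4⟩ := (hmem w).1 hw'
            have e : pzs_bel L w = u := pzs_bel_iff.1 h3
            have : pzs_bel L w ∈ hfin1.toFinset := by
              rw [Set.Finite.mem_toFinset, e]
              exact h1
            exact this
        rw [hcount, hN]
        by_cases h3 : ∀ k : Fin d, lg p ζ v (c k.succ) = 0
        · rw [if_pos h3, if_pos (fun k => by
            refine Fin.cases hl (fun i => h3 i) k), pow_succ, mul_comm]
        · rw [if_neg h3, if_neg (fun h => h3 fun k => h k.succ), mul_zero]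
      · rw [if_neg (fun h => hl (h 0))]
        have : {w : Pl M | Over w v ∧ nm w = nm v} = ∅ := by
          ext w
          simp only [Set.mem_setOf_eq, Set.mem_empty_iff_false, iff_false]
          intro hw
          obtain ⟨u, ⟨h1, h2⟩, -, -⟩ := (hmem w).1 hw
          exact k2 hl u h1 h2
        rw [this, Set.ncard_empty]

end H38.AS
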