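import Pool.Agent.H38.BB.CLb

/-!
# [H38 AS MCL] the phase of a main term is a function of the classes, 60-100 lines (as lb_phase in H38/BB/CLb). File Pool/Agent/H38/AS/MCls.lean

`b` of order `0` outside `S0`, `ϑ` unlinked (`Unl`). For pairwise disjoint families `f` of good primes the phase `∑_i ∑_{v ∈ f i} ϑ_i · (LL v (akR b f k))_k` is a function of the classes `qf (f i)`.

Proof: the proof of `lb_phase` in `H38/BB/CLb.lean` (there all classes are `0`): let `g` be the refined family with `g ⟨i, ϑ_i⟩ = f i` and `∅` otherwise; `unR c g = f`, so by `rx_phase` the phase is `ph D c.pd b g` (`= ph2` with `E = ∅`). `ph_cls2` (`MB/BPhB`) with `E = ∅`, `Lg` = the set of the `a` with `a.2.1 = ϑ a.1`, `s = fun _ => ∅` gives `F` (independent of `f`)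
with `ph2 g = F (a ↦ qf (g a))` for all these `g`; and `qf (g a)` is `qf (f a.1)` if `a.2.1 = ϑ a.1` and `0` (`qf ∅`) otherwise, a function of `i ↦ qf (f i)`.
-/

set_option autoImplicit false

open scoped NumberField
open IsDedekindDomain
open scoped Classical

noncomputable section

namespace H38.AS

open H63.MA H38.BB

variable {K : Type} [Field K] [NumberField K] {p : ℕ} {ζ : K} {m N : ℕ}

theorem mcl [NeZero p] (hp : p.Prime) (hp2 : MOne p K) (hζ : IsPrimitiveRoot ζ p)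
    (D : RD K p ζ) (c : CR p m N) (b : Fin m → Kˣ) (hb : BS2 D.toRD0 b ∅)
    (ϑ : Fin N → Fin m → ZMod p) (hϑ : Unl c ϑ) :
    ∃ F : (Fin N → Fin D.r → ZMod p) → ZMod p, ∀ f : Fin N → Finset (Pl K), Dj f →
      (∀ i, ∀ v ∈ f i, D.Gd v) →
      ∑ i, ∑ v ∈ f i, dt (ϑ i) (fun k => D.LL v (akR D.toRD0 c b f k)) =
        F fun i => qf D.toRD0 (f i) := by
  obtain ⟨Lg, hLg⟩ : ∃ Lg : Finset c.J, ∀ a, a ∈ Lg ↔ a.2.1 = ϑ a.1 :=
    ⟨Finset.univ.filter fun a => a.2.1 = ϑ a.1, fun a => by simp⟩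
  obtain ⟨F, hF, _⟩ := ph_cls2 hp hp2 hζ D c.pd b ∅ (fun _ => 0) hb Lg (fun _ => ∅)
    (by
      intro a ha a' ha'
      rw [hLg] at ha ha'
      unfold PD.lk
      have e1 : c.pd.θ a = ϑ a.1 := ha
      have e2 : c.pd.θ a' = ϑ a'.1 := ha'
      rw [e1, e2]
      exact hϑ.2 a.1 a'.1)
    (fun a _ l _ h => absurd rfl h)
    (fun a _ w hw => absurd hw (Finset.notMem_empty w))
  refine ⟨fun q => F fun a => if a.2.1 = ϑ a.1 then q a.1 else qf D.toRD0 (∅ : Finset (Pl K)),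
    fun f hf hg => ?_⟩
  obtain ⟨g, hgd⟩ : ∃ g : c.J → Finset (Pl K), ∀ a, g a = if a.2.1 = ϑ a.1 then f a.1 else ∅ :=
    ⟨_, fun _ => rfl⟩
  have hmem : ∀ a v, v ∈ g a → a.2.1 = ϑ a.1 ∧ v ∈ f a.1 := by
    intro a v hv
    rw [hgd] at hv
    by_cases h : a.2.1 = ϑ a.1
    · rw [if_pos h] at hv
      exact ⟨h, hv⟩
    · rw [if_neg h] at hv
      exact absurd hv (Finset.notMem_empty v)
  have hself : ∀ i, g ⟨i, ⟨ϑ i, hϑ.1 i⟩⟩ = f i := by
    intro i
    exact (hgd ⟨i, ⟨ϑ i, hϑ.1 i⟩⟩).trans (if_pos rfl)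
  have hun : unR c g = f := by
    funext i
    ext v
    rw [rx_mem]
    constructor
    · rintro ⟨a, rfl, hv⟩
      exact (hmem a v hv).2
    · intro hv
      refine ⟨⟨i, ⟨ϑ i, hϑ.1 i⟩⟩, rfl, ?_⟩
      rw [hself]
      exact hv
  have hgj : Dj g := by
    intro a a' haa
    rw [Finset.disjoint_left]
    intro v hv hv'
    obtain ⟨h1, h2⟩ := hmem a v hv
    obtain ⟨h3, h4⟩ := hmem a' v hv'
    by_cases hi : a.1 = a'.1
    · apply haa
      obtain ⟨i, θ, hθ⟩ := a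
      obtain ⟨i', θ', hθ'⟩ := a'
      change i = i' at hi
      subst hi
      change θ = ϑ i at h1
      change θ' = ϑ i at h3
      subst h1
      subst h3
      rfl
    · exact (Finset.disjoint_left.1 (hf _ _ hi)) h2 h4
  have hgood : ∀ a, ∀ v ∈ g a, D.Gd v := fun a v hv => hg _ v (hmem a v hv).2
  have hph := rx_phase hp hζ D c b g hgj (fun a v hv => (hgood a v hv).1)
  rw [hun] at hph
  have hL : ∑ i, ∑ v ∈ f i, dt (ϑ i) (fun k => D.LL v (akR D.toRD0 c b f k)) =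
      ∑ a, ∑ v ∈ g a, dt (c.pd.θ a) (fun k => D.LL v (akR D.toRD0 c b f k)) := by
    rw [psi_sum_sigma]
    apply Finset.sum_congr rfl
    intro i _
    rw [Finset.sum_eq_single (⟨ϑ i, hϑ.1 i⟩ : {θ : Fin m → ZMod p // θ ∈ c.Θ i})]
    · rw [hself]
      rfl
    · intro θ _ hθ
      have : g ⟨i, θ⟩ = ∅ :=
        (hgd ⟨i, θ⟩).trans (if_neg fun h => hθ (Subtype.ext h))
      rw [this, Finset.sum_empty]
    · intro h
      exact absurd (Finset.mem_univ _) h
  rw [hL, hph]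
  have hex : ∀ g' : c.J → Finset (Pl K), ph2 D.toRD0 c.pd b ∅ (fun _ => 0) g' =
      ph D.toRD0 c.pd b g' := by
    intro g'
    unfold ph2 ex
    simp
  have h1 := hF g ⟨⟨hgood, hgj⟩, fun _ => Finset.disjoint_empty_right _⟩ (by
    intro l hl
    rw [hgd]
    exact if_neg fun h => hl ((hLg l).2 h))
  rw [hex] at h1
  rw [h1]
  beta_reduce
  congr 1
  funext a
  rw [hgd]
  split_ifs <;> rfl

end H38.AS
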