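import Pool.Agent.H38.AS.QLa

/-!
# [H38 AS QLB] the different of a finite Galois extension over intermediate fields (helper77). File Pool/Agent/H38/AS/QLb.lean
-/

set_option autoImplicit false

open scoped NumberField Pointwise
open IsDedekindDomain

noncomputable section

namespace H38.AS

open H63.MA

variable {K : Type} [Field K] [NumberField K] {Ω : Type} [Field Ω] [Algebra K Ω]
  [IsAlgClosure K Ω]

/-- the multiplicity of `Q` in the different of `N/F` -/
def dxi (F N : IntermediateField K Ω) [NumberField F] [NumberField N] (h : F ≤ N)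
    (Q : Ideal (𝓞 N)) : ℕ :=
  letI : Algebra F N := (IntermediateField.inclusion h).toRingHom.toAlgebra
  H38.ML.dexp F N Q

theorem dxi_sum (F N : IntermediateField K Ω) [FiniteDimensional K F] [FiniteDimensional K N]
    [NumberField F] [NumberField N] (h : F ≤ N) (v : Pl K) (S : Finset (Ideal (𝓞 N)))
    (hS : ∀ P, P ∈ S ↔ P.IsPrime ∧ P.under (𝓞 K) = v.asIdeal) :
    Module.finrank K F * ldx K N v = Module.finrank K N * ldx K F v +
      Module.finrank K F * ∑ Q ∈ S, Q.inertiaDeg (𝓞 K) * dxi F N h Q := by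
  let : Algebra F N := (IntermediateField.inclusion h).toRingHom.toAlgebra
  have : IsScalarTower K F N := IsScalarTower.of_algebraMap_eq (fun x => rfl)
  have h1 := qla_sum K F N v S hS
  have h2 : Module.finrank K F * Module.finrank F N = Module.finrank K N :=
    Module.finrank_mul_finrank K F N
  rw [h1, mul_add, ← mul_assoc, h2]
  rfl

theorem dxi_up (F M N : IntermediateField K Ω) [FiniteDimensional K F] [FiniteDimensional K M]
    [FiniteDimensional K N] [NumberField F] [NumberField M] [NumberField N] [IsGalois K N]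
    (hFM : F ≤ M) (hMN : M ≤ N) (P : Ideal (𝓞 Ω)) (hP : P.IsPrime)
    (hP0 : P.under (𝓞 N) ≠ ⊥)
    (hI : ∀ σ ∈ P.inertia Gal(Ω/K), σ ∈ F.fixingSubgroup → σ ∈ M.fixingSubgroup) :
    dxi F N (hFM.trans hMN) (P.under (𝓞 N)) = dxi M N hMN (P.under (𝓞 N)) := by
  let : Algebra F N := (IntermediateField.inclusion (hFM.trans hMN)).toRingHom.toAlgebra
  let : Algebra M N := (IntermediateField.inclusion hMN).toRingHom.toAlgebra
  let : Algebra F M := (IntermediateField.inclusion hFM).toRingHom.toAlgebra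
  have : IsScalarTower K F N := IsScalarTower.of_algebraMap_eq (fun x => rfl)
  have : IsScalarTower F M N := IsScalarTower.of_algebraMap_eq (fun x => rfl)
  have : IsGalois F N := IsGalois.tower_top_of_isGalois K F N
  refine qla_in F M N (P.under (𝓞 N)) inferInstance hP0 ?_
  intro g hg m
  obtain ⟨τ, hτ, hτN⟩ := CDa_lift N P hP (AlgEquiv.restrictScalars K g) (fun x => hg x)
  have hfix : τ ∈ F.fixingSubgroup := by
    rw [IntermediateField.mem_fixingSubgroup_iff]
    intro x hx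
    have h1 := hτN ⟨x, hMN (hFM hx)⟩
    have h2 : g (algebraMap F N ⟨x, hx⟩) = algebraMap F N ⟨x, hx⟩ := g.commutes ⟨x, hx⟩
    have h3 : τ x = ((g (algebraMap F N ⟨x, hx⟩) : N) : Ω) := h1
    rw [h3, h2]
    rfl
  have hfixM := hI τ hτ hfix
  rw [IntermediateField.mem_fixingSubgroup_iff] at hfixM
  apply Subtype.ext
  have h4 := hτN (algebraMap M N m)
  have h5 : ((g (algebraMap M N m) : N) : Ω) = τ ((algebraMap M N m : N) : Ω) := h4.symm
  rw [h5]
  exact hfixM (m : Ω) m.2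

theorem dxi_in (F F' N : IntermediateField K Ω) [FiniteDimensional K F] [FiniteDimensional K F']
    [FiniteDimensional K N] [NumberField F] [NumberField F'] [NumberField N] [IsGalois K N]
    (h : F ≤ N) (h' : F' ≤ N) (P : Ideal (𝓞 Ω)) (hP : P.IsPrime)
    (hP0 : P.under (𝓞 N) ≠ ⊥)
    (hI : ∀ σ ∈ P.inertia Gal(Ω/K), σ ∈ F.fixingSubgroup ↔ σ ∈ F'.fixingSubgroup) :
    dxi F N h (P.under (𝓞 N)) = dxi F' N h' (P.under (𝓞 N)) := by
  have : FiniteDimensional K (F ⊔ F' : IntermediateField K Ω) := inferInstance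
  have : NumberField (F ⊔ F' : IntermediateField K Ω) :=
    NumberField.of_module_finite K (F ⊔ F' : IntermediateField K Ω)
  have hle : F ⊔ F' ≤ N := sup_le h h'
  have h1 := dxi_up F (F ⊔ F') N le_sup_left hle P hP hP0 (by
    intro σ hσ hL
    rw [IntermediateField.fixingSubgroup_sup]
    exact ⟨hL, (hI σ hσ).mp hL⟩)
  have h2 := dxi_up F' (F ⊔ F') N le_sup_right hle P hP hP0 (by
    intro σ hσ hL
    rw [IntermediateField.fixingSubgroup_sup]
    exact ⟨(hI σ hσ).mpr hL, hL⟩)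
  rw [h1, h2]

/-- every prime of `N` over `v` is the restriction of a conjugate of `P` -/
theorem dxi_tr (N : IntermediateField K Ω) [FiniteDimensional K N] [NumberField N] [IsGalois K N]
    (v : Pl K) (P : Ideal (𝓞 Ω)) (hP : P.IsPrime) (hPv : P.under (𝓞 K) = v.asIdeal)
    (Q : Ideal (𝓞 N)) (hQ : Q.IsPrime) (hQv : Q.under (𝓞 K) = v.asIdeal) :
    ∃ γ : Gal(Ω/K), (γ • P).under (𝓞 N) = Q := by
  have hgal : IsGalois K Ω := IsAlgClosure.isGalois K Ω
  have : (P.under (𝓞 N)).IsPrime := inferInstance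
  have hPQ : (P.under (𝓞 N)).under (𝓞 K) = v.asIdeal := by rw [Ideal.under_under, hPv]
  have : (P.under (𝓞 N)).LiesOver v.asIdeal := ⟨hPQ.symm⟩
  have : Q.LiesOver v.asIdeal := ⟨hQv.symm⟩
  have := v.isPrime
  obtain ⟨g, hg⟩ := Ideal.exists_smul_eq_of_isGaloisGroup v.asIdeal (P.under (𝓞 N)) Q Gal(N/K)
  obtain ⟨γ, hγ⟩ := AlgEquiv.restrictNormalHom_surjective (F := K) (K₁ := N) Ω g⁻¹
  have hγ2 : ∀ x : N, γ (x : Ω) = ((g⁻¹ x : N) : Ω) := by
    intro x
    have h1 := AlgEquiv.restrictNormal_commutes γ N x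
    have h2 : (γ.restrictNormal N) x = g⁻¹ x := DFunLike.congr_fun hγ x
    rw [h2] at h1
    exact h1.symm
  refine ⟨γ⁻¹, ?_⟩
  ext x
  rw [← hg, Ideal.mem_pointwise_smul_iff_inv_smul_mem]
  change algebraMap (𝓞 N) (𝓞 Ω) x ∈ γ⁻¹ • P ↔ algebraMap (𝓞 N) (𝓞 Ω) (g⁻¹ • x) ∈ P
  rw [Ideal.mem_pointwise_smul_iff_inv_smul_mem, inv_inv]
  have h3 : γ • (algebraMap (𝓞 N) (𝓞 Ω) x) = algebraMap (𝓞 N) (𝓞 Ω) (g⁻¹ • x) := by
    apply NumberField.RingOfIntegers.ext
    exact hγ2 (x : N)
  rw [h3]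

end H38.AS
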