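import Pool.Agent.H63.MC.CDb
import Pool.Agent.H38.AS.QLb
import Pool.Agent.H38.AS.QNk

/-!
# [H38 AS QLD] the discriminant exponent only depends on the restriction to the decomposition group, any transitive group (helper77). File Pool/Agent/H38/AS/QLd.lean

`G` transitive, `φ, φ' : Γ → G` surjective of finite type which agree on the decomposition group of `Q.P v`. Then the fields `fieldOf i₀ φ` and `fieldOf i₀ φ'` (not Galois in general) have the same local discriminant exponent at `v`.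

Proof. `N` a finite Galois extension of `K` which contains all fields `F i = fieldOf i φ`, `F' i = fieldOf i φ'`. By the tower formula `n · ldx K N v = [N:K] ldx K (F i) v + n ∑_Q f_Q d_i(Q)`, `d_i(Q)` the multiplicity of `Q` in the different of `N/F i`, `Q` over the primes of `N` over `v`. For `Q = γ𝔓 ∩ N` the multiplicity `d_i(Q)` is `d'_{i'}(Q)`, `i' = φ'(γ) φ(γ)⁻¹ i` (same intersection with the inertia group of `γ𝔓`). So `∑_i` of the formulas gives the claim, because the `F i` are isomorphic over `K`.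
-/

set_option autoImplicit false

open scoped NumberField Pointwise
open IsDedekindDomain H38.ML

noncomputable section

namespace H38.AS

open H63.MA

/-- the fields of the points are isomorphic -/
theorem qld_iso {n : ℕ} (G : Subgroup (Equiv.Perm (Fin n)))
    (hG : MulAction.IsPretransitive G (Fin n)) (K : IntermediateField ℚ QBar)
    (i₀ i : Fin n) (φ : Gal(QBar/K) →* G) (hφ : Function.Surjective φ) :
    Nonempty (fieldOf i₀ φ ≃ₐ[K] fieldOf i φ) := by
  obtain ⟨g, hg⟩ := hG.exists_smul_eq i₀ i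
  obtain ⟨τ, rfl⟩ := hφ g
  have key : ∀ γ : Gal(QBar/K), φ γ • i = i ↔ φ (τ⁻¹ * γ * τ) • i₀ = i₀ := by
    intro γ
    rw [map_mul, map_mul, map_inv, mul_smul, mul_smul, inv_smul_eq_iff, hg]
  have hmap : (fieldOf i₀ φ).map (τ : Gal(QBar/K)).toAlgHom = fieldOf i φ := by
    ext y
    rw [IntermediateField.mem_map, qn_mem]
    constructor
    · rintro ⟨x, hx, rfl⟩ γ hγ
      rw [qn_mem] at hx
      have h1 := hx _ ((key γ).1 hγ)
      rw [AlgEquiv.mul_apply, AlgEquiv.mul_apply] at h1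
      have h2 := congrArg τ h1
      have h3 : τ (τ⁻¹ (γ (τ x))) = γ (τ x) := τ.apply_symm_apply _
      rw [h3] at h2
      exact h2
    · intro h
      refine ⟨τ⁻¹ y, ?_, τ.apply_symm_apply y⟩
      rw [qn_mem]
      intro u hu
      have h1 := h (τ * u * τ⁻¹) ((key _).2 (by
        have h2 : τ⁻¹ * (τ * u * τ⁻¹) * τ = u := by group
        rw [h2]
        exact hu))
      rw [AlgEquiv.mul_apply, AlgEquiv.mul_apply] at h1
      have h2 := congrArg (τ⁻¹ : Gal(QBar/K)) h1
      have h3 : τ⁻¹ (τ (u (τ⁻¹ y))) = u (τ⁻¹ y) := τ.symm_apply_apply _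
      rw [h3] at h2
      exact h2
  rw [← hmap]
  exact ⟨IntermediateField.intermediateFieldMap τ (fieldOf i₀ φ)⟩

theorem qld_dec {K : Type} [Field K] [NumberField K] {Ω : Type} [Field Ω] [Algebra K Ω]
    (P : Ideal (𝓞 Ω)) (σ : Gal(Ω/K)) (hσ : σ ∈ P.inertia Gal(Ω/K)) : σ ∈ dec (K := K) P := by
  intro x
  have h1 : σ • x - x ∈ P := hσ x
  constructor
  · intro h
    have := P.sub_mem h h1
    rwa [sub_sub_cancel] at this
  · intro h
    have := P.add_mem h1 h
    rwa [sub_add_cancel] at this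

theorem qld_conj {K : Type} [Field K] [NumberField K] {Ω : Type} [Field Ω] [Algebra K Ω]
    (P : Ideal (𝓞 Ω)) (γ σ : Gal(Ω/K)) (hσ : σ ∈ (γ • P).inertia Gal(Ω/K)) :
    γ⁻¹ * σ * γ ∈ P.inertia Gal(Ω/K) := by
  intro x
  have h1 : σ • (γ • x) - γ • x ∈ γ • P := hσ (γ • x)
  rw [Ideal.mem_pointwise_smul_iff_inv_smul_mem, smul_sub, inv_smul_smul] at h1
  have h2 : (γ⁻¹ * σ * γ) • x = γ⁻¹ • (σ • (γ • x)) := by rw [mul_smul, mul_smul]
  rw [h2]
  exact h1

theorem ldc2 {n : ℕ} (G : Subgroup (Equiv.Perm (Fin n)))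
    (hG : MulAction.IsPretransitive G (Fin n)) (K : IntermediateField ℚ QBar) [NumberField K]
    (i₀ : Fin n) (Q : DP K QBar) (v : Pl K) (φ φ' : Gal(QBar/K) →* G)
    (hφ : Function.Surjective φ) (hft : FT φ) (hφ' : Function.Surjective φ') (hft' : FT φ')
    [NumberField (fieldOf i₀ φ)] [NumberField (fieldOf i₀ φ')]
    (h : ∀ σ ∈ dec (K := K) (Q.P v), φ σ = φ' σ) :
    ldx K (fieldOf i₀ φ) v = ldx K (fieldOf i₀ φ') v := by
  classical
  have hgal : IsGalois K QBar := IsAlgClosure.isGalois K QBar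
  have hn : 0 < n := i₀.pos
  -- the big field
  obtain ⟨E, hE, hEφ⟩ := id hft
  obtain ⟨E', hE', hEφ'⟩ := id hft'
  have hEE : FiniteDimensional K (E ⊔ E' : IntermediateField K QBar) := inferInstance
  obtain ⟨N, hN⟩ : ∃ N : IntermediateField K QBar, N =
    IntermediateField.normalClosure K (E ⊔ E' : IntermediateField K QBar) QBar := ⟨_, rfl⟩
  have hNfin : FiniteDimensional K N := by
    rw [hN]
    infer_instance
  have hNnf : NumberField N := NumberField.of_module_finite K N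
  have hNnorm : Normal K N := by
    rw [hN]
    infer_instance
  have hNgal : IsGalois K N := {
    to_normal := hNnorm
    to_isSeparable := inferInstance }
  have hle : (E ⊔ E' : IntermediateField K QBar) ≤ N := by
    rw [hN]
    exact IntermediateField.le_normalClosure _
  have hNφ : ∀ σ ∈ N.fixingSubgroup, φ σ = 1 := fun σ hσ =>
    hEφ (IntermediateField.fixingSubgroup_le (le_sup_left.trans hle) hσ)
  have hNφ' : ∀ σ ∈ N.fixingSubgroup, φ' σ = 1 := fun σ hσ =>
    hEφ' (IntermediateField.fixingSubgroup_le (le_sup_right.trans hle) hσ)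
  have hFN : ∀ ψ : Gal(QBar/K) →* G, (∀ σ ∈ N.fixingSubgroup, ψ σ = 1) →
      ∀ i, fieldOf i ψ ≤ N := by
    intro ψ hψ i x hx
    rw [qn_mem] at hx
    rw [← InfiniteGalois.fixedField_fixingSubgroup N, IntermediateField.mem_fixedField_iff]
    intro σ hσ
    exact hx σ (by rw [hψ σ hσ, one_smul])
  have hfd : ∀ (ψ : Gal(QBar/K) →* G), Function.Surjective ψ → FT ψ → ∀ i : Fin n,
      FiniteDimensional K (fieldOf i ψ) ∧ Module.finrank K (fieldOf i ψ) = n ∧
        NumberField (fieldOf i ψ) := by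
    intro ψ h1 h2 i
    obtain ⟨h3, h4, -, -⟩ := small_field G hG K i ψ h1 h2
    exact ⟨h3, h4, NumberField.of_module_finite K (fieldOf i ψ)⟩
  have hF := fun i => hfd φ hφ hft i
  have hF' := fun i => hfd φ' hφ' hft' i
  have hFf : ∀ i, FiniteDimensional K (fieldOf i φ) := fun i => (hF i).1
  have hFf' : ∀ i, FiniteDimensional K (fieldOf i φ') := fun i => (hF' i).1
  have hFn : ∀ i, NumberField (fieldOf i φ) := fun i => (hF i).2.2
  have hFn' : ∀ i, NumberField (fieldOf i φ') := fun i => (hF' i).2.2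
  obtain ⟨S, hS, -⟩ := CDa_sum K N v
  -- the sum of the multiplicities
  have hsum : ∀ R ∈ S, ∑ i, dxi (fieldOf i φ) N (hFN φ hNφ i) R =
      ∑ i, dxi (fieldOf i φ') N (hFN φ' hNφ' i) R := by
    intro R hR
    obtain ⟨hRp, hRv⟩ := (hS R).1 hR
    obtain ⟨γ, rfl⟩ := dxi_tr N v (Q.P v) (Q.prime v) (Q.under v) R hRp hRv
    have hPp := Q.prime v
    have hgp : (γ • Q.P v).IsPrime := inferInstance
    have hR0 : (γ • Q.P v).under (𝓞 N) ≠ ⊥ := by
      intro h0
      rw [h0] at hRv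
      apply v.ne_bot
      rw [← hRv]
      exact Ideal.under_bot _ _
    refine Fintype.sum_equiv (MulAction.toPerm (φ' γ * (φ γ)⁻¹) : Equiv.Perm (Fin n)) _ _ ?_
    intro i
    rw [MulAction.toPerm_apply]
    refine dxi_in (fieldOf i φ) (fieldOf ((φ' γ * (φ γ)⁻¹) • i) φ') N (hFN φ hNφ i)
      (hFN φ' hNφ' _) (γ • Q.P v) hgp hR0 ?_
    intro σ hσ
    have h1 := h _ (qld_dec _ _ (qld_conj _ γ σ hσ))
    rw [qn_fix i φ hft, qn_fix _ φ' hft']
    rw [map_mul, map_mul, map_inv, map_mul, map_mul, map_inv] at h1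
    have h2 : φ' σ = φ' γ * ((φ γ)⁻¹ * φ σ * φ γ) * (φ' γ)⁻¹ := by
      rw [h1]
      group
    rw [h2]
    have h3 : (φ' γ * ((φ γ)⁻¹ * φ σ * φ γ) * (φ' γ)⁻¹) • (φ' γ * (φ γ)⁻¹) • i =
        (φ' γ * (φ γ)⁻¹) • (φ σ • i) := by
      rw [← mul_smul, ← mul_smul]
      congr 1
      group
    rw [h3, smul_left_cancel_iff]
  -- the tower formula, summed over the points
  have htow : ∀ i, n * ldx K N v = Module.finrank K N * ldx K (fieldOf i₀ φ) v +
      n * ∑ R ∈ S, R.inertiaDeg (𝓞 K) * dxi (fieldOf i φ) N (hFN φ hNφ i) R := by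
    intro i
    obtain ⟨e⟩ := qld_iso G hG K i₀ i φ hφ
    have h1 := dxi_sum (fieldOf i φ) N (hFN φ hNφ i) v S hS
    rw [(hF i).2.1] at h1
    rw [qla_iso K (fieldOf i₀ φ) (fieldOf i φ) e v]
    exact h1
  have htow' : ∀ i, n * ldx K N v = Module.finrank K N * ldx K (fieldOf i₀ φ') v +
      n * ∑ R ∈ S, R.inertiaDeg (𝓞 K) * dxi (fieldOf i φ') N (hFN φ' hNφ' i) R := by
    intro i
    obtain ⟨e⟩ := qld_iso G hG K i₀ i φ' hφ'
    have h1 := dxi_sum (fieldOf i φ') N (hFN φ' hNφ' i) v S hS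
    rw [(hF' i).2.1] at h1
    rw [qla_iso K (fieldOf i₀ φ') (fieldOf i φ') e v]
    exact h1
  have h1 : ∑ _i : Fin n, n * ldx K N v = ∑ i : Fin n,
      (Module.finrank K N * ldx K (fieldOf i₀ φ) v +
      n * ∑ R ∈ S, R.inertiaDeg (𝓞 K) * dxi (fieldOf i φ) N (hFN φ hNφ i) R) :=
    Finset.sum_congr rfl fun i _ => htow i
  have h2 : ∑ _i : Fin n, n * ldx K N v = ∑ i : Fin n,
      (Module.finrank K N * ldx K (fieldOf i₀ φ') v +
      n * ∑ R ∈ S, R.inertiaDeg (𝓞 K) * dxi (fieldOf i φ') N (hFN φ' hNφ' i) R) :=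
    Finset.sum_congr rfl fun i _ => htow' i
  have h3 : ∑ i : Fin n, n * ∑ R ∈ S, R.inertiaDeg (𝓞 K) * dxi (fieldOf i φ) N (hFN φ hNφ i) R =
      ∑ i : Fin n, n * ∑ R ∈ S, R.inertiaDeg (𝓞 K) *
        dxi (fieldOf i φ') N (hFN φ' hNφ' i) R := by
    rw [← Finset.mul_sum, ← Finset.mul_sum]
    congr 1
    rw [Finset.sum_comm]
    symm
    rw [Finset.sum_comm]
    refine Finset.sum_congr rfl fun R hR => ?_
    rw [← Finset.mul_sum, ← Finset.mul_sum, hsum R hR]
  rw [Finset.sum_add_distrib] at h1 h2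
  rw [h1, h3, add_left_inj, Finset.sum_const, Finset.sum_const, Finset.card_univ,
    Fintype.card_fin, smul_eq_mul, smul_eq_mul] at h2
  have hpos : 0 < Module.finrank K N := Module.finrank_pos
  exact Nat.eq_of_mul_eq_mul_left hpos (Nat.eq_of_mul_eq_mul_left hn h2)

end H38.AS
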