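import Pool.Agent.H38.BG.AMain
import Pool.Agent.H38.BG.DEmb
import Pool.Agent.H63.MC.CFin
import Pool.Agent.H38.AS.QLd

/-!
# AS-QLDC: the local discriminant exponent depends only on the decomposition group (`ldc2` of QLd.lean, helper77, with another order of the arguments)

`G` any transitive group, `φ, φ' : Γ → G` surjective of finite type which agree on the decomposition group of `Q.P v`. Then `ldx K (fieldOf i₀ φ) v = ldx K (fieldOf i₀ φ') v`.
-/

set_option autoImplicit false

open scoped NumberField
open IsDedekindDomain H38.ML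

noncomputable section

namespace H38.AS

open H63.MA H38.BB H38.BG

theorem ldc3 {n : ℕ} (hn : 2 ≤ n) (G : Subgroup (Equiv.Perm (Fin n)))
    (hG : MulAction.IsPretransitive G (Fin n)) (K : IntermediateField ℚ QBar) [NumberField K]
    (Q : DP K QBar) (i₀ : Fin n) (φ φ' : Gal(QBar/K) →* G) (hφ : Function.Surjective φ)
    (hft : FT φ) (hφ' : Function.Surjective φ') (hft' : FT φ')
    [NumberField (fieldOf i₀ φ)] [NumberField (fieldOf i₀ φ')] (v : Pl K)
    (h : ∀ σ ∈ dec (K := K) (Q.P v), φ σ = φ' σ) :
    ldx K (fieldOf i₀ φ) v = ldx K (fieldOf i₀ φ') v := by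
  exact ldc2 G hG K i₀ Q v φ φ' hφ hft hφ' hft' h

end H38.AS
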