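import Pool.Agent.H38.AS.ADef

/-!
# [H38 AS WDE] splitting off finitely many primes in weighted sums, 120-180 lines (as un_dec, sd_sum in H63/MB/BUd). File Pool/Agent/H38/AS/WDec.lean

`SD D N W` (`MB/BUd`): the pairwise disjoint `N`-tuples of subsets of `W` consisting of good primes.
* `wu_dec`: for `Z ⊆ F`: `WU D a Z y = ∑_{s ∈ SD D N (F ∖ Z)} (∏_i ∏_{v ∈ s i} a i v) * WU D a F (y / ∏ nr (s i))`. Proof as `un_dec` (`H63/MB/BUd.lean`): the bijection `f ↦ (f i ∩ (F ∖ Z), f i ∖ F)` between the families `f` in `WU D a Z y` and the pairs `(s, f')`; the weights are multiplicative (`Finset.prod_union`). Look at the proof of `un_dec` and its auxiliary lemmas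
  (`bud_mem_UT` describes the index set: the condition `f i ∈ GF y` follows from goodness and `∏ nr ≤ y`).
* `wsd_sum`: for `0 ≤ a i v ≤ A₀`: `∑_{s ∈ SD D N W} (∏_i ∏_{v ∈ s i} a i v) * (∏ nr (s i))⁻¹ ≤ ∏_{v ∈ W} (1 + N A₀ / nm v)`. Proof: a tuple `s ∈ SD` is the same as a function from the good primes of `W` to `Fin N ∪ {none}`; induction on `W` as in `sd_sum`, or: with `a ≤ A₀` the term is at most `∏_i A₀^{#(s i)} / nr (s i)`, and `s ↦ (⋃ s i, v ↦ i)`.
* `wsd_log`: there are `C, A` with `∏_{v ∈ W} (1 + N A₀ / nm v) ≤ C 2^{#E} (log T)^A`-type bound, in the form: for a finite set `E` there are `C, A` such that for `T ≥ 3` and every finite `W` with `nm v ≤ T` for all `v ∈ W ∖ E`: `∏_{v ∈ W} (1 + N A₀ / nm v) ≤ C (log T)^A`. Proof: the factors for `v ∈ E` are at most `1 + N A₀`; for the others with `B = ⌈N A₀⌉`: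
  `1 + B x ≤ (1 + x)^B ≤ (1 - x)^(-B)` for `0 ≤ x = 1/nm v ≤ 1/2`, and `mert_low` (`MA/ACntA`): `∏ (1 - 1/nm v) ≥ c (log T)^(-3)`, so the product is `≤ c^(-B) (log T)^(3B)`.
-/

set_option autoImplicit false

open scoped NumberField
open IsDedekindDomain
open scoped Classical

noncomputable section

namespace H38.AS

open H63.MA H38.BB

variable {K : Type} [Field K] [NumberField K] {p : ℕ} {ζ : K} {N : ℕ}

theorem wu_dec (D : RD0 K p ζ) (a : Fin N → Pl K → ℝ) (Z F : Finset (Pl K)) (hZF : Z ⊆ F) (y : ℝ) :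
    WU D a Z y = ∑ s ∈ SD D N (F \ Z), (∏ i, ∏ v ∈ s i, a i v) * WU D a F (y / ∏ i, nr (s i)) := by
  have hWU : ∀ (E : Finset (Pl K)) (y : ℝ), WU D a E y =
      ∑ f ∈ (Fintype.piFinset (fun _ : Fin N => GF D y)).filter (fun f =>
        Dj f ∧ (∀ i, Disjoint (f i) E) ∧ ∏ i, nr (f i) ≤ y), ∏ i, ∏ v ∈ f i, a i v := by
    intro E y
    unfold WU
    rw [Finset.sum_filter]
  set UZ := (Fintype.piFinset fun _ : Fin N => GF D y).filter (fun n =>
      Dj n ∧ (∀ i, Disjoint (n i) Z) ∧ ∏ i, nr (n i) ≤ y) with hUZ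
  have h1 : ∑ s ∈ SD D N (F \ Z), ∑ n ∈ UZ.filter (fun n => (fun i => n i ∩ (F \ Z)) = s),
      ∏ i, ∏ v ∈ n i, a i v = ∑ n ∈ UZ, ∏ i, ∏ v ∈ n i, a i v := by
    apply Finset.sum_fiberwise_of_maps_to
    intro n hn
    rw [hUZ, bud_mem_UT] at hn
    rw [bud_mem_SD]
    refine ⟨fun i => Finset.inter_subset_right, fun i j hij => ?_, fun i v hv => ?_⟩
    · exact (hn.2.1 i j hij).mono Finset.inter_subset_left Finset.inter_subset_left
    · exact hn.1 i v (Finset.mem_inter.1 hv).1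
  rw [hWU Z y, ← hUZ, ← h1]
  refine Finset.sum_congr rfl fun s hs => ?_
  rw [bud_mem_SD] at hs
  obtain ⟨hsW, hsD, hsG⟩ := hs
  have hsp := bud_prod_pos s
  rw [hWU F, Finset.mul_sum]
  have key : ∀ n : Fin N → Finset (Pl K), (∀ i, Disjoint (n i) Z) →
      (fun i => n i ∩ (F \ Z)) = s → ∀ i, n i = s i ∪ n i \ F := by
    intro n hn hns i
    have h4 : n i ∩ (F \ Z) = s i := congrFun hns i
    ext v
    rw [Finset.mem_union, ← h4, Finset.mem_inter, Finset.mem_sdiff, Finset.mem_sdiff]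
    constructor
    · intro hv
      by_cases hF : v ∈ F
      · exact Or.inl ⟨hv, hF, fun hZ => Finset.disjoint_left.1 (hn i) hv hZ⟩
      · exact Or.inr ⟨hv, hF⟩
    · rintro (h | h)
      · exact h.1
      · exact h.1
  have hdisF : ∀ (n : Fin N → Finset (Pl K)) (i : Fin N), Disjoint (s i) (n i \ F) := fun n i =>
    Finset.disjoint_of_subset_left ((hsW i).trans Finset.sdiff_subset) Finset.disjoint_sdiff
  refine Finset.sum_nbij' (fun n i => n i \ F) (fun n i => s i ∪ n i) ?_ ?_ ?_ ?_ ?_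
  · intro n hn
    rw [Finset.mem_filter, hUZ, bud_mem_UT] at hn
    obtain ⟨⟨h4, h5, h6, h7⟩, h8⟩ := hn
    rw [bud_mem_UT]
    refine ⟨fun i v hv => h4 i v (Finset.mem_sdiff.1 hv).1, fun i j hij =>
      (h5 i j hij).mono Finset.sdiff_subset Finset.sdiff_subset, fun i => Finset.sdiff_disjoint, ?_⟩
    rw [le_div_iff₀ hsp, mul_comm, ← Finset.prod_mul_distrib]
    refine le_trans (le_of_eq (Finset.prod_congr rfl fun i _ => ?_)) h7
    rw [← nr_union]
    · rw [← key n h6 h8 i]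
    · exact hdisF n i
  · intro n hn
    rw [bud_mem_UT] at hn
    obtain ⟨h4, h5, h6, h7⟩ := hn
    have hdis : ∀ i j, Disjoint (s i) (n j) := fun i j =>
      Finset.disjoint_of_subset_left ((hsW i).trans Finset.sdiff_subset) (h6 j).symm
    rw [Finset.mem_filter, hUZ, bud_mem_UT]
    refine ⟨⟨fun i v hv => ?_, fun i j hij => ?_, fun i => ?_, ?_⟩, ?_⟩
    · rcases Finset.mem_union.1 hv with hv | hv
      · exact hsG i v hv
      · exact h4 i v hv
    · show Disjoint (s i ∪ n i) (s j ∪ n j)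
      rw [Finset.disjoint_union_left, Finset.disjoint_union_right, Finset.disjoint_union_right]
      exact ⟨⟨hsD i j hij, hdis i j⟩, (hdis j i).symm, h5 i j hij⟩
    · show Disjoint (s i ∪ n i) Z
      rw [Finset.disjoint_union_left]
      exact ⟨Finset.disjoint_of_subset_left (hsW i) Finset.sdiff_disjoint,
        Finset.disjoint_of_subset_right hZF (h6 i)⟩
    · rw [le_div_iff₀ hsp, mul_comm, ← Finset.prod_mul_distrib] at h7
      refine le_trans (le_of_eq (Finset.prod_congr rfl fun i _ => ?_)) h7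
      exact nr_union (hdis i i)
    · funext i
      show (s i ∪ n i) ∩ (F \ Z) = s i
      rw [Finset.union_inter_distrib_right, Finset.inter_eq_left.2 (hsW i)]
      have h8 : n i ∩ (F \ Z) = ∅ := by
        rw [← Finset.disjoint_iff_inter_eq_empty]
        exact Finset.disjoint_of_subset_right Finset.sdiff_subset (h6 i)
      rw [h8, Finset.union_empty]
  · intro n hn
    rw [Finset.mem_filter, hUZ, bud_mem_UT] at hn
    funext i
    exact (key n hn.1.2.2.1 hn.2 i).symm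
  · intro n hn
    rw [bud_mem_UT] at hn
    funext i
    show (s i ∪ n i) \ F = n i
    rw [Finset.union_sdiff_distrib, Finset.sdiff_eq_empty_iff_subset.2
      ((hsW i).trans Finset.sdiff_subset), Finset.empty_union]
    exact Finset.sdiff_eq_self_of_disjoint (hn.2.2.1 i)
  · intro n hn
    rw [Finset.mem_filter, hUZ, bud_mem_UT] at hn
    rw [← Finset.prod_mul_distrib]
    refine Finset.prod_congr rfl fun i _ => ?_
    rw [← Finset.prod_union (hdisF n i), ← key n hn.1.2.2.1 hn.2 i]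

theorem wsd_sum (D : RD0 K p ζ) (a : Fin N → Pl K → ℝ) (A₀ : ℝ) (hA : 0 ≤ A₀)
    (ha : ∀ i v, 0 ≤ a i v ∧ a i v ≤ A₀) (W : Finset (Pl K)) :
    ∑ s ∈ SD D N W, (∏ i, ∏ v ∈ s i, a i v) * (∏ i, nr (s i))⁻¹ ≤
      ∏ v ∈ W, (1 + (N : ℝ) * A₀ / nm v) := by
  have h1 := bud_split (N := N) (W.filter fun v => D.Gd v)
    (fun v o => match o with
      | none => 1
      | some i => a i v / (nm v : ℝ)) (fun _ => rfl)
  rw [← bud_SD_eq] at h1
  have hpos : ∀ v : Pl K, (0 : ℝ) < nm v := fun v => by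
    have := one_lt_nm v
    exact_mod_cast (by omega : 0 < nm v)
  have h2 : ∀ s : Fin N → Finset (Pl K), (∏ i, ∏ v ∈ s i, a i v) * (∏ i, nr (s i))⁻¹ =
      ∏ i, ∏ v ∈ s i, a i v / (nm v : ℝ) := by
    intro s
    rw [← Finset.prod_inv_distrib, ← Finset.prod_mul_distrib]
    refine Finset.prod_congr rfl fun i _ => ?_
    rw [Finset.prod_div_distrib, div_eq_mul_inv]
    rfl
  rw [Finset.sum_congr rfl fun s _ => h2 s, ← h1]
  have hfac : ∀ v : Pl K, (1 : ℝ) ≤ 1 + (N : ℝ) * A₀ / nm v := by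
    intro v
    have := (hpos v).le
    have h3 : 0 ≤ (N : ℝ) * A₀ / nm v := by positivity
    linarith
  calc ∏ v ∈ W.filter (fun v => D.Gd v), ∑ o : Option (Fin N), (match o with
        | none => (1 : ℝ)
        | some i => a i v / (nm v : ℝ))
      ≤ ∏ v ∈ W.filter (fun v => D.Gd v), (1 + (N : ℝ) * A₀ / nm v) := by
        refine Finset.prod_le_prod (fun v _ => ?_) fun v _ => ?_
        · rw [Fintype.sum_option]
          have h3 : 0 ≤ ∑ i : Fin N, a i v / (nm v : ℝ) :=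
            Finset.sum_nonneg fun i _ => div_nonneg (ha i v).1 (hpos v).le
          simp only
          linarith
        · rw [Fintype.sum_option]
          have h3 : ∑ i : Fin N, a i v / (nm v : ℝ) ≤ ∑ _i : Fin N, A₀ / (nm v : ℝ) :=
            Finset.sum_le_sum fun i _ => div_le_div_of_nonneg_right (ha i v).2 (hpos v).le
          rw [Finset.sum_const, Finset.card_univ, Fintype.card_fin, nsmul_eq_mul,
            ← mul_div_assoc] at h3
          simp only
          linarith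
    _ ≤ ∏ v ∈ W, (1 + (N : ℝ) * A₀ / nm v) := by
        refine Finset.prod_le_prod_of_subset_of_one_le (Finset.filter_subset _ _)
          (fun v _ => by linarith [hfac v]) fun v _ _ => hfac v

theorem wsd_log (K : Type) [Field K] [NumberField K] (A₀ : ℝ) (hA : 0 ≤ A₀) (E : Finset (Pl K)) :
    ∃ (C : ℝ) (A : ℕ), 0 < C ∧ ∀ T : ℝ, 3 ≤ T → ∀ W : Finset (Pl K),
      (∀ v ∈ W, v ∉ E → (nm v : ℝ) ≤ T) → ∏ v ∈ W, (1 + A₀ / nm v) ≤ C * Real.log T ^ A := by
  obtain ⟨c, hc, hmert⟩ := mert_low K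
  obtain ⟨B, hB⟩ := exists_nat_ge A₀
  refine ⟨(1 + A₀) ^ E.card * (c⁻¹) ^ B, 3 * B, by positivity, fun T hT W hW => ?_⟩
  have hlog : 0 < Real.log T := Real.log_pos (by linarith)
  have hnm : ∀ v : Pl K, (2 : ℝ) ≤ nm v := fun v => by
    have := one_lt_nm v
    exact_mod_cast (by omega : 2 ≤ nm v)
  have hfac : ∀ v : Pl K, (1 : ℝ) ≤ 1 + A₀ / nm v := by
    intro v
    have := hnm v
    have h3 : 0 ≤ A₀ / nm v := by positivity
    linarith
  have h1 : ∏ v ∈ W ∩ E, (1 + A₀ / (nm v : ℝ)) ≤ (1 + A₀) ^ E.card := by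
    have h2 : ∏ v ∈ W ∩ E, (1 + A₀ / (nm v : ℝ)) ≤ ∏ _v ∈ W ∩ E, (1 + A₀) := by
      refine Finset.prod_le_prod (fun v _ => by linarith [hfac v]) fun v _ => ?_
      have h3 : A₀ / nm v ≤ A₀ := div_le_self hA (by linarith [hnm v])
      linarith
    rw [Finset.prod_const] at h2
    exact h2.trans (pow_le_pow_right₀ (by linarith)
      (Finset.card_le_card Finset.inter_subset_right))
  have h2 : ∏ v ∈ W \ E, (1 + A₀ / (nm v : ℝ)) ≤ (c⁻¹) ^ B * Real.log T ^ (3 * B) := by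
    have h3 := hmert T hT (W \ E) fun v hv => hW v (Finset.mem_sdiff.1 hv).1
      (Finset.mem_sdiff.1 hv).2
    have h4 : ∀ v : Pl K, 1 + A₀ / (nm v : ℝ) ≤ ((1 - (nm v : ℝ)⁻¹)⁻¹) ^ B := by
      intro v
      have hv := hnm v
      have hx0 : 0 < (nm v : ℝ)⁻¹ := by positivity
      have hx1 : (nm v : ℝ)⁻¹ ≤ 1 / 2 := by
        rw [inv_le_comm₀ (by linarith) (by norm_num)]
        linarith
      have h5 : 1 + A₀ / (nm v : ℝ) ≤ 1 + (B : ℝ) * (nm v : ℝ)⁻¹ := by
        rw [div_eq_mul_inv]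
        have := mul_le_mul_of_nonneg_right hB hx0.le
        linarith
      have h6 : 1 + (B : ℝ) * (nm v : ℝ)⁻¹ ≤ (1 + (nm v : ℝ)⁻¹) ^ B :=
        one_add_mul_le_pow (by linarith) B
      have h7 : 1 + (nm v : ℝ)⁻¹ ≤ (1 - (nm v : ℝ)⁻¹)⁻¹ := by
        have h8 : (1 + (nm v : ℝ)⁻¹) * (1 - (nm v : ℝ)⁻¹) ≤ 1 := by
          nlinarith [sq_nonneg (nm v : ℝ)⁻¹]
        have h9 : 0 < 1 - (nm v : ℝ)⁻¹ := by linarith
        calc 1 + (nm v : ℝ)⁻¹ = (1 + (nm v : ℝ)⁻¹) * (1 - (nm v : ℝ)⁻¹) *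
              (1 - (nm v : ℝ)⁻¹)⁻¹ := by rw [mul_assoc, mul_inv_cancel₀ h9.ne', mul_one]
          _ ≤ 1 * (1 - (nm v : ℝ)⁻¹)⁻¹ :=
              mul_le_mul_of_nonneg_right h8 (inv_nonneg.2 h9.le)
          _ = _ := one_mul _
      exact h5.trans (h6.trans (pow_le_pow_left₀ (by linarith) h7 B))
    have h5 : ∏ v ∈ W \ E, (1 + A₀ / (nm v : ℝ)) ≤
        ((∏ v ∈ W \ E, (1 - (nm v : ℝ)⁻¹))⁻¹) ^ B := by
      rw [← Finset.prod_inv_distrib, ← Finset.prod_pow]
      exact Finset.prod_le_prod (fun v _ => by linarith [hfac v]) fun v _ => h4 v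
    have h6 : Real.log T ^ (-3 : ℝ) = (Real.log T ^ 3)⁻¹ := by
      rw [Real.rpow_neg hlog.le]
      norm_cast
    rw [h6] at h3
    have h7 : (∏ v ∈ W \ E, (1 - (nm v : ℝ)⁻¹))⁻¹ ≤ c⁻¹ * Real.log T ^ 3 := by
      have h8 : 0 < c * (Real.log T ^ 3)⁻¹ := by positivity
      have h9 := inv_anti₀ h8 h3
      rwa [mul_inv, inv_inv] at h9
    have h8 : 0 ≤ (∏ v ∈ W \ E, (1 - (nm v : ℝ)⁻¹))⁻¹ := by
      rw [inv_nonneg]
      refine Finset.prod_nonneg fun v _ => ?_
      have := hnm v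
      have hx1 : (nm v : ℝ)⁻¹ ≤ 1 := inv_le_one_of_one_le₀ (by linarith)
      linarith
    refine h5.trans ((pow_le_pow_left₀ h8 h7 B).trans (le_of_eq ?_))
    rw [mul_pow, ← pow_mul]
  have h3 : ∏ v ∈ W, (1 + A₀ / (nm v : ℝ)) =
      (∏ v ∈ W ∩ E, (1 + A₀ / (nm v : ℝ))) * ∏ v ∈ W \ E, (1 + A₀ / (nm v : ℝ)) :=
    (Finset.prod_inter_mul_prod_sdiff W E _).symm
  rw [h3, mul_assoc]
  exact mul_le_mul h1 h2 (Finset.prod_nonneg fun v _ => by linarith [hfac v]) (by positivity)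

end H38.AS
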