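import Pool.Agent.H38.AS.WDec

/-!
# [H38 AS WLI] convergence from approximations away from the small primes, 120-180 lines (as un_lim in H63/MB/BUe). File Pool/Agent/H38/AS/WLim.lean

`wu_lim_of`: suppose that for `T ≥ T₀` and every finite `F` containing `S0` and all `v` with `nm v ≤ T` there is a function `g` with `g y / (y (log y)^{N-1})` convergent and `|WU D a F y - g y| ≤ C T^(-1/4) y (1 + log y)^{N-1}` for `y ≥ 1`. Then `WU D a E y / (y (log y)^{N-1})` converges for every `E`.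

Proof (as `un_lim` in `H63/MB/BUe.lean`, use `bue_cauchy` and the auxiliary lemmas there for `g(y/c)/(y (log y)^{N-1}) → l/c`). Let `ε > 0`, `T` large, `F = E ∪ S0 ∪ {v : nm v ≤ T}` (finite: e.g. `un_lim`'s proof or `finite_nr`/`AF`). `wu_dec`: `WU D a E y = ∑_{s ∈ SD D N (F ∖ E)} w_s WU D a F (y / ∏ nr (s i))`, `w_s = ∏∏ a i v ≥ 0`. Let `G(y) = ∑_s w_s g(y / ∏ nr (s i))`
(replace `g z` by `0` for `z < 1`: `WU D a F z = 0` for `z < 1` because `N ≥ 1` and all `nr ≥ 1`). For `y ≥ 1`: `|WU D a E y - G y| ≤ C T^(-1/4) y (1 + log y)^{N-1} ∑_s w_s (∏ nr (s i))⁻¹ ≤ C T^(-1/4) C' (log T)^A y (1 + log y)^{N-1}` by `wsd_sum`, `wsd_log` (`W = F ∖ E`, the exceptional set `E := D.S0`). `T^(-1/4) (log T)^A → 0`.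
`G(y)/(y (log y)^{N-1})` converges (finite sum). For `y` large `(1 + log y)^{N-1} ≤ 2^{N-1} (log y)^{N-1}`. So for every `ε` the quotient is eventually within `ε` of a convergent function: `bue_cauchy`. `0 ≤ u` because `WU ≥ 0` (`a ≥ 0`).
-/

set_option autoImplicit false

open scoped NumberField
open IsDedekindDomain Filter Topology
open scoped Classical

noncomputable section

namespace H38.AS

open H63.MA H38.BB

variable {K : Type} [Field K] [NumberField K] {p : ℕ} {ζ : K} {N : ℕ}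

private theorem wl_small (D : RD0 K p ζ) (a : Fin N → Pl K → ℝ) (F : Finset (Pl K)) {y : ℝ}
    (hy : y < 1) : WU D a F y = 0 := by
  unfold WU
  refine Finset.sum_eq_zero fun f _ => ?_
  rw [if_neg]
  rintro ⟨_, _, h⟩
  have := atupa_prod_one f Finset.univ
  linarith

private theorem wl_nonneg (D : RD0 K p ζ) (a : Fin N → Pl K → ℝ) (ha : ∀ i v, 0 ≤ a i v)
    (F : Finset (Pl K)) (y : ℝ) : 0 ≤ WU D a F y := by
  unfold WU
  refine Finset.sum_nonneg fun f _ => ?_
  split_ifs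
  · exact Finset.prod_nonneg fun i _ => Finset.prod_nonneg fun v _ => ha i v
  · exact le_rfl

private theorem wl_diff (D : RD0 K p ζ) (a : Fin N → Pl K → ℝ) (F : Finset (Pl K)) (g : ℝ → ℝ)
    (Q : ℝ) (hQ : 0 ≤ Q)
    (h : ∀ y : ℝ, 1 ≤ y → |WU D a F y - g y| ≤ Q * y * (1 + Real.log y) ^ (N - 1))
    (y c : ℝ) (hy : 1 ≤ y) (hc : 1 ≤ c) :
    |WU D a F (y / c) - (if y / c < 1 then 0 else g (y / c))| ≤
      Q * y * (1 + Real.log y) ^ (N - 1) * c⁻¹ := by
  have hc0 : 0 < c := by linarith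
  have hly : 0 ≤ Real.log y := Real.log_nonneg hy
  by_cases h1 : 1 ≤ y / c
  · rw [if_neg (not_lt.2 h1)]
    have h2 := h (y / c) h1
    have h3 : Real.log (y / c) ≤ Real.log y := by
      apply Real.log_le_log (by linarith)
      rw [div_le_iff₀ hc0]
      nlinarith
    have h4 : 0 ≤ Real.log (y / c) := Real.log_nonneg h1
    calc _ ≤ _ := h2
      _ ≤ Q * (y / c) * (1 + Real.log y) ^ (N - 1) := by
        apply mul_le_mul_of_nonneg_left _ (by positivity)
        exact pow_le_pow_left₀ (by linarith) (by linarith) _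
      _ = _ := by rw [div_eq_mul_inv]; ring
  · rw [if_pos (lt_of_not_ge h1), wl_small D a F (lt_of_not_ge h1), sub_zero, abs_zero]
    positivity

theorem wu_lim_of (D : RD0 K p ζ) (hN : 1 ≤ N) (a : Fin N → Pl K → ℝ) (A₀ : ℝ) (hA : 0 ≤ A₀)
    (ha : ∀ i v, 0 ≤ a i v ∧ a i v ≤ A₀) (C T₀ : ℝ) (hC : 0 < C) (hT₀ : 3 ≤ T₀)
    (H : ∀ T : ℝ, T₀ ≤ T → ∀ F : Finset (Pl K), (∀ v ∈ D.S0, v ∈ F) →
      (∀ v : Pl K, (nm v : ℝ) ≤ T → v ∈ F) → ∃ (g : ℝ → ℝ) (l : ℝ),
        Tendsto (fun y : ℝ => g y / (y * Real.log y ^ (N - 1))) atTop (𝓝 l) ∧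
        ∀ y : ℝ, 1 ≤ y → |WU D a F y - g y| ≤
          C * T ^ (-(1 / 4) : ℝ) * y * (1 + Real.log y) ^ (N - 1))
    (E : Finset (Pl K)) :
    ∃ u : ℝ, 0 ≤ u ∧
      Tendsto (fun y : ℝ => WU D a E y / (y * Real.log y ^ (N - 1))) atTop (𝓝 u) := by
  have _ := hN
  have hex : ∃ u : ℝ, Tendsto (fun y : ℝ => WU D a E y / (y * Real.log y ^ (N - 1))) atTop
      (𝓝 u) := by
    apply bue_cauchy
    intro ε hε
    obtain ⟨C', M, hC', hlog⟩ := wsd_log K ((N : ℝ) * A₀) (by positivity) (E ∪ D.S0)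
    obtain ⟨A, hAd⟩ : ∃ A : ℝ, A = C * C' * 2 ^ (N - 1) := ⟨_, rfl⟩
    -- a large `T`
    have hexT : ∃ T : ℝ, T₀ ≤ T ∧ A * T ^ (-(1 / 4) : ℝ) * Real.log T ^ M ≤ ε := by
      have h1 : Tendsto (fun T : ℝ => Real.log T ^ (M : ℝ) / T ^ (1 / 4 : ℝ)) atTop (𝓝 0) :=
        (isLittleO_log_rpow_rpow_atTop (M : ℝ) (by norm_num : (0 : ℝ) < 1 / 4)).tendsto_div_nhds_zero
      have h2 : Tendsto (fun T : ℝ => A * (Real.log T ^ (M : ℝ) / T ^ (1 / 4 : ℝ))) atTop
          (𝓝 (A * 0)) := h1.const_mul A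
      rw [mul_zero] at h2
      obtain ⟨T, hT1, hT2⟩ := ((h2.eventually (gt_mem_nhds hε)).and
        (eventually_ge_atTop (max T₀ 3))).exists
      have hT3 : 3 ≤ T := (le_max_right _ _).trans hT2
      have hT0 : 0 < T := by linarith
      refine ⟨T, (le_max_left _ _).trans hT2, ?_⟩
      have e1 : A * T ^ (-(1 / 4) : ℝ) * Real.log T ^ M =
          A * (Real.log T ^ (M : ℝ) / T ^ (1 / 4 : ℝ)) := by
        rw [Real.rpow_neg hT0.le, Real.rpow_natCast]
        ring
      rw [e1]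
      exact hT1.le
    obtain ⟨T, hTT₀, hT⟩ := hexT
    have hT3 : 3 ≤ T := hT₀.trans hTT₀
    have hT0 : 0 < T := by linarith
    have hlT : 0 < Real.log T := Real.log_pos (by linarith)
    obtain ⟨G, hG⟩ : ∃ G : Finset (Pl K), G = (acntb_fin K T).toFinset := ⟨_, rfl⟩
    have hGm : ∀ v, v ∈ G ↔ (nm v : ℝ) ≤ T := by
      intro v
      rw [hG, Set.Finite.mem_toFinset]
      rfl
    obtain ⟨F, hF⟩ : ∃ F : Finset (Pl K), F = (E ∪ D.S0) ∪ G := ⟨_, rfl⟩
    have hEF : E ⊆ F := by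
      rw [hF]
      exact (Finset.subset_union_left).trans Finset.subset_union_left
    have hS : ∀ v ∈ D.S0, v ∈ F := by
      intro v hv
      rw [hF, Finset.mem_union, Finset.mem_union]
      exact Or.inl (Or.inr hv)
    have hTF : ∀ v : Pl K, (nm v : ℝ) ≤ T → v ∈ F := by
      intro v hv
      rw [hF, Finset.mem_union]
      exact Or.inr ((hGm v).2 hv)
    obtain ⟨g, l, hg1, hg2⟩ := H T hTT₀ F hS hTF
    obtain ⟨g', hg'⟩ : ∃ g' : ℝ → ℝ, g' = fun z => if z < 1 then 0 else g z := ⟨_, rfl⟩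
    have hg3 : Tendsto (fun y : ℝ => g' y / (y * Real.log y ^ (N - 1))) atTop (𝓝 l) := by
      refine hg1.congr' ?_
      filter_upwards [eventually_ge_atTop (1 : ℝ)] with y hy
      rw [hg']
      dsimp only
      rw [if_neg (not_lt.2 hy)]
    obtain ⟨w, hw⟩ : ∃ w : (Fin N → Finset (Pl K)) → ℝ, w = fun s => ∏ i, ∏ v ∈ s i, a i v :=
      ⟨_, rfl⟩
    have hw0 : ∀ s, 0 ≤ w s := fun s => by
      rw [hw]
      exact Finset.prod_nonneg fun i _ => Finset.prod_nonneg fun v _ => (ha i v).1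
    have hsum : ∑ s ∈ SD D N (F \ E), w s * (∏ i, nr (s i))⁻¹ ≤ C' * Real.log T ^ M := by
      rw [hw]
      refine (wsd_sum D a A₀ hA ha (F \ E)).trans (hlog T hT3 (F \ E) fun v hv hvE => ?_)
      rw [Finset.mem_sdiff, hF, Finset.mem_union] at hv
      exact (hGm v).1 (hv.1.resolve_left hvE)
    refine ⟨fun y => (∑ s ∈ SD D N (F \ E), w s * g' (y / ∏ i, nr (s i))) /
      (y * Real.log y ^ (N - 1)), ∑ s ∈ SD D N (F \ E), w s * (l * (∏ i, nr (s i))⁻¹), ?_, ?_⟩
    · have h1 : Tendsto (fun y : ℝ => ∑ s ∈ SD D N (F \ E), w s * (g' (y / ∏ i, nr (s i)) /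
          (y * Real.log y ^ (N - 1)))) atTop (𝓝 (∑ s ∈ SD D N (F \ E),
            w s * (l * (∏ i, nr (s i))⁻¹))) := by
        refine tendsto_finsetSum _ fun s _ => ?_
        exact (bue_scale _ _ l _ (lt_of_lt_of_le one_pos (atupa_prod_one s Finset.univ))
          hg3).const_mul (w s)
      refine h1.congr fun y => ?_
      rw [Finset.sum_div]
      exact Finset.sum_congr rfl fun s _ => (mul_div_assoc _ _ _).symm
    · filter_upwards [eventually_ge_atTop (Real.exp 1)] with y hy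
      have hy0 : 0 < y := lt_of_lt_of_le (Real.exp_pos 1) hy
      have hy1 : 1 ≤ y := le_trans (by rw [← Real.exp_zero]; exact Real.exp_le_exp.2 (by norm_num)) hy
      have hly : 1 ≤ Real.log y := by
        rw [Real.le_log_iff_exp_le hy0]
        exact hy
      have hden : 0 < y * Real.log y ^ (N - 1) := by positivity
      rw [← sub_div, abs_div, abs_of_pos hden, div_le_iff₀ hden]
      have hdec : WU D a E y = ∑ s ∈ SD D N (F \ E), w s * WU D a F (y / ∏ i, nr (s i)) := by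
        rw [hw]
        exact wu_dec D a E F hEF y
      rw [hdec, ← Finset.sum_sub_distrib]
      have hQ : 0 ≤ C * T ^ (-(1 / 4) : ℝ) := by positivity
      calc |∑ s ∈ SD D N (F \ E), (w s * WU D a F (y / ∏ i, nr (s i)) -
            w s * g' (y / ∏ i, nr (s i)))|
          ≤ ∑ s ∈ SD D N (F \ E), |w s * WU D a F (y / ∏ i, nr (s i)) -
            w s * g' (y / ∏ i, nr (s i))| := Finset.abs_sum_le_sum_abs _ _
        _ ≤ ∑ s ∈ SD D N (F \ E), C * T ^ (-(1 / 4) : ℝ) * y * (1 + Real.log y) ^ (N - 1) *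
              (w s * (∏ i, nr (s i))⁻¹) := by
            refine Finset.sum_le_sum fun s _ => ?_
            rw [← mul_sub, abs_mul, abs_of_nonneg (hw0 s)]
            have h5 := wl_diff D a F g _ hQ hg2 y _ hy1 (atupa_prod_one s Finset.univ)
            rw [hg']
            dsimp only
            have h6 := mul_le_mul_of_nonneg_left h5 (hw0 s)
            refine h6.trans (le_of_eq ?_)
            ring
        _ = C * T ^ (-(1 / 4) : ℝ) * y * (1 + Real.log y) ^ (N - 1) *
              ∑ s ∈ SD D N (F \ E), w s * (∏ i, nr (s i))⁻¹ := by rw [Finset.mul_sum]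
        _ ≤ C * T ^ (-(1 / 4) : ℝ) * y * (2 * Real.log y) ^ (N - 1) *
              (C' * Real.log T ^ M) := by
            apply mul_le_mul _ hsum (Finset.sum_nonneg fun s _ => mul_nonneg (hw0 s)
              (inv_nonneg.2 (le_trans zero_le_one (atupa_prod_one s Finset.univ)))) (by positivity)
            apply mul_le_mul_of_nonneg_left _ (by positivity)
            exact pow_le_pow_left₀ (by linarith) (by linarith) _
        _ = (A * T ^ (-(1 / 4) : ℝ) * Real.log T ^ M) * (y * Real.log y ^ (N - 1)) := by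
            rw [hAd, mul_pow]
            ring
        _ ≤ ε * (y * Real.log y ^ (N - 1)) := mul_le_mul_of_nonneg_right hT hden.le
  obtain ⟨u, hu⟩ := hex
  refine ⟨u, ?_, hu⟩
  refine ge_of_tendsto hu ?_
  filter_upwards [eventually_ge_atTop (1 : ℝ)] with y hy
  have : 0 ≤ Real.log y := Real.log_nonneg hy
  have h0 : 0 ≤ WU D a E y := wl_nonneg D a (fun i v => (ha i v).1) E y
  positivity

/-- one class as a family with one element -/
theorem v1_wu (D : RD0 K p ζ) (a : Pl K → ℝ) (E : Finset (Pl K)) (y : ℝ) :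
    V1 D a E y = WU D (fun _ : Fin 1 => a) E y := by
  unfold V1 WU
  rw [Finset.sum_filter]
  refine Finset.sum_bij' (fun n _ => fun _ : Fin 1 => n) (fun f _ => f 0) ?_ ?_ ?_ ?_ ?_
  · intro n hn
    rw [Fintype.mem_piFinset]
    exact fun _ => hn
  · intro f hf
    rw [Fintype.mem_piFinset] at hf
    exact hf 0
  · intro n _
    rfl
  · intro f _
    funext i
    rw [Subsingleton.elim i 0]
  · intro n hn
    have hdj : Dj (fun _ : Fin 1 => n) := fun i j hij => absurd (Subsingleton.elim i j) hij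
    have hle : nr n ≤ y := by
      unfold GF at hn
      rw [Finset.mem_filter] at hn
      exact (mem_AF.1 hn.1)
    simp only [Finset.univ_unique, Fin.default_eq_zero, Finset.prod_singleton]
    by_cases h : Disjoint n E
    · rw [if_pos h, if_pos ⟨hdj, fun _ => h, hle⟩]
    · rw [if_neg h, if_neg]
      exact fun h2 => h (h2.2.1 0)

end H38.AS
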