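import Pool.Agent.H38.AS.ADef

/-!
# [H38 AS WSQ] all families: limit and upper bound, 150-230 lines (as ti_lim in H63/MB/BUb). File Pool/Agent/H38/AS/WSeq.lean

`a i v ≥ 0`.
* `wn_up`: if `V1 D (a i) ∅ y ≤ C₁ y` for all `i` and `y ≥ 1` then there is `C` with `WN D a F y ≤ C y (1 + log y)^{N-1}` for all finite `F` and `y ≥ 1` (`N ≥ 1`).
* `wn_lim`: if moreover `V1 D (a i) F y / y` converges for every `i` then `WN D a F y / (y (log y)^{N-1})` converges.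

Proof. Induction on `N ≥ 1`, singling out the first class: `WN D a F y` for `N + 1` classes is `∑_{n ∈ GF y, n ∩ F = ∅} (∏_{v ∈ n} a 0 v) * WN D (a ∘ succ) F (y / nr n)` (`Fin.consEquiv`; `f i ∈ GF y` follows from goodness and `∏ nr ≤ y` since all `nr ≥ 1`). `nr n` is a natural number (`nr n = ((∏ nm v : ℕ) : ℝ)`); with
`α k = ∑_{n ∈ GF k, n ∩ F = ∅, nr n = k} ∏_{v ∈ n} a 0 v ≥ 0` (`k : ℕ`) this is `∑_{k ∈ Icc 1 ⌊y⌋₊} α k * WN D (a ∘ succ) F (y / k)`, and `∑_{k ∈ Icc 1 n} α k = V1 D (a 0) F n`.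
`N = 1`: `WN = V1` (for one class). `wn_lim`: `bu_conv` (`MB/BUa`) with `k = N - 1`, `f = WN D (a ∘ succ) F` (its bound is `wn_up`, `WN ≥ 0`). `wn_up`: `WN D a F y ≤ WN D a ∅ y`; `∑_k α k C (y/k) (1 + log (y/k))^{N-1} ≤ C y (1 + log y)^{N-1} ∑_k α k / k ≤ C' y (1 + log y)^N` as `∑_{k ≤ y} α k / k ≤ C₁ (1 + log y)`
by summation by parts (or: dyadic blocks; or `∑_{n ∈ GF y} (∏ a)/nr n`: `1/k = ∑_{j ≥ k} 1/(j(j+1))`, so `∑_{k ≤ M} α k / k = ∑_{j < M} A(j)/(j(j+1)) + A(M)/M`, `A(j) = ∑_{k ≤ j} α k ≤ C₁ j`). Compare `bub_*` in `MB/BUb`.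
-/

set_option autoImplicit false

open scoped NumberField
open IsDedekindDomain Filter Topology
open scoped Classical

noncomputable section

namespace H38.AS

open H63.MA H38.BB

variable {K : Type} [Field K] [NumberField K] {p : ℕ} {ζ : K} {N : ℕ}

theorem wsq_one_le {ι : Type*} (s : Finset ι) (f : ι → Finset (Pl K)) :
    1 ≤ ∏ j ∈ s, nr (f j) := by
  induction s using Finset.induction_on with
  | empty => simp
  | insert j s hj ih =>
    rw [Finset.prod_insert hj]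
    exact one_le_mul_of_one_le_of_one_le (one_le_nr _) ih

theorem wsq_memT {D : RD0 K p ζ} {F : Finset (Pl K)} {y : ℝ} {f : Fin N → Finset (Pl K)} :
    f ∈ (Fintype.piFinset fun _ : Fin N => GF D y).filter (fun f =>
      (∀ i, Disjoint (f i) F) ∧ ∏ i, nr (f i) ≤ y) ↔
    (∀ i, ∀ v ∈ f i, D.Gd v) ∧ (∀ i, Disjoint (f i) F) ∧ ∏ i, nr (f i) ≤ y := by
  rw [Finset.mem_filter, Fintype.mem_piFinset]
  constructor
  · rintro ⟨h1, h2⟩
    refine ⟨fun i => ?_, h2⟩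
    have h3 := h1 i
    rw [GF, Finset.mem_filter] at h3
    exact h3.2
  · rintro ⟨h1, h2⟩
    refine ⟨fun i => ?_, h2⟩
    rw [GF, Finset.mem_filter, mem_AF]
    refine ⟨le_trans ?_ h2.2, h1 i⟩
    rw [← Finset.mul_prod_erase Finset.univ (fun j => nr (f j)) (Finset.mem_univ i)]
    have h4 : 1 ≤ ∏ j ∈ Finset.univ.erase i, nr (f j) := wsq_one_le _ f
    exact le_mul_of_one_le_right (le_trans zero_le_one (one_le_nr _)) h4

theorem wsq_eq (D : RD0 K p ζ) (a : Fin N → Pl K → ℝ) (F : Finset (Pl K)) (y : ℝ) :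
    WN D a F y = ∑ f ∈ (Fintype.piFinset fun _ : Fin N => GF D y).filter (fun f =>
      (∀ i, Disjoint (f i) F) ∧ ∏ i, nr (f i) ≤ y), ∏ i, ∏ v ∈ f i, a i v := by
  rw [Finset.sum_filter]
  rfl

theorem wsq_memV {D : RD0 K p ζ} {F : Finset (Pl K)} {y : ℝ} {n : Finset (Pl K)} :
    n ∈ (GF D y).filter (fun n => Disjoint n F) ↔
      nr n ≤ y ∧ (∀ v ∈ n, D.Gd v) ∧ Disjoint n F := by
  rw [Finset.mem_filter, GF, Finset.mem_filter, mem_AF, and_assoc]

theorem wsq_rec (D : RD0 K p ζ) (a : Fin (N + 1) → Pl K → ℝ) (F : Finset (Pl K)) (y : ℝ) :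
    WN D a F y = ∑ n ∈ (GF D y).filter (fun n => Disjoint n F),
      (∏ v ∈ n, a 0 v) * WN D (fun i => a i.succ) F (y / nr n) := by
  have hpos : ∀ n : Finset (Pl K), 0 < nr n := fun n => lt_of_lt_of_le one_pos (one_le_nr n)
  rw [wsq_eq]
  have e : ∀ n ∈ (GF D y).filter (fun n => Disjoint n F),
      (∏ v ∈ n, a 0 v) * WN D (fun i => a i.succ) F (y / nr n) =
      ∑ g ∈ (Fintype.piFinset fun _ : Fin N => GF D (y / nr n)).filter (fun g =>
      (∀ i, Disjoint (g i) F) ∧ ∏ i, nr (g i) ≤ y / nr n),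
        (∏ v ∈ n, a 0 v) * ∏ i, ∏ v ∈ g i, a i.succ v := by
    intro n _
    rw [wsq_eq, Finset.mul_sum]
  rw [Finset.sum_congr rfl e, Finset.sum_sigma']
  refine Finset.sum_nbij'
    (fun f => (⟨f 0, Fin.tail f⟩ : Σ _ : Finset (Pl K), Fin N → Finset (Pl K)))
    (fun x => Fin.cons x.1 x.2) ?_ ?_ ?_ ?_ ?_
  · intro f hf
    obtain ⟨h1, h2, h3⟩ := wsq_memT.1 hf
    rw [Fin.prod_univ_succ] at h3
    have h4 : 1 ≤ ∏ i : Fin N, nr (f i.succ) := wsq_one_le _ _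
    rw [Finset.mem_sigma]
    refine ⟨wsq_memV.2 ⟨le_trans (le_mul_of_one_le_right (hpos _).le h4) h3, h1 0, h2 0⟩, ?_⟩
    refine wsq_memT.2 ⟨fun i => h1 i.succ, fun i => h2 i.succ, ?_⟩
    rw [le_div_iff₀ (hpos _), mul_comm]
    exact h3
  · rintro ⟨n, g⟩ hx
    rw [Finset.mem_sigma] at hx
    obtain ⟨hn, hg⟩ := hx
    obtain ⟨a1, a2, a3⟩ := wsq_memV.1 hn
    obtain ⟨b1, b2, b3⟩ := wsq_memT.1 hg
    refine wsq_memT.2 ⟨?_, ?_, ?_⟩
    · intro i
      refine Fin.cases ?_ ?_ i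
      · exact a2
      · intro j
        exact b1 j
    · intro i
      refine Fin.cases ?_ ?_ i
      · exact a3
      · intro j
        exact b2 j
    · rw [Fin.prod_univ_succ]
      simp only [Fin.cons_zero, Fin.cons_succ]
      rw [le_div_iff₀ (hpos _), mul_comm] at b3
      exact b3
  · intro f _
    exact Fin.cons_self_tail f
  · rintro ⟨n, g⟩ _
    simp
  · intro f _
    rw [Fin.prod_univ_succ]
    rfl

/-- the norm as a natural number -/
def nrN (n : Finset (Pl K)) : ℕ := ∏ v ∈ n, nm v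

theorem nrN_cast (n : Finset (Pl K)) : ((nrN n : ℕ) : ℝ) = nr n := by
  unfold nrN nr
  push_cast
  rfl

/-- the sum of the weights of the sets of norm `k` -/
def wsqa (D : RD0 K p ζ) (a : Pl K → ℝ) (F : Finset (Pl K)) (k : ℕ) : ℝ :=
  ∑ n ∈ ((GF D (k : ℝ)).filter (fun n => Disjoint n F)).filter (fun n => nrN n = k), ∏ v ∈ n, a v

theorem wsqa_nonneg (D : RD0 K p ζ) (a : Pl K → ℝ) (ha : ∀ v, 0 ≤ a v) (F : Finset (Pl K))
    (k : ℕ) : 0 ≤ wsqa D a F k :=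
  Finset.sum_nonneg fun _ _ => Finset.prod_nonneg fun v _ => ha v

theorem wsq_group (D : RD0 K p ζ) (a : Pl K → ℝ) (F : Finset (Pl K)) (y : ℝ) (hy : 0 ≤ y)
    (g : ℕ → ℝ) :
    ∑ n ∈ (GF D y).filter (fun n => Disjoint n F), (∏ v ∈ n, a v) * g (nrN n) =
      ∑ k ∈ Finset.Icc 1 ⌊y⌋₊, wsqa D a F k * g k := by
  have hmap : ∀ n ∈ (GF D y).filter (fun n => Disjoint n F), nrN n ∈ Finset.Icc 1 ⌊y⌋₊ := by
    intro n hn
    obtain ⟨h1, -, -⟩ := wsq_memV.1 hn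
    have h2 := one_le_nr n
    rw [← nrN_cast] at h1 h2
    exact Finset.mem_Icc.2 ⟨by exact_mod_cast h2, Nat.le_floor h1⟩
  rw [← Finset.sum_fiberwise_of_maps_to hmap]
  refine Finset.sum_congr rfl fun k hk => ?_
  rw [Finset.mem_Icc] at hk
  have hky : (k : ℝ) ≤ y := (Nat.le_floor_iff hy).1 hk.2
  have hset : ((GF D y).filter (fun n => Disjoint n F)).filter (fun n => nrN n = k) =
      ((GF D (k : ℝ)).filter (fun n => Disjoint n F)).filter (fun n => nrN n = k) := by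
    ext n
    constructor
    · intro hn
      obtain ⟨h0, h3⟩ := Finset.mem_filter.1 hn
      obtain ⟨h1, h2⟩ := wsq_memV.1 h0
      refine Finset.mem_filter.2 ⟨wsq_memV.2 ⟨?_, h2⟩, h3⟩
      rw [← nrN_cast, h3]
    · intro hn
      obtain ⟨h0, h3⟩ := Finset.mem_filter.1 hn
      obtain ⟨h1, h2⟩ := wsq_memV.1 h0
      exact Finset.mem_filter.2 ⟨wsq_memV.2 ⟨h1.trans hky, h2⟩, h3⟩
  rw [hset, wsqa, Finset.sum_mul]
  refine Finset.sum_congr rfl fun n hn => ?_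
  rw [(Finset.mem_filter.1 hn).2]

theorem wsq_card (D : RD0 K p ζ) (a : Pl K → ℝ) (F : Finset (Pl K)) (n : ℕ) :
    ∑ k ∈ Finset.Icc 1 n, wsqa D a F k = V1 D a F (n : ℝ) := by
  have h := wsq_group D a F (n : ℝ) (Nat.cast_nonneg n) (fun _ => 1)
  rw [Nat.floor_natCast] at h
  simp only [mul_one] at h
  exact h.symm

theorem wsq_nonneg (D : RD0 K p ζ) (a : Fin N → Pl K → ℝ) (ha : ∀ i v, 0 ≤ a i v)
    (F : Finset (Pl K)) (y : ℝ) : 0 ≤ WN D a F y := by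
  rw [wsq_eq]
  exact Finset.sum_nonneg fun f _ => Finset.prod_nonneg fun i _ =>
    Finset.prod_nonneg fun v _ => ha i v

theorem wsq_mono (D : RD0 K p ζ) (a : Fin N → Pl K → ℝ) (ha : ∀ i v, 0 ≤ a i v)
    (F : Finset (Pl K)) (y : ℝ) : WN D a F y ≤ WN D a ∅ y := by
  rw [wsq_eq, wsq_eq]
  refine Finset.sum_le_sum_of_subset_of_nonneg ?_ fun f _ _ => Finset.prod_nonneg fun i _ =>
    Finset.prod_nonneg fun v _ => ha i v
  intro f hf
  obtain ⟨h1, h2, h3⟩ := wsq_memT.1 hf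
  exact wsq_memT.2 ⟨h1, fun i => Finset.disjoint_empty_right _, h3⟩

theorem wsq_zero (D : RD0 K p ζ) (a : Fin 0 → Pl K → ℝ) (F : Finset (Pl K)) (y : ℝ)
    (hy : 1 ≤ y) : WN D a F y = 1 := by
  rw [wsq_eq]
  have h : (Fintype.piFinset fun _ : Fin 0 => GF D y).filter (fun f =>
      (∀ i, Disjoint (f i) F) ∧ ∏ i, nr (f i) ≤ y) = {Fin.elim0} := by
    rw [Finset.eq_singleton_iff_unique_mem]
    refine ⟨wsq_memT.2 ⟨fun i => i.elim0, fun i => i.elim0, by simpa using hy⟩, ?_⟩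
    intro f _
    exact Subsingleton.elim _ _
  rw [h]
  simp

theorem wsq_one (D : RD0 K p ζ) (a : Fin 1 → Pl K → ℝ) (F : Finset (Pl K)) (y : ℝ) :
    WN D a F y = V1 D (a 0) F y := by
  rw [wsq_rec, V1]
  refine Finset.sum_congr rfl fun n hn => ?_
  obtain ⟨h1, -, -⟩ := wsq_memV.1 hn
  rw [wsq_zero, mul_one]
  rw [le_div_iff₀ (lt_of_lt_of_le one_pos (one_le_nr n)), one_mul]
  exact h1

theorem wsq_abel (α : ℕ → ℝ) (C : ℝ)
    (h : ∀ n : ℕ, 1 ≤ n → ∑ k ∈ Finset.Icc 1 n, α k ≤ C * n) (M : ℕ) (hM : 1 ≤ M) :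
    ∑ k ∈ Finset.Icc 1 M, α k / (k : ℝ) - (∑ k ∈ Finset.Icc 1 M, α k) / (M : ℝ) ≤
      C * ((harmonic M : ℚ) : ℝ) - C := by
  induction M, hM using Nat.le_induction with
  | base => simp
  | succ M hM ih =>
    have hM0 : (0 : ℝ) < (M : ℝ) := by exact_mod_cast hM
    have h1 := h M hM
    rw [Finset.sum_Icc_succ_top (by omega), Finset.sum_Icc_succ_top (by omega), harmonic_succ]
    push_cast
    have h2 : (∑ k ∈ Finset.Icc 1 M, α k) * (1 / ((M : ℝ) * (M + 1))) ≤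
        C * M * (1 / ((M : ℝ) * (M + 1))) :=
      mul_le_mul_of_nonneg_right h1 (by positivity)
    have e1 : (∑ k ∈ Finset.Icc 1 M, α k) * (1 / ((M : ℝ) * (M + 1))) =
        (∑ k ∈ Finset.Icc 1 M, α k) / (M : ℝ) - (∑ k ∈ Finset.Icc 1 M, α k) / ((M : ℝ) + 1) := by
      field_simp
      ring
    have e2 : C * M * (1 / ((M : ℝ) * (M + 1))) = C * ((M : ℝ) + 1)⁻¹ := by
      field_simp
    rw [e1, e2] at h2
    rw [add_div, mul_add]
    linarith

theorem wsq_harm (D : RD0 K p ζ) (a : Pl K → ℝ) (C : ℝ) (hC : 0 ≤ C)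
    (hup : ∀ y : ℝ, 1 ≤ y → V1 D a ∅ y ≤ C * y) (y : ℝ) (hy : 1 ≤ y) :
    ∑ n ∈ (GF D y).filter (fun n => Disjoint n ∅), (∏ v ∈ n, a v) * (1 / nr n) ≤
      C * (1 + Real.log y) := by
  have hy0 : 0 ≤ y := by linarith
  have h1 := wsq_group D a ∅ y hy0 (fun k => 1 / (k : ℝ))
  simp only [nrN_cast] at h1
  have hM : 1 ≤ ⌊y⌋₊ := Nat.le_floor (by simpa using hy)
  have hb : ∀ n : ℕ, 1 ≤ n → ∑ k ∈ Finset.Icc 1 n, wsqa D a ∅ k ≤ C * n := by
    intro n hn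
    rw [wsq_card]
    exact hup n (by exact_mod_cast hn)
  have h2 := wsq_abel (wsqa D a ∅) C hb ⌊y⌋₊ hM
  have hM0 : (0 : ℝ) < (⌊y⌋₊ : ℝ) := by exact_mod_cast hM
  have h3 : (∑ k ∈ Finset.Icc 1 ⌊y⌋₊, wsqa D a ∅ k) / (⌊y⌋₊ : ℝ) ≤ C := by
    rw [div_le_iff₀ hM0]
    exact hb _ hM
  have h4 : ((harmonic ⌊y⌋₊ : ℚ) : ℝ) ≤ 1 + Real.log y := by
    refine (harmonic_le_one_add_log _).trans ?_
    have := Real.log_le_log hM0 (Nat.floor_le hy0)
    linarith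
  have h5 := mul_le_mul_of_nonneg_left h4 hC
  rw [h1]
  have h6 : ∑ k ∈ Finset.Icc 1 ⌊y⌋₊, wsqa D a ∅ k * (1 / (k : ℝ)) =
      ∑ k ∈ Finset.Icc 1 ⌊y⌋₊, wsqa D a ∅ k / (k : ℝ) :=
    Finset.sum_congr rfl fun k _ => by rw [mul_one_div]
  rw [h6]
  linarith

theorem wsq_up0 (D : RD0 K p ζ) (C : ℝ) (hC : 0 < C) (k : ℕ) :
    ∀ (a : Fin (k + 1) → Pl K → ℝ), (∀ i v, 0 ≤ a i v) →
      (∀ i, ∀ y : ℝ, 1 ≤ y → V1 D (a i) ∅ y ≤ C * y) → ∀ y : ℝ, 1 ≤ y →
      WN D a ∅ y ≤ C ^ (k + 1) * y * (1 + Real.log y) ^ k := by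
  induction k with
  | zero =>
    intro a _ hup y hy
    rw [wsq_one, zero_add, pow_one, pow_zero, mul_one]
    exact hup 0 y hy
  | succ k ih =>
    intro a ha hup y hy
    have hy0 : 0 < y := by linarith
    have hl : 0 ≤ Real.log y := Real.log_nonneg hy
    have hih := ih (fun i => a i.succ) (fun i v => ha i.succ v) (fun i => hup i.succ)
    rw [wsq_rec]
    calc ∑ n ∈ (GF D y).filter (fun n => Disjoint n ∅),
          (∏ v ∈ n, a 0 v) * WN D (fun i => a i.succ) ∅ (y / nr n)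
        ≤ ∑ n ∈ (GF D y).filter (fun n => Disjoint n ∅),
          (C ^ (k + 1) * y * (1 + Real.log y) ^ k) * ((∏ v ∈ n, a 0 v) * (1 / nr n)) := by
          refine Finset.sum_le_sum fun n hn => ?_
          obtain ⟨h1, -, -⟩ := wsq_memV.1 hn
          have h0 := one_le_nr n
          have h00 : 0 < nr n := by linarith
          have h2 : 1 ≤ y / nr n := by
            rw [le_div_iff₀ h00]
            linarith
          have h3 := hih (y / nr n) h2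
          have h4 : Real.log (y / nr n) ≤ Real.log y :=
            Real.log_le_log (by linarith) (div_le_self hy0.le h0)
          have h5 : 0 ≤ Real.log (y / nr n) := Real.log_nonneg h2
          have h6 : (1 + Real.log (y / nr n)) ^ k ≤ (1 + Real.log y) ^ k :=
            pow_le_pow_left₀ (by linarith) (by linarith) k
          have h7 : 0 ≤ ∏ v ∈ n, a 0 v := Finset.prod_nonneg fun v _ => ha 0 v
          calc (∏ v ∈ n, a 0 v) * WN D (fun i => a i.succ) ∅ (y / nr n)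
              ≤ (∏ v ∈ n, a 0 v) * (C ^ (k + 1) * (y / nr n) * (1 + Real.log (y / nr n)) ^ k) :=
                mul_le_mul_of_nonneg_left h3 h7
            _ ≤ (∏ v ∈ n, a 0 v) * (C ^ (k + 1) * (y / nr n) * (1 + Real.log y) ^ k) := by
                apply mul_le_mul_of_nonneg_left _ h7
                exact mul_le_mul_of_nonneg_left h6 (by positivity)
            _ = _ := by ring
      _ = (C ^ (k + 1) * y * (1 + Real.log y) ^ k) *
          ∑ n ∈ (GF D y).filter (fun n => Disjoint n ∅), (∏ v ∈ n, a 0 v) * (1 / nr n) := by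
          rw [Finset.mul_sum]
      _ ≤ (C ^ (k + 1) * y * (1 + Real.log y) ^ k) * (C * (1 + Real.log y)) := by
          apply mul_le_mul_of_nonneg_left (wsq_harm D (a 0) C hC.le (hup 0) y hy)
          positivity
      _ = C ^ (k + 1 + 1) * y * (1 + Real.log y) ^ (k + 1) := by ring

theorem wn_up (D : RD0 K p ζ) (hN : 1 ≤ N) (a : Fin N → Pl K → ℝ) (ha : ∀ i v, 0 ≤ a i v) (C₁ : ℝ)
    (hup : ∀ i, ∀ y : ℝ, 1 ≤ y → V1 D (a i) ∅ y ≤ C₁ * y) :
    ∃ C : ℝ, 0 < C ∧ ∀ (F : Finset (Pl K)) (y : ℝ), 1 ≤ y →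
      WN D a F y ≤ C * y * (1 + Real.log y) ^ (N - 1) := by
  obtain ⟨k, rfl⟩ : ∃ k, N = k + 1 := ⟨N - 1, by omega⟩
  have hC : 0 < max C₁ 1 := lt_of_lt_of_le one_pos (le_max_right _ _)
  refine ⟨max C₁ 1 ^ (k + 1), by positivity, fun F y hy => ?_⟩
  refine (wsq_mono D a ha F y).trans ?_
  have h := wsq_up0 D (max C₁ 1) hC k a ha (fun i y hy => (hup i y hy).trans
    (mul_le_mul_of_nonneg_right (le_max_left _ _) (by linarith))) y hy
  rwa [Nat.add_sub_cancel]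

theorem wn_lim (D : RD0 K p ζ) (hN : 1 ≤ N) (a : Fin N → Pl K → ℝ) (ha : ∀ i v, 0 ≤ a i v) (C₁ : ℝ)
    (hup : ∀ i, ∀ y : ℝ, 1 ≤ y → V1 D (a i) ∅ y ≤ C₁ * y) (F : Finset (Pl K))
    (hlim : ∀ i, ∃ l : ℝ, Tendsto (fun y : ℝ => V1 D (a i) F y / y) atTop (𝓝 l)) :
    ∃ l : ℝ, Tendsto (fun y : ℝ => WN D a F y / (y * Real.log y ^ (N - 1))) atTop (𝓝 l) := by
  obtain ⟨k, rfl⟩ : ∃ k, N = k + 1 := ⟨N - 1, by omega⟩
  rw [Nat.add_sub_cancel]
  clear hN
  induction k with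
  | zero =>
    obtain ⟨l, hl⟩ := hlim 0
    refine ⟨l, hl.congr fun y => ?_⟩
    rw [wsq_one, pow_zero, mul_one]
  | succ k ih =>
    obtain ⟨β, hβ⟩ := ih (fun i => a i.succ) (fun i v => ha i.succ v) (fun i => hup i.succ)
      (fun i => hlim i.succ)
    obtain ⟨α, hα⟩ := hlim 0
    obtain ⟨C, hC, hup'⟩ := wn_up D (by omega : 1 ≤ k + 1) (fun i => a i.succ)
      (fun i v => ha i.succ v) C₁ (fun i => hup i.succ)
    have hαn : Tendsto (fun n : ℕ => (∑ j ∈ Finset.Icc 1 n, wsqa D (a 0) F j) / (n : ℝ)) atTop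
        (𝓝 α) := by
      have := hα.comp tendsto_natCast_atTop_atTop
      refine this.congr fun n => ?_
      simp only [Function.comp]
      rw [wsq_card]
    have h := bu_conv (wsqa D (a 0) F) (wsqa_nonneg D (a 0) (ha 0) F) α hαn k
      (fun y => WN D (fun i => a i.succ) F y) β C hβ (fun y hy => by
        rw [abs_of_nonneg (wsq_nonneg D _ (fun i v => ha i.succ v) F y)]
        have := hup' F y hy
        simpa using this)
    refine ⟨α * β / (k + 1), h.congr' ?_⟩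
    filter_upwards [eventually_ge_atTop (0 : ℝ)] with y hy
    rw [wsq_rec D a F y, ← wsq_group D (a 0) F y hy
      (fun n => WN D (fun i => a i.succ) F (y / (n : ℝ)))]
    simp only [nrN_cast]

end H38.AS
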